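import Mathlib

/-!
Absolute continuity of a finite measure on the line from uniform integrability of its Poisson
transforms.
-/

namespace H10PL

open MeasureTheory ProbabilityTheory Matrix Set Filter

/-- the Poisson kernel without the factor `1 / π` -/
noncomputable def acx_k (η t E : ℝ) : ℝ := η / ((t - E) ^ 2 + η ^ 2)

theorem acx_k_nonneg {η : ℝ} (hη : 0 < η) (t E : ℝ) : 0 ≤ acx_k η t E := by
  unfold acx_k; positivity

theorem acx_k_cont {η : ℝ} (hη : 0 < η) : Continuous (fun q : ℝ × ℝ => acx_k η q.1 q.2) := by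
  unfold acx_k
  refine Continuous.div (by fun_prop) (by fun_prop) ?_
  intro q; positivity

theorem acx_im {η : ℝ} (hη : 0 < η) (t E : ℝ) :
    (1 / ((t : ℂ) - ((E : ℂ) + (η : ℂ) * Complex.I))).im = acx_k η t E := by
  have h1 : ((t : ℂ) - ((E : ℂ) + (η : ℂ) * Complex.I)) = ⟨t - E, -η⟩ := by
    apply Complex.ext <;> simp
  rw [h1, one_div, Complex.inv_im, Complex.normSq_mk]
  unfold acx_k
  simp only [neg_neg]
  congr 1
  ring

theorem acx_norm_le {η : ℝ} (hη : 0 < η) (t E : ℝ) :
    ‖1 / ((t : ℂ) - ((E : ℂ) + (η : ℂ) * Complex.I))‖ ≤ 1 / η := by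
  rw [norm_div, norm_one]
  refine one_div_le_one_div_of_le hη ?_
  have h1 := Complex.abs_im_le_norm ((t : ℂ) - ((E : ℂ) + (η : ℂ) * Complex.I))
  have h2 : ((t : ℂ) - ((E : ℂ) + (η : ℂ) * Complex.I)).im = -η := by simp
  rw [h2, abs_neg, abs_of_pos hη] at h1
  exact h1

theorem acx_integrable {η : ℝ} (hη : 0 < η) (E : ℝ) (μ : Measure ℝ) [IsFiniteMeasure μ] :
    Integrable (fun t : ℝ => 1 / ((t : ℂ) - ((E : ℂ) + (η : ℂ) * Complex.I))) μ := by
  refine Integrable.of_bound (C := 1 / η) ?_ (Eventually.of_forall fun t => acx_norm_le hη t E)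
  refine Continuous.aestronglyMeasurable ?_
  refine Continuous.div continuous_const (by fun_prop) ?_
  intro t h
  have h2 : ((t : ℂ) - ((E : ℂ) + (η : ℂ) * Complex.I)).im = -η := by simp
  rw [h] at h2
  simp at h2
  linarith

/-- the transform as a lower integral -/
noncomputable def acx_G (μ : Measure ℝ) (η E : ℝ) : ENNReal :=
  ∫⁻ t, ENNReal.ofReal (acx_k η t E) ∂μ

theorem acx_F (μ : Measure ℝ) [IsFiniteMeasure μ] {η : ℝ} (hη : 0 < η) (E : ℝ) :
    (∫ t : ℝ, 1 / ((t : ℂ) - ((E : ℂ) + (η : ℂ) * Complex.I)) ∂μ).im = ∫ t, acx_k η t E ∂μ := by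
  have h := integral_im (𝕜 := ℂ) (acx_integrable hη E μ)
  simp only [RCLike.im_to_complex] at h
  rw [← h]
  refine integral_congr_ae (Eventually.of_forall fun t => ?_)
  exact acx_im hη t E

theorem acx_k_int (μ : Measure ℝ) [IsFiniteMeasure μ] {η : ℝ} (hη : 0 < η) (E : ℝ) :
    Integrable (fun t => acx_k η t E) μ := by
  have h := (acx_integrable hη E μ).im
  refine h.congr (Eventually.of_forall fun t => ?_)
  simp only [RCLike.im_to_complex]
  exact acx_im hη t E

theorem acx_G_eq (μ : Measure ℝ) [IsFiniteMeasure μ] {η : ℝ} (hη : 0 < η) (E : ℝ) :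
    ENNReal.ofReal (∫ t, acx_k η t E ∂μ) = acx_G μ η E :=
  ofReal_integral_eq_lintegral_ofReal (acx_k_int μ hη E)
    (Eventually.of_forall fun t => acx_k_nonneg hη t E)

theorem acx_arctan {η e : ℝ} (hη : 0 < η) (he : 0 < e) (t : ℝ) :
    ∫⁻ E in Ioc (t - e) (t + e), ENNReal.ofReal (acx_k η t E) =
      ENNReal.ofReal (2 * Real.arctan (e / η)) := by
  have hcont : Continuous (fun E => acx_k η t E) :=
    (acx_k_cont hη).comp (Continuous.prodMk_right t)
  have hd : ∀ E ∈ uIcc (t - e) (t + e),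
      HasDerivAt (fun E : ℝ => Real.arctan ((E - t) / η)) (acx_k η t E) E := by
    intro E _
    have h1 : HasDerivAt (fun E : ℝ => (E - t) / η) (1 / η) E :=
      ((hasDerivAt_id E).sub_const t).div_const η
    have h2 := h1.arctan
    refine h2.congr_deriv ?_
    unfold acx_k
    have : (t - E) ^ 2 + η ^ 2 ≠ 0 := by positivity
    have : 1 + ((E - t) / η) ^ 2 ≠ 0 := by positivity
    field_simp
    ring
  have hint := intervalIntegral.integral_eq_sub_of_hasDerivAt hd
    (hcont.intervalIntegrable _ _)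
  rw [intervalIntegral.integral_of_le (by linarith)] at hint
  have hle : ∫⁻ E in Ioc (t - e) (t + e), ENNReal.ofReal (acx_k η t E) =
      ENNReal.ofReal (∫ E in Ioc (t - e) (t + e), acx_k η t E) := by
    refine (ofReal_integral_eq_lintegral_ofReal ?_
      (Eventually.of_forall fun E => acx_k_nonneg hη t E)).symm
    exact (hcont.integrableOn_Icc (a := t - e) (b := t + e)).mono_set Ioc_subset_Icc_self
  rw [hle, hint]
  congr 1
  have e1 : (t + e - t) / η = e / η := by congr 1; ring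
  have e2 : (t - e - t) / η = -(e / η) := by rw [← neg_div]; congr 1; ring
  rw [e1, e2, Real.arctan_neg]
  ring

/-- the sequence of the widths -/
noncomputable def acx_h (n : ℕ) : ℝ := 1 / ((n : ℝ) + 1)

theorem acx_h_pos (n : ℕ) : 0 < acx_h n := by unfold acx_h; positivity

theorem acx_lim {U : Set ℝ} (hU : IsOpen U) {t : ℝ} (ht : t ∈ U) :
    ENNReal.ofReal Real.pi ≤
      liminf (fun n : ℕ => ∫⁻ E in U, ENNReal.ofReal (acx_k (acx_h n) t E)) atTop := by
  obtain ⟨e, he, hball⟩ := Metric.isOpen_iff.1 hU t ht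
  have hsub : Ioc (t - e / 2) (t + e / 2) ⊆ U := by
    intro E hE
    apply hball
    rw [Metric.mem_ball, Real.dist_eq, abs_lt]
    constructor <;> linarith [hE.1, hE.2]
  have h1 : ∀ n : ℕ, ENNReal.ofReal (2 * Real.arctan (e / 2 / acx_h n)) ≤
      ∫⁻ E in U, ENNReal.ofReal (acx_k (acx_h n) t E) := by
    intro n
    rw [← acx_arctan (acx_h_pos n) (by linarith : 0 < e / 2) t]
    exact lintegral_mono_set hsub
  have h2 : Tendsto (fun n : ℕ => ENNReal.ofReal (2 * Real.arctan (e / 2 / acx_h n))) atTop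
      (nhds (ENNReal.ofReal Real.pi)) := by
    refine (ENNReal.continuous_ofReal.tendsto _).comp ?_
    have h3 : Tendsto (fun n : ℕ => e / 2 / acx_h n) atTop atTop := by
      have h4 : ∀ n : ℕ, e / 2 / acx_h n = e / 2 * ((n : ℝ) + 1) := by
        intro n; unfold acx_h; field_simp
      simp only [h4]
      refine Tendsto.const_mul_atTop (by linarith) ?_
      exact tendsto_atTop_add_const_right _ _ tendsto_natCast_atTop_atTop
    have h5 := (Real.tendsto_arctan_atTop.mono_right nhdsWithin_le_nhds).comp h3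
    have h6 := h5.const_mul 2
    have h7 : 2 * (Real.pi / 2) = Real.pi := by ring
    rw [h7] at h6
    exact h6
  rw [← h2.liminf_eq]
  exact liminf_le_liminf (Eventually.of_forall h1)

theorem acx_meas {η : ℝ} (hη : 0 < η) :
    Measurable (fun q : ℝ × ℝ => ENNReal.ofReal (acx_k η q.1 q.2)) :=
  ENNReal.measurable_ofReal.comp (acx_k_cont hη).measurable

theorem acx_G_meas (μ : Measure ℝ) [IsFiniteMeasure μ] {η : ℝ} (hη : 0 < η) :
    Measurable (acx_G μ η) := by
  unfold acx_G
  exact (acx_meas hη).lintegral_prod_left'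

theorem acx_open (μ : Measure ℝ) [IsFiniteMeasure μ] {U : Set ℝ} (hU : IsOpen U) :
    ENNReal.ofReal Real.pi * μ U ≤
      liminf (fun n : ℕ => ∫⁻ E in U, acx_G μ (acx_h n) E) atTop := by
  have h1 : ∀ n : ℕ, ∫⁻ E in U, acx_G μ (acx_h n) E =
      ∫⁻ t, (∫⁻ E in U, ENNReal.ofReal (acx_k (acx_h n) t E)) ∂μ := by
    intro n
    unfold acx_G
    refine lintegral_lintegral_swap ?_
    exact ((acx_meas (acx_h_pos n)).comp measurable_swap).aemeasurable
  simp only [h1]
  have h2 : ∫⁻ t, liminf (fun n : ℕ => ∫⁻ E in U, ENNReal.ofReal (acx_k (acx_h n) t E)) atTop ∂μ ≤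
      liminf (fun n : ℕ => ∫⁻ t, (∫⁻ E in U, ENNReal.ofReal (acx_k (acx_h n) t E)) ∂μ) atTop := by
    refine lintegral_liminf_le ?_
    intro n
    exact (acx_meas (acx_h_pos n)).lintegral_prod_right'
  refine le_trans ?_ h2
  rw [← setLIntegral_const]
  refine le_trans ?_ (setLIntegral_le_lintegral U _)
  refine setLIntegral_mono' hU.measurableSet ?_
  intro t ht
  exact acx_lim hU ht

theorem ac_of_ui (μ : Measure ℝ) [IsFiniteMeasure μ] (F : ℝ → ℝ → ℝ)
    (hF : ∀ (E η : ℝ), 0 < η →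
      F η E = (∫ t : ℝ, 1 / ((t : ℂ) - ((E : ℂ) + (η : ℂ) * Complex.I)) ∂μ).im)
    (hui : ∀ (K : ℕ) (i : ℕ), ∃ M : ℝ, liminf (fun n : ℕ =>
      ∫⁻ E in Icc (-(K : ℝ)) K ∩ {E | M < F (1 / (n + 1)) E},
        ENNReal.ofReal (F (1 / (n + 1)) E)) atTop ≤ ENNReal.ofReal (1 / (i + 1))) :
    μ ≪ volume := by
  have hFG : ∀ (n : ℕ) (E : ℝ), ENNReal.ofReal (F (1 / (n + 1)) E) = acx_G μ (acx_h n) E := by
    intro n E
    have h0 : F (1 / (n + 1)) E = ∫ t, acx_k (acx_h n) t E ∂μ := by
      rw [← acx_F μ (acx_h_pos n)]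
      exact hF E _ (acx_h_pos n)
    rw [h0, acx_G_eq μ (acx_h_pos n)]
  have hFm : ∀ n : ℕ, Measurable (fun E => F (1 / (n + 1)) E) := by
    intro n
    have h1 : ∀ E, F (1 / (n + 1)) E = (acx_G μ (acx_h n) E).toReal := by
      intro E
      rw [← hFG, ENNReal.toReal_ofReal]
      have h0 : F (1 / (n + 1)) E = ∫ t, acx_k (acx_h n) t E ∂μ := by
        rw [← acx_F μ (acx_h_pos n)]
        exact hF E _ (acx_h_pos n)
      rw [h0]
      exact integral_nonneg fun t => acx_k_nonneg (acx_h_pos n) t E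
    simp only [h1]
    exact (acx_G_meas μ (acx_h_pos n)).ennreal_toReal
  refine Measure.AbsolutelyContinuous.mk ?_
  intro N hN hN0
  have hcover : N = ⋃ K : ℕ, N ∩ Ioo (-(K : ℝ)) K := by
    rw [← inter_iUnion]
    have : (⋃ K : ℕ, Ioo (-(K : ℝ)) K) = univ := by
      rw [eq_univ_iff_forall]
      intro x
      obtain ⟨K, hK⟩ := exists_nat_gt |x|
      rw [mem_iUnion]
      exact ⟨K, abs_lt.1 hK⟩
    rw [this, inter_univ]
  rw [hcover, measure_iUnion_null_iff]
  intro K
  -- main bound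
  have main : ∀ i : ℕ, ENNReal.ofReal Real.pi * μ (N ∩ Ioo (-(K : ℝ)) K) ≤
      ENNReal.ofReal (2 / (i + 1)) := by
    intro i
    obtain ⟨M, hM⟩ := hui K i
    set M' : ℝ := max M 0 with hM'
    have hM'0 : 0 ≤ M' := le_max_right _ _
    set ε : ℝ := 1 / ((M' + 1) * (i + 1)) with hε
    have hεpos : 0 < ε := by rw [hε]; positivity
    have hnull : volume (N ∩ Ioo (-(K : ℝ)) K) = 0 := measure_mono_null inter_subset_left hN0
    obtain ⟨U0, hU0, hU0o, hU0v⟩ := Set.exists_isOpen_le_add (N ∩ Ioo (-(K : ℝ)) K) volume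
      (ε := ENNReal.ofReal ε) (by simpa using hεpos)
    rw [hnull, zero_add] at hU0v
    set U : Set ℝ := U0 ∩ Ioo (-(K : ℝ)) K with hU
    have hUo : IsOpen U := hU0o.inter isOpen_Ioo
    have hUv : volume U ≤ ENNReal.ofReal ε := (measure_mono inter_subset_left).trans hU0v
    have hNU : N ∩ Ioo (-(K : ℝ)) K ⊆ U := fun x hx => ⟨hU0 hx, hx.2⟩
    have hUI : U ⊆ Icc (-(K : ℝ)) K := fun x hx => Ioo_subset_Icc_self hx.2
    have h1 := acx_open μ hUo
    have h2 : ∀ n : ℕ, ∫⁻ E in U, acx_G μ (acx_h n) E ≤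
        ENNReal.ofReal (1 / (i + 1)) + ∫⁻ E in Icc (-(K : ℝ)) K ∩ {E | M < F (1 / (n + 1)) E},
          ENNReal.ofReal (F (1 / (n + 1)) E) := by
      intro n
      have hms : MeasurableSet {E | M < F (1 / (n + 1)) E} :=
        measurableSet_lt measurable_const (hFm n)
      have h3 : ∫⁻ E in U, acx_G μ (acx_h n) E =
          ∫⁻ E in U, ENNReal.ofReal (F (1 / (n + 1)) E) := by
        simp only [hFG]
      rw [h3, ← lintegral_inter_add_diff _ U hms, add_comm]
      refine add_le_add ?_ (lintegral_mono_set (inter_subset_inter_left _ hUI))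
      calc ∫⁻ E in U \ {E | M < F (1 / (n + 1)) E}, ENNReal.ofReal (F (1 / (n + 1)) E)
          ≤ ∫⁻ _E in U \ {E | M < F (1 / (n + 1)) E}, ENNReal.ofReal M' := by
            refine setLIntegral_mono' (hUo.measurableSet.diff hms) ?_
            intro E hE
            refine ENNReal.ofReal_le_ofReal ?_
            have := hE.2
            simp only [mem_setOf_eq, not_lt] at this
            exact this.trans (le_max_left _ _)
        _ = ENNReal.ofReal M' * volume (U \ {E | M < F (1 / (n + 1)) E}) := by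
            rw [setLIntegral_const]
        _ ≤ ENNReal.ofReal M' * ENNReal.ofReal ε := by
            gcongr
            exact (measure_mono diff_subset).trans hUv
        _ = ENNReal.ofReal (M' * ε) := by rw [ENNReal.ofReal_mul hM'0]
        _ ≤ ENNReal.ofReal (1 / (i + 1)) := by
            refine ENNReal.ofReal_le_ofReal ?_
            rw [hε]
            have h4 : M' * (1 / ((M' + 1) * (i + 1))) = (M' / (M' + 1)) * (1 / (i + 1)) := by
              field_simp
            rw [h4]
            have h5 : M' / (M' + 1) ≤ 1 := by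
              rw [div_le_one (by linarith)]; linarith
            have h6 : (0 : ℝ) ≤ 1 / (i + 1) := by positivity
            nlinarith
    have h7 : liminf (fun n : ℕ => ∫⁻ E in U, acx_G μ (acx_h n) E) atTop ≤
        ENNReal.ofReal (1 / (i + 1)) + ENNReal.ofReal (1 / (i + 1)) := by
      refine (liminf_le_liminf (Eventually.of_forall h2)).trans ?_
      rw [liminf_const_add]
      · gcongr
      · isBoundedDefault
      · isBoundedDefault
    calc ENNReal.ofReal Real.pi * μ (N ∩ Ioo (-(K : ℝ)) K)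
        ≤ ENNReal.ofReal Real.pi * μ U := by gcongr
      _ ≤ _ := h1
      _ ≤ _ := h7
      _ = ENNReal.ofReal (2 / (i + 1)) := by
          rw [← ENNReal.ofReal_add (by positivity) (by positivity)]
          congr 1
          ring
  have hlim : Tendsto (fun i : ℕ => ENNReal.ofReal (2 / (i + 1))) atTop (nhds 0) := by
    have h1 : Tendsto (fun i : ℕ => (2 : ℝ) / (i + 1)) atTop (nhds 0) := by
      refine Tendsto.div_atTop tendsto_const_nhds ?_
      exact tendsto_atTop_add_const_right _ _ tendsto_natCast_atTop_atTop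
    have h2 := (ENNReal.continuous_ofReal.tendsto 0).comp h1
    rw [ENNReal.ofReal_zero] at h2
    exact h2
  have h0 : ENNReal.ofReal Real.pi * μ (N ∩ Ioo (-(K : ℝ)) K) ≤ 0 := ge_of_tendsto' hlim main
  have h1 : ENNReal.ofReal Real.pi * μ (N ∩ Ioo (-(K : ℝ)) K) = 0 := le_antisymm h0 zero_le
  rcases mul_eq_zero.1 h1 with h2 | h2
  · exfalso
    rw [ENNReal.ofReal_eq_zero] at h2
    linarith [Real.pi_pos]
  · exact h2

end H10PL
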