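import Pool.Agent.H10R2.AC.Defs4

/-!
Task 4-EN (helper231): the energy identity for a block and its consequences.
-/

set_option linter.unusedSectionVars false

namespace H10PL

open MeasureTheory ProbabilityTheory Matrix Set Filter

section finite

variable {ι : Type*} [Fintype ι] [DecidableEq ι]

theorem cutS_symm (A : Matrix ι ι ℝ) (hA : A.IsSymm) (U : Finset ι) : (cutS A U).IsSymm := by
  ext i j
  unfold cutS
  rw [Matrix.transpose_apply]
  by_cases h : i ∈ U ∨ j ∈ U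
  · rw [if_pos h, if_pos h.symm]
  · rw [if_neg h, if_neg (fun h' => h h'.symm), hA.apply]

theorem cutS_diag (A : Matrix ι ι ℝ) (hd : ∀ i, A i i = 0) (U : Finset ι) (i : ι) :
    cutS A U i i = 0 := by
  unfold cutS
  rw [hd i, ite_self]

/-- the quadratic form as a single sum -/
theorem en_qf (A : Matrix ι ι ℝ) (V : ι → ℝ) (E η : ℝ) (f : ι → ℝ) :
    qf (Pm A V E η) f = ∑ i, f i * (∑ j, Gm A V E η i j * (f j : ℂ)).im :=
  res_sum_quad A V E η f

/-- symmetry of the real part -/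
theorem en_re_symm (A : Matrix ι ι ℝ) (hA : A.IsSymm) (V : ι → ℝ) (E η : ℝ) (f g : ι → ℝ) :
    ∑ i, (∑ j, Gm A V E η i j * (f j : ℂ)).re * g i =
      ∑ i, (∑ j, Gm A V E η i j * (g j : ℂ)).re * f i := by
  simp only [Complex.re_sum, Complex.re_mul_ofReal, Finset.sum_mul]
  rw [Finset.sum_comm]
  apply Finset.sum_congr rfl
  intro i _
  apply Finset.sum_congr rfl
  intro j _
  rw [Gm_symm A hA V E η j i]
  ring

/-- the quadratic identity for a complex right hand side -/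
theorem en_complex (A : Matrix ι ι ℝ) (hA : A.IsSymm) (V : ι → ℝ) (E : ℝ) {η : ℝ} (hη : 0 < η)
    (f g : ι → ℝ) (w : ι → ℂ)
    (hw : ∀ k, (Mz A V E η *ᵥ w) k = -((f k : ℂ) + (g k : ℂ) * Complex.I)) :
    η * ∑ k, ‖w k‖ ^ 2 = qf (Pm A V E η) f + qf (Pm A V E η) g := by
  have h1 := Mz_im A hA V E η w
  have hw' : ∀ k, w k = -((∑ j, Gm A V E η k j * (f j : ℂ)) +
      (∑ j, Gm A V E η k j * (g j : ℂ)) * Complex.I) := by
    intro k
    have h2 : Gm A V E η *ᵥ (Mz A V E η *ᵥ w) = w := by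
      rw [Matrix.mulVec_mulVec, Gm_mul_Mz A hA V E hη, Matrix.one_mulVec]
    rw [← congrFun h2 k]
    simp only [Matrix.mulVec, dotProduct]
    simp only [Matrix.mulVec, dotProduct] at hw
    simp only [hw]
    rw [Finset.sum_mul, ← Finset.sum_add_distrib, ← Finset.sum_neg_distrib]
    apply Finset.sum_congr rfl
    intro j _
    ring
  have h3 : ∀ k, ((starRingEnd ℂ) (w k) * (Mz A V E η *ᵥ w) k).im =
      -(f k * (∑ j, Gm A V E η k j * (f j : ℂ)).im) - (g k * (∑ j, Gm A V E η k j * (g j : ℂ)).im)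
      + ((∑ j, Gm A V E η k j * (f j : ℂ)).re * g k - (∑ j, Gm A V E η k j * (g j : ℂ)).re * f k) := by
    intro k
    rw [hw k, hw' k]
    generalize (∑ j, Gm A V E η k j * (f j : ℂ)) = a
    generalize (∑ j, Gm A V E η k j * (g j : ℂ)) = b
    simp only [map_neg, map_add, map_mul, Complex.conj_I, Complex.mul_im, Complex.neg_re,
      Complex.neg_im, Complex.add_re, Complex.add_im, Complex.mul_re, Complex.conj_re,
      Complex.conj_im, Complex.I_re, Complex.I_im, Complex.ofReal_re, Complex.ofReal_im]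
    ring
  rw [Complex.im_sum] at h1
  simp only [h3] at h1
  rw [Finset.sum_add_distrib, Finset.sum_sub_distrib, Finset.sum_sub_distrib,
    Finset.sum_neg_distrib, en_re_symm A hA V E η f g, sub_self, add_zero, ← en_qf, ← en_qf] at h1
  linarith

/-- norm of a complex number -/
theorem en_norm_sq (z : ℂ) : ‖z‖ ^ 2 = z.re ^ 2 + z.im ^ 2 := by
  rw [← Complex.normSq_eq_norm_sq, Complex.normSq_apply]
  ring

theorem energy (A : Matrix ι ι ℝ) (hA : A.IsSymm) (V : ι → ℝ) (E : ℝ) {η : ℝ} (hη : 0 < η)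
    (Q : Finset ι) (φ : ι → ℝ) (hφ : ∀ i, i ∉ Q → φ i = 0) :
    qf (Pm A V E η) φ = YQ A V E η Q (fun i => (∑ j, Gm A V E η i j * (φ j : ℂ)).re) +
      YQ A V E η Q (fun i => (∑ j, Gm A V E η i j * (φ j : ℂ)).im) := by
  set u : ι → ℂ := fun i => ∑ j, Gm A V E η i j * (φ j : ℂ) with hu
  set w : ι → ℂ := fun k => if k ∈ Q then 0 else u k with hw
  have hMu : ∀ k, (∑ j, (A k j : ℂ) * u j) + ((V k : ℂ) - ((E : ℂ) + (η : ℂ) * Complex.I)) * u k =
      (φ k : ℂ) := by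
    intro k
    rw [← Mz_mulVec]
    exact congrFun (Mz_mulVec_Gm A hA V E hη (fun j => (φ j : ℂ))) k
  have h1 : η * ∑ k, ‖w k‖ ^ 2 = qf (Pm (cutS A Q) V E η) (fld A Q (fun i => (u i).re)) +
      qf (Pm (cutS A Q) V E η) (fld A Q (fun i => (u i).im)) := by
    apply en_complex (cutS A Q) (cutS_symm A hA Q) V E hη
    intro k
    rw [Mz_mulVec]
    by_cases hk : k ∈ Q
    · have e1 : w k = 0 := by simp only [hw, if_pos hk]
      have e2 : ∀ j, cutS A Q k j = 0 := fun j => by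
        unfold cutS
        rw [if_pos (Or.inl hk)]
      simp only [e1, e2, fld, if_pos hk]
      simp
    · have e1 : w k = u k := by simp only [hw, if_neg hk]
      have e2 : ∑ j, (cutS A Q k j : ℂ) * w j + ∑ j ∈ Q, (A k j : ℂ) * u j =
          ∑ j, (A k j : ℂ) * u j := by
        rw [← Finset.sum_filter_add_sum_filter_not Finset.univ (fun j => j ∈ Q)
          (fun j => (A k j : ℂ) * u j), add_comm]
        congr 1
        · apply Finset.sum_congr _ (fun _ _ => rfl)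
          ext j; simp
        · rw [Finset.sum_filter]
          apply Finset.sum_congr rfl
          intro j _
          by_cases hj : j ∈ Q
          · simp [hw, hj]
          · simp [hw, hj, cutS, hk]
      have e3 : ((fld A Q (fun i => (u i).re) k : ℂ) + (fld A Q (fun i => (u i).im) k : ℂ) *
          Complex.I) = ∑ j ∈ Q, (A k j : ℂ) * u j := by
        unfold fld
        rw [if_neg hk, if_neg hk]
        push_cast
        rw [Finset.sum_mul, ← Finset.sum_add_distrib]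
        apply Finset.sum_congr rfl
        intro j _
        rw [mul_assoc, ← mul_add, Complex.re_add_im]
      have e4 := hMu k
      rw [hφ k hk, ← e2] at e4
      rw [e1, e3]
      push_cast at e4
      linear_combination e4
  have h2 : qf (Pm A V E η) φ = η * ∑ i, ‖u i‖ ^ 2 := (Gm_quad' A hA V E hη φ).symm
  have h3 : ∑ i, ‖u i‖ ^ 2 = ∑ i ∈ Q, ‖u i‖ ^ 2 + ∑ k, ‖w k‖ ^ 2 := by
    rw [← Finset.sum_filter_add_sum_filter_not Finset.univ (fun j => j ∈ Q) (fun j => ‖u j‖ ^ 2)]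
    congr 1
    · apply Finset.sum_congr _ (fun _ _ => rfl)
      ext j; simp
    · rw [Finset.sum_filter]
      apply Finset.sum_congr rfl
      intro j _
      by_cases hj : j ∈ Q
      · simp [hw, hj]
      · simp [hw, hj]
  have h4 : ∑ i ∈ Q, ‖u i‖ ^ 2 = ∑ i ∈ Q, (u i).re ^ 2 + ∑ i ∈ Q, (u i).im ^ 2 := by
    rw [← Finset.sum_add_distrib]
    exact Finset.sum_congr rfl (fun i _ => en_norm_sq _)
  unfold YQ
  rw [h2, h3, h4, mul_add, mul_add, h1]
  ring

theorem YQ_ge (A : Matrix ι ι ℝ) (hA : A.IsSymm) (V : ι → ℝ) (E : ℝ) {η : ℝ} (hη : 0 < η)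
    (Q : Finset ι) (φ : ι → ℝ) : η * ∑ i ∈ Q, φ i ^ 2 ≤ YQ A V E η Q φ := by
  have h := Pm_quad_nonneg (cutS A Q) (cutS_symm A hA Q) V E hη (fld A Q φ)
  unfold YQ qf
  linarith

/-- the lower bound for the energy -/
theorem en_lower (A : Matrix ι ι ℝ) (hA : A.IsSymm) (V : ι → ℝ) (E : ℝ) {η γ : ℝ}
    (hη : 0 < η) (Q : Finset ι) (hD : Diss A V E η Q γ) (φ : ι → ℝ)
    (hφ : ∀ i, i ∉ Q → φ i = 0) :
    γ * ∑ i ∈ Q, ‖∑ j, Gm A V E η i j * (φ j : ℂ)‖ ^ 2 ≤ qf (Pm A V E η) φ := by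
  rw [energy A hA V E hη Q φ hφ]
  have h1 := hD (fun i => (∑ j, Gm A V E η i j * (φ j : ℂ)).re)
  have h2 := hD (fun i => (∑ j, Gm A V E η i j * (φ j : ℂ)).im)
  have h4 : ∑ i ∈ Q, ‖∑ j, Gm A V E η i j * (φ j : ℂ)‖ ^ 2 =
      ∑ i ∈ Q, (∑ j, Gm A V E η i j * (φ j : ℂ)).re ^ 2 +
        ∑ i ∈ Q, (∑ j, Gm A V E η i j * (φ j : ℂ)).im ^ 2 := by
    rw [← Finset.sum_add_distrib]
    exact Finset.sum_congr rfl (fun i _ => en_norm_sq _)
  rw [h4, mul_add]
  exact add_le_add h1 h2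

theorem qf_le_of_diss (A : Matrix ι ι ℝ) (hA : A.IsSymm) (V : ι → ℝ) (E : ℝ) {η γ : ℝ}
    (hη : 0 < η) (hγ : 0 < γ) (Q : Finset ι) (hD : Diss A V E η Q γ) (φ : ι → ℝ)
    (hφ : ∀ i, i ∉ Q → φ i = 0) : qf (Pm A V E η) φ ≤ (∑ i, φ i ^ 2) / γ := by
  have h1 := en_lower A hA V E hη Q hD φ hφ
  set X := qf (Pm A V E η) φ with hX
  set U := ∑ i ∈ Q, ‖∑ j, Gm A V E η i j * (φ j : ℂ)‖ ^ 2 with hU
  have hS : 0 ≤ ∑ i, φ i ^ 2 := Finset.sum_nonneg (fun i _ => sq_nonneg _)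
  have hU0 : 0 ≤ U := Finset.sum_nonneg (fun i _ => by positivity)
  have hX0 : 0 ≤ X := (mul_nonneg hγ.le hU0).trans h1
  have h2 : X ^ 2 ≤ (∑ i, φ i ^ 2) * U := by
    have e1 : X = ∑ i ∈ Q, φ i * (∑ j, Gm A V E η i j * (φ j : ℂ)).im := by
      rw [hX, en_qf]
      symm
      apply Finset.sum_subset (Finset.subset_univ Q)
      intro i _ hi
      rw [hφ i hi, zero_mul]
    rw [e1]
    refine (Finset.sum_mul_sq_le_sq_mul_sq Q _ _).trans ?_
    refine mul_le_mul ?_ ?_ (Finset.sum_nonneg (fun i _ => sq_nonneg _)) hS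
    · exact Finset.sum_le_sum_of_subset_of_nonneg (Finset.subset_univ Q)
        (fun i _ _ => sq_nonneg _)
    · exact Finset.sum_le_sum (fun i _ => im_sq_le _)
  rw [le_div_iff₀ hγ]
  rcases hX0.eq_or_lt with h0 | hpos
  · rw [← h0, zero_mul]; exact hS
  · have h3 : γ * X ^ 2 ≤ (∑ i, φ i ^ 2) * X := by
      calc γ * X ^ 2 ≤ γ * ((∑ i, φ i ^ 2) * U) := mul_le_mul_of_nonneg_left h2 hγ.le
        _ = (∑ i, φ i ^ 2) * (γ * U) := by ring
        _ ≤ _ := mul_le_mul_of_nonneg_left h1 hS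
    have h4 : (X * γ) * X ≤ (∑ i, φ i ^ 2) * X := by nlinarith
    exact le_of_mul_le_mul_right h4 hpos

theorem en_single {x : ι} {Q : Finset ι} (hx : x ∈ Q) :
    ∀ i, i ∉ Q → (Pi.single x (1 : ℝ) : ι → ℝ) i = 0 := by
  intro i hi
  rw [Pi.single_eq_of_ne]
  rintro rfl
  exact hi hx

theorem col_le_of_diss (A : Matrix ι ι ℝ) (hA : A.IsSymm) (V : ι → ℝ) (E : ℝ) {η γ : ℝ}
    (hη : 0 < η) (Q : Finset ι) (hD : Diss A V E η Q γ) (x : ι) (hx : x ∈ Q) :
    γ * ∑ y ∈ Q, ‖Gm A V E η y x‖ ^ 2 ≤ Pm A V E η x x := by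
  have h := en_lower A hA V E hη Q hD (Pi.single x (1 : ℝ)) (en_single hx)
  simp only [Gm_vec_single] at h
  unfold qf at h
  rwa [quad_single] at h

theorem diag_le_of_diss (A : Matrix ι ι ℝ) (hA : A.IsSymm) (V : ι → ℝ) (E : ℝ) {η γ : ℝ}
    (hη : 0 < η) (hγ : 0 < γ) (Q : Finset ι) (hD : Diss A V E η Q γ) (x : ι) (hx : x ∈ Q) :
    Pm A V E η x x ≤ 1 / γ := by
  have h := qf_le_of_diss A hA V E hη hγ Q hD (Pi.single x (1 : ℝ)) (en_single hx)
  unfold qf at h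
  rw [quad_single] at h
  have h2 : ∑ i, (Pi.single x (1 : ℝ) : ι → ℝ) i ^ 2 = 1 := by
    rw [Finset.sum_eq_single x]
    · simp
    · intro j _ hj
      rw [Pi.single_eq_of_ne hj]; simp
    · intro h; exact absurd (Finset.mem_univ _) h
  rwa [h2] at h

end finite

end H10PL
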