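import Pool.Agent.H10R2.AC.Defs4
import Pool.Agent.H10R2.PL.Tail
import Pool.Agent.H10R2.PL.AsmB
import Pool.Agent.H10R2.PL.Lat2

/-!
Task 4-FM: first moments by integrating over the energy.
-/

namespace H10PL

open MeasureTheory ProbabilityTheory Matrix Set Filter

section lattice

variable {d : ℕ} {T0 : (Fin d → ℤ) → (Fin d → ℤ) → ℝ} {κ : (Fin d → ℤ) → ℝ} {ρ0 b : ℝ}

theorem fm_int (μ : Measure ℝ) [IsProbabilityMeasure μ] (Λ : Finset (Fin d → ℤ)) (K : ℝ)
    (F : (ℝ × (Λ → ℝ)) × (Sym2 (Fin d → ℤ) → Bool) → ENNReal) (hF : Measurable F) (B : ENNReal)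
    (h : ∀ V s, ∫⁻ E in Icc (-K) K, F ((E, V), s) ≤ B) : ∫⁻ p, F p ∂(M0 d μ Λ K) ≤ B := by
  unfold M0
  rw [lintegral_prod_symm _ hF.aemeasurable]
  have h1 : ∀ s : Sym2 (Fin d → ℤ) → Bool, ∫⁻ x : ℝ × (Λ → ℝ), F (x, s)
      ∂((volume.restrict (Icc (-K) K)).prod (Measure.pi fun _ : Λ => μ)) ≤ B := by
    intro s
    have hm : Measurable fun x : ℝ × (Λ → ℝ) => F (x, s) :=
      hF.comp (measurable_id.prodMk measurable_const)
    rw [lintegral_prod_symm _ hm.aemeasurable]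
    have h2 : ∫⁻ _V, B ∂(Measure.pi fun _ : Λ => μ) = B := by
      rw [lintegral_const, measure_univ, mul_one]
    rw [← h2]
    exact lintegral_mono fun V => h V s
  have h3 : ∫⁻ _s, B ∂(Ps d) = B := by
    rw [lintegral_const, measure_univ, mul_one]
  rw [← h3]
  exact lintegral_mono fun s => h1 s

theorem fm_cutS_symm {ι : Type*} [DecidableEq ι] (A : Matrix ι ι ℝ) (hA : A.IsSymm)
    (U : Finset ι) : (cutS A U).IsSymm := by
  ext i j
  show cutS A U j i = cutS A U i j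
  unfold cutS
  by_cases h : i ∈ U ∨ j ∈ U
  · rw [if_pos h, if_pos h.symm]
  · rw [if_neg h, if_neg (fun h' => h h'.symm)]
    exact hA.apply i j

theorem fm_cutPm (_h : Adm T0 κ ρ0 b) (ρ η : ℝ) (Λ : Finset (Fin d → ℤ)) (Q : Finset Λ)
    (i j : Λ) : Measurable fun p : (ℝ × (Λ → ℝ)) × (Sym2 (Fin d → ℤ) → Bool) =>
      Pm (cutS (Am T0 κ ρ Λ p.2) Q) p.1.2 p.1.1 η i j := by
  refine measurable_Pm (fun p : (ℝ × (Λ → ℝ)) × (Sym2 (Fin d → ℤ) → Bool) =>
    cutS (Am T0 κ ρ Λ p.2) Q) ?_ (fun p => p.1.2) ?_ (fun p => p.1.1) ?_ η i j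
  · intro i j
    unfold cutS
    split_ifs
    · exact measurable_const
    · exact Am_entry_meas ρ Λ i j
  · intro i
    exact (measurable_pi_apply i).comp (measurable_snd.comp measurable_fst)
  · exact measurable_fst.comp measurable_fst

theorem fm_single {ι : Type*} [Fintype ι] [DecidableEq ι] (P : Matrix ι ι ℝ) (k : ι) :
    ∑ i, ∑ j, (Pi.single k (1:ℝ) : ι → ℝ) i * P i j * (Pi.single k (1:ℝ) : ι → ℝ) j = P k k := by
  rw [Finset.sum_eq_single k]
  · rw [Finset.sum_eq_single k]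
    · simp
    · intro j _ hj
      rw [Pi.single_eq_of_ne hj, mul_zero]
    · intro h; exact absurd (Finset.mem_univ _) h
  · intro i _ hi
    rw [Pi.single_eq_of_ne hi]
    simp
  · intro h; exact absurd (Finset.mem_univ _) h

theorem fm_single_sq {ι : Type*} [Fintype ι] [DecidableEq ι] (k : ι) :
    ∑ i, (Pi.single k (1:ℝ) : ι → ℝ) i ^ 2 = 1 := by
  rw [Finset.sum_eq_single k]
  · simp
  · intro i _ hi
    rw [Pi.single_eq_of_ne hi]
    simp
  · intro h; exact absurd (Finset.mem_univ _) h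

theorem near_mass (h : Adm T0 κ ρ0 b) (μ : Measure ℝ) [IsProbabilityMeasure μ] (ρ : ℝ)
    (Λ : Finset (Fin d → ℤ)) (Q B : Finset Λ) {K η : ℝ} (hη : 0 < η) :
    ∫⁻ p, ENNReal.ofReal (∑ k ∈ B, Pm (cutS (Am T0 κ ρ Λ p.2) Q) p.1.2 p.1.1 η k k)
      ∂(M0 d μ Λ K) ≤ ENNReal.ofReal (Real.pi * B.card) := by
  apply fm_int
  · exact (Finset.measurable_sum B fun k _ => fm_cutPm h ρ η Λ Q k k).ennreal_ofReal
  · intro V s
    have hA := fm_cutS_symm _ (Am_symm h ρ Λ s) Q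
    have h1 : ∀ E : ℝ, ENNReal.ofReal (∑ k ∈ B, Pm (cutS (Am T0 κ ρ Λ s) Q) V E η k k) =
        ∑ k ∈ B, ENNReal.ofReal (Pm (cutS (Am T0 κ ρ Λ s) Q) V E η k k) := by
      intro E
      exact ENNReal.ofReal_sum_of_nonneg fun k _ => (Pm_diag_pos _ hA V E hη k).le
    have hms : Measurable fun E : ℝ => (((E, V), s) :
        (ℝ × (Λ → ℝ)) × (Sym2 (Fin d → ℤ) → Bool)) :=
      (measurable_id.prodMk measurable_const).prodMk measurable_const
    have hm : ∀ k : Λ, Measurable fun E : ℝ =>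
        ENNReal.ofReal (Pm (cutS (Am T0 κ ρ Λ s) Q) V E η k k) := by
      intro k
      have h2 := ((fm_cutPm h ρ η Λ Q k k).comp hms).ennreal_ofReal
      exact h2
    calc ∫⁻ E in Icc (-K) K, ENNReal.ofReal
          (∑ k ∈ B, Pm (cutS (Am T0 κ ρ Λ s) Q) V E η k k)
        ≤ ∫⁻ E : ℝ, ENNReal.ofReal (∑ k ∈ B, Pm (cutS (Am T0 κ ρ Λ s) Q) V E η k k) :=
          lintegral_mono' Measure.restrict_le_self le_rfl
      _ = ∑ k ∈ B, ∫⁻ E : ℝ, ENNReal.ofReal (Pm (cutS (Am T0 κ ρ Λ s) Q) V E η k k) := by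
          simp only [h1]
          rw [lintegral_finsetSum _ fun k _ => hm k]
      _ = ∑ _k ∈ B, ENNReal.ofReal Real.pi := by
          refine Finset.sum_congr rfl fun k _ => ?_
          have h2 := spectral_lint (cutS (Am T0 κ ρ Λ s) Q) hA V hη (Pi.single k 1)
          rw [fm_single_sq, mul_one] at h2
          simp only [fm_single] at h2
          exact h2
      _ = ENNReal.ofReal (Real.pi * B.card) := by
          rw [Finset.sum_const, nsmul_eq_mul, mul_comm Real.pi, ENNReal.ofReal_mul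
            (Nat.cast_nonneg _), ENNReal.ofReal_natCast]

theorem fm_aC_nonneg (b : ℝ) (κ : (Fin d → ℤ) → ℝ) : 0 ≤ aC b κ := by
  unfold aC
  have : 0 ≤ ∑' z, κ z ^ 2 := tsum_nonneg fun z => sq_nonneg _
  positivity

theorem fm_fld (h : Adm T0 κ ρ0 b) (ρ : ℝ) (Λ : Finset (Fin d → ℤ)) (Q : Finset Λ)
    (s : Sym2 (Fin d → ℤ) → Bool) {i : Λ} (hi : i ∈ Q) (k : Λ) :
    fld (Am T0 κ ρ Λ s) Q (Pi.single i 1) k = if k ∈ Q then 0 else Am T0 κ ρ Λ s k i := by
  unfold fld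
  congr 1
  rw [Finset.sum_eq_single i]
  · simp
  · intro j _ hj
    rw [Pi.single_eq_of_ne hj, mul_zero]
  · intro hc; exact absurd hi hc

theorem fm_fld_sq (h : Adm T0 κ ρ0 b) (ρ : ℝ) (Λ : Finset (Fin d → ℤ)) (Q : Finset Λ)
    (s : Sym2 (Fin d → ℤ) → Bool) {i : Λ} (hi : i ∈ Q) :
    ∑ k, fld (Am T0 κ ρ Λ s) Q (Pi.single i 1) k ^ 2 ≤ aC b κ := by
  refine le_trans ?_ (Am_row h ρ Λ s i)
  refine Finset.sum_le_sum fun k _ => ?_
  rw [fm_fld h ρ Λ Q s hi]
  split_ifs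
  · have := sq_nonneg (Am T0 κ ρ Λ s i k)
    simpa using this
  · rw [(Am_symm h ρ Λ s).apply i k]

theorem trY_mass (h : Adm T0 κ ρ0 b) (μ : Measure ℝ) [IsProbabilityMeasure μ] (ρ : ℝ)
    (Λ : Finset (Fin d → ℤ)) (Q : Finset Λ) {K η : ℝ} (hK : 0 < K) (hη : 0 < η) :
    ∫⁻ p, ENNReal.ofReal (trY (Am T0 κ ρ Λ p.2) p.1.2 p.1.1 η Q) ∂(M0 d μ Λ K) ≤
      ENNReal.ofReal (Q.card * (2 * K * η + Real.pi * aC b κ)) := by
  have hqf : ∀ i ∈ Q, ∀ p : (ℝ × (Λ → ℝ)) × (Sym2 (Fin d → ℤ) → Bool),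
      YQ (Am T0 κ ρ Λ p.2) p.1.2 p.1.1 η Q (Pi.single i 1) = η +
        ∑ k, ∑ l, (if k ∈ Q then 0 else Am T0 κ ρ Λ p.2 k i) *
          Pm (cutS (Am T0 κ ρ Λ p.2) Q) p.1.2 p.1.1 η k l *
          (if l ∈ Q then 0 else Am T0 κ ρ Λ p.2 l i) := by
    intro i hi p
    unfold YQ qf
    have h1 : ∑ j ∈ Q, (Pi.single i (1:ℝ) : Λ → ℝ) j ^ 2 = 1 := by
      rw [Finset.sum_eq_single i]
      · simp
      · intro j _ hj
        rw [Pi.single_eq_of_ne hj]
        simp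
      · intro hc; exact absurd hi hc
    rw [h1, mul_one]
    simp only [fm_fld h ρ Λ Q p.2 hi]
  have hnn : ∀ i ∈ Q, ∀ p : (ℝ × (Λ → ℝ)) × (Sym2 (Fin d → ℤ) → Bool),
      0 ≤ YQ (Am T0 κ ρ Λ p.2) p.1.2 p.1.1 η Q (Pi.single i 1) := by
    intro i hi p
    rw [hqf i hi p]
    have := Pm_quad_nonneg (cutS (Am T0 κ ρ Λ p.2) Q) (fm_cutS_symm _ (Am_symm h ρ Λ p.2) Q)
      p.1.2 p.1.1 hη (fun k => if k ∈ Q then 0 else Am T0 κ ρ Λ p.2 k i)
    linarith
  have hmeas : ∀ i ∈ Q, Measurable fun p : (ℝ × (Λ → ℝ)) × (Sym2 (Fin d → ℤ) → Bool) =>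
      YQ (Am T0 κ ρ Λ p.2) p.1.2 p.1.1 η Q (Pi.single i 1) := by
    intro i hi
    simp only [hqf i hi]
    refine measurable_const.add ?_
    refine Finset.measurable_sum _ fun k _ => Finset.measurable_sum _ fun l _ => ?_
    refine Measurable.mul (Measurable.mul ?_ (fm_cutPm h ρ η Λ Q k l)) ?_
    · split_ifs
      · exact measurable_const
      · exact Am_entry_meas ρ Λ k i
    · split_ifs
      · exact measurable_const
      · exact Am_entry_meas ρ Λ l i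
  apply fm_int
  · unfold trY
    exact (Finset.measurable_sum Q hmeas).ennreal_ofReal
  · intro V s
    have hA := fm_cutS_symm _ (Am_symm h ρ Λ s) Q
    have hms : Measurable fun E : ℝ => (((E, V), s) :
        (ℝ × (Λ → ℝ)) × (Sym2 (Fin d → ℤ) → Bool)) :=
      (measurable_id.prodMk measurable_const).prodMk measurable_const
    have h1 : ∀ E : ℝ, ENNReal.ofReal (trY (Am T0 κ ρ Λ s) V E η Q) =
        ∑ i ∈ Q, ENNReal.ofReal (YQ (Am T0 κ ρ Λ s) V E η Q (Pi.single i 1)) := by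
      intro E
      exact ENNReal.ofReal_sum_of_nonneg fun i hi => hnn i hi ((E, V), s)
    show ∫⁻ E in Icc (-K) K, ENNReal.ofReal (trY (Am T0 κ ρ Λ s) V E η Q) ≤ _
    simp only [h1]
    have hm' : ∀ i ∈ Q, Measurable fun E : ℝ =>
        ENNReal.ofReal (YQ (Am T0 κ ρ Λ s) V E η Q (Pi.single i 1)) := by
      intro i hi
      have h2 := ((hmeas i hi).comp hms).ennreal_ofReal
      exact h2
    rw [lintegral_finsetSum' Q fun i hi => (hm' i hi).aemeasurable]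
    have h2 : ∀ i ∈ Q, ∫⁻ E in Icc (-K) K,
        ENNReal.ofReal (YQ (Am T0 κ ρ Λ s) V E η Q (Pi.single i 1)) ≤
        ENNReal.ofReal (2 * K * η + Real.pi * aC b κ) := by
      intro i hi
      set φ : Λ → ℝ := fld (Am T0 κ ρ Λ s) Q (Pi.single i 1) with hφ
      have e1 : ∀ E : ℝ, ENNReal.ofReal (YQ (Am T0 κ ρ Λ s) V E η Q (Pi.single i 1)) =
          ENNReal.ofReal η + ENNReal.ofReal (∑ k, ∑ l, φ k *
            Pm (cutS (Am T0 κ ρ Λ s) Q) V E η k l * φ l) := by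
        intro E
        rw [← ENNReal.ofReal_add hη.le (Pm_quad_nonneg _ hA V E hη φ)]
        congr 1
        unfold YQ qf
        have h3 : ∑ j ∈ Q, (Pi.single i (1:ℝ) : Λ → ℝ) j ^ 2 = 1 := by
          rw [Finset.sum_eq_single i]
          · simp
          · intro j _ hj
            rw [Pi.single_eq_of_ne hj]
            simp
          · intro hc; exact absurd hi hc
        rw [h3, mul_one]
      simp only [e1]
      rw [lintegral_add_left measurable_const, lintegral_const, Measure.restrict_apply_univ,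
        Real.volume_Icc]
      have e2 : ∫⁻ E in Icc (-K) K, ENNReal.ofReal (∑ k, ∑ l, φ k *
            Pm (cutS (Am T0 κ ρ Λ s) Q) V E η k l * φ l) ≤
          ENNReal.ofReal (Real.pi * aC b κ) := by
        refine (lintegral_mono' Measure.restrict_le_self le_rfl).trans ?_
        rw [spectral_lint _ hA V hη φ]
        exact ENNReal.ofReal_le_ofReal
          (mul_le_mul_of_nonneg_left (fm_fld_sq h ρ Λ Q s hi) Real.pi_pos.le)
      have e3 : ENNReal.ofReal η * ENNReal.ofReal (K - -K) = ENNReal.ofReal (2 * K * η) := by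
        rw [← ENNReal.ofReal_mul hη.le]
        congr 1
        ring
      rw [e3, ENNReal.ofReal_add (by positivity)
        (mul_nonneg Real.pi_pos.le (fm_aC_nonneg b κ))]
      gcongr
    refine (Finset.sum_le_sum h2).trans ?_
    rw [Finset.sum_const, nsmul_eq_mul, ENNReal.ofReal_mul (Nat.cast_nonneg _),
      ENNReal.ofReal_natCast]

end lattice

end H10PL
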