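import Pool.Agent.H10R2.AC.Defs4
import Pool.Agent.H10R2.PL.Lat2

/-!
Theorem 4, task 4-MEAS: measurability of the dissipation forms.
-/

namespace H10PL

open MeasureTheory ProbabilityTheory Matrix Set Filter

section meas_aux

variable {ι : Type*} [Fintype ι] [DecidableEq ι]

theorem meas_dense : DenseRange (Pi.map fun _ : ι => ((↑) : ℚ → ℝ)) :=
  DenseRange.piMap fun _ => Rat.denseRange_cast

theorem meas_qf_cont (P : Matrix ι ι ℝ) : Continuous fun φ : ι → ℝ => qf P φ := by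
  unfold qf
  fun_prop

theorem meas_fld_cont (A : Matrix ι ι ℝ) (Q : Finset ι) :
    Continuous fun φ : ι → ℝ => fld A Q φ := by
  refine continuous_pi fun k => ?_
  unfold fld
  split_ifs
  · exact continuous_const
  · fun_prop

theorem meas_YQ_cont (A : Matrix ι ι ℝ) (V : ι → ℝ) (E η : ℝ) (Q : Finset ι) :
    Continuous fun φ : ι → ℝ => YQ A V E η Q φ := by
  unfold YQ
  have h1 : Continuous fun φ : ι → ℝ => qf (Pm (cutS A Q) V E η) (fld A Q φ) :=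
    (meas_qf_cont _).comp (meas_fld_cont A Q)
  have h2 : Continuous fun φ : ι → ℝ => η * ∑ i ∈ Q, φ i ^ 2 := by fun_prop
  exact h2.add h1

/-- truncation to `S` -/
def meas_tr (S : Finset ι) (φ : ι → ℝ) : ι → ℝ := fun i => if i ∈ S then φ i else 0

theorem meas_tr_cont (S : Finset ι) : Continuous fun φ : ι → ℝ => meas_tr S φ := by
  refine continuous_pi fun k => ?_
  unfold meas_tr
  split_ifs
  · exact continuous_apply k
  · exact continuous_const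

theorem meas_tr_eq (S : Finset ι) (φ : ι → ℝ) (h : ∀ k, k ∉ S → φ k = 0) : meas_tr S φ = φ := by
  funext k
  unfold meas_tr
  split_ifs with hk
  · rfl
  · exact (h k hk).symm

theorem meas_tr_zero (S : Finset ι) (φ : ι → ℝ) (k : ι) (hk : k ∉ S) : meas_tr S φ k = 0 :=
  if_neg hk

end meas_aux

variable {d : ℕ} {T0 : (Fin d → ℤ) → (Fin d → ℤ) → ℝ} {κ : (Fin d → ℤ) → ℝ} {ρ0 b : ℝ}

theorem cutSPm_meas (h : Adm T0 κ ρ0 b) (ρ η : ℝ) (Λ : Finset (Fin d → ℤ)) (Q : Finset Λ)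
    (i j : Λ) : Measurable fun p : (ℝ × (Λ → ℝ)) × (Sym2 (Fin d → ℤ) → Bool) =>
      Pm (cutS (Am T0 κ ρ Λ p.2) Q) p.1.2 p.1.1 η i j := by
  have _h := h
  refine measurable_Pm (fun p : (ℝ × (Λ → ℝ)) × (Sym2 (Fin d → ℤ) → Bool) =>
    cutS (Am T0 κ ρ Λ p.2) Q)
    ?_ (fun p => p.1.2) ?_ (fun p => p.1.1) ?_ η i j
  · intro i j
    unfold cutS
    split_ifs
    · exact measurable_const
    · exact Am_entry_meas ρ Λ i j
  · intro i
    exact (measurable_pi_apply i).comp (measurable_snd.comp measurable_fst)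
  · exact measurable_fst.comp measurable_fst

theorem meas_fld (ρ : ℝ) (Λ : Finset (Fin d → ℤ)) (Q : Finset Λ) (φ : Λ → ℝ) (k : Λ) :
    Measurable fun p : (ℝ × (Λ → ℝ)) × (Sym2 (Fin d → ℤ) → Bool) =>
      fld (Am T0 κ ρ Λ p.2) Q φ k := by
  unfold fld
  split_ifs
  · exact measurable_const
  · exact Finset.measurable_sum _ fun i _ => (Am_entry_meas ρ Λ k i).mul_const _

theorem YQ_meas (h : Adm T0 κ ρ0 b) (ρ η : ℝ) (Λ : Finset (Fin d → ℤ)) (Q : Finset Λ)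
    (φ : Λ → ℝ) : Measurable fun p : (ℝ × (Λ → ℝ)) × (Sym2 (Fin d → ℤ) → Bool) =>
      YQ (Am T0 κ ρ Λ p.2) p.1.2 p.1.1 η Q φ := by
  unfold YQ qf
  refine measurable_const.add ?_
  refine Finset.measurable_sum _ fun i _ => Finset.measurable_sum _ fun j _ => ?_
  exact ((meas_fld ρ Λ Q φ i).mul (cutSPm_meas h ρ η Λ Q i j)).mul (meas_fld ρ Λ Q φ j)

theorem trY_meas (h : Adm T0 κ ρ0 b) (ρ η : ℝ) (Λ : Finset (Fin d → ℤ)) (Q : Finset Λ) :
    Measurable fun p : (ℝ × (Λ → ℝ)) × (Sym2 (Fin d → ℤ) → Bool) =>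
      trY (Am T0 κ ρ Λ p.2) p.1.2 p.1.1 η Q := by
  unfold trY
  exact Finset.measurable_sum _ fun i _ => YQ_meas h ρ η Λ Q _

theorem diss_meas (h : Adm T0 κ ρ0 b) (ρ η γ : ℝ) (Λ : Finset (Fin d → ℤ)) (Q : Finset Λ) :
    MeasurableSet {p : (ℝ × (Λ → ℝ)) × (Sym2 (Fin d → ℤ) → Bool) |
      Diss (Am T0 κ ρ Λ p.2) p.1.2 p.1.1 η Q γ} := by
  have h1 : {p : (ℝ × (Λ → ℝ)) × (Sym2 (Fin d → ℤ) → Bool) |
      Diss (Am T0 κ ρ Λ p.2) p.1.2 p.1.1 η Q γ} =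
      ⋂ r : Λ → ℚ, {p : (ℝ × (Λ → ℝ)) × (Sym2 (Fin d → ℤ) → Bool) |
        γ * ∑ i ∈ Q, (Pi.map (fun _ : Λ => ((↑) : ℚ → ℝ)) r) i ^ 2 ≤
          YQ (Am T0 κ ρ Λ p.2) p.1.2 p.1.1 η Q (Pi.map (fun _ : Λ => ((↑) : ℚ → ℝ)) r)} := by
    ext p
    rw [mem_iInter]
    constructor
    · intro hp r
      exact hp _
    · intro hp φ
      refine isClosed_property (p := fun φ : Λ → ℝ => γ * ∑ i ∈ Q, φ i ^ 2 ≤
        YQ (Am T0 κ ρ Λ p.2) p.1.2 p.1.1 η Q φ) (meas_dense (ι := Λ)) ?_ (fun r => hp r) φ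
      refine isClosed_le ?_ (meas_YQ_cont _ _ _ _ _)
      fun_prop
  rw [h1]
  exact MeasurableSet.iInter fun r => measurableSet_le measurable_const (YQ_meas h ρ η Λ Q _)

theorem norm_meas (h : Adm T0 κ ρ0 b) (ρ η γ' : ℝ) (Λ : Finset (Fin d → ℤ)) (Q S : Finset Λ) :
    MeasurableSet {p : (ℝ × (Λ → ℝ)) × (Sym2 (Fin d → ℤ) → Bool) |
      ∀ φ : Λ → ℝ, (∀ k, k ∉ S → φ k = 0) →
        qf (Pm (cutS (Am T0 κ ρ Λ p.2) Q) p.1.2 p.1.1 η) φ ≤ (∑ i, φ i ^ 2) / γ'} := by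
  have h1 : {p : (ℝ × (Λ → ℝ)) × (Sym2 (Fin d → ℤ) → Bool) |
      ∀ φ : Λ → ℝ, (∀ k, k ∉ S → φ k = 0) →
        qf (Pm (cutS (Am T0 κ ρ Λ p.2) Q) p.1.2 p.1.1 η) φ ≤ (∑ i, φ i ^ 2) / γ'} =
      ⋂ r : Λ → ℚ, {p : (ℝ × (Λ → ℝ)) × (Sym2 (Fin d → ℤ) → Bool) |
        qf (Pm (cutS (Am T0 κ ρ Λ p.2) Q) p.1.2 p.1.1 η)
          (meas_tr S (Pi.map (fun _ : Λ => ((↑) : ℚ → ℝ)) r)) ≤
          (∑ i, (meas_tr S (Pi.map (fun _ : Λ => ((↑) : ℚ → ℝ)) r)) i ^ 2) / γ'} := by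
    ext p
    rw [mem_iInter]
    constructor
    · intro hp r
      exact hp _ fun k hk => meas_tr_zero S _ k hk
    · intro hp φ hφ
      have h2 := isClosed_property (p := fun φ : Λ → ℝ =>
        qf (Pm (cutS (Am T0 κ ρ Λ p.2) Q) p.1.2 p.1.1 η) (meas_tr S φ) ≤
          (∑ i, (meas_tr S φ) i ^ 2) / γ') (meas_dense (ι := Λ)) (by
          have hc := meas_tr_cont S
          refine isClosed_le ((meas_qf_cont _).comp hc) ?_
          refine Continuous.div_const ?_ _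
          refine continuous_finsetSum _ fun i _ => ?_
          exact ((continuous_apply i).comp hc).pow 2) (fun r => hp r) φ
      rw [meas_tr_eq S φ hφ] at h2
      exact h2
  rw [h1]
  refine MeasurableSet.iInter fun r => measurableSet_le ?_ measurable_const
  unfold qf
  refine Finset.measurable_sum _ fun i _ => Finset.measurable_sum _ fun j _ => ?_
  exact ((cutSPm_meas h ρ η Λ Q i j).const_mul _).mul_const _

end H10PL
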