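import Pool.Agent.H10R2.AC.Defs4

/-!
Task 4-NET: passing from a real test vector to an integer one.
-/

namespace H10PL

open MeasureTheory ProbabilityTheory Matrix Set

section finite

variable {ι : Type*} [Fintype ι]

/-- bilinear form -/
def net_bf (M : Matrix ι ι ℝ) (x y : ι → ℝ) : ℝ := ∑ i, ∑ j, x i * M i j * y j

theorem net_qf_add (M : Matrix ι ι ℝ) (x y : ι → ℝ) :
    qf M (fun i => x i + y i) = qf M x + (net_bf M x y + net_bf M y x) + qf M y := by
  unfold qf net_bf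
  simp only [← Finset.sum_add_distrib]
  refine Finset.sum_congr rfl fun i _ => Finset.sum_congr rfl fun j _ => ?_
  ring

theorem net_qf_smul (M : Matrix ι ι ℝ) (c : ℝ) (x : ι → ℝ) :
    qf M (fun i => c * x i) = c ^ 2 * qf M x := by
  unfold qf
  rw [Finset.mul_sum]
  refine Finset.sum_congr rfl fun i _ => ?_
  rw [Finset.mul_sum]
  refine Finset.sum_congr rfl fun j _ => ?_
  ring

theorem net_bf_smul_right (M : Matrix ι ι ℝ) (c : ℝ) (x y : ι → ℝ) :
    net_bf M x (fun i => c * y i) = c * net_bf M x y := by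
  unfold net_bf
  rw [Finset.mul_sum]
  refine Finset.sum_congr rfl fun i _ => ?_
  rw [Finset.mul_sum]
  refine Finset.sum_congr rfl fun j _ => ?_
  ring

theorem net_bf_smul_left (M : Matrix ι ι ℝ) (c : ℝ) (x y : ι → ℝ) :
    net_bf M (fun i => c * x i) y = c * net_bf M x y := by
  unfold net_bf
  rw [Finset.mul_sum]
  refine Finset.sum_congr rfl fun i _ => ?_
  rw [Finset.mul_sum]
  refine Finset.sum_congr rfl fun j _ => ?_
  ring

/-- weighted parallelogram inequality -/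
theorem net_par (M : Matrix ι ι ℝ) (hM0 : ∀ φ : ι → ℝ, 0 ≤ qf M φ) (x y : ι → ℝ) :
    qf M (fun i => x i + y i) ≤ 3 / 2 * qf M x + 3 * qf M y := by
  have h1 := hM0 (fun i => x i + (-2) * y i)
  rw [net_qf_add M x (fun i => (-2) * y i), net_qf_smul, net_bf_smul_right,
    net_bf_smul_left] at h1
  rw [net_qf_add]
  linarith

theorem net_qf_two [DecidableEq ι] (M : Matrix ι ι ℝ) (i j : ι) (a b : ℝ) :
    qf M (fun k => (Pi.single i a : ι → ℝ) k + (Pi.single j b : ι → ℝ) k) =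
      a ^ 2 * M i i + a * b * (M i j + M j i) + b ^ 2 * M j j := by
  have h : ∀ (i j : ι) (a b : ℝ), net_bf M (Pi.single i a) (Pi.single j b) = a * b * M i j := by
    intro i j a b
    unfold net_bf
    rw [Finset.sum_eq_single i, Finset.sum_eq_single j]
    · simp only [Pi.single_eq_same]; ring
    · intro k _ hk; simp [Pi.single_eq_of_ne hk]
    · intro h; exact absurd (Finset.mem_univ _) h
    · intro k _ hk; simp [Pi.single_eq_of_ne hk]
    · intro h; exact absurd (Finset.mem_univ _) h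
  have h2 : ∀ (i : ι) (a : ℝ), qf M (Pi.single i a) = a ^ 2 * M i i := by
    intro i a
    have := h i i a a
    unfold net_bf at this
    unfold qf
    rw [this]; ring
  rw [net_qf_add M (Pi.single i a) (Pi.single j b), h, h, h2, h2]
  ring

/-- the quadratic form is bounded by the trace -/
theorem net_trace (M : Matrix ι ι ℝ) (hM : M.IsSymm) (hM0 : ∀ φ : ι → ℝ, 0 ≤ qf M φ)
    (x : ι → ℝ) : qf M x ≤ (∑ i, M i i) * ∑ i, x i ^ 2 := by
  classical
  have key : ∀ i j, x i * M i j * x j ≤ (M i i * x j ^ 2 + M j j * x i ^ 2) / 2 := by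
    intro i j
    have h1 := hM0 (fun k => (Pi.single i (x j) : ι → ℝ) k + (Pi.single j (-x i) : ι → ℝ) k)
    rw [net_qf_two] at h1
    have h2 : M j i = M i j := hM.apply i j
    rw [h2] at h1
    nlinarith [h1]
  unfold qf
  calc ∑ i, ∑ j, x i * M i j * x j ≤ ∑ i, ∑ j, (M i i * x j ^ 2 + M j j * x i ^ 2) / 2 :=
        Finset.sum_le_sum fun i _ => Finset.sum_le_sum fun j _ => key i j
    _ = (∑ i, M i i) * ∑ i, x i ^ 2 := by
        have e1 : ∑ i, ∑ j, M i i * x j ^ 2 = (∑ i, M i i) * ∑ i, x i ^ 2 := by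
          rw [Finset.sum_mul_sum]
        have e2 : ∑ i, ∑ j, M j j * x i ^ 2 = (∑ i, M i i) * ∑ i, x i ^ 2 := by
          rw [Finset.sum_comm, Finset.sum_mul_sum]
        have e3 : ∑ i, ∑ j, (M i i * x j ^ 2 + M j j * x i ^ 2) / 2 =
            (∑ i, ∑ j, M i i * x j ^ 2 + ∑ i, ∑ j, M j j * x i ^ 2) / 2 := by
          rw [← Finset.sum_add_distrib, Finset.sum_div]
          refine Finset.sum_congr rfl fun i _ => ?_
          rw [← Finset.sum_add_distrib, Finset.sum_div]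
        rw [e3, e1, e2]; ring

end finite

section finite

variable {ι : Type*} [Fintype ι] [DecidableEq ι]

theorem net_lemma (M : Matrix ι ι ℝ) (hM : M.IsSymm) (hM0 : ∀ φ : ι → ℝ, 0 ≤ qf M φ) {Υ γ : ℝ}
    (hγ : 0 < γ) (hγΥ : γ ≤ Υ) (htr : ∑ i, M i i ≤ Υ) (m : ℕ)
    (hm : Real.sqrt (Fintype.card ι * Υ / γ) + 1 ≤ m) (φ : ι → ℝ)
    (hφ : qf M φ < γ * ∑ i, φ i ^ 2) :
    ∃ n : ι → ℤ, (∀ i, |n i| ≤ m) ∧ n ≠ 0 ∧
      qf M (fun i => (n i : ℝ)) < 16 * γ * ∑ i, (n i : ℝ) ^ 2 := by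
  have hΥ : 0 < Υ := hγ.trans_le hγΥ
  set Φ : ℝ := ∑ i, φ i ^ 2 with hΦ
  have hΦ0 : 0 < Φ := by
    have h1 := (hM0 φ).trans_lt hφ
    exact (pos_iff_pos_of_mul_pos h1).1 hγ
  set N : ℝ := (Fintype.card ι : ℝ) with hN
  have hN0 : 0 < N := by
    have : Nonempty ι := by
      by_contra hne
      rw [not_nonempty_iff] at hne
      have : Φ = 0 := by rw [hΦ]; simp
      linarith
    rw [hN]
    exact Nat.cast_pos.2 (Fintype.card_pos (α := ι))
  set s : ℝ := Real.sqrt (N * Υ / γ) with hs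
  have hs2 : s ^ 2 = N * Υ / γ := Real.sq_sqrt (by positivity)
  have hs2' : γ * s ^ 2 = N * Υ := by rw [hs2]; field_simp
  have hsN : N ≤ s ^ 2 := by
    rw [hs2, le_div_iff₀ hγ]
    exact mul_le_mul_of_nonneg_left hγΥ hN0.le
  have hs0 : 0 < s := Real.sqrt_pos.2 (by positivity)
  set c : ℝ := s / Real.sqrt Φ with hc
  have hc2 : c ^ 2 * Φ = s ^ 2 := by
    rw [hc, div_pow, Real.sq_sqrt hΦ0.le]
    field_simp
  have hc0 : 0 < c := div_pos hs0 (Real.sqrt_pos.2 hΦ0)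
  set ψ : ι → ℝ := fun i => c * φ i with hψ
  have hψ2 : ∑ i, ψ i ^ 2 = s ^ 2 := by
    rw [← hc2, hΦ, Finset.mul_sum]
    refine Finset.sum_congr rfl fun i _ => ?_
    rw [hψ]; ring
  have hψq : qf M ψ < N * Υ := by
    rw [hψ, net_qf_smul, ← hs2', ← hc2]
    have := mul_lt_mul_of_pos_left hφ (by positivity : 0 < c ^ 2)
    linarith
  set n : ι → ℤ := fun i => round (ψ i) with hn
  set δ : ι → ℝ := fun i => (n i : ℝ) - ψ i with hδ
  have hδ1 : ∀ i, |δ i| ≤ 1 / 2 := by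
    intro i
    have := abs_sub_round (ψ i)
    rw [hδ, abs_sub_comm]
    exact this
  have hδ2 : ∑ i, δ i ^ 2 ≤ N / 4 := by
    calc ∑ i, δ i ^ 2 ≤ ∑ _i : ι, (1 / 4 : ℝ) := by
          refine Finset.sum_le_sum fun i _ => ?_
          rw [← sq_abs]
          nlinarith [hδ1 i, abs_nonneg (δ i)]
      _ = N / 4 := by
          rw [Finset.sum_const, Finset.card_univ, nsmul_eq_mul]
          ring
  have hδq : qf M δ ≤ Υ * (N / 4) := by
    refine (net_trace M hM hM0 δ).trans ?_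
    have h0 : 0 ≤ ∑ i, δ i ^ 2 := Finset.sum_nonneg fun i _ => sq_nonneg _
    calc (∑ i, M i i) * ∑ i, δ i ^ 2 ≤ Υ * ∑ i, δ i ^ 2 := mul_le_mul_of_nonneg_right htr h0
      _ ≤ Υ * (N / 4) := mul_le_mul_of_nonneg_left hδ2 hΥ.le
  have hnq : qf M (fun i => (n i : ℝ)) < 9 / 4 * (N * Υ) := by
    have h1 := net_par M hM0 ψ δ
    have h2 : (fun i => ψ i + δ i) = fun i => (n i : ℝ) := by
      funext i
      rw [hδ]; ring
    rw [h2] at h1
    linarith
  have hn2 : s ^ 2 / 4 ≤ ∑ i, (n i : ℝ) ^ 2 := by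
    have h1 : ∑ i, ψ i ^ 2 ≤ ∑ i, (2 * (n i : ℝ) ^ 2 + 2 * δ i ^ 2) := by
      refine Finset.sum_le_sum fun i _ => ?_
      have : ψ i = (n i : ℝ) - δ i := by rw [hδ]; ring
      rw [this]
      nlinarith [sq_nonneg ((n i : ℝ) + δ i)]
    rw [Finset.sum_add_distrib, ← Finset.mul_sum, ← Finset.mul_sum, hψ2] at h1
    linarith
  refine ⟨n, ?_, ?_, ?_⟩
  · intro i
    have h1 : |ψ i| ≤ s := by
      refine abs_le_of_sq_le_sq ?_ hs0.le
      rw [← hψ2]
      exact Finset.single_le_sum (f := fun i => ψ i ^ 2) (fun i _ => sq_nonneg _)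
        (Finset.mem_univ i)
    have h2 : |(n i : ℝ)| ≤ m := by
      have h3 : (n i : ℝ) = ψ i + δ i := by rw [hδ]; ring
      rw [h3]
      refine (abs_add_le _ _).trans ?_
      have := hδ1 i
      linarith
    have h4 : ((|n i| : ℤ) : ℝ) ≤ ((m : ℤ) : ℝ) := by
      rw [Int.cast_abs]
      exact_mod_cast h2
    exact_mod_cast h4
  · intro h0
    have h1 : ∑ i, (n i : ℝ) ^ 2 = 0 := by
      refine Finset.sum_eq_zero fun i _ => ?_
      rw [h0]; simp
    have : 0 < s ^ 2 := by positivity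
    linarith
  · refine hnq.trans ?_
    have h1 : 16 * γ * (s ^ 2 / 4) ≤ 16 * γ * ∑ i, (n i : ℝ) ^ 2 :=
      mul_le_mul_of_nonneg_left hn2 (by positivity)
    have h2 : 16 * γ * (s ^ 2 / 4) = 4 * (N * Υ) := by rw [← hs2']; ring
    have h3 : 0 < N * Υ := by positivity
    linarith

end finite

end H10PL
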