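import Pool.Agent.H10R2.AC.Ms
import Pool.Agent.H10R2.AC.Net
import Pool.Agent.H10R2.AC.Meas

/-! Task 4-LAT: one step on the lattice. -/

namespace H10PL

open MeasureTheory ProbabilityTheory Matrix Set

section finite

variable {ι : Type*} [Fintype ι] [DecidableEq ι]

/-- the field of a vector indexed by the block -/
def l4_f (A : Matrix ι ι ℝ) (Q : Finset ι) (ψ : {i // i ∈ Q} → ℝ) : ι → ℝ :=
  fun k => ∑ i : {i // i ∈ Q}, (if k ∈ Q then 0 else A k i) * ψ i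

omit [Fintype ι] in
theorem l4_fld (A : Matrix ι ι ℝ) (Q : Finset ι) (φ : ι → ℝ) :
    fld A Q φ = l4_f A Q (fun i => φ i) := by
  funext k
  unfold fld l4_f
  split_ifs with hk
  · simp
  · exact (Finset.sum_coe_sort Q (fun i => A k i * φ i)).symm

/-- the matrix of the dissipation form -/
noncomputable def l4_M (P A : Matrix ι ι ℝ) (η : ℝ) (Q : Finset ι) :
    Matrix {i // i ∈ Q} {i // i ∈ Q} ℝ :=
  fun i j => (if i = j then η else 0) +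
    ∑ k, ∑ l, (if k ∈ Q then 0 else A k i) * P k l * (if l ∈ Q then 0 else A l j)

theorem l4_M_symm (P A : Matrix ι ι ℝ) (hP : P.IsSymm) (η : ℝ) (Q : Finset ι) :
    (l4_M P A η Q).IsSymm := by
  ext i j
  simp only [Matrix.transpose_apply, l4_M]
  have h1 : (if j = i then η else 0) = (if i = j then η else 0) := by
    by_cases h : i = j
    · rw [if_pos h, if_pos h.symm]
    · rw [if_neg h, if_neg (fun h' => h h'.symm)]
  rw [h1, Finset.sum_comm]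
  congr 1
  refine Finset.sum_congr rfl fun k _ => Finset.sum_congr rfl fun l _ => ?_
  rw [hP.apply k l]
  ring

theorem l4_M_qf (P A : Matrix ι ι ℝ) (η : ℝ) (Q : Finset ι) (ψ : {i // i ∈ Q} → ℝ) :
    qf (l4_M P A η Q) ψ = η * ∑ i, ψ i ^ 2 + qf P (l4_f A Q ψ) := by
  unfold qf l4_M l4_f
  have h1 : ∀ i j : {i // i ∈ Q}, ψ i * ((if i = j then η else 0) +
      ∑ k, ∑ l, (if k ∈ Q then 0 else A k i) * P k l * (if l ∈ Q then 0 else A l j)) * ψ j =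
      (if i = j then η * ψ i * ψ j else 0) + ∑ k, ∑ l,
        ((if k ∈ Q then 0 else A k i) * ψ i) * P k l * ((if l ∈ Q then 0 else A l j) * ψ j) := by
    intro i j
    rw [mul_add, add_mul]
    congr 1
    · split_ifs
      · ring
      · ring
    · rw [Finset.mul_sum, Finset.sum_mul]
      refine Finset.sum_congr rfl fun k _ => ?_
      rw [Finset.mul_sum, Finset.sum_mul]
      refine Finset.sum_congr rfl fun l _ => ?_
      ring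
  simp only [h1, Finset.sum_add_distrib]
  congr 1
  · rw [Finset.mul_sum]
    refine Finset.sum_congr rfl fun i _ => ?_
    rw [Finset.sum_ite_eq Finset.univ i, if_pos (Finset.mem_univ _)]
    ring
  · have h2 : ∀ k l : ι, (∑ i : {i // i ∈ Q}, (if k ∈ Q then 0 else A k i) * ψ i) * P k l *
        (∑ j : {i // i ∈ Q}, (if l ∈ Q then 0 else A l j) * ψ j) =
        ∑ i : {i // i ∈ Q}, ∑ j : {i // i ∈ Q},
        ((if k ∈ Q then 0 else A k i) * ψ i) * P k l * ((if l ∈ Q then 0 else A l j) * ψ j) := by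
      intro k l
      rw [Finset.sum_mul, Finset.sum_mul]
      refine Finset.sum_congr rfl fun i _ => ?_
      rw [Finset.mul_sum]
    simp only [h2]
    have h3 : ∀ f : {i // i ∈ Q} → {i // i ∈ Q} → ι → ι → ℝ,
        ∑ i, ∑ j, ∑ k, ∑ l, f i j k l = ∑ k, ∑ l, ∑ i, ∑ j, f i j k l := by
      intro f
      calc ∑ i, ∑ j, ∑ k, ∑ l, f i j k l = ∑ i, ∑ k, ∑ j, ∑ l, f i j k l :=
            Finset.sum_congr rfl fun i _ => Finset.sum_comm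
        _ = ∑ k, ∑ i, ∑ j, ∑ l, f i j k l := Finset.sum_comm
        _ = ∑ k, ∑ i, ∑ l, ∑ j, f i j k l :=
            Finset.sum_congr rfl fun k _ => Finset.sum_congr rfl fun i _ => Finset.sum_comm
        _ = ∑ k, ∑ l, ∑ i, ∑ j, f i j k l := Finset.sum_congr rfl fun k _ => Finset.sum_comm
    exact h3 _

theorem l4_YQ (A : Matrix ι ι ℝ) (V : ι → ℝ) (E η : ℝ) (Q : Finset ι) (φ : ι → ℝ) :
    YQ A V E η Q φ = qf (l4_M (Pm (cutS A Q) V E η) A η Q) (fun i => φ i) := by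
  rw [l4_M_qf, YQ, l4_fld]
  congr 2
  exact (Finset.sum_coe_sort Q (fun i => φ i ^ 2)).symm

theorem l4_single (P : Matrix ι ι ℝ) (x : ι) : qf P (Pi.single x (1 : ℝ)) = P x x :=
  quad_single P x

theorem l4_trY (A : Matrix ι ι ℝ) (V : ι → ℝ) (E η : ℝ) (Q : Finset ι) :
    trY A V E η Q = ∑ i, l4_M (Pm (cutS A Q) V E η) A η Q i i := by
  unfold trY
  rw [← Finset.sum_coe_sort Q (fun i => YQ A V E η Q (Pi.single i 1))]
  refine Finset.sum_congr rfl fun i _ => ?_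
  rw [l4_YQ, ← l4_single (l4_M (Pm (cutS A Q) V E η) A η Q) i]
  congr 1
  funext j
  by_cases hj : j = i
  · subst hj; simp
  · rw [Pi.single_eq_of_ne hj, Pi.single_eq_of_ne (fun h => hj (Subtype.ext h))]

omit [Fintype ι] in
theorem l4_cutS_symm (A : Matrix ι ι ℝ) (hA : A.IsSymm) (U : Finset ι) : (cutS A U).IsSymm := by
  ext i j
  simp only [Matrix.transpose_apply, cutS]
  rw [hA.apply i j]
  simp only [or_comm]

theorem l4_Pm_symm (A : Matrix ι ι ℝ) (hA : A.IsSymm) (V : ι → ℝ) (E η : ℝ) :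
    (Pm A V E η).IsSymm := by
  ext i j
  simp only [Matrix.transpose_apply, Pm]
  rw [Gm_symm A hA V E η j i]

theorem l4_net (A : Matrix ι ι ℝ) (hA : A.IsSymm) (V : ι → ℝ) (E : ℝ) {η γ Υ : ℝ} (hη : 0 < η)
    (Q : Finset ι) (hγ : 0 < γ) (hγΥ : γ ≤ Υ) (htr : trY A V E η Q ≤ Υ) (m : ℕ)
    (hm : Real.sqrt (Q.card * Υ / γ) + 1 ≤ m) (hD : ¬ Diss A V E η Q γ) :
    ∃ n : {i // i ∈ Q} → ℤ, (∀ i, |n i| ≤ m) ∧ n ≠ 0 ∧
      qf (Pm (cutS A Q) V E η) (l4_f A Q (fun i => (n i : ℝ))) <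
        16 * γ * ∑ i, (n i : ℝ) ^ 2 := by
  have hC := l4_cutS_symm A hA Q
  have hP0 : ∀ φ : ι → ℝ, 0 ≤ qf (Pm (cutS A Q) V E η) φ :=
    fun φ => Pm_quad_nonneg (cutS A Q) hC V E hη φ
  unfold Diss at hD
  push Not at hD
  obtain ⟨φ, hφ⟩ := hD
  rw [l4_YQ, ← Finset.sum_coe_sort Q (fun i => φ i ^ 2)] at hφ
  rw [l4_trY] at htr
  obtain ⟨n, h1, h2, h3⟩ := net_lemma (l4_M (Pm (cutS A Q) V E η) A η Q)
    (l4_M_symm _ A (l4_Pm_symm _ hC V E η) η Q) (fun ψ => by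
      rw [l4_M_qf]
      have := hP0 (l4_f A Q ψ)
      positivity) hγ hγΥ htr m (by simpa using hm) (fun i => φ i) hφ
  refine ⟨n, h1, h2, ?_⟩
  rw [l4_M_qf] at h3
  have h4 : 0 ≤ η * ∑ i, ((n i : ℤ) : ℝ) ^ 2 := by positivity
  linarith

end finite

section lattice

variable {d : ℕ} {T0 : (Fin d → ℤ) → (Fin d → ℤ) → ℝ} {κ : (Fin d → ℤ) → ℝ} {ρ0 b : ℝ}

/-- averaging over a finite family of flips -/
theorem l4_avg {θ : Type*} [Fintype θ] [Nonempty θ] (T : θ → Set (Sym2 (Fin d → ℤ)))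
    (J : (Sym2 (Fin d → ℤ) → Bool) → ENNReal) (hJ : Measurable J) (C : ENNReal)
    (h : ∀ s, ∑ ε : θ, (open Classical in J (flipS (T ε) s)) ≤
      (Fintype.card θ : ENNReal) * C) : ∫⁻ s, J s ∂(Ps d) ≤ C := by
  classical
  have hflip : ∀ ε : θ, ∫⁻ s, J (flipS (T ε) s) ∂(Ps d) = ∫⁻ s, J s ∂(Ps d) :=
    fun ε => (flip_mp (T ε)).lintegral_comp hJ
  have h2 : (Fintype.card θ : ENNReal) * ∫⁻ s, J s ∂(Ps d) ≤ (Fintype.card θ : ENNReal) * C := by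
    calc (Fintype.card θ : ENNReal) * ∫⁻ s, J s ∂(Ps d)
        = ∑ ε : θ, ∫⁻ s, J s ∂(Ps d) := by
          rw [Finset.sum_const, Finset.card_univ, nsmul_eq_mul]
      _ = ∑ ε : θ, ∫⁻ s, J (flipS (T ε) s) ∂(Ps d) :=
          Finset.sum_congr rfl fun ε _ => (hflip ε).symm
      _ = ∫⁻ s, ∑ ε : θ, J (flipS (T ε) s) ∂(Ps d) := by
          rw [lintegral_finsetSum]
          intro ε _
          exact hJ.comp (flip_mp (T ε)).measurable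
      _ ≤ ∫⁻ _s, (Fintype.card θ : ENNReal) * C ∂(Ps d) := by
          refine lintegral_mono fun s => ?_
          refine le_trans (le_of_eq ?_) (h s)
          refine Finset.sum_congr rfl fun ε _ => ?_
          congr 1
      _ = (Fintype.card θ : ENNReal) * C := by simp
  have h3 : (Fintype.card θ : ENNReal) ≠ 0 := by
    exact_mod_cast Fintype.card_ne_zero
  have h4 : (Fintype.card θ : ENNReal) ≠ ⊤ := ENNReal.natCast_ne_top _
  exact (ENNReal.mul_le_mul_iff_right h3 h4).1 h2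

/-- flipped edges between `S` and `Q` -/
def l4_T (Λ : Finset (Fin d → ℤ)) (Q S : Finset Λ) (ε : Λ → {i // i ∈ Q} → Bool) :
    Set (Sym2 (Fin d → ℤ)) :=
  {e | ∃ k : Λ, k ∈ S ∧ ∃ i : {i // i ∈ Q},
    e = s((k : Fin d → ℤ), ((i : Λ) : Fin d → ℤ)) ∧ ε k i = false}

theorem l4_mem_in (Λ : Finset (Fin d → ℤ)) (Q S : Finset Λ) (hQS : ∀ k ∈ S, k ∉ Q)
    (ε : Λ → {i // i ∈ Q} → Bool) (k : Λ) (hk : k ∈ S) (i : {i // i ∈ Q}) :
    s((k : Fin d → ℤ), ((i : Λ) : Fin d → ℤ)) ∈ l4_T Λ Q S ε ↔ ε k i = false := by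
  constructor
  · rintro ⟨k', hk', i', he, h3⟩
    rcases Sym2.eq_iff.1 he with ⟨h4, h5⟩ | ⟨h4, h5⟩
    · have e1 : k = k' := Subtype.ext h4
      have e2 : i = i' := Subtype.ext (Subtype.ext h5)
      rw [e1, e2]; exact h3
    · have e1 : k = (i' : Λ) := Subtype.ext h4
      exact absurd (e1 ▸ i'.2) (hQS k hk)
  · intro h3
    exact ⟨k, hk, i, rfl, h3⟩

theorem l4_mem_out (Λ : Finset (Fin d → ℤ)) (Q S : Finset Λ)
    (ε : Λ → {i // i ∈ Q} → Bool) (k : Λ) (hk : k ∉ S) (hkQ : k ∉ Q) (i : Λ) :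
    s((k : Fin d → ℤ), (i : Fin d → ℤ)) ∉ l4_T Λ Q S ε := by
  rintro ⟨k', hk', i', he, h3⟩
  rcases Sym2.eq_iff.1 he with ⟨h4, h5⟩ | ⟨h4, h5⟩
  · have e1 : k = k' := Subtype.ext h4
    exact hk (e1 ▸ hk')
  · have e1 : k = (i' : Λ) := Subtype.ext h4
    exact hkQ (e1 ▸ i'.2)

theorem l4_mem_QQ (Λ : Finset (Fin d → ℤ)) (Q S : Finset Λ)
    (ε : Λ → {i // i ∈ Q} → Bool) (k i : Λ) (hkQ : k ∉ Q) (hi : i ∉ Q) :
    s((k : Fin d → ℤ), (i : Fin d → ℤ)) ∉ l4_T Λ Q S ε := by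
  rintro ⟨k', hk', i', he, h3⟩
  rcases Sym2.eq_iff.1 he with ⟨h4, h5⟩ | ⟨h4, h5⟩
  · have e1 : i = (i' : Λ) := Subtype.ext h5
    exact hi (e1 ▸ i'.2)
  · have e1 : k = (i' : Λ) := Subtype.ext h4
    exact hkQ (e1 ▸ i'.2)

/-- deterministic part of the couplings -/
noncomputable def l4_b (T0 : (Fin d → ℤ) → (Fin d → ℤ) → ℝ) (κ : (Fin d → ℤ) → ℝ) (ρ : ℝ)
    (Λ : Finset (Fin d → ℤ)) (Q S : Finset Λ) (s : Sym2 (Fin d → ℤ) → Bool)
    (k : Λ) (i : {i // i ∈ Q}) : ℝ :=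
  if k ∈ Q then 0 else if k ∈ S then T0 k (i : Λ) else Am T0 κ ρ Λ s k i

/-- random part of the couplings -/
noncomputable def l4_c (κ : (Fin d → ℤ) → ℝ)
    (Λ : Finset (Fin d → ℤ)) (Q : Finset Λ) (s : Sym2 (Fin d → ℤ) → Bool)
    (k : Λ) (i : {i // i ∈ Q}) : ℝ :=
  sg (s s((k : Fin d → ℤ), ((i : Λ) : Fin d → ℤ))) * κ ((k : Fin d → ℤ) - ((i : Λ) : Fin d → ℤ))

open Classical in
theorem l4_flip_cut (ρ : ℝ) (Λ : Finset (Fin d → ℤ)) (Q S : Finset Λ)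
    (ε : Λ → {i // i ∈ Q} → Bool) (s : Sym2 (Fin d → ℤ) → Bool) :
    cutS (Am T0 κ ρ Λ (flipS (l4_T Λ Q S ε) s)) Q = cutS (Am T0 κ ρ Λ s) Q := by
  ext k i
  unfold cutS
  split_ifs with hc
  · rfl
  · have hk : k ∉ Q := fun h => hc (Or.inl h)
    have hi : i ∉ Q := fun h => hc (Or.inr h)
    have hf : flipS (l4_T Λ Q S ε) s s((k : Fin d → ℤ), (i : Fin d → ℤ)) =
        s s((k : Fin d → ℤ), (i : Fin d → ℤ)) := by
      unfold flipS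
      rw [if_neg (l4_mem_QQ Λ Q S ε k i hk hi)]
    unfold Am Kr Kf
    rw [hf]

open Classical in
theorem l4_flip_fld (ρ : ℝ) (Λ : Finset (Fin d → ℤ)) (Q S : Finset Λ) (hQS : ∀ k ∈ S, k ∉ Q)
    (hρ : ∀ k ∈ S, ∀ i ∈ Q, ‖(k : Fin d → ℤ) - (i : Fin d → ℤ)‖ ≤ ρ)
    (ε : Λ → {i // i ∈ Q} → Bool) (s : Sym2 (Fin d → ℤ) → Bool) (ψ : {i // i ∈ Q} → ℝ) :
    l4_f (Am T0 κ ρ Λ (flipS (l4_T Λ Q S ε) s)) Q ψ =
      aV (l4_b T0 κ ρ Λ Q S s) (l4_c κ Λ Q s) S ε ψ := by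
  funext k
  unfold l4_f aV
  refine Finset.sum_congr rfl fun i _ => ?_
  congr 1
  unfold l4_b l4_c
  by_cases hk : k ∈ Q
  · have hkS : k ∉ S := fun h => hQS k h hk
    rw [if_pos hk, if_pos hk, if_neg hkS, add_zero]
  · rw [if_neg hk, if_neg hk]
    by_cases hkS : k ∈ S
    · rw [if_pos hkS, if_pos hkS]
      have hn := hρ k hkS i i.2
      have hf : sg (flipS (l4_T Λ Q S ε) s s((k : Fin d → ℤ), ((i : Λ) : Fin d → ℤ))) =
          sg (ε k i) * sg (s s((k : Fin d → ℤ), ((i : Λ) : Fin d → ℤ))) := by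
        unfold flipS
        by_cases h3 : ε k i = false
        · rw [if_pos ((l4_mem_in Λ Q S hQS ε k hkS i).2 h3), h3]
          cases s s((k : Fin d → ℤ), ((i : Λ) : Fin d → ℤ)) <;> simp [sg]
        · rw [if_neg (fun hc => h3 ((l4_mem_in Λ Q S hQS ε k hkS i).1 hc))]
          have h4 : ε k i = true := by simpa using h3
          rw [h4]
          simp [sg]
      unfold Am Kr Kf
      rw [if_pos hn, hf]
      ring
    · rw [if_neg hkS, if_neg hkS, add_zero]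
      have hf : flipS (l4_T Λ Q S ε) s s((k : Fin d → ℤ), ((i : Λ) : Fin d → ℤ)) =
          s s((k : Fin d → ℤ), ((i : Λ) : Fin d → ℤ)) := by
        unfold flipS
        rw [if_neg (l4_mem_out Λ Q S ε k hkS hk i)]
      unfold Am Kr Kf
      rw [hf]

/-- the bad event for a fixed integer vector -/
def l4_U (T0 : (Fin d → ℤ) → (Fin d → ℤ) → ℝ) (κ : (Fin d → ℤ) → ℝ) (ρ η γ' tr w : ℝ)
    (Λ : Finset (Fin d → ℤ)) (Q S : Finset Λ) (ψ : {i // i ∈ Q} → ℝ) :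
    Set ((ℝ × (Λ → ℝ)) × (Sym2 (Fin d → ℤ) → Bool)) :=
  {p | (∀ φ : Λ → ℝ, (∀ k, k ∉ S → φ k = 0) →
        qf (Pm (cutS (Am T0 κ ρ Λ p.2) Q) p.1.2 p.1.1 η) φ ≤ (∑ i, φ i ^ 2) / γ') ∧
        tr ≤ ∑ k ∈ S, Pm (cutS (Am T0 κ ρ Λ p.2) Q) p.1.2 p.1.1 η k k ∧
        qf (Pm (cutS (Am T0 κ ρ Λ p.2) Q) p.1.2 p.1.1 η) (l4_f (Am T0 κ ρ Λ p.2) Q ψ) < w}

theorem l4_U_meas (h : Adm T0 κ ρ0 b) (ρ η γ' tr w : ℝ) (Λ : Finset (Fin d → ℤ))
    (Q S : Finset Λ) (ψ : {i // i ∈ Q} → ℝ) :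
    MeasurableSet (l4_U T0 κ ρ η γ' tr w Λ Q S ψ) := by
  have hf : ∀ k, Measurable fun p : (ℝ × (Λ → ℝ)) × (Sym2 (Fin d → ℤ) → Bool) =>
      l4_f (Am T0 κ ρ Λ p.2) Q ψ k := by
    intro k
    unfold l4_f
    refine Finset.measurable_sum _ fun i _ => ?_
    refine Measurable.mul_const ?_ _
    split_ifs
    · exact measurable_const
    · exact Am_entry_meas ρ Λ k i
  have h2 : MeasurableSet {p : (ℝ × (Λ → ℝ)) × (Sym2 (Fin d → ℤ) → Bool) |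
      tr ≤ ∑ k ∈ S, Pm (cutS (Am T0 κ ρ Λ p.2) Q) p.1.2 p.1.1 η k k} :=
    measurableSet_le measurable_const
      (Finset.measurable_sum _ fun k _ => cutSPm_meas h ρ η Λ Q k k)
  have h3 : MeasurableSet {p : (ℝ × (Λ → ℝ)) × (Sym2 (Fin d → ℤ) → Bool) |
      qf (Pm (cutS (Am T0 κ ρ Λ p.2) Q) p.1.2 p.1.1 η) (l4_f (Am T0 κ ρ Λ p.2) Q ψ) < w} := by
    refine measurableSet_lt ?_ measurable_const
    unfold qf
    refine Finset.measurable_sum _ fun i _ => Finset.measurable_sum _ fun j _ => ?_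
    exact ((hf i).mul (cutSPm_meas h ρ η Λ Q i j)).mul (hf j)
  exact (norm_meas h ρ η γ' Λ Q S).inter (h2.inter h3)

open Classical in
theorem l4_count (h : Adm T0 κ ρ0 b) (ρ : ℝ)
    (Λ : Finset (Fin d → ℤ)) (Q S : Finset Λ) (hQS : ∀ k ∈ S, k ∉ Q)
    {k1 k2 γ' tr η : ℝ} (hk1 : 0 < k1) (hγ' : 0 < γ') (htr : 0 < tr) (hη : 0 < η)
    (hρ : ∀ k ∈ S, ∀ i ∈ Q, ‖(k : Fin d → ℤ) - (i : Fin d → ℤ)‖ ≤ ρ)
    (hκ : ∀ k ∈ S, ∀ i ∈ Q, k1 ≤ |κ ((k : Fin d → ℤ) - (i : Fin d → ℤ))| ∧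
      |κ ((k : Fin d → ℤ) - (i : Fin d → ℤ))| ≤ k2)
    (ψ : {i // i ∈ Q} → ℝ) (hψ : 0 < ∑ i, ψ i ^ 2) (q : ℝ × (Λ → ℝ))
    (s : Sym2 (Fin d → ℤ) → Bool) :
    ((Finset.univ.filter fun ε : Λ → {i // i ∈ Q} → Bool =>
      (q, flipS (l4_T Λ Q S ε) s) ∈
        l4_U T0 κ ρ η γ' tr (k1 ^ 2 * tr / 4 * ∑ i, ψ i ^ 2) Λ Q S ψ).card : ℝ) ≤
      2 ^ (Fintype.card Λ * Fintype.card {i // i ∈ Q}) *
        Real.exp (-((k1 / k2) ^ 2 * γ' * tr / 16)) := by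
  have hC := l4_cutS_symm _ (Am_symm h ρ Λ s) Q
  by_cases hN : (∀ φ : Λ → ℝ, (∀ k, k ∉ S → φ k = 0) →
        qf (Pm (cutS (Am T0 κ ρ Λ s) Q) q.2 q.1 η) φ ≤ (∑ i, φ i ^ 2) / γ') ∧
        tr ≤ ∑ k ∈ S, Pm (cutS (Am T0 κ ρ Λ s) Q) q.2 q.1 η k k
  · have hms := ms_fixed (Pm (cutS (Am T0 κ ρ Λ s) Q) q.2 q.1 η)
      (l4_Pm_symm _ hC q.2 q.1 η) (fun φ => Pm_quad_nonneg _ hC q.2 q.1 hη φ) S hγ' hk1 htr
      hN.1 (l4_b T0 κ ρ Λ Q S s) (l4_c κ Λ Q s) (k2 := k2) (by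
        intro k hk i
        unfold l4_c
        rw [abs_mul, asm_abs_sg, one_mul]
        exact hκ k hk i i.2) hN.2 ψ hψ
    refine le_trans ?_ hms
    refine Nat.cast_le.2 (Finset.card_le_card ?_)
    intro ε hε
    have hε' := (Finset.mem_filter.1 hε).2
    refine Finset.mem_filter.2 ⟨Finset.mem_univ _, ?_⟩
    have h3 := hε'.2.2
    simp only [] at h3
    rw [l4_flip_cut ρ Λ Q S ε s, l4_flip_fld ρ Λ Q S hQS hρ ε s ψ] at h3
    exact h3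
  · have : (Finset.univ.filter fun ε : Λ → {i // i ∈ Q} → Bool =>
      (q, flipS (l4_T Λ Q S ε) s) ∈
        l4_U T0 κ ρ η γ' tr (k1 ^ 2 * tr / 4 * ∑ i, ψ i ^ 2) Λ Q S ψ) = ∅ := by
      refine Finset.filter_eq_empty_iff.2 ?_
      intro ε _ hε
      apply hN
      have h1 := hε.1
      have h2 := hε.2.1
      simp only [] at h1 h2
      rw [l4_flip_cut ρ Λ Q S ε s] at h1 h2
      exact ⟨h1, h2⟩
    rw [this]
    simp only [Finset.card_empty, Nat.cast_zero]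
    positivity

theorem l4_mass (μ : Measure ℝ) [IsProbabilityMeasure μ] (Λ : Finset (Fin d → ℤ)) {K : ℝ} :
    ((volume.restrict (Icc (-K) K)).prod (Measure.pi fun _ : Λ => μ)) univ =
      ENNReal.ofReal (2 * K) := by
  rw [← univ_prod_univ, Measure.prod_prod, measure_univ (μ := Measure.pi fun _ : Λ => μ), mul_one,
    Measure.restrict_apply_univ, Real.volume_Icc]
  congr 1
  ring

theorem l4_fixed (h : Adm T0 κ ρ0 b) (μ : Measure ℝ) [IsProbabilityMeasure μ] (ρ : ℝ)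
    (Λ : Finset (Fin d → ℤ)) (Q S : Finset Λ) (hQS : ∀ k ∈ S, k ∉ Q)
    {k1 k2 γ' tr K η : ℝ} (hk1 : 0 < k1) (hγ' : 0 < γ') (htr : 0 < tr) (hK : 0 < K) (hη : 0 < η)
    (hρ : ∀ k ∈ S, ∀ i ∈ Q, ‖(k : Fin d → ℤ) - (i : Fin d → ℤ)‖ ≤ ρ)
    (hκ : ∀ k ∈ S, ∀ i ∈ Q, k1 ≤ |κ ((k : Fin d → ℤ) - (i : Fin d → ℤ))| ∧
      |κ ((k : Fin d → ℤ) - (i : Fin d → ℤ))| ≤ k2)
    (ψ : {i // i ∈ Q} → ℝ) (hψ : 0 < ∑ i, ψ i ^ 2) :
    (M0 d μ Λ K) (l4_U T0 κ ρ η γ' tr (k1 ^ 2 * tr / 4 * ∑ i, ψ i ^ 2) Λ Q S ψ) ≤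
      ENNReal.ofReal (2 * K * Real.exp (-((k1 / k2) ^ 2 * γ' * tr / 16))) := by
  classical
  set U := l4_U T0 κ ρ η γ' tr (k1 ^ 2 * tr / 4 * ∑ i, ψ i ^ 2) Λ Q S ψ with hU
  have hUm : MeasurableSet U := l4_U_meas h ρ η γ' tr _ Λ Q S ψ
  set m0 : Measure (ℝ × (Λ → ℝ)) := (volume.restrict (Icc (-K) K)).prod
    (Measure.pi fun _ : Λ => μ) with hm0
  set ex := Real.exp (-((k1 / k2) ^ 2 * γ' * tr / 16)) with hex
  unfold M0
  rw [Measure.prod_apply_symm hUm]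
  refine l4_avg (θ := Λ → {i // i ∈ Q} → Bool) (fun ε => l4_T Λ Q S ε) _
    (measurable_measure_prodMk_right hUm) _ ?_
  intro s
  have hsec : ∀ t : Sym2 (Fin d → ℤ) → Bool, m0 ((fun q => (q, t)) ⁻¹' U) =
      ∫⁻ q, U.indicator 1 (q, t) ∂m0 := by
    intro t
    rw [← lintegral_indicator_one (measurable_prodMk_right hUm)]
    rfl
  have hcard : (Fintype.card (Λ → {i // i ∈ Q} → Bool) : ENNReal) =
      ENNReal.ofReal (2 ^ (Fintype.card Λ * Fintype.card {i // i ∈ Q})) := by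
    rw [Fintype.card_fun, Fintype.card_fun, Fintype.card_bool, ← pow_mul, mul_comm]
    rw [ENNReal.ofReal_pow (by norm_num)]
    push_cast
    norm_num
  calc ∑ ε : Λ → {i // i ∈ Q} → Bool, m0 ((fun q => (q, flipS (l4_T Λ Q S ε) s)) ⁻¹' U)
      = ∑ ε : Λ → {i // i ∈ Q} → Bool,
          ∫⁻ q, U.indicator 1 (q, flipS (l4_T Λ Q S ε) s) ∂m0 :=
        Finset.sum_congr rfl fun ε _ => hsec _
    _ = ∫⁻ q, ∑ ε : Λ → {i // i ∈ Q} → Bool,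
          U.indicator 1 (q, flipS (l4_T Λ Q S ε) s) ∂m0 := by
        rw [lintegral_finsetSum]
        intro ε _
        exact (measurable_const.indicator hUm).comp measurable_prodMk_right
    _ ≤ ∫⁻ _q, ENNReal.ofReal
          (2 ^ (Fintype.card Λ * Fintype.card {i // i ∈ Q}) * ex) ∂m0 := by
        refine lintegral_mono fun q => ?_
        have hcnt := l4_count h ρ Λ Q S hQS hk1 hγ' htr hη hρ hκ ψ hψ q s
        have hs : ∑ ε : Λ → {i // i ∈ Q} → Bool,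
            U.indicator (1 : (ℝ × (Λ → ℝ)) × (Sym2 (Fin d → ℤ) → Bool) → ENNReal)
              (q, flipS (l4_T Λ Q S ε) s) =
            ((Finset.univ.filter fun ε : Λ → {i // i ∈ Q} → Bool =>
              (q, flipS (l4_T Λ Q S ε) s) ∈ U).card : ENNReal) := by
          rw [Finset.card_filter]
          push_cast
          refine Finset.sum_congr rfl fun ε _ => ?_
          unfold Set.indicator
          simp only [Pi.one_apply]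
        simp only []
        rw [hs, ← ENNReal.ofReal_natCast]
        refine ENNReal.ofReal_le_ofReal ?_
        refine le_trans (le_of_eq ?_) hcnt
        congr 1
    _ = (Fintype.card (Λ → {i // i ∈ Q} → Bool) : ENNReal) *
          ENNReal.ofReal (2 * K * ex) := by
        rw [lintegral_const, hm0, l4_mass, hcard, ← ENNReal.ofReal_mul (by positivity),
          ← ENNReal.ofReal_mul (by positivity)]
        congr 1
        ring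

theorem lat_step (h : Adm T0 κ ρ0 b) (μ : Measure ℝ) [IsProbabilityMeasure μ] (ρ : ℝ)
    (Λ : Finset (Fin d → ℤ)) (Q S : Finset Λ) (hQS : ∀ k ∈ S, k ∉ Q)
    {k1 k2 γ γ' tr Υ K η : ℝ} (hk1 : 0 < k1) (hγ : 0 < γ) (hγ' : 0 < γ') (htr : 0 < tr)
    (hγΥ : γ ≤ Υ) (h64 : 64 * γ ≤ k1 ^ 2 * tr) (hK : 0 < K) (hη : 0 < η)
    (hρ : ∀ k ∈ S, ∀ i ∈ Q, ‖(k : Fin d → ℤ) - (i : Fin d → ℤ)‖ ≤ ρ)
    (hκ : ∀ k ∈ S, ∀ i ∈ Q, k1 ≤ |κ ((k : Fin d → ℤ) - (i : Fin d → ℤ))| ∧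
      |κ ((k : Fin d → ℤ) - (i : Fin d → ℤ))| ≤ k2)
    (m : ℕ) (hm : Real.sqrt (Q.card * Υ / γ) + 1 ≤ m) :
    (M0 d μ Λ K) {p | (∀ φ : Λ → ℝ, (∀ k, k ∉ S → φ k = 0) →
        qf (Pm (cutS (Am T0 κ ρ Λ p.2) Q) p.1.2 p.1.1 η) φ ≤ (∑ i, φ i ^ 2) / γ') ∧
        tr ≤ ∑ k ∈ S, Pm (cutS (Am T0 κ ρ Λ p.2) Q) p.1.2 p.1.1 η k k ∧
        trY (Am T0 κ ρ Λ p.2) p.1.2 p.1.1 η Q ≤ Υ ∧
        ¬ Diss (Am T0 κ ρ Λ p.2) p.1.2 p.1.1 η Q γ} ≤
      ENNReal.ofReal (2 * K * ((2 * m + 1) ^ Q.card *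
        Real.exp (-((k1 / k2) ^ 2 * γ' * tr / 16)))) := by
  classical
  set N : Finset ({i // i ∈ Q} → ℤ) :=
    (Fintype.piFinset fun _ : {i // i ∈ Q} => Finset.Icc (-(m : ℤ)) m).filter (fun n => n ≠ 0)
    with hN
  have hcard : (N.card : ℝ) ≤ (2 * m + 1) ^ Q.card := by
    have h1 : N.card ≤ (2 * m + 1) ^ Q.card := by
      refine (Finset.card_filter_le _ _).trans ?_
      rw [Fintype.card_piFinset, Finset.prod_const, Finset.card_univ, Fintype.card_coe,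
        Int.card_Icc]
      apply le_of_eq
      congr 1
      omega
    calc (N.card : ℝ) ≤ (((2 * m + 1) ^ Q.card : ℕ) : ℝ) := Nat.cast_le.2 h1
      _ = _ := by push_cast; ring
  have hsub : {p : (ℝ × (Λ → ℝ)) × (Sym2 (Fin d → ℤ) → Bool) |
        (∀ φ : Λ → ℝ, (∀ k, k ∉ S → φ k = 0) →
        qf (Pm (cutS (Am T0 κ ρ Λ p.2) Q) p.1.2 p.1.1 η) φ ≤ (∑ i, φ i ^ 2) / γ') ∧
        tr ≤ ∑ k ∈ S, Pm (cutS (Am T0 κ ρ Λ p.2) Q) p.1.2 p.1.1 η k k ∧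
        trY (Am T0 κ ρ Λ p.2) p.1.2 p.1.1 η Q ≤ Υ ∧
        ¬ Diss (Am T0 κ ρ Λ p.2) p.1.2 p.1.1 η Q γ} ⊆
      ⋃ n ∈ N, l4_U T0 κ ρ η γ' tr (k1 ^ 2 * tr / 4 * ∑ i, ((n i : ℤ) : ℝ) ^ 2) Λ Q S
        (fun i => (n i : ℝ)) := by
    rintro p ⟨hp1, hp2, hp3, hp4⟩
    obtain ⟨n, hn1, hn2, hn3⟩ := l4_net (Am T0 κ ρ Λ p.2) (Am_symm h ρ Λ p.2) p.1.2 p.1.1 hη Q hγ
      hγΥ hp3 m hm hp4
    refine mem_iUnion₂.2 ⟨n, ?_, hp1, hp2, ?_⟩
    · refine Finset.mem_filter.2 ⟨Fintype.mem_piFinset.2 fun i => ?_, hn2⟩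
      exact Finset.mem_Icc.2 (abs_le.1 (hn1 i))
    · refine lt_of_lt_of_le hn3 ?_
      refine mul_le_mul_of_nonneg_right ?_ (Finset.sum_nonneg fun i _ => sq_nonneg _)
      linarith
  calc _ ≤ (M0 d μ Λ K) (⋃ n ∈ N, l4_U T0 κ ρ η γ' tr
        (k1 ^ 2 * tr / 4 * ∑ i, ((n i : ℤ) : ℝ) ^ 2) Λ Q S (fun i => (n i : ℝ))) :=
        measure_mono hsub
    _ ≤ ∑ n ∈ N, (M0 d μ Λ K) (l4_U T0 κ ρ η γ' tr
        (k1 ^ 2 * tr / 4 * ∑ i, ((n i : ℤ) : ℝ) ^ 2) Λ Q S (fun i => (n i : ℝ))) :=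
        measure_biUnion_finset_le _ _
    _ ≤ ∑ _n ∈ N, ENNReal.ofReal (2 * K * Real.exp (-((k1 / k2) ^ 2 * γ' * tr / 16))) := by
        refine Finset.sum_le_sum fun n hn => ?_
        have hn0 : n ≠ 0 := (Finset.mem_filter.1 hn).2
        refine l4_fixed h μ ρ Λ Q S hQS hk1 hγ' htr hK hη hρ hκ (fun i => (n i : ℝ)) ?_
        obtain ⟨i, hi⟩ := Function.ne_iff.1 hn0
        refine Finset.sum_pos' (fun i _ => sq_nonneg _) ⟨i, Finset.mem_univ _, ?_⟩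
        have : ((n i : ℤ) : ℝ) ≠ 0 := by
          exact_mod_cast hi
        positivity
    _ ≤ ENNReal.ofReal (2 * K * ((2 * m + 1) ^ Q.card *
        Real.exp (-((k1 / k2) ^ 2 * γ' * tr / 16)))) := by
        rw [Finset.sum_const, nsmul_eq_mul, ← ENNReal.ofReal_natCast,
          ← ENNReal.ofReal_mul (by positivity)]
        refine ENNReal.ofReal_le_ofReal ?_
        have h1 : 0 ≤ 2 * K * Real.exp (-((k1 / k2) ^ 2 * γ' * tr / 16)) := by positivity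
        calc (N.card : ℝ) * (2 * K * Real.exp (-((k1 / k2) ^ 2 * γ' * tr / 16)))
            ≤ (2 * m + 1) ^ Q.card * (2 * K * Real.exp (-((k1 / k2) ^ 2 * γ' * tr / 16))) :=
              mul_le_mul_of_nonneg_right hcard h1
          _ = _ := by ring

end lattice

end H10PL
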