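import Pool.Agent.H10R2.AC.Defs4

/-!
Task 4-NEST (fourth theorem): nested blocks.
-/

namespace H10PL

open MeasureTheory ProbabilityTheory Matrix Set Filter

section finite

variable {ι : Type*} [Fintype ι] [DecidableEq ι]

theorem cutS_cutS (A : Matrix ι ι ℝ) {Q Q' : Finset ι} (h : Q ⊆ Q') :
    cutS (cutS A Q) (Q' \ Q) = cutS A Q' := by
  funext i j
  unfold cutS
  have hi := @h i
  have hj := @h j
  by_cases h1 : i ∈ Q <;> by_cases h2 : i ∈ Q' <;> by_cases h3 : j ∈ Q <;> by_cases h4 : j ∈ Q' <;>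
    simp_all

theorem cutS_insert (A : Matrix ι ι ℝ) (Q : Finset ι) (x : ι) :
    cutS A (insert x Q) = cut (cutS A Q) x := by
  funext i j
  unfold cutS cut
  by_cases h1 : i = x <;> by_cases h2 : j = x <;> by_cases h3 : i ∈ Q <;> by_cases h4 : j ∈ Q <;>
    simp_all

theorem nest_fld (A : Matrix ι ι ℝ) {Q Q' : Finset ι} (h : Q ⊆ Q') (φ : ι → ℝ) :
    fld A Q' (fun i => if i ∈ Q' \ Q then φ i else 0) = fld (cutS A Q) (Q' \ Q) φ := by
  funext k
  unfold fld
  by_cases hk' : k ∈ Q'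
  · rw [if_pos hk']
    by_cases hk : k ∈ Q
    · rw [if_neg (by simp [hk])]
      symm
      refine Finset.sum_eq_zero fun i _ => ?_
      unfold cutS
      rw [if_pos (Or.inl hk), zero_mul]
    · rw [if_pos (by simp [hk, hk'])]
  · have hk : k ∉ Q := fun hk => hk' (h hk)
    rw [if_neg hk', if_neg (by simp [hk'])]
    rw [← Finset.sum_subset (Finset.sdiff_subset : Q' \ Q ⊆ Q')
      (fun i _ hi => by beta_reduce; rw [if_neg hi, mul_zero])]
    refine Finset.sum_congr rfl fun i hi => ?_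
    beta_reduce
    rw [if_pos hi]
    unfold cutS
    rw [if_neg (by simp only [not_or]; exact ⟨hk, (Finset.mem_sdiff.1 hi).2⟩)]

theorem nest_sq {Q Q' : Finset ι} (φ : ι → ℝ) :
    ∑ i ∈ Q', (if i ∈ Q' \ Q then φ i else 0) ^ 2 = ∑ i ∈ Q' \ Q, φ i ^ 2 := by
  rw [← Finset.sum_subset (Finset.sdiff_subset : Q' \ Q ⊆ Q')
    (fun i _ hi => by rw [if_neg hi]; ring)]
  exact Finset.sum_congr rfl fun i hi => by rw [if_pos hi]

theorem diss_nest (A : Matrix ι ι ℝ) (V : ι → ℝ) (E η γ : ℝ) {Q Q' : Finset ι} (h : Q ⊆ Q')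
    (hD : Diss A V E η Q' γ) : Diss (cutS A Q) V E η (Q' \ Q) γ := by
  intro φ
  have h1 := hD (fun i => if i ∈ Q' \ Q then φ i else 0)
  unfold YQ at h1 ⊢
  rw [cutS_cutS A h, ← nest_fld A h φ]
  rw [nest_sq] at h1
  exact h1

end finite

end H10PL
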