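import Pool.Agent.H10R2.AC.En
import Pool.Agent.H10R2.AC.Nest
import Pool.Agent.H10R2.PL.Schur

/-!
Task 4-TR (helper509): the trace of the resolvent after the removal of a block.
-/

namespace H10PL

open MeasureTheory ProbabilityTheory Matrix Set

section finite

variable {ι : Type*} [Fintype ι] [DecidableEq ι]

/-- one site -/
theorem tr_diff (B : Matrix ι ι ℝ) (hB : B.IsSymm) (hd : ∀ i, B i i = 0) (V : ι → ℝ) (E : ℝ)
    {η γ : ℝ} (hη : 0 < η) (hγ : 0 < γ) {R : Finset ι} (x : ι)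
    (hcol : γ * ∑ y ∈ R, ‖Gm B V E η y x‖ ^ 2 ≤ Pm B V E η x x) :
    ∑ k ∈ R.erase x, Pm B V E η k k ≤ ∑ k ∈ R.erase x, Pm (cut B x) V E η k k + 1 / γ := by
  have h3 := SchurAux.ne_zero_of_diag B hB V E hη x
  have h3' : 0 < ‖Gm B V E η x x‖ := norm_pos_iff.2 h3
  have h1 : ∀ y ∈ R.erase x, Pm B V E η y y ≤ Pm (cut B x) V E η y y +
      ‖Gm B V E η y x‖ ^ 2 / ‖Gm B V E η x x‖ := by
    intro y hy
    have hy' : y ≠ x := Finset.ne_of_mem_erase hy
    have h2 := rank_one B hB hd V E hη x y y hy' hy'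
    have h4 : Pm B V E η y y = Pm (cut B x) V E η y y +
        (Gm B V E η y x * Gm B V E η x y / Gm B V E η x x).im := by
      unfold Pm
      rw [h2, Complex.add_im]
    have h5 : (Gm B V E η y x * Gm B V E η x y / Gm B V E η x x).im ≤
        ‖Gm B V E η y x‖ ^ 2 / ‖Gm B V E η x x‖ := by
      refine (le_abs_self _).trans ((Complex.abs_im_le_norm _).trans (le_of_eq ?_))
      rw [norm_div, norm_mul, Gm_symm B hB V E η x y, sq]
    rw [h4]
    linarith
  refine (Finset.sum_le_sum h1).trans ?_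
  rw [Finset.sum_add_distrib, ← Finset.sum_div]
  have h4 : ∑ y ∈ R.erase x, ‖Gm B V E η y x‖ ^ 2 ≤ ∑ y ∈ R, ‖Gm B V E η y x‖ ^ 2 :=
    Finset.sum_le_sum_of_subset_of_nonneg (Finset.erase_subset _ _) (fun _ _ _ => by positivity)
  have h5 : Pm B V E η x x ≤ ‖Gm B V E η x x‖ := by
    unfold Pm
    exact (le_abs_self _).trans (Complex.abs_im_le_norm _)
  have h6 : (∑ y ∈ R.erase x, ‖Gm B V E η y x‖ ^ 2) / ‖Gm B V E η x x‖ ≤ 1 / γ := by
    rw [div_le_div_iff₀ h3' hγ]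
    calc (∑ y ∈ R.erase x, ‖Gm B V E η y x‖ ^ 2) * γ
        ≤ (∑ y ∈ R, ‖Gm B V E η y x‖ ^ 2) * γ := mul_le_mul_of_nonneg_right h4 hγ.le
      _ = γ * ∑ y ∈ R, ‖Gm B V E η y x‖ ^ 2 := mul_comm _ _
      _ ≤ Pm B V E η x x := hcol
      _ ≤ ‖Gm B V E η x x‖ := h5
      _ = 1 * ‖Gm B V E η x x‖ := (one_mul _).symm
  linarith

theorem tr_cutS_empty (A : Matrix ι ι ℝ) : cutS A ∅ = A := by
  ext i j
  unfold cutS
  rw [if_neg (by simp)]

theorem trace_cut (A : Matrix ι ι ℝ) (hA : A.IsSymm) (hd : ∀ i, A i i = 0) (V : ι → ℝ) (E : ℝ)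
    {η γ : ℝ} (hη : 0 < η) (hγ : 0 < γ) {Q Q' : Finset ι} (h : Q ⊆ Q')
    (hD : Diss A V E η Q' γ) :
    ∑ k ∈ Q', Pm A V E η k k ≤ (∑ k ∈ Q' \ Q, Pm (cutS A Q) V E η k k) + 2 * Q.card / γ := by
  induction Q using Finset.induction_on with
  | empty =>
    rw [tr_cutS_empty, Finset.sdiff_empty, Finset.card_empty]
    simp
  | insert x Q hx ih =>
    have hxQ' : x ∈ Q' := h (Finset.mem_insert_self x Q)
    have hQ : Q ⊆ Q' := (Finset.subset_insert x Q).trans h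
    have h0 := ih hQ
    have hxR : x ∈ Q' \ Q := Finset.mem_sdiff.2 ⟨hxQ', hx⟩
    have hBs := cutS_symm A hA Q
    have hBd := cutS_diag A hd Q
    have hDB := diss_nest A V E η γ hQ hD
    have h1 := diag_le_of_diss (cutS A Q) hBs V E hη hγ (Q' \ Q) hDB x hxR
    have h2 := tr_diff (cutS A Q) hBs hBd V E hη hγ x
      (col_le_of_diss (cutS A Q) hBs V E hη (Q' \ Q) hDB x hxR)
    have h3 : Q' \ insert x Q = (Q' \ Q).erase x := by
      ext y
      rw [Finset.mem_sdiff, Finset.mem_erase, Finset.mem_sdiff, Finset.mem_insert]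
      tauto
    rw [h3, cutS_insert, Finset.card_insert_of_notMem hx]
    rw [← Finset.add_sum_erase _ _ hxR] at h0
    have h4 : (2 * ((Q.card + 1 : ℕ) : ℝ)) / γ = 2 * Q.card / γ + (1 / γ + 1 / γ) := by
      push_cast
      ring
    rw [h4]
    linarith

end finite

end H10PL
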