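import Pool.Agent.H10R2.AC.OneA
import Pool.Agent.H10R2.AC.En
import Pool.Agent.H10R2.AC.Nest
import Pool.Agent.H10R2.AC.Tr

/-! Task 4-ONE -/

namespace H10PL

open MeasureTheory ProbabilityTheory Matrix Set

variable {ι : Type*} [Fintype ι] [DecidableEq ι]

theorem step_incl (A : Matrix ι ι ℝ) (hA : A.IsSymm) (hd : ∀ i, A i i = 0) (V : ι → ℝ) (E : ℝ)
    {η γ γ' t Υ : ℝ} (hη : 0 < η) (hγ' : 0 < γ') {Q Q' near S : Finset ι} (h : Q ⊆ Q')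
    (hS : S ⊆ Q' \ Q) (_hn : ∀ k ∈ near, k ∉ Q) (hcov : Q' \ Q ⊆ near ∪ S)
    (hcard : 2 * Q.card / γ' ≤ t / 2) (hD : Diss A V E η Q' γ') (hnD : ¬ Diss A V E η Q γ) :
    (∑ k ∈ Q', Pm A V E η k k < 2 * t) ∨ (t / 2 ≤ ∑ k ∈ near, Pm (cutS A Q) V E η k k) ∨
      (Υ < trY A V E η Q) ∨
      ((∀ φ : ι → ℝ, (∀ k, k ∉ S → φ k = 0) →
        qf (Pm (cutS A Q) V E η) φ ≤ (∑ i, φ i ^ 2) / γ') ∧
        t ≤ ∑ k ∈ S, Pm (cutS A Q) V E η k k ∧ trY A V E η Q ≤ Υ ∧ ¬ Diss A V E η Q γ) := by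
  have hs := cutS_symm A hA Q
  refine one_step_incl_of A V E hη hS hcov hcard hnD hs ?_ (trace_cut A hA hd V E hη hγ' h hD)
  intro φ hφ
  exact qf_le_of_diss (cutS A Q) hs V E hη hγ' (Q' \ Q) (diss_nest A V E η γ' h hD) φ hφ

end H10PL
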