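import Pool.Agent.H10R2.AC.Ch1
import Pool.Agent.H10R2.AC.En
import Pool.Agent.H10R2.AC.One
import Pool.Agent.H10R2.AC.Fm
import Pool.Agent.H10R2.AC.Lat4

/-!
One step of the chain of scales at a fixed site, without any density of the potential:
on the event that the big block dissipates, the local density of states is bounded.
-/

namespace H10PL

open MeasureTheory ProbabilityTheory Matrix Set

section finite

variable {ι : Type*} [Fintype ι] [DecidableEq ι]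

theorem cb_biUnion_le (f : ι → ℝ) (hf : ∀ k, 0 ≤ f k) (S : ℕ → Finset ι) (n : ℕ) :
    ∑ k ∈ (Finset.range n).biUnion S, f k ≤ ∑ i ∈ Finset.range n, ∑ k ∈ S i, f k := by
  induction n with
  | zero => simp
  | succ n ih =>
    rw [Finset.sum_range_succ, Finset.range_add_one, Finset.biUnion_insert]
    have h5 := Finset.sum_union_inter (s₁ := S n) (s₂ := (Finset.range n).biUnion S) (f := f)
    have h4 : 0 ≤ ∑ k ∈ S n ∩ (Finset.range n).biUnion S, f k :=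
      Finset.sum_nonneg (fun k _ => hf k)
    linarith

/-- deterministic inclusion with several shells -/
theorem cb_incl (A : Matrix ι ι ℝ) (hA : A.IsSymm) (hd : ∀ i, A i i = 0) (V : ι → ℝ) (E : ℝ)
    {η γ γ' t Υ : ℝ} (hη : 0 < η) (hγ' : 0 < γ') {Q Q' near : Finset ι} (h : Q ⊆ Q') {n : ℕ}
    (hn : 0 < n) (S : ℕ → Finset ι) (hS : ∀ i, S i ⊆ Q' \ Q) (hnear : near ⊆ Q' \ Q)
    (hcov : Q' \ Q ⊆ near ∪ (Finset.range n).biUnion S)
    (hcard : 2 * Q.card / γ' ≤ t / 2) (hcard2 : near.card / γ' ≤ t / 2)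
    (hD : Diss A V E η Q' γ') (hnD : ¬ Diss A V E η Q γ) :
    (∑ k ∈ Q', Pm A V E η k k < 2 * t) ∨ (Υ < trY A V E η Q) ∨
      ∃ i < n, ((∀ φ : ι → ℝ, (∀ k, k ∉ S i → φ k = 0) →
        qf (Pm (cutS A Q) V E η) φ ≤ (∑ i, φ i ^ 2) / γ') ∧
        t / n ≤ ∑ k ∈ S i, Pm (cutS A Q) V E η k k ∧ trY A V E η Q ≤ Υ ∧
          ¬ Diss A V E η Q γ) := by
  by_cases h1 : ∑ k ∈ Q', Pm A V E η k k < 2 * t
  · exact Or.inl h1
  by_cases h2 : Υ < trY A V E η Q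
  · exact Or.inr (Or.inl h2)
  refine Or.inr (Or.inr ?_)
  have hs := cutS_symm A hA Q
  have hD' : Diss (cutS A Q) V E η (Q' \ Q) γ' := diss_nest A V E η γ' h hD
  have htr := trace_cut A hA hd V E hη hγ' h hD
  have hpos : ∀ k, 0 ≤ Pm (cutS A Q) V E η k k := fun k => (Pm_diag_pos _ hs V E hη k).le
  have hnear1 : ∑ k ∈ near, Pm (cutS A Q) V E η k k ≤ t / 2 := by
    calc ∑ k ∈ near, Pm (cutS A Q) V E η k k ≤ ∑ _k ∈ near, 1 / γ' :=
          Finset.sum_le_sum fun k hk => diag_le_of_diss (cutS A Q) hs V E hη hγ' _ hD' k (hnear hk)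
      _ = near.card / γ' := by rw [Finset.sum_const, nsmul_eq_mul, mul_one_div]
      _ ≤ t / 2 := hcard2
  have hU : t ≤ ∑ k ∈ (Finset.range n).biUnion S, Pm (cutS A Q) V E η k k := by
    have h3 : ∑ k ∈ Q' \ Q, Pm (cutS A Q) V E η k k ≤
        ∑ k ∈ near, Pm (cutS A Q) V E η k k +
          ∑ k ∈ (Finset.range n).biUnion S, Pm (cutS A Q) V E η k k := by
      refine (Finset.sum_le_sum_of_subset_of_nonneg hcov (fun k _ _ => hpos k)).trans ?_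
      have h4 : 0 ≤ ∑ k ∈ near ∩ (Finset.range n).biUnion S, Pm (cutS A Q) V E η k k :=
        Finset.sum_nonneg (fun k _ => hpos k)
      have h5 := Finset.sum_union_inter (s₁ := near) (s₂ := (Finset.range n).biUnion S)
        (f := fun k => Pm (cutS A Q) V E η k k)
      linarith
    rw [not_lt] at h1
    linarith
  have hpig : ∃ i ∈ Finset.range n, t / n ≤ ∑ k ∈ S i, Pm (cutS A Q) V E η k k := by
    by_contra hcon
    push Not at hcon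
    have hne : (Finset.range n).Nonempty := ⟨0, Finset.mem_range.2 hn⟩
    have hn0 : (0 : ℝ) < n := by exact_mod_cast hn
    have h6 : ∑ i ∈ Finset.range n, ∑ k ∈ S i, Pm (cutS A Q) V E η k k < t := by
      calc ∑ i ∈ Finset.range n, ∑ k ∈ S i, Pm (cutS A Q) V E η k k
          < ∑ _i ∈ Finset.range n, t / n := Finset.sum_lt_sum_of_nonempty hne hcon
        _ = t := by
          rw [Finset.sum_const, Finset.card_range, nsmul_eq_mul]
          field_simp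
    have h7 : ∑ k ∈ (Finset.range n).biUnion S, Pm (cutS A Q) V E η k k ≤
        ∑ i ∈ Finset.range n, ∑ k ∈ S i, Pm (cutS A Q) V E η k k :=
      cb_biUnion_le _ hpos S n
    linarith
  obtain ⟨i, hi, hi2⟩ := hpig
  refine ⟨i, Finset.mem_range.1 hi, ?_, hi2, not_lt.1 h2, hnD⟩
  intro φ hφ
  exact qf_le_of_diss (cutS A Q) hs V E hη hγ' (Q' \ Q) hD' φ
    (fun k hk => hφ k (fun hkS => hk (hS i hkS)))

end finite

section lattice

variable {d : ℕ} {T0 : (Fin d → ℤ) → (Fin d → ℤ) → ℝ} {κ : (Fin d → ℤ) → ℝ} {ρ0 b : ℝ}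

theorem cb_union {α : Type*} [MeasurableSpace α] (ν : Measure α) (E : ℕ → Set α) (n : ℕ)
    (B : ENNReal) (h : ∀ i < n, ν (E i) ≤ B) :
    ν (⋃ i ∈ Finset.range n, E i) ≤ n * B := by
  refine (measure_biUnion_finset_le _ _).trans ?_
  calc ∑ i ∈ Finset.range n, ν (E i) ≤ ∑ _i ∈ Finset.range n, B :=
        Finset.sum_le_sum fun i hi => h i (Finset.mem_range.1 hi)
    _ = n * B := by rw [Finset.sum_const, Finset.card_range, nsmul_eq_mul]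

theorem cb_site (h : Adm T0 κ ρ0 b) (μ : Measure ℝ) [IsProbabilityMeasure μ] (ρ : ℝ)
    (Λ : Finset (Fin d → ℤ)) (x : Λ) {Q Q' near : Finset Λ} (hx : x ∈ Q) (hQ : Q ⊆ Q')
    {n : ℕ} (hn : 0 < n) (S : ℕ → Finset Λ) (hS : ∀ i, S i ⊆ Q' \ Q) (hnear : near ⊆ Q' \ Q)
    (hcov : Q' \ Q ⊆ near ∪ (Finset.range n).biUnion S)
    {k0 κ0 γ γ' t Υ K η : ℝ} (hk0 : 0 < k0) (hκ0 : 0 < κ0) (hγ : 0 < γ) (hγ' : 0 < γ')
    (ht : 0 < t) (hγΥ : γ ≤ Υ) (h64 : 64 * γ ≤ k0 ^ 2 * (t / n)) (hK : 0 < K) (hη : 0 < η)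
    (hcard : 2 * Q.card / γ' ≤ t / 2) (hcard2 : near.card / γ' ≤ t / 2)
    (hρ : ∀ k ∈ Q', ∀ i ∈ Q, ‖(k : Fin d → ℤ) - (i : Fin d → ℤ)‖ ≤ ρ)
    (kk : ℕ → ℝ) (hkk : ∀ i < n, k0 ≤ kk i)
    (hκ : ∀ i < n, ∀ k ∈ S i, ∀ j ∈ Q, kk i ≤ |κ ((k : Fin d → ℤ) - (j : Fin d → ℤ))| ∧
      |κ ((k : Fin d → ℤ) - (j : Fin d → ℤ))| ≤ kk i / κ0)
    (m : ℕ) (hm : Real.sqrt (Q.card * Υ / γ) + 1 ≤ m) :
    ∫⁻ p in {p : (ℝ × (Λ → ℝ)) × (Sym2 (Fin d → ℤ) → Bool) |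
        Diss (Am T0 κ ρ Λ p.2) p.1.2 p.1.1 η Q' γ' ∧
        ¬ Diss (Am T0 κ ρ Λ p.2) p.1.2 p.1.1 η Q γ},
        ENNReal.ofReal (PF T0 κ ρ η Λ x p) ∂(M0 d μ Λ K) ≤
      ∫⁻ p in {p : (ℝ × (Λ → ℝ)) × (Sym2 (Fin d → ℤ) → Bool) |
        ∑ k ∈ Q', Pm (Am T0 κ ρ Λ p.2) p.1.2 p.1.1 η k k < 2 * t},
        ENNReal.ofReal (PF T0 κ ρ η Λ x p) ∂(M0 d μ Λ K) +
      ENNReal.ofReal (1 / γ' * (Q.card * (2 * K * η + Real.pi * aC b κ) / Υ +
        n * (2 * K * ((2 * m + 1) ^ Q.card * Real.exp (-(κ0 ^ 2 * γ' * (t / n) / 16)))))) := by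
  classical
  have hΥ : 0 < Υ := lt_of_lt_of_le hγ hγΥ
  have hn0 : (0 : ℝ) < n := by exact_mod_cast hn
  have haC : 0 ≤ aC b κ := by
    unfold aC
    have h1 : 0 ≤ ∑' z : Fin d → ℤ, κ z ^ 2 := tsum_nonneg (fun z => sq_nonneg (κ z))
    positivity
  set E0 : Set ((ℝ × (Λ → ℝ)) × (Sym2 (Fin d → ℤ) → Bool)) := {p |
        Diss (Am T0 κ ρ Λ p.2) p.1.2 p.1.1 η Q' γ' ∧
        ¬ Diss (Am T0 κ ρ Λ p.2) p.1.2 p.1.1 η Q γ} with hE0
  set Ea : Set ((ℝ × (Λ → ℝ)) × (Sym2 (Fin d → ℤ) → Bool)) := {p |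
    ∑ k ∈ Q', Pm (Am T0 κ ρ Λ p.2) p.1.2 p.1.1 η k k < 2 * t} with hEa
  set Ec : Set ((ℝ × (Λ → ℝ)) × (Sym2 (Fin d → ℤ) → Bool)) := {p |
    Υ < trY (Am T0 κ ρ Λ p.2) p.1.2 p.1.1 η Q} with hEc
  set Ed : ℕ → Set ((ℝ × (Λ → ℝ)) × (Sym2 (Fin d → ℤ) → Bool)) := fun i => {p |
    (∀ φ : Λ → ℝ, (∀ k, k ∉ S i → φ k = 0) →
        qf (Pm (cutS (Am T0 κ ρ Λ p.2) Q) p.1.2 p.1.1 η) φ ≤ (∑ i, φ i ^ 2) / γ') ∧
        t / n ≤ ∑ k ∈ S i, Pm (cutS (Am T0 κ ρ Λ p.2) Q) p.1.2 p.1.1 η k k ∧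
        trY (Am T0 κ ρ Λ p.2) p.1.2 p.1.1 η Q ≤ Υ ∧
        ¬ Diss (Am T0 κ ρ Λ p.2) p.1.2 p.1.1 η Q γ} with hEd
  have hm0 : MeasurableSet E0 := (diss_meas h ρ η γ' Λ Q').inter (diss_meas h ρ η γ Λ Q).compl
  have hmc : MeasurableSet Ec := measurableSet_lt measurable_const (trY_meas h ρ η Λ Q)
  have hmd : ∀ i, MeasurableSet (Ed i) := by
    intro i
    refine MeasurableSet.inter (norm_meas h ρ η γ' Λ Q (S i)) ?_
    refine MeasurableSet.inter (measurableSet_le measurable_const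
      (Finset.measurable_sum _ fun k _ => cutSPm_meas h ρ η Λ Q k k)) ?_
    refine MeasurableSet.inter (measurableSet_le (trY_meas h ρ η Λ Q) measurable_const) ?_
    exact (diss_meas h ρ η γ Λ Q).compl
  -- inclusion
  have hincl : E0 ⊆ Ea ∪ (E0 ∩ (Ec ∪ ⋃ i ∈ Finset.range n, Ed i)) := by
    rintro p ⟨h1, h2⟩
    rcases cb_incl (Am T0 κ ρ Λ p.2) (Am_symm h ρ Λ p.2) (Am_diag h ρ Λ p.2) p.1.2 p.1.1 hη hγ'
      hQ hn S hS hnear hcov hcard hcard2 h1 h2 (Υ := Υ) with h3 | h3 | ⟨i, hi, h3⟩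
    · exact Or.inl h3
    · exact Or.inr ⟨⟨h1, h2⟩, Or.inl h3⟩
    · exact Or.inr ⟨⟨h1, h2⟩, Or.inr (Set.mem_biUnion (Finset.mem_coe.2 (Finset.mem_range.2 hi))
        h3)⟩
  have hMc : (M0 d μ Λ K) Ec ≤
      ENNReal.ofReal (Q.card * (2 * K * η + Real.pi * aC b κ) / Υ) := by
    have h1 := trY_mass h μ ρ Λ Q hK hη
    have hmeas : AEMeasurable (fun p : (ℝ × (Λ → ℝ)) × (Sym2 (Fin d → ℤ) → Bool) =>
        ENNReal.ofReal (trY (Am T0 κ ρ Λ p.2) p.1.2 p.1.1 η Q))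
        (M0 d μ Λ K) := (ENNReal.measurable_ofReal.comp (trY_meas h ρ η Λ Q)).aemeasurable
    have h2 := mul_meas_ge_le_lintegral₀ hmeas (ENNReal.ofReal Υ)
    have h3 : Ec ⊆ {p | ENNReal.ofReal Υ ≤
        ENNReal.ofReal (trY (Am T0 κ ρ Λ p.2) p.1.2 p.1.1 η Q)} :=
      fun p hp => ENNReal.ofReal_le_ofReal (le_of_lt hp)
    rw [ENNReal.ofReal_div_of_pos hΥ]
    rw [ENNReal.le_div_iff_mul_le (Or.inl (by simp [hΥ])) (Or.inl ENNReal.ofReal_ne_top), mul_comm]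
    exact (mul_le_mul_right (measure_mono h3) _).trans (h2.trans h1)
  have hMd : ∀ i < n, (M0 d μ Λ K) (Ed i) ≤ ENNReal.ofReal (2 * K * ((2 * m + 1) ^ Q.card *
        Real.exp (-(κ0 ^ 2 * γ' * (t / n) / 16)))) := by
    intro i hi
    have hki : 0 < kk i := lt_of_lt_of_le hk0 (hkk i hi)
    have h1 := lat_step h μ ρ Λ Q (S i) (fun k hk => (Finset.mem_sdiff.1 (hS i hk)).2)
      (k1 := kk i) (k2 := kk i / κ0) (tr := t / n) hki hγ hγ' (by positivity) hγΥ (by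
        refine h64.trans ?_
        have : k0 ^ 2 ≤ kk i ^ 2 := pow_le_pow_left₀ hk0.le (hkk i hi) 2
        exact mul_le_mul_of_nonneg_right this (by positivity)) hK hη
      (fun k hk j hj => hρ k (Finset.mem_sdiff.1 (hS i hk)).1 j hj) (hκ i hi) m hm
    have h2 : kk i / (kk i / κ0) = κ0 := by field_simp
    rw [h2] at h1
    exact h1
  have hMd2 := cb_union (M0 d μ Λ K) Ed n _ hMd
  have hp1 : 0 ≤ Q.card * (2 * K * η + Real.pi * aC b κ) / Υ := by positivity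
  have hp3 : 0 ≤ 2 * K * ((2 * (m : ℝ) + 1) ^ Q.card *
        Real.exp (-(κ0 ^ 2 * γ' * (t / n) / 16))) := by positivity
  calc ∫⁻ p in E0, ENNReal.ofReal (PF T0 κ ρ η Λ x p) ∂(M0 d μ Λ K)
      ≤ ∫⁻ p in Ea ∪ (E0 ∩ (Ec ∪ ⋃ i ∈ Finset.range n, Ed i)),
        ENNReal.ofReal (PF T0 κ ρ η Λ x p) ∂(M0 d μ Λ K) := lintegral_mono_set hincl
    _ ≤ ∫⁻ p in Ea, ENNReal.ofReal (PF T0 κ ρ η Λ x p) ∂(M0 d μ Λ K) +
        ∫⁻ p in E0 ∩ (Ec ∪ ⋃ i ∈ Finset.range n, Ed i),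
          ENNReal.ofReal (PF T0 κ ρ η Λ x p) ∂(M0 d μ Λ K) := lintegral_union_le _ _ _
    _ ≤ _ := by
        refine add_le_add le_rfl ?_
        calc ∫⁻ p in E0 ∩ (Ec ∪ ⋃ i ∈ Finset.range n, Ed i),
              ENNReal.ofReal (PF T0 κ ρ η Λ x p) ∂(M0 d μ Λ K)
            ≤ ∫⁻ p in E0 ∩ (Ec ∪ ⋃ i ∈ Finset.range n, Ed i),
              ENNReal.ofReal (1 / γ') ∂(M0 d μ Λ K) := by
              refine setLIntegral_mono' (hm0.inter (hmc.union (MeasurableSet.biUnion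
                (Finset.countable_toSet _) fun i _ => hmd i))) ?_
              intro p hp
              exact ENNReal.ofReal_le_ofReal (diag_le_of_diss (Am T0 κ ρ Λ p.2)
                (Am_symm h ρ Λ p.2) p.1.2 p.1.1 hη hγ' Q' hp.1.1 x (hQ hx))
          _ ≤ ENNReal.ofReal (1 / γ') * (M0 d μ Λ K) (Ec ∪ ⋃ i ∈ Finset.range n, Ed i) := by
              rw [setLIntegral_const]
              exact mul_le_mul_right (measure_mono Set.inter_subset_right) _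
          _ ≤ ENNReal.ofReal (1 / γ') *
              (ENNReal.ofReal (Q.card * (2 * K * η + Real.pi * aC b κ) / Υ) +
              n * ENNReal.ofReal (2 * K * ((2 * m + 1) ^ Q.card *
                Real.exp (-(κ0 ^ 2 * γ' * (t / n) / 16))))) := by
              refine mul_le_mul_right ?_ _
              exact (measure_union_le _ _).trans (add_le_add hMc hMd2)
          _ = _ := by
              rw [← ENNReal.ofReal_natCast n, ← ENNReal.ofReal_mul (by positivity),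
                ← ENNReal.ofReal_add (by positivity) (by positivity),
                ← ENNReal.ofReal_mul (by positivity)]

end lattice

end H10PL
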