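import Pool.Agent.H10R2.AC.Defs4

/-!
Geometry of the standard cubes (task 4-GEO).
-/

set_option autoImplicit false

namespace H10PL

open MeasureTheory ProbabilityTheory Matrix Set Filter

section geo

variable {d : ℕ}

theorem cube_card (l : ℕ) (x : Fin d → ℤ) : (cubeF l x).card = l ^ d := by
  unfold cubeF
  rw [Fintype.card_piFinset]
  simp [Int.card_Ico]

theorem geo_mem {l : ℕ} (hl : 0 < l) {x y : Fin d → ℤ} :
    y ∈ cubeF l x ↔ ∀ i, y i / (l : ℤ) = x i / (l : ℤ) := by
  unfold cubeF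
  rw [Fintype.mem_piFinset]
  have hl' : (0 : ℤ) < l := by exact_mod_cast hl
  refine forall_congr' fun i => ?_
  rw [Finset.mem_Ico]
  constructor
  · rintro ⟨h1, h2⟩
    apply le_antisymm
    · rw [← Int.lt_add_one_iff, Int.ediv_lt_iff_lt_mul hl']
      linarith
    · rw [Int.le_ediv_iff_mul_le hl']
      linarith
  · intro h
    rw [← h]
    have h1 := Int.mul_ediv_add_emod (y i) l
    have h2 := Int.emod_nonneg (y i) hl'.ne'
    have h3 := Int.emod_lt_of_pos (y i) hl'
    constructor <;> linarith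

theorem mem_cube (l : ℕ) (hl : 0 < l) (x : Fin d → ℤ) : x ∈ cubeF l x :=
  (geo_mem hl).2 fun _ => rfl

theorem cube_sub {l l' : ℕ} (hl : 0 < l) (hl' : 0 < l') (h : l ∣ l') (x : Fin d → ℤ) :
    cubeF l x ⊆ cubeF l' x := by
  obtain ⟨q, rfl⟩ := h
  intro y hy
  rw [geo_mem hl] at hy
  rw [geo_mem hl']
  intro i
  push_cast
  rw [← Int.ediv_ediv_of_nonneg (by positivity), ← Int.ediv_ediv_of_nonneg (by positivity), hy i]

theorem cube_eq {l : ℕ} (hl : 0 < l) {x y : Fin d → ℤ} (h : y ∈ cubeF l x) :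
    cubeF l y = cubeF l x := by
  rw [geo_mem hl] at h
  ext z
  rw [geo_mem hl, geo_mem hl]
  exact forall_congr' fun i => by rw [h i]

theorem cube_dist {l : ℕ} {x y w : Fin d → ℤ} (hy : y ∈ cubeF l x) (hw : w ∈ cubeF l x) :
    ‖y - w‖ ≤ l := by
  rw [pi_norm_le_iff_of_nonneg (by positivity)]
  intro i
  unfold cubeF at hy hw
  have h1 := Finset.mem_Ico.1 (Fintype.mem_piFinset.1 hy i)
  have h2 := Finset.mem_Ico.1 (Fintype.mem_piFinset.1 hw i)
  have h3 : |y i - w i| ≤ (l : ℤ) := by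
    rw [abs_le]
    constructor <;> linarith [h1.1, h1.2, h2.1, h2.2]
  rw [Pi.sub_apply, Int.norm_eq_abs]
  exact_mod_cast h3

theorem near_card (l : ℕ) {r : ℝ} (hr : 0 ≤ r) (x : Fin d → ℤ) (F : Finset (Fin d → ℤ))
    (hF : ∀ k ∈ F, ∃ i ∈ cubeF l x, ‖k - i‖ ≤ r) : (F.card : ℝ) ≤ (l + 2 * r + 1) ^ d := by
  classical
  set a : Fin d → ℤ := fun i => (l : ℤ) * (x i / l) with ha
  have hsub : F ⊆ Fintype.piFinset fun i => Finset.Icc ⌈(a i : ℝ) - r⌉ ⌊(a i : ℝ) + l + r⌋ := by
    intro k hk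
    obtain ⟨j, hj, hkj⟩ := hF k hk
    rw [Fintype.mem_piFinset]
    intro i
    have h1 := Finset.mem_Ico.1 (Fintype.mem_piFinset.1 hj i)
    have h2 : |((k i - j i : ℤ) : ℝ)| ≤ r := by
      have := (norm_le_pi_norm (k - j) i).trans hkj
      rwa [Pi.sub_apply, Int.norm_eq_abs] at this
    push_cast at h2
    rw [abs_le] at h2
    have h3 : (a i : ℝ) ≤ j i := by exact_mod_cast h1.1
    have h4 : (j i : ℝ) < a i + l := by exact_mod_cast h1.2
    rw [Finset.mem_Icc, Int.ceil_le, Int.le_floor]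
    constructor <;> linarith [h2.1, h2.2]
  have hcard : (F.card : ℝ) ≤
      ∏ i : Fin d, ((Finset.Icc ⌈(a i : ℝ) - r⌉ ⌊(a i : ℝ) + l + r⌋).card : ℝ) := by
    have := Finset.card_le_card hsub
    rw [Fintype.card_piFinset] at this
    exact_mod_cast this
  refine hcard.trans ?_
  calc _ ≤ ∏ _i : Fin d, ((l : ℝ) + 2 * r + 1) := by
        refine Finset.prod_le_prod (fun i _ => by positivity) fun i _ => ?_
        rw [Int.card_Icc]
        have h0 : (0 : ℝ) ≤ (l : ℝ) + 2 * r + 1 := by positivity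
        have h1 : ((⌊(a i : ℝ) + l + r⌋ + 1 - ⌈(a i : ℝ) - r⌉ : ℤ) : ℝ) ≤ (l : ℝ) + 2 * r + 1 := by
          push_cast
          have e1 := Int.floor_le ((a i : ℝ) + l + r)
          have e2 := Int.le_ceil ((a i : ℝ) - r)
          linarith
        have h2 : ((⌊(a i : ℝ) + l + r⌋ + 1 - ⌈(a i : ℝ) - r⌉).toNat : ℝ) =
            max ((⌊(a i : ℝ) + l + r⌋ + 1 - ⌈(a i : ℝ) - r⌉ : ℤ) : ℝ) 0 := by
          rw [← Int.cast_natCast, Int.toNat_eq_max]
          push_cast
          rfl
        rw [h2]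
        exact max_le h1 h0
    _ = ((l : ℝ) + 2 * r + 1) ^ d := by simp

open Classical in
theorem regroup {l R : ℕ} (hl : 0 < l) (hR : 0 < R) (h : l ∣ R) (P : (Fin d → ℤ) → ℝ)
    (hP : ∀ x, 0 ≤ P x) {t : ℝ} (ht : 0 ≤ t) :
    (∑ x ∈ cubeF R 0, if ∑ y ∈ cubeF l x, P y < t then P x else 0) ≤
      t * ((R : ℝ) / l) ^ d := by
  have hl' : (0 : ℤ) < l := by exact_mod_cast hl
  set f : (Fin d → ℤ) → (Fin d → ℤ) := fun x i => x i / (l : ℤ) with hf
  set T : Finset (Fin d → ℤ) := Fintype.piFinset fun _ : Fin d => Finset.Ico (0 : ℤ) ((R / l : ℕ) : ℤ)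
    with hT
  have hmaps : ∀ x ∈ (cubeF R 0 : Finset (Fin d → ℤ)), f x ∈ T := by
    intro x hx
    rw [hT, Fintype.mem_piFinset]
    intro i
    have h1 := Finset.mem_Ico.1 (Fintype.mem_piFinset.1 hx i)
    simp only [Pi.zero_apply, Int.zero_ediv, mul_zero, zero_add] at h1
    rw [Finset.mem_Ico]
    obtain ⟨q, rfl⟩ := h
    constructor
    · exact Int.ediv_nonneg h1.1 hl'.le
    · rw [Nat.mul_div_cancel_left _ hl, Int.ediv_lt_iff_lt_mul hl']
      have := h1.2
      push_cast at this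
      linarith
  rw [← Finset.sum_fiberwise_of_maps_to hmaps]
  have hfib : ∀ z ∈ T, (∑ x ∈ (cubeF R 0).filter (fun x => f x = z),
      if ∑ y ∈ cubeF l x, P y < t then P x else 0) ≤ t := by
    intro z _
    rcases Finset.eq_empty_or_nonempty ((cubeF R 0 : Finset (Fin d → ℤ)).filter (fun x => f x = z)) with he | ⟨x0, hx0⟩
    · rw [he, Finset.sum_empty]; exact ht
    · have hx0' := (Finset.mem_filter.1 hx0).2
      have hcube : ∀ x ∈ (cubeF R 0 : Finset (Fin d → ℤ)).filter (fun x => f x = z),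
          x ∈ cubeF l x0 := by
        intro x hx
        rw [geo_mem hl]
        intro i
        have := (Finset.mem_filter.1 hx).2
        rw [← hx0'] at this
        exact congrFun this i
      by_cases hc : ∑ y ∈ cubeF l x0, P y < t
      · calc (∑ x ∈ (cubeF R 0).filter (fun x => f x = z),
              if ∑ y ∈ cubeF l x, P y < t then P x else 0)
            ≤ ∑ x ∈ (cubeF R 0).filter (fun x => f x = z), P x := by
              refine Finset.sum_le_sum fun x _ => ?_
              split_ifs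
              · exact le_rfl
              · exact hP x
          _ ≤ ∑ x ∈ cubeF l x0, P x :=
              Finset.sum_le_sum_of_subset_of_nonneg hcube fun x _ _ => hP x
          _ ≤ t := hc.le
      · rw [Finset.sum_eq_zero]
        · exact ht
        · intro x hx
          rw [cube_eq hl (hcube x hx), if_neg hc]
  calc _ ≤ ∑ z ∈ T, t := Finset.sum_le_sum hfib
    _ = t * ((R : ℝ) / l) ^ d := by
      have hTc : T.card = (R / l) ^ d := by
        rw [hT, Fintype.card_piFinset]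
        simp only [Int.card_Ico, sub_zero, Int.toNat_natCast, Finset.prod_const, Finset.card_univ,
          Fintype.card_fin]
      rw [Finset.sum_const, nsmul_eq_mul, mul_comm, hTc]
      push_cast [Nat.cast_div h (show ((l : ℕ) : ℝ) ≠ 0 by exact_mod_cast hl.ne')]
      rfl

end geo

end H10PL
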