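import Pool.Agent.H10R2.AC.Cb2
import Pool.Agent.H10R2.AC.Geo

/-!
One step of the chain of scales, summed over the sites of a big cube (density free version).
-/

namespace H10PL

open MeasureTheory ProbabilityTheory Matrix Set

variable {d : ℕ} {T0 : (Fin d → ℤ) → (Fin d → ℤ) → ℝ} {κ : (Fin d → ℤ) → ℝ} {ρ0 b : ℝ}

theorem cb_step (h : Adm T0 κ ρ0 b) (μ : Measure ℝ) [IsProbabilityMeasure μ] (ρ : ℝ)
    (Λ : Finset (Fin d → ℤ)) {l l' R : ℕ} (hl : 0 < l) (hl' : 0 < l') (hR : 0 < R)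
    (hll' : l ∣ l') (hl'R : l' ∣ R) (hΛ : cubeF R 0 ⊆ Λ) (hρ : (R : ℝ) ≤ ρ)
    {n : ℕ} (hn : 0 < n) (r : ℕ → ℝ) (hr0 : r 0 = l') (hrn : r n = l) (hrl : ∀ i ≤ n, l ≤ r i)
    (hrl' : ∀ i ≤ n, r i ≤ l')
    {k0 κ0 γ γ' t Υ K η : ℝ} (hk0 : 0 < k0) (hκ0 : 0 < κ0) (hγ : 0 < γ) (hγ' : 0 < γ')
    (ht : 0 < t) (hγΥ : γ ≤ Υ) (h64 : 64 * γ ≤ k0 ^ 2 * (t / n)) (hK : 0 < K) (hη : 0 < η)
    (hcard : 2 * (l : ℝ) ^ d / γ' ≤ t / 2) (hcard2 : (4 * (l : ℝ)) ^ d / γ' ≤ t / 2)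
    (kk : ℕ → ℝ) (hkk : ∀ i < n, k0 ≤ kk i)
    (hκ1 : ∀ i < n, ∀ y : Fin d → ℤ, y ≠ 0 → ‖y‖ ≤ 2 * r i → kk i ≤ |κ y|)
    (hκ2 : ∀ i < n, ∀ y : Fin d → ℤ, r (i + 1) < ‖y‖ → |κ y| ≤ kk i / κ0)
    (m : ℕ) (hm : Real.sqrt ((l : ℝ) ^ d * Υ / γ) + 1 ≤ m) :
    ∑ x ∈ inΛ Λ (cubeF R 0), ∫⁻ p in {p : (ℝ × (Λ → ℝ)) × (Sym2 (Fin d → ℤ) → Bool) |
        Diss (Am T0 κ ρ Λ p.2) p.1.2 p.1.1 η (inΛ Λ (cubeF l' (x : Fin d → ℤ))) γ' ∧
        ¬ Diss (Am T0 κ ρ Λ p.2) p.1.2 p.1.1 η (inΛ Λ (cubeF l (x : Fin d → ℤ))) γ},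
        ENNReal.ofReal (PF T0 κ ρ η Λ x p) ∂(M0 d μ Λ K) ≤
      ENNReal.ofReal ((R : ℝ) ^ d * (2 * K * (2 * t / (l' : ℝ) ^ d) +
        1 / γ' * ((l : ℝ) ^ d * (2 * K * η + Real.pi * aC b κ) / Υ +
        n * (2 * K * ((2 * m + 1) ^ (l ^ d) *
          Real.exp (-(κ0 ^ 2 * γ' * (t / n) / 16))))))) := by
  classical
  have haC : 0 ≤ aC b κ := by
    unfold aC
    have h1 : 0 ≤ ∑' z : Fin d → ℤ, κ z ^ 2 := tsum_nonneg (fun z => sq_nonneg (κ z))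
    positivity
  have hΥ : 0 < Υ := lt_of_lt_of_le hγ hγΥ
  obtain ⟨B, hB⟩ : ∃ B : ℝ, B = 1 / γ' * ((l : ℝ) ^ d * (2 * K * η + Real.pi * aC b κ) / Υ +
        n * (2 * K * ((2 * m + 1) ^ (l ^ d) *
          Real.exp (-(κ0 ^ 2 * γ' * (t / n) / 16))))) := ⟨_, rfl⟩
  have hl0 : (0 : ℝ) < l := by exact_mod_cast hl
  have hl'0 : (0 : ℝ) < l' := by exact_mod_cast hl'
  have hB0 : 0 ≤ B := by rw [hB]; positivity
  have hsite : ∀ x ∈ inΛ Λ (cubeF R 0),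
      ∫⁻ p in {p : (ℝ × (Λ → ℝ)) × (Sym2 (Fin d → ℤ) → Bool) |
        Diss (Am T0 κ ρ Λ p.2) p.1.2 p.1.1 η (inΛ Λ (cubeF l' (x : Fin d → ℤ))) γ' ∧
        ¬ Diss (Am T0 κ ρ Λ p.2) p.1.2 p.1.1 η (inΛ Λ (cubeF l (x : Fin d → ℤ))) γ},
        ENNReal.ofReal (PF T0 κ ρ η Λ x p) ∂(M0 d μ Λ K) ≤
      ∫⁻ p in {p : (ℝ × (Λ → ℝ)) × (Sym2 (Fin d → ℤ) → Bool) |
        ∑ k ∈ inΛ Λ (cubeF l' (x : Fin d → ℤ)),
          Pm (Am T0 κ ρ Λ p.2) p.1.2 p.1.1 η k k < 2 * t},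
        ENNReal.ofReal (PF T0 κ ρ η Λ x p) ∂(M0 d μ Λ K) + ENNReal.ofReal B := by
    intro x hx
    have hx' : (x : Fin d → ℤ) ∈ cubeF R 0 := (ch_mem_inΛ Λ _ x).1 hx
    have hcubeR : cubeF R (x : Fin d → ℤ) = cubeF R 0 := cube_eq hR hx'
    have hsub' : cubeF l' (x : Fin d → ℤ) ⊆ cubeF R 0 := by
      rw [← hcubeR]; exact cube_sub hl' hR hl'R _
    have hsub : cubeF l (x : Fin d → ℤ) ⊆ cubeF l' (x : Fin d → ℤ) := cube_sub hl hl' hll' _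
    obtain ⟨Q, hQ⟩ : ∃ Q, Q = inΛ Λ (cubeF l (x : Fin d → ℤ)) := ⟨_, rfl⟩
    obtain ⟨Q', hQ'⟩ : ∃ Q', Q' = inΛ Λ (cubeF l' (x : Fin d → ℤ)) := ⟨_, rfl⟩
    obtain ⟨near, hnear⟩ : ∃ near : Finset Λ, near = (Q' \ Q).filter
      (fun k : Λ => ∃ i ∈ Q, ‖(k : Fin d → ℤ) - (i : Fin d → ℤ)‖ ≤ l) := ⟨_, rfl⟩
    obtain ⟨S, hS⟩ : ∃ S : ℕ → Finset Λ, S = fun i => (Q' \ Q).filter
      (fun k : Λ => (∀ j ∈ Q, r (i + 1) < ‖(k : Fin d → ℤ) - (j : Fin d → ℤ)‖) ∧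
        ∃ j ∈ Q, ‖(k : Fin d → ℤ) - (j : Fin d → ℤ)‖ ≤ r i) := ⟨_, rfl⟩
    have hQQ' : Q ⊆ Q' := by
      intro i hi
      rw [hQ, ch_mem_inΛ] at hi
      rw [hQ', ch_mem_inΛ]
      exact hsub hi
    have hQcard : (Q.card : ℝ) = (l : ℝ) ^ d := by
      rw [hQ, ch_inΛ_card _ _ ((hsub.trans hsub').trans hΛ), cube_card]
      push_cast
      rfl
    have hQcard' : Q.card = l ^ d := by
      rw [hQ, ch_inΛ_card _ _ ((hsub.trans hsub').trans hΛ), cube_card]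
    have hxQ : x ∈ Q := by
      rw [hQ, ch_mem_inΛ]
      exact mem_cube l hl _
    have hdist : ∀ k ∈ Q', ∀ i ∈ Q, ‖(k : Fin d → ℤ) - (i : Fin d → ℤ)‖ ≤ l' := by
      intro k hk' i hi
      have hi' : i ∈ Q' := hQQ' hi
      rw [hQ', ch_mem_inΛ] at hk' hi'
      exact cube_dist hk' hi'
    have hdistQ : ∀ k ∈ Q, ∀ i ∈ Q, ‖(k : Fin d → ℤ) - (i : Fin d → ℤ)‖ ≤ l := by
      intro k hk i hi
      rw [hQ, ch_mem_inΛ] at hk hi
      exact cube_dist hk hi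
    have hSsub : ∀ i, S i ⊆ Q' \ Q := by
      intro i; rw [hS]; exact Finset.filter_subset _ _
    have hnsub : near ⊆ Q' \ Q := by rw [hnear]; exact Finset.filter_subset _ _
    have hcov : Q' \ Q ⊆ near ∪ (Finset.range n).biUnion S := by
      intro k hk
      by_cases hc : ∃ i ∈ Q, ‖(k : Fin d → ℤ) - (i : Fin d → ℤ)‖ ≤ l
      · exact Finset.mem_union_left _ (by rw [hnear]; exact Finset.mem_filter.2 ⟨hk, hc⟩)
      · refine Finset.mem_union_right _ ?_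
        have hkQ' := (Finset.mem_sdiff.1 hk).1
        -- first index at which the site is outside
        have hex : ∃ i, i ≤ n ∧ ∀ j ∈ Q, r i < ‖(k : Fin d → ℤ) - (j : Fin d → ℤ)‖ := by
          refine ⟨n, le_rfl, fun j hj => ?_⟩
          rw [hrn]
          by_contra hcon
          exact hc ⟨j, hj, not_lt.1 hcon⟩
        obtain ⟨i, hi, himin⟩ : ∃ i, (i ≤ n ∧ ∀ j ∈ Q, r i < ‖(k : Fin d → ℤ) - (j : Fin d → ℤ)‖) ∧
            ∀ i' < i, ¬ (i' ≤ n ∧ ∀ j ∈ Q, r i' < ‖(k : Fin d → ℤ) - (j : Fin d → ℤ)‖) :=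
          ⟨Nat.find hex, Nat.find_spec hex, fun i' hi' => Nat.find_min hex hi'⟩
        have hi0 : i ≠ 0 := by
          intro h0
          rw [h0] at hi
          have h1 := hi.2 x hxQ
          rw [hr0] at h1
          exact absurd (hdist k hkQ' x hxQ) (not_le.2 h1)
        obtain ⟨i', rfl⟩ : ∃ i', i = i' + 1 := Nat.exists_eq_succ_of_ne_zero hi0
        have h2 := himin i' (by omega)
        have h3 : ∃ j ∈ Q, ‖(k : Fin d → ℤ) - (j : Fin d → ℤ)‖ ≤ r i' := by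
          by_contra hcon
          apply h2
          refine ⟨by omega, fun j hj => ?_⟩
          by_contra hcon2
          exact hcon ⟨j, hj, not_lt.1 hcon2⟩
        refine Finset.mem_biUnion.2 ⟨i', Finset.mem_range.2 (by omega), ?_⟩
        rw [hS]
        exact Finset.mem_filter.2 ⟨hk, hi.2, h3⟩
    have hl'R2 : (l' : ℝ) ≤ R := by exact_mod_cast Nat.le_of_dvd hR hl'R
    have hnearcard : (near.card : ℝ) ≤ (4 * (l : ℝ)) ^ d := by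
      have h1 : near.card = (near.image (fun k : Λ => (k : Fin d → ℤ))).card := by
        rw [Finset.card_image_of_injective _ Subtype.val_injective]
      rw [h1]
      refine (near_card l (r := (l : ℝ)) hl0.le (x : Fin d → ℤ) _ ?_).trans ?_
      · intro k hk
        obtain ⟨k', hk', rfl⟩ := Finset.mem_image.1 hk
        rw [hnear] at hk'
        obtain ⟨i, hi, hki⟩ := (Finset.mem_filter.1 hk').2
        refine ⟨i, ?_, hki⟩
        rw [hQ, ch_mem_inΛ] at hi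
        exact hi
      · refine pow_le_pow_left₀ (by positivity) ?_ d
        have : (1 : ℝ) ≤ l := by exact_mod_cast hl
        linarith
    have hfin := cb_site h μ ρ Λ x hxQ hQQ' hn S hSsub hnsub hcov (k0 := k0) (κ0 := κ0) (γ := γ)
      (γ' := γ') (t := t) (Υ := Υ) (K := K) (η := η) hk0 hκ0 hγ hγ' ht hγΥ h64 hK hη
      (by rw [hQcard]; exact hcard)
      ((div_le_div_of_nonneg_right hnearcard hγ'.le).trans hcard2)
      (fun k hk i hi => ((hdist k hk i hi).trans hl'R2).trans hρ) kk hkk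
      (fun i hi k hk j hj => by
        rw [hS] at hk
        obtain ⟨hk1, hk2, j', hj', hk3⟩ := Finset.mem_filter.1 hk
        have hr1 : r (i + 1) < ‖(k : Fin d → ℤ) - (j : Fin d → ℤ)‖ := hk2 j hj
        have hpos : 0 < ‖(k : Fin d → ℤ) - (j : Fin d → ℤ)‖ :=
          lt_of_le_of_lt (le_trans hl0.le (hrl (i + 1) (by omega))) hr1
        refine ⟨hκ1 i hi _ (norm_pos_iff.1 hpos) ?_, hκ2 i hi _ hr1⟩
        calc ‖(k : Fin d → ℤ) - (j : Fin d → ℤ)‖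
            = ‖((k : Fin d → ℤ) - (j' : Fin d → ℤ)) + ((j' : Fin d → ℤ) - (j : Fin d → ℤ))‖ := by
              rw [sub_add_sub_cancel]
          _ ≤ ‖(k : Fin d → ℤ) - (j' : Fin d → ℤ)‖ + ‖(j' : Fin d → ℤ) - (j : Fin d → ℤ)‖ :=
              norm_add_le _ _
          _ ≤ r i + l := add_le_add hk3 (hdistQ j' hj' j hj)
          _ ≤ 2 * r i := by
              have := hrl i (by omega)
              linarith) m (by rw [hQcard]; exact hm)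
    rw [hQ, hQ'] at hfin
    refine hfin.trans (add_le_add le_rfl (ENNReal.ofReal_le_ofReal ?_))
    rw [← hQ, hB, hQcard, hQcard']
  calc _ ≤ ∑ x ∈ inΛ Λ (cubeF R 0), (∫⁻ p in {p : (ℝ × (Λ → ℝ)) × (Sym2 (Fin d → ℤ) → Bool) |
        ∑ k ∈ inΛ Λ (cubeF l' (x : Fin d → ℤ)),
          Pm (Am T0 κ ρ Λ p.2) p.1.2 p.1.1 η k k < 2 * t},
        ENNReal.ofReal (PF T0 κ ρ η Λ x p) ∂(M0 d μ Λ K) + ENNReal.ofReal B) :=
        Finset.sum_le_sum hsite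
    _ ≤ ENNReal.ofReal (2 * K * (2 * t * ((R : ℝ) / l') ^ d)) +
        ENNReal.ofReal ((R : ℝ) ^ d * B) := by
        rw [Finset.sum_add_distrib]
        refine add_le_add (ch_small_trace h μ ρ Λ hl' hR hl'R hΛ hK hη (by positivity)) ?_
        rw [Finset.sum_const, ch_inΛ_card _ _ hΛ, cube_card, nsmul_eq_mul,
          ENNReal.ofReal_mul (by positivity)]
        refine mul_le_mul' (le_of_eq ?_) le_rfl
        rw [← ENNReal.ofReal_natCast]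
        push_cast
        rfl
    _ = _ := by
        rw [← ENNReal.ofReal_add (by positivity) (by positivity), hB]
        congr 1
        rw [div_pow]
        ring

end H10PL
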