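import Mathlib

/-!
Task 4-PAR: choice of the parameters (helper159).
-/

namespace H10PL

open Filter

theorem par_pow_le {l : ℝ} (hl : 1 ≤ l) {s t : ℝ} (h : s ≤ t) : l ^ s ≤ l ^ t :=
  Real.rpow_le_rpow_of_exponent_le hl h

theorem params4 {d : ℕ} (hd : 0 < d) {a c C D : ℝ} (ha1 : (d : ℝ) / 2 < a)
    (ha2 : a < 5 * d / 8) (hc : 0 < c) (hC : 0 < C) (_hcC : c ≤ C) (hD : 0 ≤ D) :
    ∃ σ ϱ C5 l0 : ℝ, 0 < σ ∧ 0 < ϱ ∧ ϱ < 1 ∧ 0 < C5 ∧ 2 ≤ l0 ∧ ∀ l : ℝ, l0 ≤ l →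
      ∀ l' r δ γ γ' Υ : ℝ, l' = l ^ 2 → r = l' ^ (1 - ϱ) → δ = l' ^ (-σ) →
      γ = c ^ 2 / 64 * l' ^ (d - 2 * a - σ) → γ' = c ^ 2 / 64 * (l' ^ 2) ^ (d - 2 * a - σ) →
      Υ = l ^ (d + σ) →
      1 ≤ r ∧ l + 2 * r + 1 ≤ 4 * r ∧ 2 * l ^ (d : ℝ) / γ' ≤ δ * l' ^ (d : ℝ) / 2 ∧ γ ≤ Υ ∧
      Real.pi * D * (Real.pi * (4 * r) ^ d / (δ * l' ^ (d : ℝ) / 2)) ≤ C5 * l ^ (-σ) ∧
      ∃ m : ℕ, Real.sqrt (l ^ (d : ℝ) * Υ / γ) + 1 ≤ m ∧
        ((2 : ℝ) * m + 1) ^ (l ^ (d : ℝ)) *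
          Real.exp (-((c * l' ^ (-a) / (C * r ^ (-a))) ^ 2 * γ' * (δ * l' ^ (d : ℝ)) / 16)) ≤
            l ^ (-σ) := by
  have hd' : (0 : ℝ) < d := by exact_mod_cast hd
  have ha0 : 0 < a := by linarith [half_pos hd']
  obtain ⟨σ, hσdef⟩ : ∃ σ : ℝ, σ = (5 * d - 8 * a) / 10 := ⟨_, rfl⟩
  have hσ : 0 < σ := by rw [hσdef]; linarith
  have hσd : σ < d / 10 := by rw [hσdef]; linarith
  obtain ⟨ϱ, hϱdef⟩ : ∃ ϱ : ℝ, ϱ = 3 * σ / (2 * d) := ⟨_, rfl⟩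
  have hϱd : ϱ * d = 3 * σ / 2 := by rw [hϱdef]; field_simp
  have hϱ : 0 < ϱ := by rw [hϱdef]; positivity
  have hϱ2 : ϱ < 1 / 2 := by
    rw [hϱdef, div_lt_iff₀ (by positivity)]; linarith
  have hϱa : 4 * a * ϱ < 15 / 4 * σ := by
    have : a * ϱ < 5 * d / 8 * ϱ := by nlinarith
    have h2 : 5 * d / 8 * ϱ = 5 / 8 * (ϱ * d) := by ring
    rw [h2, hϱd] at this
    linarith
  -- the exponents
  obtain ⟨e, hedef⟩ : ∃ e : ℝ, e = 4 * σ - 4 * a * ϱ := ⟨_, rfl⟩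
  have he : 0 < e := by rw [hedef]; linarith
  obtain ⟨s, hsdef⟩ : ∃ s : ℝ, s = 2 * a + 3 / 2 * σ := ⟨_, rfl⟩
  have hs : 0 < s := by rw [hsdef]; positivity
  obtain ⟨K, hKdef⟩ : ∃ K : ℝ, K = (c / C) ^ 2 * (c ^ 2 / 1024) := ⟨_, rfl⟩
  have hK : 0 < K := by rw [hKdef]; positivity
  -- eventual conditions
  have ev1 : ∀ᶠ l : ℝ in atTop, 256 / c ^ 2 ≤ l ^ (4 * σ) :=
    (tendsto_rpow_atTop (by positivity : (0 : ℝ) < 4 * σ)).eventually_ge_atTop _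
  have ev2 : ∀ᶠ l : ℝ in atTop, c ^ 2 / 64 ≤ l ^ (d + σ) :=
    (tendsto_rpow_atTop (by positivity : (0 : ℝ) < d + σ)).eventually_ge_atTop _
  have ev3 : ∀ᶠ l : ℝ in atTop, 16 / c + 5 ≤ l := eventually_ge_atTop _
  have ev4 : ∀ᶠ l : ℝ in atTop, (s + 1 + σ) * Real.log l ≤ K * l ^ e := by
    have h1 := (isLittleO_log_rpow_atTop he).def
      (by positivity : (0 : ℝ) < K / (s + 1 + σ))
    filter_upwards [h1, eventually_ge_atTop (1 : ℝ)] with l hl hl1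
    rw [Real.norm_of_nonneg (Real.log_nonneg hl1),
      Real.norm_of_nonneg (Real.rpow_nonneg (by linarith) _)] at hl
    calc (s + 1 + σ) * Real.log l ≤ (s + 1 + σ) * (K / (s + 1 + σ) * l ^ e) :=
          mul_le_mul_of_nonneg_left hl (by positivity)
      _ = K * l ^ e := by field_simp
  obtain ⟨l0, hl0⟩ := eventually_atTop.1 (ev1.and (ev2.and (ev3.and ev4)))
  refine ⟨σ, ϱ, 2 * Real.pi ^ 2 * D * 4 ^ d + 1, max l0 2, hσ, hϱ, by linarith, by positivity,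
    le_max_right _ _, ?_⟩
  intro l hl l' r δ γ γ' Υ hl' hr hδ hγ hγ' hΥ
  obtain ⟨h1, h2, h3, h4⟩ := hl0 l ((le_max_left _ _).trans hl)
  have hl2 : 2 ≤ l := (le_max_right _ _).trans hl
  have hl1 : 1 ≤ l := by linarith
  have hlp : 0 < l := by linarith
  -- everything as powers of l
  have hL : l' = l ^ (2 : ℝ) := by rw [hl']; exact (Real.rpow_natCast l 2).symm
  have hpow : ∀ t : ℝ, l' ^ t = l ^ (2 * t) := fun t => by
    rw [hL, ← Real.rpow_mul hlp.le]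
  have hr' : r = l ^ (2 * (1 - ϱ)) := by rw [hr, hpow]
  have hrp : 0 < r := by rw [hr']; exact Real.rpow_pos_of_pos hlp _
  have hδ' : δ = l ^ (-(2 * σ)) := by rw [hδ, hpow]; congr 1; ring
  have hγ1 : γ = c ^ 2 / 64 * l ^ (2 * (d - 2 * a - σ)) := by rw [hγ, hpow]
  have hγ1' : γ' = c ^ 2 / 64 * l ^ (4 * (d - 2 * a - σ)) := by
    have : l' ^ 2 = l ^ (4 : ℝ) := by
      rw [hL, ← Real.rpow_natCast, ← Real.rpow_mul hlp.le]; norm_num
    rw [hγ', this, ← Real.rpow_mul hlp.le]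
  have hγp : 0 < γ := by rw [hγ1]; positivity
  have hγp' : 0 < γ' := by rw [hγ1']; positivity
  have hLd : l' ^ (d : ℝ) = l ^ (2 * (d : ℝ)) := hpow _
  have hδL : δ * l' ^ (d : ℝ) = l ^ (2 * (d : ℝ) - 2 * σ) := by
    rw [hδ', hLd, ← Real.rpow_add hlp]; congr 1; ring
  have hlr : l ≤ r := by
    rw [hr']
    calc l = l ^ (1 : ℝ) := (Real.rpow_one l).symm
      _ ≤ l ^ (2 * (1 - ϱ)) := par_pow_le hl1 (by linarith)
  refine ⟨by linarith, by linarith, ?_, ?_, ?_, ?_⟩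
  · rw [hδL, hγ1', div_le_iff₀ (by positivity)]
    have e1 : l ^ (2 * (d : ℝ) - 2 * σ) / 2 * (c ^ 2 / 64 * l ^ (4 * (d - 2 * a - σ))) =
        c ^ 2 / 128 * l ^ ((d : ℝ) + 4 * σ) := by
      have : l ^ (2 * (d : ℝ) - 2 * σ) * l ^ (4 * (d - 2 * a - σ)) = l ^ ((d : ℝ) + 4 * σ) := by
        rw [← Real.rpow_add hlp]; congr 1; rw [hσdef]; ring
      rw [← this]; ring
    rw [e1, Real.rpow_add hlp]
    have h256 : 2 ≤ c ^ 2 / 128 * l ^ (4 * σ) := by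
      have := mul_le_mul_of_nonneg_left h1 (by positivity : 0 ≤ c ^ 2 / 128)
      calc (2 : ℝ) = c ^ 2 / 128 * (256 / c ^ 2) := by field_simp; norm_num
        _ ≤ _ := this
    calc 2 * l ^ (d : ℝ) ≤ (c ^ 2 / 128 * l ^ (4 * σ)) * l ^ (d : ℝ) :=
          mul_le_mul_of_nonneg_right h256 (by positivity)
      _ = _ := by ring
  · rw [hγ1, hΥ]
    have : l ^ (2 * (d - 2 * a - σ)) ≤ 1 :=
      Real.rpow_le_one_of_one_le_of_nonpos hl1 (by linarith)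
    calc c ^ 2 / 64 * l ^ (2 * (d - 2 * a - σ)) ≤ c ^ 2 / 64 * 1 :=
          mul_le_mul_of_nonneg_left this (by positivity)
      _ ≤ _ := by rw [mul_one]; exact h2
  · rw [hδL, mul_pow]
    have e1 : r ^ d = l ^ (2 * (d : ℝ) - 3 * σ) := by
      rw [hr', ← Real.rpow_natCast, ← Real.rpow_mul hlp.le]
      congr 1
      have : 2 * (1 - ϱ) * d = 2 * d - 2 * (ϱ * d) := by ring
      rw [this, hϱd]; ring
    have e2 : l ^ (2 * (d : ℝ) - 3 * σ) = l ^ (-σ) * l ^ (2 * (d : ℝ) - 2 * σ) := by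
      rw [← Real.rpow_add hlp]; congr 1; ring
    rw [e1, e2]
    have hp : 0 < l ^ (2 * (d : ℝ) - 2 * σ) := Real.rpow_pos_of_pos hlp _
    have hp2 : 0 < l ^ (-σ) := Real.rpow_pos_of_pos hlp _
    have : Real.pi * D * (Real.pi * (4 ^ d * (l ^ (-σ) * l ^ (2 * (d : ℝ) - 2 * σ))) /
        (l ^ (2 * (d : ℝ) - 2 * σ) / 2)) = (2 * Real.pi ^ 2 * D * 4 ^ d) * l ^ (-σ) := by
      field_simp
    rw [this]
    nlinarith
  · -- the integer m
    have hroot : Real.sqrt (l ^ (d : ℝ) * Υ / γ) = 8 / c * l ^ s := by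
      rw [Real.sqrt_eq_iff_mul_self_eq (by rw [hΥ]; positivity) (by positivity), hΥ, hγ1]
      have e1 : l ^ (d : ℝ) * l ^ (d + σ) = (l ^ s * l ^ s) * l ^ (2 * (d - 2 * a - σ)) := by
        rw [← Real.rpow_add hlp, ← Real.rpow_add hlp, ← Real.rpow_add hlp]
        congr 1; rw [hsdef]; ring
      rw [e1]
      have hp : 0 < l ^ (2 * (d - 2 * a - σ)) := Real.rpow_pos_of_pos hlp _
      field_simp
      norm_num
    obtain ⟨m, hmdef⟩ : ∃ m : ℕ, m = ⌈8 / c * l ^ s + 1⌉₊ := ⟨_, rfl⟩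
    have hls : 1 ≤ l ^ s := Real.one_le_rpow hl1 hs.le
    have hm1 : 8 / c * l ^ s + 1 ≤ m := by rw [hmdef]; exact Nat.le_ceil _
    have hm2 : (m : ℝ) ≤ 8 / c * l ^ s + 2 := by
      have := (Nat.ceil_lt_add_one (by positivity : 0 ≤ 8 / c * l ^ s + 1)).le
      rw [← hmdef] at this; linarith
    refine ⟨m, by rw [hroot]; exact hm1, ?_⟩
    have hm3 : (2 : ℝ) * m + 1 ≤ l ^ (s + 1) := by
      calc (2 : ℝ) * m + 1 ≤ 16 / c * l ^ s + 5 := by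
            have : (16 : ℝ) / c = 2 * (8 / c) := by ring
            rw [this]; linarith
        _ ≤ 16 / c * l ^ s + 5 * l ^ s := by linarith
        _ = (16 / c + 5) * l ^ s := by ring
        _ ≤ l * l ^ s := mul_le_mul_of_nonneg_right h3 (by linarith)
        _ = l ^ (s + 1) := by rw [Real.rpow_add hlp, Real.rpow_one]; ring
    have hld : 1 ≤ l ^ (d : ℝ) := Real.one_le_rpow hl1 hd'.le
    have hexp : (c * l' ^ (-a) / (C * r ^ (-a))) ^ 2 * γ' * (δ * l' ^ (d : ℝ)) / 16 =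
        K * (l ^ (d : ℝ) * l ^ e) := by
      rw [hδL, hγ1', hpow, hr', ← Real.rpow_mul hlp.le]
      have hp1 : l ^ (2 * (1 - ϱ) * -a) ≠ 0 := (Real.rpow_pos_of_pos hlp _).ne'
      have e3 : (c * l ^ (2 * -a) / (C * l ^ (2 * (1 - ϱ) * -a))) ^ 2 =
          (c / C) ^ 2 * l ^ (-(4 * a * ϱ)) := by
        have e4 : l ^ (2 * -a) / l ^ (2 * (1 - ϱ) * -a) = l ^ (-(2 * a * ϱ)) := by
          rw [← Real.rpow_sub hlp]; congr 1; ring
        have e5 : (l ^ (-(2 * a * ϱ))) ^ 2 = l ^ (-(4 * a * ϱ)) := by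
          rw [← Real.rpow_natCast, ← Real.rpow_mul hlp.le]; congr 1; push_cast; ring
        rw [mul_div_mul_comm, e4, mul_pow, e5]
      rw [e3, hKdef]
      have e6 : l ^ (-(4 * a * ϱ)) * l ^ (4 * (d - 2 * a - σ)) * l ^ (2 * (d : ℝ) - 2 * σ) =
          l ^ (d : ℝ) * l ^ e := by
        rw [← Real.rpow_add hlp, ← Real.rpow_add hlp, ← Real.rpow_add hlp]
        congr 1; rw [hedef, hσdef]; ring
      rw [← e6]; ring
    rw [hexp]
    have hpos : (0 : ℝ) < 2 * m + 1 := by positivity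
    have hlog : 0 ≤ Real.log l := Real.log_nonneg hl1
    calc ((2 : ℝ) * m + 1) ^ (l ^ (d : ℝ)) * Real.exp (-(K * (l ^ (d : ℝ) * l ^ e)))
        ≤ (l ^ (s + 1)) ^ (l ^ (d : ℝ)) * Real.exp (-(K * (l ^ (d : ℝ) * l ^ e))) :=
          mul_le_mul_of_nonneg_right (Real.rpow_le_rpow hpos.le hm3 (by positivity))
            (Real.exp_pos _).le
      _ = Real.exp ((s + 1) * Real.log l * l ^ (d : ℝ) - K * (l ^ (d : ℝ) * l ^ e)) := by
          rw [← Real.rpow_mul hlp.le, Real.rpow_def_of_pos hlp, ← Real.exp_add]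
          congr 1; ring
      _ ≤ Real.exp (-(σ * Real.log l)) := by
          apply Real.exp_le_exp.2
          have h5 : (s + 1 + σ) * Real.log l * l ^ (d : ℝ) ≤ K * l ^ e * l ^ (d : ℝ) :=
            mul_le_mul_of_nonneg_right h4 (by positivity)
          have h6 : σ * Real.log l ≤ σ * Real.log l * l ^ (d : ℝ) :=
            le_mul_of_one_le_right (by positivity) hld
          nlinarith
      _ = l ^ (-σ) := by
          rw [Real.rpow_def_of_pos hlp]; congr 1; ring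

end H10PL
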