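import Pool.Agent.H10R2.AC.Ch4
import Pool.Agent.H10R2.AC.Par4

/-!
The chain of scales: uniform integrability in a box (assembly).
-/

namespace H10PL

open MeasureTheory ProbabilityTheory Matrix Set Filter

variable {d : ℕ} {T0 : (Fin d → ℤ) → (Fin d → ℤ) → ℝ} {κ : (Fin d → ℤ) → ℝ} {ρ0 b : ℝ}

/-- exists a good starting scale -/
theorem ch_start {σ C6 ε l0 : ℝ} (hσ : 0 < σ) (hC6 : 0 < C6) (hε : 0 < ε) :
    ∃ L : ℕ, 2 ≤ L ∧ l0 ≤ L ∧ ∀ m : ℕ,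
      ∑ j ∈ Finset.range m, C6 * (((L ^ 2 ^ j : ℕ) : ℝ)) ^ (-σ) ≤ ε := by
  have h1 : Tendsto (fun L : ℕ => ((L : ℝ)) ^ (-σ)) atTop (nhds 0) :=
    (tendsto_rpow_neg_atTop hσ).comp tendsto_natCast_atTop_atTop
  have h2 : ∀ᶠ L : ℕ in atTop, ((L : ℝ)) ^ (-σ) < min (1 / 2) (ε / (2 * C6)) :=
    h1.eventually_lt_const (by positivity)
  have h3 : ∀ᶠ L : ℕ in atTop, l0 ≤ (L : ℝ) := tendsto_natCast_atTop_atTop.eventually_ge_atTop l0
  obtain ⟨L, hL1, hL2, hL3⟩ := (h2.and (h3.and (eventually_ge_atTop 2))).exists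
  refine ⟨L, hL3, hL2, fun m => ?_⟩
  obtain ⟨q, hq⟩ : ∃ q : ℝ, q = (L : ℝ) ^ (-σ) := ⟨_, rfl⟩
  have hL0 : (0 : ℝ) < L := by
    have : (2 : ℝ) ≤ L := by exact_mod_cast hL3
    linarith
  have hq0 : 0 < q := by rw [hq]; positivity
  have hq1 : q < 1 / 2 := by rw [hq]; exact lt_of_lt_of_le hL1 (min_le_left _ _)
  have hq2 : q < ε / (2 * C6) := by rw [hq]; exact lt_of_lt_of_le hL1 (min_le_right _ _)
  have hterm : ∀ j : ℕ, (((L ^ 2 ^ j : ℕ) : ℝ)) ^ (-σ) ≤ q * (1 / 2) ^ j := by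
    intro j
    have e1 : (((L ^ 2 ^ j : ℕ) : ℝ)) ^ (-σ) = q ^ (2 ^ j) := by
      rw [hq]
      push_cast
      rw [← Real.rpow_natCast ((L : ℝ)) (2 ^ j), ← Real.rpow_mul hL0.le,
        ← Real.rpow_natCast ((L : ℝ) ^ (-σ)) (2 ^ j), ← Real.rpow_mul hL0.le]
      congr 1
      ring
    rw [e1]
    have hj : j + 1 ≤ 2 ^ j := Nat.lt_two_pow_self
    calc q ^ (2 ^ j) ≤ q ^ (j + 1) := pow_le_pow_of_le_one hq0.le (by linarith) hj
      _ = q * q ^ j := by ring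
      _ ≤ q * (1 / 2) ^ j := by
        refine mul_le_mul_of_nonneg_left ?_ hq0.le
        exact pow_le_pow_left₀ hq0.le hq1.le j
  have hgeo : ∑ j ∈ Finset.range m, ((1 : ℝ) / 2) ^ j ≤ 2 := by
    have := sum_geometric_two_le m
    exact this
  calc ∑ j ∈ Finset.range m, C6 * (((L ^ 2 ^ j : ℕ) : ℝ)) ^ (-σ)
      ≤ ∑ j ∈ Finset.range m, C6 * (q * (1 / 2) ^ j) :=
        Finset.sum_le_sum fun j _ => mul_le_mul_of_nonneg_left (hterm j) hC6.le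
    _ = C6 * q * ∑ j ∈ Finset.range m, ((1 : ℝ) / 2) ^ j := by
        rw [Finset.mul_sum]
        exact Finset.sum_congr rfl fun j _ => by ring
    _ ≤ C6 * q * 2 := mul_le_mul_of_nonneg_left hgeo (by positivity)
    _ ≤ ε := by
        have h5 : q * (2 * C6) < ε := by
          rwa [lt_div_iff₀ (by positivity)] at hq2
        linarith

theorem ui_box (h : Adm T0 κ ρ0 b) (hd : 0 < d) (μ : Measure ℝ) [IsProbabilityMeasure μ] {D : ℝ}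
    (hD : 0 ≤ D) (hμ : μ ≤ ENNReal.ofReal D • volume) {a c C : ℝ} (ha1 : (d : ℝ) / 2 < a)
    (ha2 : a < 5 * d / 8) (hc : 0 < c)
    (hκ : ∀ y : Fin d → ℤ, y ≠ 0 → c * ‖y‖ ^ (-a) ≤ |κ y| ∧ |κ y| ≤ C * ‖y‖ ^ (-a))
    {K : ℝ} (hK : 0 < K) {ε : ℝ} (hε : 0 < ε) :
    ∃ M : ℝ, 0 < M ∧ ∀ η : ℝ, 0 < η → η ≤ 1 → ∃ R : ℕ, 0 < R ∧
      ∀ (Λ : Finset (Fin d → ℤ)) (ρ : ℝ), cubeF R 0 ⊆ Λ → (R : ℝ) ≤ ρ →
      ∑ x ∈ inΛ Λ (cubeF R 0), ∫⁻ p in {p | M < PF T0 κ ρ η Λ x p},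
        ENNReal.ofReal (PF T0 κ ρ η Λ x p) ∂(M0 d μ Λ K) ≤
          ENNReal.ofReal (ε * R ^ d) := by
  classical
  have haC : 0 ≤ aC b κ := by
    unfold aC
    have h1 : 0 ≤ ∑' z : Fin d → ℤ, κ z ^ 2 := tsum_nonneg (fun z => sq_nonneg (κ z))
    positivity
  have hcC : c ≤ C := by
    have hne : (fun _ : Fin d => (1 : ℤ)) ≠ 0 := by
      intro h0
      have := congrFun h0 ⟨0, hd⟩
      simp at this
    have h1 := hκ _ hne
    have h2 : 0 < ‖(fun _ : Fin d => (1 : ℤ))‖ ^ (-a) := by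
      have := norm_pos_iff.2 hne
      positivity
    have h3 := h1.1.trans h1.2
    exact le_of_mul_le_mul_right h3 h2
  have hC : 0 < C := lt_of_lt_of_le hc hcC
  obtain ⟨σ, ϱ, C5, l0, hσ, hϱ, hϱ1, hC5, hl0, hpar⟩ := params4 hd ha1 ha2 hc hC hcC hD
  obtain ⟨C6, hC6⟩ : ∃ C6 : ℝ, C6 = 4 * K + C5 + Real.pi * D * (2 * K + Real.pi * aC b κ) +
        Real.pi * D * (2 * K) := ⟨_, rfl⟩
  have hC60 : 0 < C6 := by rw [hC6]; positivity
  obtain ⟨L, hL2, hLl0, hLsum⟩ := ch_start (l0 := l0) hσ hC60 hε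
  obtain ⟨lj, hlj⟩ : ∃ lj : ℕ → ℕ, lj = fun j => L ^ 2 ^ j := ⟨_, rfl⟩
  obtain ⟨g, hg⟩ : ∃ g : ℕ → ℝ, g = fun j => c ^ 2 / 64 * ((lj (j + 1) : ℝ)) ^ (d - 2 * a - σ) :=
    ⟨_, rfl⟩
  have hL0 : 0 < L := by omega
  have hlj0 : ∀ j, 0 < lj j := by intro j; rw [hlj]; positivity
  have hljL : ∀ j, L ≤ lj j := by
    intro j
    rw [hlj]
    calc L = L ^ 1 := (pow_one L).symm
      _ ≤ L ^ 2 ^ j := Nat.pow_le_pow_right hL0 Nat.one_le_two_pow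
  have hljs : ∀ j, lj (j + 1) = lj j ^ 2 := by
    intro j
    rw [hlj]
    simp only
    rw [pow_succ 2 j, pow_mul]
  have hljdvd : ∀ i j, i ≤ j → lj i ∣ lj j := by
    intro i j hij
    rw [hlj]
    exact pow_dvd_pow L (Nat.pow_le_pow_right (by norm_num) hij)
  have hg0 : ∀ j, 0 < g j := by
    intro j
    have : (0 : ℝ) < lj (j + 1) := by exact_mod_cast hlj0 _
    rw [hg]
    positivity
  have hexpneg : (d : ℝ) - 2 * a - σ < 0 := by linarith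
  have hglim : Tendsto g atTop (nhds 0) := by
    have h1 : Tendsto (fun j : ℕ => ((lj (j + 1) : ℕ) : ℝ)) atTop atTop := by
      refine tendsto_atTop_mono (f := fun j : ℕ => (j : ℝ)) ?_ tendsto_natCast_atTop_atTop
      intro j
      have h2 : j ≤ lj (j + 1) := by
        rw [hlj]
        have h3 : j + 1 < 2 ^ (j + 1) := Nat.lt_two_pow_self
        have h4 : 2 ^ (j + 1) < 2 ^ 2 ^ (j + 1) := Nat.lt_two_pow_self
        have h5 : 2 ^ 2 ^ (j + 1) ≤ L ^ 2 ^ (j + 1) := Nat.pow_le_pow_left hL2 _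
        simp only
        omega
      exact_mod_cast h2
    have h2 : Tendsto (fun j : ℕ => ((lj (j + 1) : ℕ) : ℝ) ^ (-(-((d : ℝ) - 2 * a - σ)))) atTop
        (nhds 0) := (tendsto_rpow_neg_atTop (by linarith)).comp h1
    have h3 := h2.const_mul (c ^ 2 / 64)
    rw [mul_zero] at h3
    rw [hg]
    simpa using h3
  refine ⟨1 / g 0, by have := hg0 0; positivity, ?_⟩
  intro η hη hη1
  obtain ⟨m, hm⟩ := (hglim.eventually_le_const hη).exists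
  refine ⟨lj m, hlj0 m, ?_⟩
  intro Λ ρ hΛ hρ
  obtain ⟨R, hR⟩ : ∃ R, R = lj m := ⟨_, rfl⟩
  rw [← hR] at hΛ hρ ⊢
  have hR0 : 0 < R := by rw [hR]; exact hlj0 m
  -- the events
  obtain ⟨Ev, hEv⟩ : ∃ Ev : Λ → ℕ → Set ((ℝ × (Λ → ℝ)) × (Sym2 (Fin d → ℤ) → Bool)),
      Ev = fun (x : Λ) (j : ℕ) => {p : (ℝ × (Λ → ℝ)) × (Sym2 (Fin d → ℤ) → Bool) |
        Diss (Am T0 κ ρ Λ p.2) p.1.2 p.1.1 η (inΛ Λ (cubeF (lj (j + 1)) (x : Fin d → ℤ)))
          (g (j + 1)) ∧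
        ¬ Diss (Am T0 κ ρ Λ p.2) p.1.2 p.1.1 η (inΛ Λ (cubeF (lj j) (x : Fin d → ℤ))) (g j)} :=
    ⟨_, rfl⟩
  have hincl : ∀ x : Λ, {p : (ℝ × (Λ → ℝ)) × (Sym2 (Fin d → ℤ) → Bool) |
      1 / g 0 < PF T0 κ ρ η Λ x p} ⊆ ⋃ j ∈ Finset.range m, Ev x j := by
    intro x p hp
    by_contra hno
    have hno' : ∀ j < m, p ∉ Ev x j := by
      intro j hj hmem
      exact hno (Set.mem_biUnion (Finset.mem_coe.2 (Finset.mem_range.2 hj)) hmem)
    have hdown : ∀ k, k ≤ m → Diss (Am T0 κ ρ Λ p.2) p.1.2 p.1.1 η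
        (inΛ Λ (cubeF (lj (m - k)) (x : Fin d → ℤ))) (g (m - k)) := by
      intro k
      induction k with
      | zero =>
        intro _ φ
        have h1 := YQ_ge (Am T0 κ ρ Λ p.2) (Am_symm h ρ Λ p.2) p.1.2 p.1.1 hη
          (inΛ Λ (cubeF (lj (m - 0)) (x : Fin d → ℤ))) φ
        refine le_trans ?_ h1
        refine mul_le_mul_of_nonneg_right ?_ (Finset.sum_nonneg fun i _ => sq_nonneg _)
        simpa using hm
      | succ k ih =>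
        intro hk
        have h1 := ih (by omega)
        by_contra h2
        refine hno' (m - (k + 1)) (by omega) ?_
        rw [hEv]
        refine ⟨?_, h2⟩
        have h3 : m - (k + 1) + 1 = m - k := by omega
        rw [h3]
        exact h1
    have h0 := hdown m le_rfl
    rw [Nat.sub_self] at h0
    have hxm : x ∈ inΛ Λ (cubeF (lj 0) (x : Fin d → ℤ)) :=
      (ch_mem_inΛ Λ _ x).2 (mem_cube _ (hlj0 0) _)
    have h1 := diag_le_of_diss (Am T0 κ ρ Λ p.2) (Am_symm h ρ Λ p.2) p.1.2 p.1.1 hη (hg0 0) _ h0 x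
      hxm
    exact absurd hp (not_lt.2 h1)
  have hlevel : ∀ j ∈ Finset.range m,
      ∑ x ∈ inΛ Λ (cubeF R 0), ∫⁻ p in Ev x j, ENNReal.ofReal (PF T0 κ ρ η Λ x p) ∂(M0 d μ Λ K) ≤
        ENNReal.ofReal ((R : ℝ) ^ d * (C6 * (lj j : ℝ) ^ (-σ))) := by
    intro j hj
    have hj' := Finset.mem_range.1 hj
    have hcast : ((lj (j + 1) : ℕ) : ℝ) = (lj j : ℝ) ^ 2 := by rw [hljs]; push_cast; rfl
    have hcast2 : ((lj (j + 2) : ℕ) : ℝ) = ((lj (j + 1) : ℕ) : ℝ) ^ 2 := by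
      rw [hljs (j + 1)]; push_cast; rfl
    have hge : l0 ≤ (lj j : ℝ) := hLl0.trans (by exact_mod_cast hljL j)
    have hp := hpar (lj j : ℝ) hge (lj (j + 1) : ℝ) _ _ (g j) (g (j + 1)) _ hcast rfl rfl
      (by rw [hg]) (by rw [hg]; simp only; rw [← hcast2]) rfl
    have hfin := ch_level h hd μ hD hμ ha1 hc hC hκ hK hη hη1 hσ hC5 (l := lj j)
      (l' := lj (j + 1)) (R := R) (hlj0 j) (hljs j) hR0
      (by rw [hR]; exact hljdvd _ _ (by omega)) Λ hΛ hρ rfl rfl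
      (γ := g j) (γ' := g (j + 1)) (by rw [hg]) (by rw [hg]; simp only; rw [← hcast2]) rfl hp
    rw [← hC6] at hfin
    rw [hEv]
    exact hfin
  calc ∑ x ∈ inΛ Λ (cubeF R 0), ∫⁻ p in {p | 1 / g 0 < PF T0 κ ρ η Λ x p},
        ENNReal.ofReal (PF T0 κ ρ η Λ x p) ∂(M0 d μ Λ K)
      ≤ ∑ x ∈ inΛ Λ (cubeF R 0), ∑ j ∈ Finset.range m,
        ∫⁻ p in Ev x j, ENNReal.ofReal (PF T0 κ ρ η Λ x p) ∂(M0 d μ Λ K) := by
        refine Finset.sum_le_sum fun x _ => ?_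
        exact (lintegral_mono_set (hincl x)).trans (ch_union _ _ _ _)
    _ = ∑ j ∈ Finset.range m, ∑ x ∈ inΛ Λ (cubeF R 0),
        ∫⁻ p in Ev x j, ENNReal.ofReal (PF T0 κ ρ η Λ x p) ∂(M0 d μ Λ K) := Finset.sum_comm
    _ ≤ ∑ j ∈ Finset.range m, ENNReal.ofReal ((R : ℝ) ^ d * (C6 * (lj j : ℝ) ^ (-σ))) :=
        Finset.sum_le_sum hlevel
    _ = ENNReal.ofReal (∑ j ∈ Finset.range m, (R : ℝ) ^ d * (C6 * (lj j : ℝ) ^ (-σ))) := by
        rw [ENNReal.ofReal_sum_of_nonneg]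
        intro j _
        positivity
    _ ≤ ENNReal.ofReal (ε * R ^ d) := by
        refine ENNReal.ofReal_le_ofReal ?_
        rw [← Finset.mul_sum, mul_comm]
        refine mul_le_mul_of_nonneg_right ?_ (by positivity)
        have := hLsum m
        rw [hlj]
        exact this

end H10PL
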