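import Mathlib

/-!
Choice of the parameters for the density free version.
-/

namespace H10PL

open Filter

theorem params5 {d : ℕ} (hd : 0 < d) {a c C : ℝ} (ha1 : (d : ℝ) / 2 < a)
    (ha2 : a < 5 * d / 8) (hc : 0 < c) (hC : 0 < C) :
    ∃ (σ l0 c1 : ℝ) (n : ℕ), 0 < σ ∧ 0 < n ∧ 2 ≤ l0 ∧ 0 < c1 ∧ c1 = c ^ 2 * 2 ^ (-(2 * a)) / (64 * n) ∧
      ∀ l : ℝ, l0 ≤ l →
      ∀ l' δ γ γ' Υ κ0 : ℝ, l' = l ^ 2 → δ = l' ^ (-σ) →
      γ = c1 * l' ^ (d - 2 * a - σ) → γ' = c1 * (l' ^ 2) ^ (d - 2 * a - σ) →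
      Υ = l ^ (d + σ) / γ' → κ0 = c / C * (2 * l ^ (1 / (n : ℝ))) ^ (-a) →
      2 * l ^ (d : ℝ) / γ' ≤ δ * l' ^ (d : ℝ) / 2 ∧ (4 * l) ^ (d : ℝ) / γ' ≤ δ * l' ^ (d : ℝ) / 2 ∧
      γ ≤ Υ ∧
      ∃ m : ℕ, Real.sqrt (l ^ (d : ℝ) * Υ / γ) + 1 ≤ m ∧
        n / γ' * (((2 : ℝ) * m + 1) ^ (l ^ (d : ℝ)) *
          Real.exp (-(κ0 ^ 2 * γ' * (δ * l' ^ (d : ℝ) / n) / 16))) ≤ l ^ (-σ) := by
  have hd' : (0 : ℝ) < d := by exact_mod_cast hd
  have hd1 : (1 : ℝ) ≤ d := by exact_mod_cast hd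
  have ha0 : 0 < a := by linarith [half_pos hd']
  obtain ⟨σ, hσdef⟩ : ∃ σ : ℝ, σ = (5 * d - 8 * a) / 10 := ⟨_, rfl⟩
  have hσ : 0 < σ := by rw [hσdef]; linarith
  obtain ⟨n, hn⟩ := exists_nat_gt (2 * a / σ)
  have hn0' : (0 : ℝ) < n := lt_of_le_of_lt (by positivity) hn
  have hn0 : 0 < n := by exact_mod_cast hn0'
  have hna : 2 * a / n < σ := by
    rw [div_lt_iff₀ hn0']
    rw [div_lt_iff₀ hσ] at hn
    linarith
  obtain ⟨c1, hc1⟩ : ∃ c1 : ℝ, c1 = c ^ 2 * 2 ^ (-(2 * a)) / (64 * n) := ⟨_, rfl⟩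
  have hc10 : 0 < c1 := by rw [hc1]; positivity
  -- the exponents
  obtain ⟨e, hedef⟩ : ∃ e : ℝ, e = 4 * σ - 2 * a / n := ⟨_, rfl⟩
  have he : 0 < e := by rw [hedef]; linarith
  obtain ⟨s, hsdef⟩ : ∃ s : ℝ, s = 6 * a - 2 * d + 7 / 2 * σ := ⟨_, rfl⟩
  have hs : 0 < s := by rw [hsdef]; linarith
  obtain ⟨q, hqdef⟩ : ∃ q : ℝ, q = 4 * (2 * a - d + σ) + 1 := ⟨_, rfl⟩
  have hq : 0 < q := by rw [hqdef]; linarith
  obtain ⟨K, hKdef⟩ : ∃ K : ℝ, K = (c / C) ^ 2 * 2 ^ (-(2 * a)) * (c1 / (16 * n)) := ⟨_, rfl⟩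
  have hK : 0 < K := by rw [hKdef]; positivity
  -- eventual conditions
  have ev1 : ∀ᶠ l : ℝ in atTop, 2 * 4 ^ (d : ℝ) / c1 ≤ l ^ (4 * σ) :=
    (tendsto_rpow_atTop (by positivity : (0 : ℝ) < 4 * σ)).eventually_ge_atTop _
  have ev2 : ∀ᶠ l : ℝ in atTop, c1 ^ 2 ≤ l ^ (d + σ) :=
    (tendsto_rpow_atTop (by positivity : (0 : ℝ) < d + σ)).eventually_ge_atTop _
  have ev3 : ∀ᶠ l : ℝ in atTop, 2 / c1 + 5 ≤ l := eventually_ge_atTop _
  have ev5 : ∀ᶠ l : ℝ in atTop, n / c1 ≤ l := eventually_ge_atTop _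
  have ev4 : ∀ᶠ l : ℝ in atTop, (s + 1 + σ + q) * Real.log l ≤ K * l ^ e := by
    have h1 := (isLittleO_log_rpow_atTop he).def
      (by positivity : (0 : ℝ) < K / (s + 1 + σ + q))
    filter_upwards [h1, eventually_ge_atTop (1 : ℝ)] with l hl hl1
    rw [Real.norm_of_nonneg (Real.log_nonneg hl1),
      Real.norm_of_nonneg (Real.rpow_nonneg (by linarith) _)] at hl
    calc (s + 1 + σ + q) * Real.log l ≤ (s + 1 + σ + q) * (K / (s + 1 + σ + q) * l ^ e) :=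
          mul_le_mul_of_nonneg_left hl (by positivity)
      _ = K * l ^ e := by field_simp
  obtain ⟨l0, hl0⟩ := eventually_atTop.1 (ev1.and (ev2.and (ev3.and (ev4.and ev5))))
  refine ⟨σ, max l0 2, c1, n, hσ, hn0, le_max_right _ _, hc10, hc1, ?_⟩
  intro l hl l' δ γ γ' Υ κ0 hl' hδ hγ hγ' hΥ hκ0
  obtain ⟨h1, h2, h3, h4, h5⟩ := hl0 l ((le_max_left _ _).trans hl)
  have hl2 : 2 ≤ l := (le_max_right _ _).trans hl
  have hl1 : 1 ≤ l := by linarith
  have hlp : 0 < l := by linarith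
  -- everything as powers of l
  have hL : l' = l ^ (2 : ℝ) := by rw [hl']; exact (Real.rpow_natCast l 2).symm
  have hpow : ∀ t : ℝ, l' ^ t = l ^ (2 * t) := fun t => by
    rw [hL, ← Real.rpow_mul hlp.le]
  have hδ' : δ = l ^ (-(2 * σ)) := by rw [hδ, hpow]; congr 1; ring
  have hγ1 : γ = c1 * l ^ (2 * (d - 2 * a - σ)) := by rw [hγ, hpow]
  have hγ1' : γ' = c1 * l ^ (4 * (d - 2 * a - σ)) := by
    have : l' ^ 2 = l ^ (4 : ℝ) := by
      rw [hL, ← Real.rpow_natCast, ← Real.rpow_mul hlp.le]; norm_num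
    rw [hγ', this, ← Real.rpow_mul hlp.le]
  have hγp : 0 < γ := by rw [hγ1]; positivity
  have hγp' : 0 < γ' := by rw [hγ1']; positivity
  have hLd : l' ^ (d : ℝ) = l ^ (2 * (d : ℝ)) := hpow _
  have hδL : δ * l' ^ (d : ℝ) = l ^ (2 * (d : ℝ) - 2 * σ) := by
    rw [hδ', hLd, ← Real.rpow_add hlp]; congr 1; ring
  have hld : 1 ≤ l ^ (d : ℝ) := Real.one_le_rpow hl1 hd'.le
  have h4d : (4 : ℝ) ≤ 4 ^ (d : ℝ) := by
    calc (4 : ℝ) = 4 ^ (1 : ℝ) := (Real.rpow_one 4).symm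
      _ ≤ 4 ^ (d : ℝ) := Real.rpow_le_rpow_of_exponent_le (by norm_num) hd1
  have hmain : (4 * l) ^ (d : ℝ) / γ' ≤ δ * l' ^ (d : ℝ) / 2 := by
    rw [hδL, hγ1', div_le_iff₀ (by positivity)]
    have e1 : l ^ (2 * (d : ℝ) - 2 * σ) / 2 * (c1 * l ^ (4 * (d - 2 * a - σ))) =
        c1 / 2 * l ^ ((d : ℝ) + 4 * σ) := by
      have : l ^ (2 * (d : ℝ) - 2 * σ) * l ^ (4 * (d - 2 * a - σ)) = l ^ ((d : ℝ) + 4 * σ) := by
        rw [← Real.rpow_add hlp]; congr 1; rw [hσdef]; ring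
      rw [← this]; ring
    rw [e1, Real.rpow_add hlp, Real.mul_rpow (by norm_num) hlp.le]
    have h256 : 4 ^ (d : ℝ) ≤ c1 / 2 * l ^ (4 * σ) := by
      have := mul_le_mul_of_nonneg_left h1 (by positivity : 0 ≤ c1 / 2)
      calc (4 : ℝ) ^ (d : ℝ) = c1 / 2 * (2 * 4 ^ (d : ℝ) / c1) := by field_simp
        _ ≤ _ := this
    calc (4 : ℝ) ^ (d : ℝ) * l ^ (d : ℝ) ≤ (c1 / 2 * l ^ (4 * σ)) * l ^ (d : ℝ) :=
          mul_le_mul_of_nonneg_right h256 (by positivity)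
      _ = _ := by ring
  refine ⟨le_trans ?_ hmain, hmain, ?_, ?_⟩
  · refine div_le_div_of_nonneg_right ?_ hγp'.le
    rw [Real.mul_rpow (by norm_num) hlp.le]
    exact mul_le_mul_of_nonneg_right (by linarith) (by positivity)
  · rw [hΥ, le_div_iff₀ hγp', hγ1, hγ1']
    have t1 : l ^ (2 * (d - 2 * a - σ)) ≤ 1 :=
      Real.rpow_le_one_of_one_le_of_nonpos hl1 (by linarith)
    have t2 : l ^ (4 * (d - 2 * a - σ)) ≤ 1 :=
      Real.rpow_le_one_of_one_le_of_nonpos hl1 (by linarith)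
    have t3 : 0 ≤ l ^ (2 * (d - 2 * a - σ)) := by positivity
    have t4 : 0 ≤ l ^ (4 * (d - 2 * a - σ)) := by positivity
    calc c1 * l ^ (2 * (d - 2 * a - σ)) * (c1 * l ^ (4 * (d - 2 * a - σ)))
        = c1 ^ 2 * (l ^ (2 * (d - 2 * a - σ)) * l ^ (4 * (d - 2 * a - σ))) := by ring
      _ ≤ c1 ^ 2 * 1 := mul_le_mul_of_nonneg_left (mul_le_one₀ t1 t4 t2) (by positivity)
      _ ≤ l ^ (d + σ) := by rw [mul_one]; exact h2
  · -- the integer m
    have hroot : Real.sqrt (l ^ (d : ℝ) * Υ / γ) = 1 / c1 * l ^ s := by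
      have e1 : l ^ (d : ℝ) * l ^ (d + σ) =
          (l ^ s * l ^ s) * (l ^ (2 * (d - 2 * a - σ)) * l ^ (4 * (d - 2 * a - σ))) := by
        rw [← Real.rpow_add hlp, ← Real.rpow_add hlp, ← Real.rpow_add hlp, ← Real.rpow_add hlp]
        congr 1; rw [hsdef]; ring
      have hp : 0 < l ^ (2 * (d - 2 * a - σ)) := Real.rpow_pos_of_pos hlp _
      have hp2 : 0 < l ^ (4 * (d - 2 * a - σ)) := Real.rpow_pos_of_pos hlp _
      have hp3 : 0 < l ^ s := Real.rpow_pos_of_pos hlp _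
      have e2 : l ^ (d : ℝ) * Υ / γ = (1 / c1 * l ^ s) ^ 2 := by
        rw [hΥ, ← mul_div_assoc, e1, hγ1, hγ1']
        generalize l ^ (2 * (d - 2 * a - σ)) = X at hp
        generalize l ^ (4 * (d - 2 * a - σ)) = Y at hp2
        generalize l ^ s = Z at hp3
        field_simp
      rw [e2, Real.sqrt_sq (by positivity)]
    obtain ⟨m, hmdef⟩ : ∃ m : ℕ, m = ⌈1 / c1 * l ^ s + 1⌉₊ := ⟨_, rfl⟩
    have hls : 1 ≤ l ^ s := Real.one_le_rpow hl1 hs.le
    have hm1 : 1 / c1 * l ^ s + 1 ≤ m := by rw [hmdef]; exact Nat.le_ceil _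
    have hm2 : (m : ℝ) ≤ 1 / c1 * l ^ s + 2 := by
      have := (Nat.ceil_lt_add_one (by positivity : 0 ≤ 1 / c1 * l ^ s + 1)).le
      rw [← hmdef] at this; linarith
    refine ⟨m, by rw [hroot]; exact hm1, ?_⟩
    have hm3 : (2 : ℝ) * m + 1 ≤ l ^ (s + 1) := by
      calc (2 : ℝ) * m + 1 ≤ 2 / c1 * l ^ s + 5 := by
            have : (2 : ℝ) / c1 = 2 * (1 / c1) := by ring
            rw [this]; linarith
        _ ≤ 2 / c1 * l ^ s + 5 * l ^ s := by linarith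
        _ = (2 / c1 + 5) * l ^ s := by ring
        _ ≤ l * l ^ s := mul_le_mul_of_nonneg_right h3 (by linarith)
        _ = l ^ (s + 1) := by rw [Real.rpow_add hlp, Real.rpow_one]; ring
    have hexp : κ0 ^ 2 * γ' * (δ * l' ^ (d : ℝ) / n) / 16 = K * (l ^ (d : ℝ) * l ^ e) := by
      rw [hδL, hγ1', hκ0, hKdef]
      have e3 : (c / C * (2 * l ^ (1 / (n : ℝ))) ^ (-a)) ^ 2 =
          (c / C) ^ 2 * (2 ^ (-(2 * a)) * l ^ (-(2 * a / n))) := by
        rw [mul_pow, Real.mul_rpow (by norm_num) (by positivity), mul_pow,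
          ← Real.rpow_natCast ((2 : ℝ) ^ (-a)) 2, ← Real.rpow_mul (by norm_num),
          ← Real.rpow_mul hlp.le, ← Real.rpow_natCast (l ^ (1 / (n : ℝ) * -a)) 2,
          ← Real.rpow_mul hlp.le]
        congr 3
        · push_cast; ring
        · push_cast; field_simp
      rw [e3]
      have e6 : l ^ (-(2 * a / n)) * l ^ (4 * (d - 2 * a - σ)) * l ^ (2 * (d : ℝ) - 2 * σ) =
          l ^ (d : ℝ) * l ^ e := by
        rw [← Real.rpow_add hlp, ← Real.rpow_add hlp, ← Real.rpow_add hlp]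
        congr 1; rw [hedef, hσdef]; ring
      rw [← e6]
      field_simp
    rw [hexp]
    have hpos : (0 : ℝ) < 2 * m + 1 := by positivity
    have hlog : 0 ≤ Real.log l := Real.log_nonneg hl1
    have hnγ : n / γ' ≤ l ^ q := by
      rw [hγ1', div_le_iff₀ (by positivity)]
      have e7 : l ^ q * (c1 * l ^ (4 * (d - 2 * a - σ))) = c1 * l := by
        have : l ^ q * l ^ (4 * (d - 2 * a - σ)) = l := by
          rw [← Real.rpow_add hlp, hqdef]
          have : 4 * (2 * a - d + σ) + 1 + 4 * (d - 2 * a - σ) = 1 := by ring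
          rw [this, Real.rpow_one]
        calc l ^ q * (c1 * l ^ (4 * (d - 2 * a - σ))) =
            c1 * (l ^ q * l ^ (4 * (d - 2 * a - σ))) := by ring
          _ = _ := by rw [this]
      rw [e7]
      rw [div_le_iff₀ hc10] at h5
      linarith
    calc n / γ' * (((2 : ℝ) * m + 1) ^ (l ^ (d : ℝ)) * Real.exp (-(K * (l ^ (d : ℝ) * l ^ e))))
        ≤ l ^ q * ((l ^ (s + 1)) ^ (l ^ (d : ℝ)) * Real.exp (-(K * (l ^ (d : ℝ) * l ^ e)))) := by
          refine mul_le_mul hnγ ?_ (by positivity) (by positivity)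
          exact mul_le_mul_of_nonneg_right (Real.rpow_le_rpow hpos.le hm3 (by positivity))
            (Real.exp_pos _).le
      _ = Real.exp (q * Real.log l + ((s + 1) * Real.log l * l ^ (d : ℝ) -
            K * (l ^ (d : ℝ) * l ^ e))) := by
          have t1 : l ^ q = Real.exp (q * Real.log l) := by
            rw [Real.rpow_def_of_pos hlp, mul_comm]
          have t2 : (l ^ (s + 1)) ^ (l ^ (d : ℝ)) =
              Real.exp ((s + 1) * Real.log l * l ^ (d : ℝ)) := by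
            rw [← Real.rpow_mul hlp.le, Real.rpow_def_of_pos hlp]
            congr 1; ring
          rw [t2, t1, ← Real.exp_add, ← Real.exp_add]
          congr 1
      _ ≤ Real.exp (-(σ * Real.log l)) := by
          apply Real.exp_le_exp.2
          have h6 : (s + 1 + σ + q) * Real.log l * l ^ (d : ℝ) ≤ K * l ^ e * l ^ (d : ℝ) :=
            mul_le_mul_of_nonneg_right h4 (by positivity)
          have h7 : σ * Real.log l ≤ σ * Real.log l * l ^ (d : ℝ) :=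
            le_mul_of_one_le_right (by positivity) hld
          have h8 : q * Real.log l ≤ q * Real.log l * l ^ (d : ℝ) :=
            le_mul_of_one_le_right (by positivity) hld
          have h9 : (s + 1 + σ + q) * Real.log l * l ^ (d : ℝ) =
            (s + 1) * Real.log l * l ^ (d : ℝ) + σ * Real.log l * l ^ (d : ℝ) +
              q * Real.log l * l ^ (d : ℝ) := by ring
          have h10 : K * l ^ e * l ^ (d : ℝ) = K * (l ^ (d : ℝ) * l ^ e) := by ring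
          linarith
      _ = l ^ (-σ) := by
          rw [Real.rpow_def_of_pos hlp]; congr 1; ring

end H10PL
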