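import Pool.Agent.H10R2.AC.Cb3
import Pool.Agent.H10R2.AC.Par5
import Pool.Agent.H10R2.AC.Ch5

/-!
The chain of scales, density free version: uniform integrability in a box.
-/

namespace H10PL

open MeasureTheory ProbabilityTheory Matrix Set Filter

variable {d : ℕ} {T0 : (Fin d → ℤ) → (Fin d → ℤ) → ℝ} {κ : (Fin d → ℤ) → ℝ} {ρ0 b : ℝ}

theorem cb_level (h : Adm T0 κ ρ0 b) (μ : Measure ℝ) [IsProbabilityMeasure μ]
    {a c C : ℝ} (ha0 : 0 < a) (hc : 0 < c) (hC : 0 < C)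
    (hκ : ∀ y : Fin d → ℤ, y ≠ 0 → c * ‖y‖ ^ (-a) ≤ |κ y| ∧ |κ y| ≤ C * ‖y‖ ^ (-a))
    {K η : ℝ} (hK : 0 < K) (hη : 0 < η) (hη1 : η ≤ 1) {σ c1 : ℝ} {n : ℕ} (hσ : 0 < σ)
    (hn : 0 < n) (hc1 : 0 < c1) (hc1' : c1 = c ^ 2 * 2 ^ (-(2 * a)) / (64 * n))
    {l l' R : ℕ} (hl : 2 ≤ l) (hll : l' = l ^ 2) (hR : 0 < R)
    (hl'R : l' ∣ R) (Λ : Finset (Fin d → ℤ)) {ρ : ℝ} (hΛ : cubeF R 0 ⊆ Λ) (hρ : (R : ℝ) ≤ ρ)
    {δ γ γ' Υ κ0 : ℝ} (hδ : δ = (l' : ℝ) ^ (-σ))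
    (hγ : γ = c1 * (l' : ℝ) ^ (d - 2 * a - σ))
    (hγ' : γ' = c1 * ((l' : ℝ) ^ 2) ^ (d - 2 * a - σ))
    (hΥ : Υ = (l : ℝ) ^ (d + σ) / γ') (hκ0 : κ0 = c / C * (2 * (l : ℝ) ^ (1 / (n : ℝ))) ^ (-a))
    (hpar : 2 * (l : ℝ) ^ (d : ℝ) / γ' ≤ δ * (l' : ℝ) ^ (d : ℝ) / 2 ∧
      (4 * (l : ℝ)) ^ (d : ℝ) / γ' ≤ δ * (l' : ℝ) ^ (d : ℝ) / 2 ∧ γ ≤ Υ ∧
      ∃ m : ℕ, Real.sqrt ((l : ℝ) ^ (d : ℝ) * Υ / γ) + 1 ≤ m ∧
        n / γ' * (((2 : ℝ) * m + 1) ^ ((l : ℝ) ^ (d : ℝ)) *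
          Real.exp (-(κ0 ^ 2 * γ' * (δ * (l' : ℝ) ^ (d : ℝ) / n) / 16))) ≤ (l : ℝ) ^ (-σ)) :
    ∑ x ∈ inΛ Λ (cubeF R 0), ∫⁻ p in {p : (ℝ × (Λ → ℝ)) × (Sym2 (Fin d → ℤ) → Bool) |
        Diss (Am T0 κ ρ Λ p.2) p.1.2 p.1.1 η (inΛ Λ (cubeF l' (x : Fin d → ℤ))) γ' ∧
        ¬ Diss (Am T0 κ ρ Λ p.2) p.1.2 p.1.1 η (inΛ Λ (cubeF l (x : Fin d → ℤ))) γ},
        ENNReal.ofReal (PF T0 κ ρ η Λ x p) ∂(M0 d μ Λ K) ≤
      ENNReal.ofReal ((R : ℝ) ^ d * ((4 * K + (2 * K + Real.pi * aC b κ) + 2 * K) *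
        (l : ℝ) ^ (-σ))) := by
  obtain ⟨hcard, hcard2, hγΥ, m, hm, hm2⟩ := hpar
  have haC : 0 ≤ aC b κ := by
    unfold aC
    have h1 : 0 ≤ ∑' z : Fin d → ℤ, κ z ^ 2 := tsum_nonneg (fun z => sq_nonneg (κ z))
    positivity
  have hlR2 : (2 : ℝ) ≤ l := by exact_mod_cast hl
  have hlR1 : (1 : ℝ) ≤ l := by linarith
  have hl0 : (0 : ℝ) < l := by linarith
  have hl'2 : (l' : ℝ) = (l : ℝ) ^ 2 := by rw [hll]; push_cast; rfl
  have hl'0 : (0 : ℝ) < l' := by rw [hl'2]; positivity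
  have hl'n : 0 < l' := by exact_mod_cast hl'0
  have hll' : (l : ℝ) ≤ l' := by rw [hl'2]; nlinarith
  have hn0 : (0 : ℝ) < n := by exact_mod_cast hn
  have hδ0 : 0 < δ := by rw [hδ]; positivity
  have hγ0 : 0 < γ := by rw [hγ]; positivity
  have hγ'0 : 0 < γ' := by rw [hγ']; positivity
  have hΥ0 : 0 < Υ := by rw [hΥ]; positivity
  have hκ00 : 0 < κ0 := by rw [hκ0]; positivity
  have ht0 : 0 < δ * (l' : ℝ) ^ d := by positivity
  simp only [Real.rpow_natCast] at hcard hcard2 hm hm2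
  have hexp : (l : ℝ) ^ d = ((l ^ d : ℕ) : ℝ) := by push_cast; rfl
  -- the radii of the shells
  obtain ⟨r, hr⟩ : ∃ r : ℕ → ℝ, r = fun i : ℕ => (l : ℝ) ^ (2 - (i : ℝ) / n) := ⟨_, rfl⟩
  have hr0 : r 0 = l' := by
    rw [hr, hl'2]
    simp only [Nat.cast_zero, zero_div, sub_zero]
    exact Real.rpow_natCast (l : ℝ) 2
  have hrn : r n = l := by
    rw [hr]
    simp only
    rw [div_self hn0.ne']
    norm_num
  have hrpos : ∀ i, 0 < r i := by intro i; rw [hr]; positivity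
  have hranti : ∀ i j, i ≤ j → r j ≤ r i := by
    intro i j hij
    rw [hr]
    simp only
    refine Real.rpow_le_rpow_of_exponent_le hlR1 ?_
    have : (i : ℝ) / n ≤ (j : ℝ) / n := by
      have : (i : ℝ) ≤ j := by exact_mod_cast hij
      gcongr
    linarith
  have hrsucc : ∀ i, r i = r (i + 1) * (l : ℝ) ^ (1 / (n : ℝ)) := by
    intro i
    rw [hr]
    simp only
    rw [← Real.rpow_add hl0]
    congr 1
    push_cast
    field_simp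
    ring
  have hkk : ∀ i, c * (2 * (l' : ℝ)) ^ (-a) ≤ c * (2 * r i) ^ (-a) := by
    intro i
    refine mul_le_mul_of_nonneg_left ?_ hc.le
    refine Real.rpow_le_rpow_of_nonpos (by have := hrpos i; positivity) ?_ (by linarith)
    have := hranti 0 i (Nat.zero_le _)
    rw [hr0] at this
    linarith
  have hstep := cb_step h μ ρ Λ (l := l) (l' := l') (R := R) (by omega) hl'n hR
    (by rw [hll]; exact Dvd.intro_left l (by ring)) hl'R hΛ hρ hn r hr0 hrn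
    (fun i hi => by rw [← hrn]; exact hranti i n hi)
    (fun i _ => by rw [← hr0]; exact hranti 0 i (Nat.zero_le _))
    (k0 := c * (2 * (l' : ℝ)) ^ (-a)) (κ0 := κ0)
    (γ := γ) (γ' := γ') (t := δ * (l' : ℝ) ^ d) (Υ := Υ) (K := K) (η := η)
    (by positivity) hκ00 hγ0 hγ'0 ht0 hγΥ (by
      rw [hγ, hδ, mul_pow, hc1', Real.mul_rpow (by norm_num) hl'0.le, mul_pow]
      have e1 : ((l' : ℝ) ^ (-a)) ^ 2 * ((l' : ℝ) ^ (-σ) * (l' : ℝ) ^ d) =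
          (l' : ℝ) ^ (d - 2 * a - σ) := by
        rw [← Real.rpow_natCast ((l' : ℝ) ^ (-a)) 2, ← Real.rpow_mul hl'0.le,
          ← Real.rpow_natCast (l' : ℝ) d, ← Real.rpow_add hl'0, ← Real.rpow_add hl'0]
        congr 1
        push_cast
        ring
      have e2 : ((2 : ℝ) ^ (-a)) ^ 2 = 2 ^ (-(2 * a)) := by
        rw [← Real.rpow_natCast, ← Real.rpow_mul (by norm_num)]
        congr 1
        push_cast
        ring
      rw [e2]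
      refine le_of_eq ?_
      calc 64 * (c ^ 2 * 2 ^ (-(2 * a)) / (64 * n) * (l' : ℝ) ^ ((d : ℝ) - 2 * a - σ))
          = c ^ 2 * 2 ^ (-(2 * a)) / n * (l' : ℝ) ^ ((d : ℝ) - 2 * a - σ) := by
            field_simp
        _ = c ^ 2 * (2 ^ (-(2 * a)) * ((l' : ℝ) ^ (-a)) ^ 2) *
            ((l' : ℝ) ^ (-σ) * (l' : ℝ) ^ d / n) := by
            rw [← e1]
            ring) hK hη hcard hcard2
    (fun i => c * (2 * r i) ^ (-a)) (fun i _ => hkk i)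
    (by
      intro i _ y hy hyl
      have hy0 : 0 < ‖y‖ := norm_pos_iff.2 hy
      refine le_trans ?_ (hκ y hy).1
      refine mul_le_mul_of_nonneg_left ?_ hc.le
      exact Real.rpow_le_rpow_of_nonpos hy0 hyl (by linarith))
    (by
      intro i _ y hy
      have hri := hrpos (i + 1)
      have hy0 : 0 < ‖y‖ := lt_trans hri hy
      refine (hκ y (norm_pos_iff.1 hy0)).2.trans ?_
      have e3 : c * (2 * r i) ^ (-a) / κ0 = C * (r (i + 1)) ^ (-a) := by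
        rw [hκ0, hrsucc i, div_eq_iff (by positivity)]
        have e4 : (2 * (r (i + 1) * (l : ℝ) ^ (1 / (n : ℝ)))) ^ (-a) =
            (r (i + 1)) ^ (-a) * (2 * (l : ℝ) ^ (1 / (n : ℝ))) ^ (-a) := by
          rw [← Real.mul_rpow hri.le (by positivity)]
          congr 1
          ring
        rw [e4]
        field_simp
      rw [e3]
      refine mul_le_mul_of_nonneg_left ?_ hC.le
      exact Real.rpow_le_rpow_of_nonpos hri hy.le (by linarith)) m hm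
  refine hstep.trans (ENNReal.ofReal_le_ofReal ?_)
  refine mul_le_mul_of_nonneg_left ?_ (by positivity)
  have hlσ : 0 < (l : ℝ) ^ (-σ) := by positivity
  have t1 : 2 * K * (2 * (δ * (l' : ℝ) ^ d) / (l' : ℝ) ^ d) ≤ 4 * K * (l : ℝ) ^ (-σ) := by
    have e1 : 2 * K * (2 * (δ * (l' : ℝ) ^ d) / (l' : ℝ) ^ d) = 4 * K * δ := by
      field_simp
      ring
    rw [e1, hδ]
    refine mul_le_mul_of_nonneg_left ?_ (by positivity)
    exact Real.rpow_le_rpow_of_nonpos hl0 hll' (by linarith)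
  have t3 : 1 / γ' * ((l : ℝ) ^ d * (2 * K * η + Real.pi * aC b κ) / Υ) ≤
      (2 * K + Real.pi * aC b κ) * (l : ℝ) ^ (-σ) := by
    have e1 : 1 / γ' * ((l : ℝ) ^ d * (2 * K * η + Real.pi * aC b κ) / Υ) =
        (2 * K * η + Real.pi * aC b κ) * (l : ℝ) ^ (-σ) := by
      have e2 : (l : ℝ) ^ (-σ) * (l : ℝ) ^ ((d : ℝ) + σ) = (l : ℝ) ^ d := by
        rw [← Real.rpow_add hl0, ← Real.rpow_natCast]
        congr 1
        ring
      rw [hΥ, ← e2]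
      have e5 : (0 : ℝ) < (l : ℝ) ^ ((d : ℝ) + σ) := by positivity
      field_simp
    rw [e1]
    refine mul_le_mul_of_nonneg_right ?_ hlσ.le
    have h9 : 2 * K * η ≤ 2 * K * 1 := mul_le_mul_of_nonneg_left hη1 (by positivity)
    linarith
  have t4 : 1 / γ' * (n * (2 * K * ((2 * (m : ℝ) + 1) ^ (l ^ d) *
      Real.exp (-(κ0 ^ 2 * γ' * (δ * (l' : ℝ) ^ d / n) / 16))))) ≤ 2 * K * (l : ℝ) ^ (-σ) := by
    rw [hexp, Real.rpow_natCast] at hm2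
    calc 1 / γ' * (n * (2 * K * ((2 * (m : ℝ) + 1) ^ (l ^ d) *
        Real.exp (-(κ0 ^ 2 * γ' * (δ * (l' : ℝ) ^ d / n) / 16)))))
        = 2 * K * (n / γ' * ((2 * (m : ℝ) + 1) ^ (l ^ d) *
          Real.exp (-(κ0 ^ 2 * γ' * (δ * (l' : ℝ) ^ d / n) / 16)))) := by ring
      _ ≤ 2 * K * (l : ℝ) ^ (-σ) := mul_le_mul_of_nonneg_left hm2 (by positivity)
  calc _ = 2 * K * (2 * (δ * (l' : ℝ) ^ d) / (l' : ℝ) ^ d) +
        1 / γ' * ((l : ℝ) ^ d * (2 * K * η + Real.pi * aC b κ) / Υ) +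
        1 / γ' * (n * (2 * K * ((2 * (m : ℝ) + 1) ^ (l ^ d) *
          Real.exp (-(κ0 ^ 2 * γ' * (δ * (l' : ℝ) ^ d / n) / 16))))) := by ring
    _ ≤ 4 * K * (l : ℝ) ^ (-σ) + (2 * K + Real.pi * aC b κ) * (l : ℝ) ^ (-σ) +
        2 * K * (l : ℝ) ^ (-σ) := by linarith
    _ = _ := by ring

end H10PL
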