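import Pool.Agent.H10R2.AC.Cb4

/-!
The chain of scales, density free version (assembly).
-/

namespace H10PL

open MeasureTheory ProbabilityTheory Matrix Set Filter

variable {d : ℕ} {T0 : (Fin d → ℤ) → (Fin d → ℤ) → ℝ} {κ : (Fin d → ℤ) → ℝ} {ρ0 b : ℝ}

theorem ui_box5 (h : Adm T0 κ ρ0 b) (hd : 0 < d) (μ : Measure ℝ) [IsProbabilityMeasure μ]
    {a c C : ℝ} (ha1 : (d : ℝ) / 2 < a)
    (ha2 : a < 5 * d / 8) (hc : 0 < c)
    (hκ : ∀ y : Fin d → ℤ, y ≠ 0 → c * ‖y‖ ^ (-a) ≤ |κ y| ∧ |κ y| ≤ C * ‖y‖ ^ (-a))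
    {K : ℝ} (hK : 0 < K) {ε : ℝ} (hε : 0 < ε) :
    ∃ M : ℝ, 0 < M ∧ ∀ η : ℝ, 0 < η → η ≤ 1 → ∃ R : ℕ, 0 < R ∧
      ∀ (Λ : Finset (Fin d → ℤ)) (ρ : ℝ), cubeF R 0 ⊆ Λ → (R : ℝ) ≤ ρ →
      ∑ x ∈ inΛ Λ (cubeF R 0), ∫⁻ p in {p | M < PF T0 κ ρ η Λ x p},
        ENNReal.ofReal (PF T0 κ ρ η Λ x p) ∂(M0 d μ Λ K) ≤
          ENNReal.ofReal (ε * R ^ d) := by
  classical
  have haC : 0 ≤ aC b κ := by
    unfold aC
    have h1 : 0 ≤ ∑' z : Fin d → ℤ, κ z ^ 2 := tsum_nonneg (fun z => sq_nonneg (κ z))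
    positivity
  have hcC : c ≤ C := by
    have hne : (fun _ : Fin d => (1 : ℤ)) ≠ 0 := by
      intro h0
      have := congrFun h0 ⟨0, hd⟩
      simp at this
    have h1 := hκ _ hne
    have h2 : 0 < ‖(fun _ : Fin d => (1 : ℤ))‖ ^ (-a) := by
      have := norm_pos_iff.2 hne
      positivity
    have h3 := h1.1.trans h1.2
    exact le_of_mul_le_mul_right h3 h2
  have hC : 0 < C := lt_of_lt_of_le hc hcC
  have ha0 : 0 < a := lt_of_le_of_lt (by positivity) ha1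
  obtain ⟨σ, l0, c1, n, hσ, hn, hl0, hc1, hc1', hpar⟩ := params5 hd ha1 ha2 hc hC
  obtain ⟨C6, hC6⟩ : ∃ C6 : ℝ, C6 = 4 * K + (2 * K + Real.pi * aC b κ) + 2 * K := ⟨_, rfl⟩
  have hC60 : 0 < C6 := by rw [hC6]; positivity
  obtain ⟨L, hL2, hLl0, hLsum⟩ := ch_start (l0 := l0) hσ hC60 hε
  obtain ⟨lj, hlj⟩ : ∃ lj : ℕ → ℕ, lj = fun j => L ^ 2 ^ j := ⟨_, rfl⟩
  obtain ⟨g, hg⟩ : ∃ g : ℕ → ℝ, g = fun j => c1 * ((lj (j + 1) : ℝ)) ^ (d - 2 * a - σ) :=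
    ⟨_, rfl⟩
  have hL0 : 0 < L := by omega
  have hlj0 : ∀ j, 0 < lj j := by intro j; rw [hlj]; positivity
  have hljL : ∀ j, L ≤ lj j := by
    intro j
    rw [hlj]
    calc L = L ^ 1 := (pow_one L).symm
      _ ≤ L ^ 2 ^ j := Nat.pow_le_pow_right hL0 Nat.one_le_two_pow
  have hljs : ∀ j, lj (j + 1) = lj j ^ 2 := by
    intro j
    rw [hlj]
    simp only
    rw [pow_succ 2 j, pow_mul]
  have hljdvd : ∀ i j, i ≤ j → lj i ∣ lj j := by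
    intro i j hij
    rw [hlj]
    exact pow_dvd_pow L (Nat.pow_le_pow_right (by norm_num) hij)
  have hg0 : ∀ j, 0 < g j := by
    intro j
    have : (0 : ℝ) < lj (j + 1) := by exact_mod_cast hlj0 _
    rw [hg]
    positivity
  have hexpneg : (d : ℝ) - 2 * a - σ < 0 := by linarith
  have hglim : Tendsto g atTop (nhds 0) := by
    have h1 : Tendsto (fun j : ℕ => ((lj (j + 1) : ℕ) : ℝ)) atTop atTop := by
      refine tendsto_atTop_mono (f := fun j : ℕ => (j : ℝ)) ?_ tendsto_natCast_atTop_atTop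
      intro j
      have h2 : j ≤ lj (j + 1) := by
        rw [hlj]
        have h3 : j + 1 < 2 ^ (j + 1) := Nat.lt_two_pow_self
        have h4 : 2 ^ (j + 1) < 2 ^ 2 ^ (j + 1) := Nat.lt_two_pow_self
        have h5 : 2 ^ 2 ^ (j + 1) ≤ L ^ 2 ^ (j + 1) := Nat.pow_le_pow_left hL2 _
        simp only
        omega
      exact_mod_cast h2
    have h2 : Tendsto (fun j : ℕ => ((lj (j + 1) : ℕ) : ℝ) ^ (-(-((d : ℝ) - 2 * a - σ)))) atTop
        (nhds 0) := (tendsto_rpow_neg_atTop (by linarith)).comp h1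
    have h3 := h2.const_mul c1
    rw [mul_zero] at h3
    rw [hg]
    simpa using h3
  refine ⟨1 / g 0, by have := hg0 0; positivity, ?_⟩
  intro η hη hη1
  obtain ⟨m, hm⟩ := (hglim.eventually_le_const hη).exists
  refine ⟨lj m, hlj0 m, ?_⟩
  intro Λ ρ hΛ hρ
  obtain ⟨R, hR⟩ : ∃ R, R = lj m := ⟨_, rfl⟩
  rw [← hR] at hΛ hρ ⊢
  have hR0 : 0 < R := by rw [hR]; exact hlj0 m
  -- the events
  obtain ⟨Ev, hEv⟩ : ∃ Ev : Λ → ℕ → Set ((ℝ × (Λ → ℝ)) × (Sym2 (Fin d → ℤ) → Bool)),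
      Ev = fun (x : Λ) (j : ℕ) => {p : (ℝ × (Λ → ℝ)) × (Sym2 (Fin d → ℤ) → Bool) |
        Diss (Am T0 κ ρ Λ p.2) p.1.2 p.1.1 η (inΛ Λ (cubeF (lj (j + 1)) (x : Fin d → ℤ)))
          (g (j + 1)) ∧
        ¬ Diss (Am T0 κ ρ Λ p.2) p.1.2 p.1.1 η (inΛ Λ (cubeF (lj j) (x : Fin d → ℤ))) (g j)} :=
    ⟨_, rfl⟩
  have hincl : ∀ x : Λ, {p : (ℝ × (Λ → ℝ)) × (Sym2 (Fin d → ℤ) → Bool) |
      1 / g 0 < PF T0 κ ρ η Λ x p} ⊆ ⋃ j ∈ Finset.range m, Ev x j := by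
    intro x p hp
    by_contra hno
    have hno' : ∀ j < m, p ∉ Ev x j := by
      intro j hj hmem
      exact hno (Set.mem_biUnion (Finset.mem_coe.2 (Finset.mem_range.2 hj)) hmem)
    have hdown : ∀ k, k ≤ m → Diss (Am T0 κ ρ Λ p.2) p.1.2 p.1.1 η
        (inΛ Λ (cubeF (lj (m - k)) (x : Fin d → ℤ))) (g (m - k)) := by
      intro k
      induction k with
      | zero =>
        intro _ φ
        have h1 := YQ_ge (Am T0 κ ρ Λ p.2) (Am_symm h ρ Λ p.2) p.1.2 p.1.1 hη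
          (inΛ Λ (cubeF (lj (m - 0)) (x : Fin d → ℤ))) φ
        refine le_trans ?_ h1
        refine mul_le_mul_of_nonneg_right ?_ (Finset.sum_nonneg fun i _ => sq_nonneg _)
        simpa using hm
      | succ k ih =>
        intro hk
        have h1 := ih (by omega)
        by_contra h2
        refine hno' (m - (k + 1)) (by omega) ?_
        rw [hEv]
        refine ⟨?_, h2⟩
        have h3 : m - (k + 1) + 1 = m - k := by omega
        rw [h3]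
        exact h1
    have h0 := hdown m le_rfl
    rw [Nat.sub_self] at h0
    have hxm : x ∈ inΛ Λ (cubeF (lj 0) (x : Fin d → ℤ)) :=
      (ch_mem_inΛ Λ _ x).2 (mem_cube _ (hlj0 0) _)
    have h1 := diag_le_of_diss (Am T0 κ ρ Λ p.2) (Am_symm h ρ Λ p.2) p.1.2 p.1.1 hη (hg0 0) _ h0 x
      hxm
    exact absurd hp (not_lt.2 h1)
  have hlevel : ∀ j ∈ Finset.range m,
      ∑ x ∈ inΛ Λ (cubeF R 0), ∫⁻ p in Ev x j, ENNReal.ofReal (PF T0 κ ρ η Λ x p) ∂(M0 d μ Λ K) ≤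
        ENNReal.ofReal ((R : ℝ) ^ d * (C6 * (lj j : ℝ) ^ (-σ))) := by
    intro j hj
    have hj' := Finset.mem_range.1 hj
    have hcast : ((lj (j + 1) : ℕ) : ℝ) = (lj j : ℝ) ^ 2 := by rw [hljs]; push_cast; rfl
    have hcast2 : ((lj (j + 2) : ℕ) : ℝ) = ((lj (j + 1) : ℕ) : ℝ) ^ 2 := by
      rw [hljs (j + 1)]; push_cast; rfl
    have hge : l0 ≤ (lj j : ℝ) := hLl0.trans (by exact_mod_cast hljL j)
    have hp := hpar (lj j : ℝ) hge (lj (j + 1) : ℝ) _ (g j) (g (j + 1)) _ _ hcast rfl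
      (by rw [hg]) (by rw [hg]; simp only; rw [← hcast2]) rfl rfl
    have hfin := cb_level h μ ha0 hc hC hκ hK hη hη1 hσ hn hc1 hc1' (l := lj j)
      (l' := lj (j + 1)) (R := R) (hL2.trans (hljL j)) (hljs j) hR0
      (by rw [hR]; exact hljdvd _ _ (by omega)) Λ hΛ hρ rfl
      (γ := g j) (γ' := g (j + 1)) (by rw [hg]) (by rw [hg]; simp only; rw [← hcast2]) rfl rfl hp
    rw [← hC6] at hfin
    rw [hEv]
    exact hfin
  calc ∑ x ∈ inΛ Λ (cubeF R 0), ∫⁻ p in {p | 1 / g 0 < PF T0 κ ρ η Λ x p},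
        ENNReal.ofReal (PF T0 κ ρ η Λ x p) ∂(M0 d μ Λ K)
      ≤ ∑ x ∈ inΛ Λ (cubeF R 0), ∑ j ∈ Finset.range m,
        ∫⁻ p in Ev x j, ENNReal.ofReal (PF T0 κ ρ η Λ x p) ∂(M0 d μ Λ K) := by
        refine Finset.sum_le_sum fun x _ => ?_
        exact (lintegral_mono_set (hincl x)).trans (ch_union _ _ _ _)
    _ = ∑ j ∈ Finset.range m, ∑ x ∈ inΛ Λ (cubeF R 0),
        ∫⁻ p in Ev x j, ENNReal.ofReal (PF T0 κ ρ η Λ x p) ∂(M0 d μ Λ K) := Finset.sum_comm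
    _ ≤ ∑ j ∈ Finset.range m, ENNReal.ofReal ((R : ℝ) ^ d * (C6 * (lj j : ℝ) ^ (-σ))) :=
        Finset.sum_le_sum hlevel
    _ = ENNReal.ofReal (∑ j ∈ Finset.range m, (R : ℝ) ^ d * (C6 * (lj j : ℝ) ^ (-σ))) := by
        rw [ENNReal.ofReal_sum_of_nonneg]
        intro j _
        positivity
    _ ≤ ENNReal.ofReal (ε * R ^ d) := by
        refine ENNReal.ofReal_le_ofReal ?_
        rw [← Finset.mul_sum, mul_comm]
        refine mul_le_mul_of_nonneg_right ?_ (by positivity)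
        have := hLsum m
        rw [hlj]
        exact this

end H10PL
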