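import Pool.Agent.H10R2.AC.Defs4
import Pool.Agent.H10R2.PL.Tail

/-!
Task 4-MU (helper793): the spectral measure of a coordinate vector, and its weak limits.
-/

namespace H10PL

open MeasureTheory ProbabilityTheory Matrix Set Filter

section mu_fin

variable {ι : Type*} [Fintype ι] [DecidableEq ι]

/-- a finite combination of Dirac masses -/
noncomputable def mu_meas (p lam : ι → ℝ) : Measure ℝ :=
  ∑ k, ENNReal.ofReal (p k) • Measure.dirac (lam k)

omit [DecidableEq ι] in
theorem mu_univ (p lam : ι → ℝ) (hp : ∀ k, 0 ≤ p k) (h1 : ∑ k, p k = 1) :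
    mu_meas p lam univ = 1 := by
  unfold mu_meas
  rw [Measure.finsetSum_apply]
  simp only [Measure.smul_apply, measure_univ, smul_eq_mul, mul_one]
  rw [← ENNReal.ofReal_sum_of_nonneg (fun k _ => hp k), h1, ENNReal.ofReal_one]

omit [DecidableEq ι] in
theorem mu_lint (p lam : ι → ℝ) (hp : ∀ k, 0 ≤ p k) (f : ℝ → ℝ) (hf : ∀ t, 0 ≤ f t) :
    ∫⁻ t, ENNReal.ofReal (f t) ∂(mu_meas p lam) = ENNReal.ofReal (∑ k, p k * f (lam k)) := by
  unfold mu_meas
  rw [lintegral_finsetSum_measure]
  simp only [lintegral_smul_measure, lintegral_dirac, smul_eq_mul]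
  rw [ENNReal.ofReal_sum_of_nonneg (fun k _ => mul_nonneg (hp k) (hf _))]
  exact Finset.sum_congr rfl fun k _ => (ENNReal.ofReal_mul (hp k)).symm

omit [DecidableEq ι] in
theorem mu_int (p lam : ι → ℝ) (hp : ∀ k, 0 ≤ p k) (f : ℝ → ℂ) :
    ∫ t, f t ∂(mu_meas p lam) = ∑ k, (p k : ℂ) * f (lam k) := by
  unfold mu_meas
  rw [integral_finsetSum_measure]
  · refine Finset.sum_congr rfl fun k _ => ?_
    rw [integral_smul_measure, integral_dirac, ENNReal.toReal_ofReal (hp k)]
    rw [Complex.real_smul]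
  · intro k _
    exact (integrable_dirac (by simp)).smul_measure ENNReal.ofReal_ne_top

/-- diagonalisation: weights and eigenvalues -/
theorem mu_diag (A : Matrix ι ι ℝ) (hA : A.IsSymm) (hd : ∀ i, A i i = 0) (V : ι → ℝ) (x : ι) :
    ∃ (p lam : ι → ℝ), (∀ k, 0 ≤ p k) ∧ ∑ k, p k = 1 ∧
      ∑ k, p k * lam k ^ 2 = V x ^ 2 + ∑ j, A x j ^ 2 ∧
      ∀ (E η : ℝ), 0 < η → Gm A V E η x x =
        ∑ k, (p k : ℂ) * (1 / ((lam k : ℂ) - ((E : ℂ) + (η : ℂ) * Complex.I))) := by
  have hB : (A + Matrix.diagonal V).IsHermitian := by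
    unfold Matrix.IsHermitian
    rw [Matrix.conjTranspose_eq_transpose_of_trivial, Matrix.transpose_add,
      Matrix.diagonal_transpose, hA.eq]
  set b := hB.eigenvectorBasis with hb
  have hin : ∀ (φ : ι → ℝ) k, inner ℝ (b k) (WithLp.toLp 2 φ : EuclideanSpace ℝ ι) =
      ∑ i, φ i * b k i := by
    intro φ k
    rw [PiLp.inner_apply]
    rfl
  have hpars : ∀ φ : ι → ℝ, ∑ k, (∑ i, φ i * b k i) ^ 2 = ∑ i, φ i ^ 2 := by
    intro φ
    have := b.sum_sq_norm_inner_right (WithLp.toLp 2 φ : EuclideanSpace ℝ ι)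
    rw [EuclideanSpace.norm_sq_eq] at this
    simp only [hin, Real.norm_eq_abs, sq_abs] at this
    exact this
  have hcomp : ∀ (φ : ι → ℝ) j, ∑ k, (∑ i, φ i * b k i) * b k j = φ j := by
    intro φ j
    have := b.sum_repr' (WithLp.toLp 2 φ : EuclideanSpace ℝ ι)
    have h3 := congrArg (fun y : EuclideanSpace ℝ ι => y j) this
    simp only [hin] at h3
    have h4 : (∑ k, (∑ i, φ i * b k i) • b k : EuclideanSpace ℝ ι) j =
        ∑ k, (∑ i, φ i * b k i) * b k j := by
      rw [WithLp.ofLp_sum, Finset.sum_apply]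
      rfl
    rw [h4] at h3
    exact h3
  have hsing : ∀ k, ∑ i, (Pi.single x (1 : ℝ) : ι → ℝ) i * b k i = b k x := by
    intro k
    simp [Pi.single_apply]
  have heig : ∀ k i, ∑ j, (A + Matrix.diagonal V) i j * b k j = hB.eigenvalues k * b k i := by
    intro k i
    exact congrFun (hB.mulVec_eigenvectorBasis k) i
  refine ⟨fun k => b k x ^ 2, hB.eigenvalues, fun k => sq_nonneg _, ?_, ?_, fun E η hη => ?_⟩
  · have h1 := hpars (Pi.single x 1)
    simp only [hsing] at h1
    rw [h1]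
    simp [Pi.single_apply]
  · have h1 := hpars (fun i => (A + Matrix.diagonal V) x i)
    have h2 : ∀ k, ∑ i, (A + Matrix.diagonal V) x i * b k i = hB.eigenvalues k * b k x :=
      fun k => heig k x
    simp only [h2] at h1
    have h3 : ∀ k, b k x ^ 2 * hB.eigenvalues k ^ 2 = (hB.eigenvalues k * b k x) ^ 2 :=
      fun k => by ring
    simp only [h3]
    rw [h1]
    have h4 : ∀ i, (A + Matrix.diagonal V) x i ^ 2 = (if x = i then V x ^ 2 else 0) + A x i ^ 2 := by
      intro i
      rw [Matrix.add_apply, Matrix.diagonal_apply]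
      by_cases h : x = i
      · rw [if_pos h, if_pos h, ← h, hd x]
        ring
      · rw [if_neg h, if_neg h]
        ring
    simp only [h4]
    rw [Finset.sum_add_distrib, Finset.sum_ite_eq, if_pos (Finset.mem_univ x)]
  · set z : ℂ := (E : ℂ) + (η : ℂ) * Complex.I with hz
    have hne : ∀ k, ((hB.eigenvalues k : ℂ) - z) ≠ 0 := by
      intro k h
      have := congrArg Complex.im h
      simp [hz] at this
      exact hη.ne' this
    have h5 : ∀ k i, ∑ j, Mz A V E η i j * (b k j : ℂ) =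
        ((hB.eigenvalues k : ℂ) - z) * (b k i : ℂ) := by
      intro k i
      have h7 := heig k i
      have h8 : ∀ j, Mz A V E η i j * (b k j : ℂ) =
          (((A + Matrix.diagonal V) i j * b k j : ℝ) : ℂ) -
            (if i = j then z * (b k j : ℂ) else 0) := by
        intro j
        unfold Mz
        rw [Matrix.sub_apply, Matrix.map_apply, Matrix.smul_apply, Matrix.one_apply]
        by_cases hij : i = j
        · simp only [hij, if_true, smul_eq_mul]
          push_cast
          ring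
        · simp only [hij, if_false, smul_eq_mul]
          push_cast
          ring
      simp only [h8]
      rw [Finset.sum_sub_distrib, ← Complex.ofReal_sum, h7, Finset.sum_ite_eq,
        if_pos (Finset.mem_univ i)]
      push_cast
      ring
    have h9 : ∀ k i, ∑ j, Gm A V E η i j * (b k j : ℂ) =
        ((hB.eigenvalues k : ℂ) - z)⁻¹ * (b k i : ℂ) := by
      intro k i
      have h10 : ∑ j, (Gm A V E η * Mz A V E η) i j * (b k j : ℂ) = (b k i : ℂ) := by
        rw [Gm_mul_Mz A hA V E hη]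
        simp [Matrix.one_apply]
      have h11 : ∑ j, (Gm A V E η * Mz A V E η) i j * (b k j : ℂ) =
          ((hB.eigenvalues k : ℂ) - z) * ∑ j, Gm A V E η i j * (b k j : ℂ) := by
        simp only [Matrix.mul_apply, Finset.sum_mul]
        rw [Finset.sum_comm, Finset.mul_sum]
        apply Finset.sum_congr rfl
        intro l _
        have := h5 k l
        calc ∑ j, Gm A V E η i l * Mz A V E η l j * (b k j : ℂ)
            = Gm A V E η i l * ∑ j, Mz A V E η l j * (b k j : ℂ) := by
              rw [Finset.mul_sum]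
              apply Finset.sum_congr rfl
              intro j _
              ring
          _ = _ := by
              rw [this]
              ring
      rw [h11] at h10
      rw [← h10]
      field_simp [hne k]
    have h12 : ∀ j, ∑ k, b k x * b k j = (Pi.single x (1 : ℝ) : ι → ℝ) j := by
      intro j
      have := hcomp (Pi.single x 1) j
      simp only [hsing] at this
      exact this
    calc Gm A V E η x x = ∑ j, Gm A V E η x j * (((Pi.single x (1 : ℝ) : ι → ℝ) j : ℝ) : ℂ) := by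
          rw [Finset.sum_eq_single x]
          · rw [Pi.single_eq_same]
            simp
          · intro j _ hj
            rw [Pi.single_eq_of_ne hj]
            simp
          · intro h
            exact absurd (Finset.mem_univ x) h
      _ = ∑ j, Gm A V E η x j * ∑ k, (b k x : ℂ) * (b k j : ℂ) := by
          apply Finset.sum_congr rfl
          intro j _
          rw [← h12 j]
          push_cast
          rfl
      _ = ∑ k, (b k x : ℂ) * ∑ j, Gm A V E η x j * (b k j : ℂ) := by
          simp only [Finset.mul_sum]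
          rw [Finset.sum_comm]
          apply Finset.sum_congr rfl
          intro k _
          apply Finset.sum_congr rfl
          intro j _
          ring
      _ = _ := by
          apply Finset.sum_congr rfl
          intro k _
          rw [h9]
          push_cast
          rw [one_div]
          ring

end mu_fin

/-- finite matrices: spectral measure of a coordinate vector -/
theorem spec_fin {ι : Type*} [Fintype ι] [DecidableEq ι] (A : Matrix ι ι ℝ) (hA : A.IsSymm)
    (hd : ∀ i, A i i = 0) (V : ι → ℝ) (x : ι) :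
    ∃ μ : ProbabilityMeasure ℝ, (∀ (E : ℝ) (η : ℝ), 0 < η →
      Gm A V E η x x = ∫ t : ℝ, 1 / ((t : ℂ) - ((E : ℂ) + (η : ℂ) * Complex.I)) ∂(μ : Measure ℝ)) ∧
      ∫⁻ t : ℝ, ENNReal.ofReal (t ^ 2) ∂(μ : Measure ℝ) ≤
        ENNReal.ofReal (V x ^ 2 + ∑ j, A x j ^ 2) := by
  obtain ⟨p, lam, hp, h1, h2, h3⟩ := mu_diag A hA hd V x
  refine ⟨⟨mu_meas p lam, ⟨mu_univ p lam hp h1⟩⟩, ?_, ?_⟩
  · intro E η hη
    rw [h3 E η hη]
    exact (mu_int p lam hp (fun t : ℝ => 1 / ((t : ℂ) - ((E : ℂ) + (η : ℂ) * Complex.I)))).symm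
  · rw [← h2]
    exact (mu_lint p lam hp (fun t => t ^ 2) (fun t => sq_nonneg t)).le

theorem mu_tight (C : ℝ) (μ : ℕ → ProbabilityMeasure ℝ)
    (h2 : ∀ n, ∫⁻ t : ℝ, ENNReal.ofReal (t ^ 2) ∂(μ n : Measure ℝ) ≤ ENNReal.ofReal C) :
    IsTightMeasureSet {((ν : ProbabilityMeasure ℝ) : Measure ℝ) | ν ∈ Set.range μ} := by
  rw [isTightMeasureSet_iff_exists_isCompact_measure_compl_le]
  intro ε hε
  have hC' : ENNReal.ofReal C ≤ ENNReal.ofReal (max C 0) :=
    ENNReal.ofReal_le_ofReal (le_max_left _ _)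
  obtain ⟨N, hN⟩ : ∃ N : ℕ, ENNReal.ofReal (max C 0) / ε < N := by
    apply ENNReal.exists_nat_gt
    exact (ENNReal.div_lt_top ENNReal.ofReal_ne_top hε.ne').ne
  set R : ℝ := (N : ℝ) + 1 with hR
  have hR0 : 0 < R := by positivity
  refine ⟨Icc (-R) R, isCompact_Icc, ?_⟩
  rintro _ ⟨ν, ⟨n, rfl⟩, rfl⟩
  by_cases hεt : ε = ⊤
  · rw [hεt]
    exact le_top
  have hmarkov := mul_meas_ge_le_lintegral (μ := (μ n : Measure ℝ))
    (f := fun t : ℝ => ENNReal.ofReal (t ^ 2)) (by fun_prop) (ENNReal.ofReal (R ^ 2))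
  have hsub : (Icc (-R) R)ᶜ ⊆ {t : ℝ | ENNReal.ofReal (R ^ 2) ≤ ENNReal.ofReal (t ^ 2)} := by
    intro t ht
    rw [mem_compl_iff, mem_Icc, ← abs_le, not_le] at ht
    apply ENNReal.ofReal_le_ofReal
    rw [← sq_abs t]
    exact pow_le_pow_left₀ hR0.le ht.le 2
  have h3 : ENNReal.ofReal (R ^ 2) * (μ n : Measure ℝ) (Icc (-R) R)ᶜ ≤
      ENNReal.ofReal (max C 0) :=
    (mul_le_mul_right (measure_mono hsub) _).trans (hmarkov.trans ((h2 n).trans hC'))
  have hRN : (N : ENNReal) ≤ ENNReal.ofReal (R ^ 2) := by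
    rw [← ENNReal.ofReal_natCast N]
    apply ENNReal.ofReal_le_ofReal
    rw [hR]
    nlinarith [Nat.cast_nonneg (α := ℝ) N]
  have h4 : ENNReal.ofReal (max C 0) ≤ ENNReal.ofReal (R ^ 2) * ε := by
    have h5 : ENNReal.ofReal (max C 0) / ε ≤ ENNReal.ofReal (R ^ 2) := hN.le.trans hRN
    exact (ENNReal.div_le_iff hε.ne' hεt).1 h5
  have h6 : ENNReal.ofReal (R ^ 2) ≠ 0 := by
    rw [Ne, ENNReal.ofReal_eq_zero, not_le]
    positivity
  exact (ENNReal.mul_le_mul_iff_right h6 ENNReal.ofReal_ne_top).1 (h3.trans h4)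

/-- the kernel as a bounded continuous function -/
noncomputable def mu_ker (E η : ℝ) (hη : 0 < η) : BoundedContinuousFunction ℝ ℂ :=
  BoundedContinuousFunction.ofNormedAddCommGroup
    (fun t : ℝ => 1 / ((t : ℂ) - ((E : ℂ) + (η : ℂ) * Complex.I)))
    (by
      apply Continuous.div continuous_const (by fun_prop)
      intro t h
      have := congrArg Complex.im h
      simp at this
      exact hη.ne' this)
    (1 / η) (by
      intro t
      have h1 : |((t : ℂ) - ((E : ℂ) + (η : ℂ) * Complex.I)).im| ≤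
          ‖(t : ℂ) - ((E : ℂ) + (η : ℂ) * Complex.I)‖ := Complex.abs_im_le_norm _
      have h2 : ((t : ℂ) - ((E : ℂ) + (η : ℂ) * Complex.I)).im = -η := by simp
      rw [h2, abs_neg, abs_of_pos hη] at h1
      rw [norm_div, norm_one]
      exact one_div_le_one_div_of_le hη h1)

theorem spec_limit (g : ℝ → ℝ → ℂ) (C : ℝ) (μ : ℕ → ProbabilityMeasure ℝ)
    (h2 : ∀ n, ∫⁻ t : ℝ, ENNReal.ofReal (t ^ 2) ∂(μ n : Measure ℝ) ≤ ENNReal.ofReal C)
    (hg : ∀ (E η : ℝ), 0 < η → Tendsto (fun n => ∫ t : ℝ, 1 / ((t : ℂ) -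
      ((E : ℂ) + (η : ℂ) * Complex.I)) ∂(μ n : Measure ℝ)) atTop (nhds (g E η))) :
    ∃ ν : ProbabilityMeasure ℝ, ∀ (E η : ℝ), 0 < η →
      g E η = ∫ t : ℝ, 1 / ((t : ℂ) - ((E : ℂ) + (η : ℂ) * Complex.I)) ∂(ν : Measure ℝ) := by
  have hcomp := isCompact_closure_of_isTightMeasureSet (mu_tight C μ h2)
  obtain ⟨ν, _, φ, hφ, hlim⟩ := hcomp.isSeqCompact
    (x := μ) (fun n => subset_closure (Set.mem_range_self n))
  refine ⟨ν, fun E η hη => ?_⟩
  rw [ProbabilityMeasure.tendsto_iff_forall_integral_rclike_tendsto ℂ] at hlim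
  have h3 := hlim (mu_ker E η hη)
  have h4 := (hg E η hη).comp hφ.tendsto_atTop
  exact tendsto_nhds_unique h4 h3

end H10PL
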