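import Pool.Agent.H10R2.AC.Cb5
import Pool.Agent.H10R2.AC.Uix3
import Pool.Agent.H10R2.PL.Fin2d

/-!
Density free version: infinite volume, almost sure absolute continuity.
-/

namespace H10PL

open MeasureTheory ProbabilityTheory Matrix Set Filter

variable {d : ℕ} {T0 : (Fin d → ℤ) → (Fin d → ℤ) → ℝ} {κ : (Fin d → ℤ) → ℝ} {ρ0 b : ℝ}

/-- no nonreal eigenvalue, for every single-site law -/
theorem noeig_ae (h : Adm T0 κ ρ0 b) (μ : Measure ℝ) [IsProbabilityMeasure μ] :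
    ∀ᵐ ω ∂((PVg d μ).prod (Ps d)), NoEig T0 κ ω := by
  have h2 : ∀ᵐ ω ∂((PVg d μ).prod (Ps d)), ∀ (q : ℚ) (m : ℕ) (x : Fin d → ℤ), 0 < q →
      ∀ᵐ E : ℝ, GoodE T0 κ (q : ℝ) (1 / ((m : ℝ) + 1)) x E ω := by
    rw [ae_all_iff]; intro q
    rw [ae_all_iff]; intro m
    rw [ae_all_iff]; intro x
    by_cases hq : 0 < q
    · have hqr : (0 : ℝ) < q := by exact_mod_cast hq
      filter_upwards [good_ae h μ hqr (show (0 : ℝ) < 1 / ((m : ℝ) + 1) by positivity) x]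
        with ω hω _
      exact hω
    · exact Filter.Eventually.of_forall fun ω hq' => absurd hq' hq
  filter_upwards [h2] with ω hω2
  intro z ψ hz hψ1 hψ2
  rcases lt_or_gt_of_ne hz with hE | hE
  · have h3 := nonreal_zero hω2 ((starRingEnd ℂ) z) (by simpa using hE) _
      (EigC_conj z ψ ⟨hψ1, hψ2⟩)
    funext x
    have h4 := congrFun h3 x
    simpa using h4
  · exact nonreal_zero hω2 z hE ψ ⟨hψ1, hψ2⟩

theorem uix5 (h : Adm T0 κ ρ0 b) (hTinv : ∀ a y w, T0 (y + a) (w + a) = T0 y w)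
    (hd : 0 < d) (μ : Measure ℝ) [IsProbabilityMeasure μ] {a c C : ℝ} (ha1 : (d : ℝ) / 2 < a)
    (ha2 : a < 5 * d / 8) (hc : 0 < c)
    (hκ : ∀ y : Fin d → ℤ, y ≠ 0 → c * ‖y‖ ^ (-a) ≤ |κ y| ∧ |κ y| ≤ C * ‖y‖ ^ (-a))
    (hNE : ∀ᵐ ω ∂((PVg d μ).prod (Ps d)), NoEig T0 κ ω)
    {K : ℝ} (hK : 0 < K) {ε : ℝ} (hε : 0 < ε) :
    ∃ M : ℝ, 0 < M ∧ ∀ η : ℝ, 0 < η → η ≤ 1 → ∀ x : Fin d → ℤ,
      ∫⁻ p, Tr M (GI T0 κ η x p) ∂((volume.restrict (Icc (-K) K)).prod ((PVg d μ).prod (Ps d))) ≤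
        ENNReal.ofReal ε := by
  obtain ⟨M, hM, hbox⟩ := ui_box5 h hd μ ha1 ha2 hc hκ hK hε
  refine ⟨M, hM, fun η hη hη1 x => ?_⟩
  obtain ⟨R, hR, hbox⟩ := hbox η hη hη1
  obtain ⟨P, hP⟩ : ∃ P, P = (volume.restrict (Icc (-K) K)).prod ((PVg d μ).prod (Ps d)) := ⟨_, rfl⟩
  rw [← hP]
  -- sum over the cube
  obtain ⟨S, hS⟩ : ∃ S : ℕ → (ℝ × (((Fin d → ℤ) → ℝ) × (Sym2 (Fin d → ℤ) → Bool))) → ENNReal,
      S = fun N p => ∑ y ∈ cubeF R 0, Tr M (ENNReal.ofReal (WF T0 κ η N (x - y) x p)) := ⟨_, rfl⟩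
  have hSm : ∀ N, Measurable (S N) := by
    intro N
    rw [hS]
    exact Finset.measurable_sum _ fun y _ =>
      (Tr_meas M).comp (ENNReal.measurable_ofReal.comp (WF_meas h η N (x - y) x))
  have hSint : ∀ N, R ≤ N → ∫⁻ p, S N p ∂P ≤ ENNReal.ofReal (ε * R ^ d) := by
    intro N hN
    have hsub : cubeF R (0 : Fin d → ℤ) ⊆ bx N 0 := cube_sub_bx R hN
    have h1 := hbox (bx N 0) (2 * N) hsub (by
      have : (R : ℝ) ≤ N := by exact_mod_cast hN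
      have : (0 : ℝ) ≤ N := Nat.cast_nonneg N
      linarith)
    refine le_trans (le_of_eq ?_) h1
    rw [hS]
    simp only
    have hm1 : ∀ y : Fin d → ℤ, Measurable fun p =>
        Tr M (ENNReal.ofReal (WF T0 κ η N (x - y) x p)) := fun y =>
      (Tr_meas M).comp (ENNReal.measurable_ofReal.comp (WF_meas h η N (x - y) x))
    rw [lintegral_finsetSum _ fun y _ => hm1 y]
    symm
    refine Finset.sum_bij (fun i _ => (i : Fin d → ℤ)) ?_ ?_ ?_ ?_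
    · intro i hi
      simpa [inΛ] using hi
    · intro i _ j _ hij
      exact Subtype.ext hij
    · intro y hy
      exact ⟨⟨y, hsub hy⟩, by simpa [inΛ] using hy, rfl⟩
    · intro i hi
      rw [hP, WF_law h hTinv μ hM N x (i : Fin d → ℤ) i.2 K]
  -- pointwise
  have hae : ∀ᵐ p ∂P, ((cubeF R (0 : Fin d → ℤ)).card : ENNReal) * Tr M (GI T0 κ η x p) ≤
      liminf (fun N => S N p) atTop := by
    have h1 : ∀ᵐ p ∂P, NoEig T0 κ p.2 := by
      rw [hP]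
      exact Measure.quasiMeasurePreserving_snd.ae hNE
    filter_upwards [h1] with p hp
    obtain ⟨ψ, hψ1, hψ2, _⟩ := WF_tendsto h p.2 hp x p.1 hη
    have hG : GI T0 κ η x p = ENNReal.ofReal (ψ x).im := GI_eq h p.2 hp x p.1 hη ψ hψ1
    have hw : ∀ y : Fin d → ℤ, Tendsto (fun N : ℕ =>
        ENNReal.ofReal (WF T0 κ η N (x - y) x p)) atTop (nhds (GI T0 κ η x p)) := by
      intro y
      rw [hG]
      exact (ENNReal.continuous_ofReal.tendsto _).comp (hψ2 (x - y))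
    by_cases hc1 : ENNReal.ofReal M < GI T0 κ η x p
    · have h2 : ∀ y : Fin d → ℤ, ∀ᶠ N : ℕ in atTop,
          ENNReal.ofReal M < ENNReal.ofReal (WF T0 κ η N (x - y) x p) :=
        fun y => (hw y).eventually_const_lt hc1
      have h3 : ∀ᶠ N : ℕ in atTop, ∀ y ∈ cubeF R (0 : Fin d → ℤ),
          ENNReal.ofReal M < ENNReal.ofReal (WF T0 κ η N (x - y) x p) :=
        (Finset.eventually_all _).2 fun y _ => h2 y
      have h4 : Tendsto (fun N : ℕ => ∑ y ∈ cubeF R (0 : Fin d → ℤ),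
          ENNReal.ofReal (WF T0 κ η N (x - y) x p)) atTop
          (nhds (∑ _y ∈ cubeF R (0 : Fin d → ℤ), GI T0 κ η x p)) :=
        tendsto_finsetSum _ fun y _ => hw y
      have h5 : Tendsto (fun N : ℕ => S N p) atTop
          (nhds (∑ _y ∈ cubeF R (0 : Fin d → ℤ), GI T0 κ η x p)) := by
        refine h4.congr' ?_
        filter_upwards [h3] with N hN
        rw [hS]
        simp only
        refine Finset.sum_congr rfl fun y hy => ?_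
        unfold Tr
        rw [if_pos (hN y hy)]
      rw [h5.liminf_eq, Finset.sum_const, nsmul_eq_mul]
      unfold Tr
      rw [if_pos hc1]
    · unfold Tr
      rw [if_neg hc1, mul_zero]
      exact bot_le
  have hcard : ((cubeF R (0 : Fin d → ℤ)).card : ENNReal) = ENNReal.ofReal ((R : ℝ) ^ d) := by
    rw [cube_card, ← ENNReal.ofReal_natCast]
    push_cast
    rfl
  have hRd : (0 : ℝ) < (R : ℝ) ^ d := by
    have : (0 : ℝ) < R := by exact_mod_cast hR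
    positivity
  have hfin : ENNReal.ofReal ((R : ℝ) ^ d) * ∫⁻ p, Tr M (GI T0 κ η x p) ∂P ≤
      ENNReal.ofReal ((R : ℝ) ^ d) * ENNReal.ofReal ε := by
    calc ENNReal.ofReal ((R : ℝ) ^ d) * ∫⁻ p, Tr M (GI T0 κ η x p) ∂P
        = ∫⁻ p, ((cubeF R (0 : Fin d → ℤ)).card : ENNReal) * Tr M (GI T0 κ η x p) ∂P := by
          have hm2 : Measurable fun p => Tr M (GI T0 κ η x p) :=
            (Tr_meas M).comp (GI_meas h η x)
          rw [hcard, lintegral_const_mul _ hm2]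
      _ ≤ ∫⁻ p, liminf (fun N => S N p) atTop ∂P := lintegral_mono_ae hae
      _ ≤ liminf (fun N => ∫⁻ p, S N p ∂P) atTop := lintegral_liminf_le hSm
      _ ≤ ENNReal.ofReal (ε * R ^ d) := by
          refine liminf_le_of_frequently_le' ?_
          exact ((eventually_ge_atTop R).mono fun N hN => hSint N hN).frequently
      _ = ENNReal.ofReal ((R : ℝ) ^ d) * ENNReal.ofReal ε := by
          rw [← ENNReal.ofReal_mul hRd.le, mul_comm]
  have h0 : ENNReal.ofReal ((R : ℝ) ^ d) ≠ 0 := (ENNReal.ofReal_pos.2 hRd).ne'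
  exact (ENNReal.mul_le_mul_iff_right h0 ENNReal.ofReal_ne_top).1 hfin

/-- almost surely uniformly integrable along `η = 1/(n+1)` -/
theorem ui_as5 (h : Adm T0 κ ρ0 b) (hTinv : ∀ a y w, T0 (y + a) (w + a) = T0 y w)
    (hd : 0 < d) (μ : Measure ℝ) [IsProbabilityMeasure μ] {a c C : ℝ} (ha1 : (d : ℝ) / 2 < a)
    (ha2 : a < 5 * d / 8) (hc : 0 < c)
    (hκ : ∀ y : Fin d → ℤ, y ≠ 0 → c * ‖y‖ ^ (-a) ≤ |κ y| ∧ |κ y| ≤ C * ‖y‖ ^ (-a))
    (hNE : ∀ᵐ ω ∂((PVg d μ).prod (Ps d)), NoEig T0 κ ω) (x : Fin d → ℤ) (K : ℕ) :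
    ∀ᵐ ω ∂((PVg d μ).prod (Ps d)), ∀ i : ℕ, ∃ M : ℝ, 0 < M ∧ liminf (fun n : ℕ =>
      ∫⁻ E in Icc (-(K : ℝ)) K, Tr M (GI T0 κ (1 / ((n : ℝ) + 1)) x (E, ω))) atTop ≤
        ENNReal.ofReal (1 / ((i : ℝ) + 1)) := by
  obtain ⟨P, hP⟩ : ∃ P, P = (PVg d μ).prod (Ps d) := ⟨_, rfl⟩
  rw [← hP] at hNE ⊢
  have hPp : IsProbabilityMeasure P := by rw [hP]; infer_instance
  have hchoice : ∀ k : ℕ, ∃ M : ℝ, 0 < M ∧ ∀ n : ℕ,
      ∫⁻ p, Tr M (GI T0 κ (1 / ((n : ℝ) + 1)) x p)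
        ∂((volume.restrict (Icc (-((K : ℝ) + 1)) ((K : ℝ) + 1))).prod P) ≤
        ENNReal.ofReal ((1 / 2 : ℝ) ^ k) := by
    intro k
    obtain ⟨M, hM, h1⟩ := uix5 h hTinv hd μ ha1 ha2 hc hκ (by rw [← hP]; exact hNE)
      (K := (K : ℝ) + 1) (by positivity) (ε := (1 / 2 : ℝ) ^ k) (by positivity)
    refine ⟨M, hM, fun n => ?_⟩
    have h2 := h1 (1 / ((n : ℝ) + 1)) (by positivity) (by
      rw [div_le_one (by positivity)]
      have : (0 : ℝ) ≤ n := Nat.cast_nonneg n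
      linarith) x
    rw [← hP] at h2
    exact h2
  choose M hM hbd using hchoice
  obtain ⟨X, hX⟩ : ∃ X : ℕ → ℕ → (((Fin d → ℤ) → ℝ) × (Sym2 (Fin d → ℤ) → Bool)) → ENNReal,
      X = fun (n : ℕ) (k : ℕ) ω => ∫⁻ E in Icc (-(K : ℝ)) K,
        Tr (M k) (GI T0 κ (1 / ((n : ℝ) + 1)) x (E, ω)) := ⟨_, rfl⟩
  have hTm : ∀ n k, Measurable fun p : ℝ × (((Fin d → ℤ) → ℝ) × (Sym2 (Fin d → ℤ) → Bool)) =>
      Tr (M k) (GI T0 κ (1 / ((n : ℝ) + 1)) x p) := fun n k =>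
    (Tr_meas (M k)).comp (GI_meas h _ x)
  have hXm : ∀ n k, Measurable (X n k) := by
    intro n k
    rw [hX]
    exact (hTm n k).lintegral_prod_left'
  have hXi : ∀ n k, ∫⁻ ω, X n k ω ∂P ≤ ENNReal.ofReal ((1 / 2 : ℝ) ^ k) := by
    intro n k
    refine le_trans ?_ (hbd k n)
    rw [lintegral_prod_symm' _ (hTm n k), hX]
    refine lintegral_mono fun ω => ?_
    refine lintegral_mono_set (Icc_subset_Icc ?_ ?_)
    · linarith
    · linarith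
  obtain ⟨L, hL⟩ : ∃ L : ℕ → (((Fin d → ℤ) → ℝ) × (Sym2 (Fin d → ℤ) → Bool)) → ENNReal,
      L = fun k ω => liminf (fun n => X n k ω) atTop := ⟨_, rfl⟩
  have hLm : ∀ k, Measurable (L k) := by
    intro k
    rw [hL]
    exact Measurable.liminf fun n => hXm n k
  have hLi : ∀ k, ∫⁻ ω, L k ω ∂P ≤ ENNReal.ofReal ((1 / 2 : ℝ) ^ k) := by
    intro k
    rw [hL]
    refine (lintegral_liminf_le fun n => hXm n k).trans ?_
    refine liminf_le_of_frequently_le' ?_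
    exact (Eventually.of_forall fun n => hXi n k).frequently
  have hsum : ∫⁻ ω, ∑' k, L k ω ∂P ≠ ⊤ := by
    rw [lintegral_tsum fun k => (hLm k).aemeasurable]
    exact ne_top_of_le_ne_top half_pow_sum (ENNReal.tsum_le_tsum hLi)
  have hfin := ae_lt_top (Measurable.tsum hLm) hsum
  filter_upwards [hfin] with ω hω
  intro i
  have h1 : Tendsto (fun k => L k ω) atTop (nhds 0) :=
    ENNReal.tendsto_atTop_zero_of_tsum_ne_top hω.ne
  have h2 : ∀ᶠ k in atTop, L k ω < ENNReal.ofReal (1 / ((i : ℝ) + 1)) :=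
    h1.eventually_lt_const (ENNReal.ofReal_pos.2 (by positivity))
  obtain ⟨k, hk⟩ := h2.exists
  refine ⟨M k, hM k, ?_⟩
  rw [hL, hX] at hk
  exact hk.le

/-- MAIN THEOREM of part 4 -/
theorem main_ac5 (h : Adm T0 κ ρ0 b) (hTinv : ∀ a y w, T0 (y + a) (w + a) = T0 y w)
    (hd : 0 < d) (μ : Measure ℝ) [IsProbabilityMeasure μ] {a c C : ℝ} (ha1 : (d : ℝ) / 2 < a)
    (ha2 : a < 5 * d / 8) (hc : 0 < c)
    (hκ : ∀ y : Fin d → ℤ, y ≠ 0 → c * ‖y‖ ^ (-a) ≤ |κ y| ∧ |κ y| ≤ C * ‖y‖ ^ (-a))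
    (hNE : ∀ᵐ ω ∂((PVg d μ).prod (Ps d)), NoEig T0 κ ω) :
    ∀ᵐ ω ∂((PVg d μ).prod (Ps d)), ∀ x : Fin d → ℤ, ∃ ν : ProbabilityMeasure ℝ,
      (ν : Measure ℝ) ≪ volume ∧ ∀ z : ℂ, z.im ≠ 0 → ∃ ψ : (Fin d → ℤ) → ℂ,
        IsGreen T0 κ ω x z ψ ∧ (∀ φ, IsGreen T0 κ ω x z φ → φ = ψ) ∧
        ψ x = ∫ t : ℝ, 1 / ((t : ℂ) - z) ∂(ν : Measure ℝ) := by
  have hui : ∀ᵐ ω ∂((PVg d μ).prod (Ps d)), ∀ (x : Fin d → ℤ) (K i : ℕ), ∃ M : ℝ, 0 < M ∧
      liminf (fun n : ℕ =>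
      ∫⁻ E in Icc (-(K : ℝ)) K, Tr M (GI T0 κ (1 / ((n : ℝ) + 1)) x (E, ω))) atTop ≤
        ENNReal.ofReal (1 / ((i : ℝ) + 1)) := by
    rw [ae_all_iff]; intro x
    rw [ae_all_iff]; intro K
    exact ui_as5 h hTinv hd μ ha1 ha2 hc hκ hNE x K
  filter_upwards [hNE, hui] with ω hU hui
  intro x
  -- the Green function in the upper half plane
  have hex : ∀ (E η : ℝ), 0 < η → ∃ ψ : (Fin d → ℤ) → ℂ,
      IsGreen T0 κ ω x ((E : ℂ) + (η : ℂ) * Complex.I) ψ ∧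
      (∀ a, Tendsto (fun N : ℕ => WF T0 κ η N a x (E, ω)) atTop (nhds (ψ x).im)) ∧
      Tendsto (fun N : ℕ => Gm (Am T0 κ (2 * N) (bx N x) ω.2) (fun i : bx N x => ω.1 i) E η
        ⟨x, bx_self N x⟩ ⟨x, bx_self N x⟩) atTop (nhds (ψ x)) :=
    fun E η hη => WF_tendsto h ω hU x E hη
  have hex2 : ∀ E η : ℝ, ∃ v : ℂ, 0 < η → ∃ ψ : (Fin d → ℤ) → ℂ,
      IsGreen T0 κ ω x ((E : ℂ) + (η : ℂ) * Complex.I) ψ ∧ ψ x = v ∧
      Tendsto (fun N : ℕ => Gm (Am T0 κ (2 * N) (bx N x) ω.2) (fun i : bx N x => ω.1 i) E η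
        ⟨x, bx_self N x⟩ ⟨x, bx_self N x⟩) atTop (nhds v) := by
    intro E η
    by_cases hη : 0 < η
    · obtain ⟨ψ, h1, _, h3⟩ := hex E η hη
      exact ⟨ψ x, fun _ => ⟨ψ, h1, rfl, h3⟩⟩
    · exact ⟨0, fun h => absurd h hη⟩
  choose g hg using hex2
  -- spectral measures in finite volume
  have hsp := fun N : ℕ => spec_fin (Am T0 κ (2 * N) (bx N x) ω.2) (Am_symm h _ _ _)
    (Am_diag h _ _ _) (fun i : bx N x => ω.1 i) ⟨x, bx_self N x⟩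
  choose m hm1 hm2 using hsp
  obtain ⟨ν, hν⟩ := spec_limit g (ω.1 x ^ 2 + aC b κ) m (by
    intro n
    refine (hm2 n).trans (ENNReal.ofReal_le_ofReal ?_)
    have := Am_row h (2 * n) (bx n x) ω.2 ⟨x, bx_self n x⟩
    exact add_le_add le_rfl this) (by
    intro E η hη
    obtain ⟨ψ, _, _, h3⟩ := hg E η hη
    refine h3.congr fun n => ?_
    rw [hm1 n E η hη])
  refine ⟨ν, ?_, ?_⟩
  · -- absolute continuity
    refine ac_of_ui (ν : Measure ℝ) (fun η E => (∫ t : ℝ, 1 / ((t : ℂ) -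
      ((E : ℂ) + (η : ℂ) * Complex.I)) ∂(ν : Measure ℝ)).im) (fun E η _ => rfl) ?_
    intro K i
    obtain ⟨M, hM, hlim⟩ := hui x K i
    refine ⟨M, le_trans (le_of_eq ?_) hlim⟩
    congr 1
    funext n
    have hη : (0 : ℝ) < 1 / ((n : ℝ) + 1) := by positivity
    have hG : ∀ E : ℝ, GI T0 κ (1 / ((n : ℝ) + 1)) x (E, ω) = ENNReal.ofReal
        (∫ t : ℝ, 1 / ((t : ℂ) - ((E : ℂ) + ((1 / ((n : ℝ) + 1) : ℝ) : ℂ) * Complex.I))
          ∂(ν : Measure ℝ)).im := by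
      intro E
      obtain ⟨ψ, h1, h2, _⟩ := hg E (1 / ((n : ℝ) + 1)) hη
      rw [GI_eq h ω hU x E hη ψ h1, h2, hν E _ hη]
    have hBm : MeasurableSet {E : ℝ | ENNReal.ofReal M <
        GI T0 κ (1 / ((n : ℝ) + 1)) x (E, ω)} :=
      measurableSet_lt measurable_const ((GI_meas h _ x).comp measurable_prodMk_right)
    have hset : {E : ℝ | M < (∫ t : ℝ, 1 / ((t : ℂ) -
        ((E : ℂ) + ((1 / ((n : ℝ) + 1) : ℝ) : ℂ) * Complex.I)) ∂(ν : Measure ℝ)).im} =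
        {E : ℝ | ENNReal.ofReal M < GI T0 κ (1 / ((n : ℝ) + 1)) x (E, ω)} := by
      ext E
      simp only [Set.mem_ofPred_eq]
      rw [hG E, ENNReal.ofReal_lt_ofReal_iff_of_nonneg hM.le]
    show ∫⁻ E in Icc (-(K : ℝ)) K ∩ {E : ℝ | M < (∫ t : ℝ, 1 / ((t : ℂ) -
        ((E : ℂ) + ((1 / ((n : ℝ) + 1) : ℝ) : ℂ) * Complex.I)) ∂(ν : Measure ℝ)).im}, _ = _
    rw [hset, Set.inter_comm, ← Measure.restrict_restrict hBm, ← lintegral_indicator hBm]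
    refine lintegral_congr fun E => ?_
    unfold Tr
    by_cases hc1 : ENNReal.ofReal M < GI T0 κ (1 / ((n : ℝ) + 1)) x (E, ω)
    · rw [Set.indicator_of_mem (by exact hc1), if_pos hc1, hG E]
    · rw [Set.indicator_of_notMem (by exact hc1), if_neg hc1]
  · intro z hz
    rcases lt_or_gt_of_ne hz with hneg | hpos
    · obtain ⟨ψ, h1, h2, _⟩ := hg z.re (-z.im) (by linarith)
      have hz' : (z.re : ℂ) + ((-z.im : ℝ) : ℂ) * Complex.I = (starRingEnd ℂ) z := by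
        apply Complex.ext <;> simp
      rw [hz'] at h1
      have h3 := green_conj ω x _ ψ h1
      rw [Complex.conj_conj] at h3
      refine ⟨_, h3, fun φ hφ => green_unique h ω hU x z hz _ _ hφ h3, ?_⟩
      rw [h2, hν z.re (-z.im) (by linarith), hz', ← integral_conj]
      refine integral_congr_ae (Eventually.of_forall fun t => ?_)
      simp
    · obtain ⟨ψ, h1, h2, _⟩ := hg z.re z.im hpos
      have hz' : (z.re : ℂ) + ((z.im : ℝ) : ℂ) * Complex.I = z := Complex.re_add_im z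
      rw [hz'] at h1
      refine ⟨ψ, h1, fun φ hφ => green_unique h ω hU x z hz _ _ hφ h1, ?_⟩
      rw [h2, hν z.re z.im hpos, hz']

end H10PL
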