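import Pool.Agent.H10R2.AC.Defs4
import Pool.Agent.H10R2.AC.Geo
import Pool.Agent.H10R2.AC.Meas
import Pool.Agent.H10R2.PL.AsmC

/-!
One step of the chain of scales, summed over a big cube.
-/

namespace H10PL

open MeasureTheory ProbabilityTheory Matrix Set

variable {d : ℕ} {T0 : (Fin d → ℤ) → (Fin d → ℤ) → ℝ} {κ : (Fin d → ℤ) → ℝ} {ρ0 b : ℝ}

theorem ch_mem_inΛ (Λ F : Finset (Fin d → ℤ)) (i : Λ) : i ∈ inΛ Λ F ↔ (i : Fin d → ℤ) ∈ F := by
  simp [inΛ]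

theorem ch_inΛ_card (Λ F : Finset (Fin d → ℤ)) (h : F ⊆ Λ) : (inΛ Λ F).card = F.card := by
  refine Finset.card_bij (fun i _ => (i : Fin d → ℤ)) ?_ ?_ ?_
  · intro i hi
    exact (ch_mem_inΛ Λ F i).1 hi
  · intro i _ j _ hij
    exact Subtype.ext hij
  · intro y hy
    exact ⟨⟨y, h hy⟩, (ch_mem_inΛ Λ F _).2 hy, rfl⟩

theorem ch_sum_inΛ (Λ F : Finset (Fin d → ℤ)) (h : F ⊆ Λ) (f : Λ → ℝ) :
    ∑ i ∈ inΛ Λ F, f i = ∑ y ∈ F, (if hy : y ∈ Λ then f ⟨y, hy⟩ else 0) := by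
  refine Finset.sum_bij (fun i _ => (i : Fin d → ℤ)) ?_ ?_ ?_ ?_
  · intro i hi
    exact (ch_mem_inΛ Λ F i).1 hi
  · intro i _ j _ hij
    exact Subtype.ext hij
  · intro y hy
    exact ⟨⟨y, h hy⟩, (ch_mem_inΛ Λ F _).2 hy, rfl⟩
  · intro i hi
    rw [dif_pos i.2]

theorem ch_mass (μ : Measure ℝ) [IsProbabilityMeasure μ] (Λ : Finset (Fin d → ℤ)) (K : ℝ) :
    (M0 d μ Λ K) Set.univ = ENNReal.ofReal (2 * K) := by
  unfold M0
  rw [← Set.univ_prod_univ, Measure.prod_prod, ← Set.univ_prod_univ, Measure.prod_prod]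
  simp only [measure_univ, mul_one, Measure.restrict_apply_univ, Real.volume_Icc]
  congr 1
  ring

/-- the part `a` : small trace -/
theorem ch_small_trace (h : Adm T0 κ ρ0 b) (μ : Measure ℝ) [IsProbabilityMeasure μ] (ρ : ℝ)
    (Λ : Finset (Fin d → ℤ)) {l' R : ℕ} (hl' : 0 < l') (hR : 0 < R) (hl'R : l' ∣ R)
    (hΛ : cubeF R 0 ⊆ Λ) {K t η : ℝ} (hK : 0 < K) (hη : 0 < η) (ht : 0 ≤ t) :
    ∑ x ∈ inΛ Λ (cubeF R 0), ∫⁻ p in {p | ∑ k ∈ inΛ Λ (cubeF l' (x : Fin d → ℤ)),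
        Pm (Am T0 κ ρ Λ p.2) p.1.2 p.1.1 η k k < t}, ENNReal.ofReal (PF T0 κ ρ η Λ x p)
        ∂(M0 d μ Λ K) ≤ ENNReal.ofReal (2 * K * (t * ((R : ℝ) / l') ^ d)) := by
  classical
  have hPm : ∀ k : Λ, Measurable fun p : (ℝ × (Λ → ℝ)) × (Sym2 (Fin d → ℤ) → Bool) =>
      Pm (Am T0 κ ρ Λ p.2) p.1.2 p.1.1 η k k := fun k => Pm_meas h ρ η Λ k k
  have hset : ∀ x : Λ, MeasurableSet {p : (ℝ × (Λ → ℝ)) × (Sym2 (Fin d → ℤ) → Bool) |
      ∑ k ∈ inΛ Λ (cubeF l' (x : Fin d → ℤ)), Pm (Am T0 κ ρ Λ p.2) p.1.2 p.1.1 η k k < t} :=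
    fun x => measurableSet_lt (Finset.measurable_sum _ fun k _ => hPm k) measurable_const
  calc ∑ x ∈ inΛ Λ (cubeF R 0), ∫⁻ p in {p | ∑ k ∈ inΛ Λ (cubeF l' (x : Fin d → ℤ)),
        Pm (Am T0 κ ρ Λ p.2) p.1.2 p.1.1 η k k < t}, ENNReal.ofReal (PF T0 κ ρ η Λ x p)
        ∂(M0 d μ Λ K)
      = ∑ x ∈ inΛ Λ (cubeF R 0), ∫⁻ p, {p : (ℝ × (Λ → ℝ)) × (Sym2 (Fin d → ℤ) → Bool) |
        ∑ k ∈ inΛ Λ (cubeF l' (x : Fin d → ℤ)),
        Pm (Am T0 κ ρ Λ p.2) p.1.2 p.1.1 η k k < t}.indicator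
        (fun p => ENNReal.ofReal (PF T0 κ ρ η Λ x p)) p ∂(M0 d μ Λ K) := by
        refine Finset.sum_congr rfl fun x _ => ?_
        rw [lintegral_indicator (hset x)]
    _ = ∫⁻ p, ∑ x ∈ inΛ Λ (cubeF R 0), {p : (ℝ × (Λ → ℝ)) × (Sym2 (Fin d → ℤ) → Bool) |
        ∑ k ∈ inΛ Λ (cubeF l' (x : Fin d → ℤ)),
        Pm (Am T0 κ ρ Λ p.2) p.1.2 p.1.1 η k k < t}.indicator
        (fun p => ENNReal.ofReal (PF T0 κ ρ η Λ x p)) p ∂(M0 d μ Λ K) := by
        rw [lintegral_finsetSum]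
        intro x _
        exact (ENNReal.measurable_ofReal.comp (hPm x)).indicator (hset x)
    _ ≤ ∫⁻ _p, ENNReal.ofReal (t * ((R : ℝ) / l') ^ d) ∂(M0 d μ Λ K) := by
        refine lintegral_mono fun p => ?_
        set P : (Fin d → ℤ) → ℝ := fun y => if hy : y ∈ Λ then
          Pm (Am T0 κ ρ Λ p.2) p.1.2 p.1.1 η ⟨y, hy⟩ ⟨y, hy⟩ else 0 with hP
        have hP0 : ∀ y, 0 ≤ P y := by
          intro y
          rw [hP]
          dsimp only
          split_ifs with hy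
          · exact (Pm_diag_pos _ (Am_symm h ρ Λ p.2) _ _ hη _).le
          · exact le_rfl
        have hsub : ∀ x ∈ cubeF R (0 : Fin d → ℤ), cubeF l' x ⊆ Λ := by
          intro x hx
          refine subset_trans ?_ hΛ
          rw [← cube_eq hR hx]
          exact cube_sub hl' hR hl'R x
        have hkey : ∀ x ∈ inΛ Λ (cubeF R 0),
            {p : (ℝ × (Λ → ℝ)) × (Sym2 (Fin d → ℤ) → Bool) |
            ∑ k ∈ inΛ Λ (cubeF l' (x : Fin d → ℤ)),
            Pm (Am T0 κ ρ Λ p.2) p.1.2 p.1.1 η k k < t}.indicator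
            (fun p => ENNReal.ofReal (PF T0 κ ρ η Λ x p)) p =
            ENNReal.ofReal (if ∑ y ∈ cubeF l' (x : Fin d → ℤ), P y < t then P x else 0) := by
          intro x hx
          have hx' := (ch_mem_inΛ Λ _ x).1 hx
          have h1 : ∑ k ∈ inΛ Λ (cubeF l' (x : Fin d → ℤ)),
              Pm (Am T0 κ ρ Λ p.2) p.1.2 p.1.1 η k k = ∑ y ∈ cubeF l' (x : Fin d → ℤ), P y := by
            rw [ch_sum_inΛ Λ _ (hsub x hx')]
          have h2 : P x = PF T0 κ ρ η Λ x p := by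
            rw [hP]
            dsimp only
            rw [dif_pos x.2]
            rfl
          by_cases hc : ∑ y ∈ cubeF l' (x : Fin d → ℤ), P y < t
          · rw [if_pos hc, Set.indicator_of_mem, h2]
            show _ < t
            rw [h1]
            exact hc
          · rw [if_neg hc, Set.indicator_of_notMem, ENNReal.ofReal_zero]
            intro hmem
            have hmem' : ∑ k ∈ inΛ Λ (cubeF l' (x : Fin d → ℤ)),
              Pm (Am T0 κ ρ Λ p.2) p.1.2 p.1.1 η k k < t := hmem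
            rw [h1] at hmem'
            exact hc hmem'
        rw [Finset.sum_congr rfl hkey, ← ENNReal.ofReal_sum_of_nonneg]
        · refine ENNReal.ofReal_le_ofReal ?_
          rw [ch_sum_inΛ Λ _ hΛ (fun x : Λ => if ∑ y ∈ cubeF l' (x : Fin d → ℤ), P y < t
            then P x else 0)]
          refine le_trans (le_of_eq ?_) (regroup hl' hR hl'R P hP0 ht)
          refine Finset.sum_congr rfl fun y hy => ?_
          rw [dif_pos (hΛ hy)]
        · intro x _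
          split_ifs
          · exact hP0 _
          · exact le_rfl
    _ = ENNReal.ofReal (2 * K * (t * ((R : ℝ) / l') ^ d)) := by
        rw [lintegral_const]
        rw [ch_mass μ Λ K, ← ENNReal.ofReal_mul' (by positivity), mul_comm]

end H10PL
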