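import Pool.Agent.H10R2.AC.Defs4
import Pool.Agent.H10R2.PL.Schur

/-! Task 4-IND: nothing depends on `V x`, `x ∈ Q`. -/

namespace H10PL

open MeasureTheory ProbabilityTheory Matrix Set Filter

section finite

variable {ι : Type*} [Fintype ι] [DecidableEq ι]

theorem ind_cutS_symm (A : Matrix ι ι ℝ) (hA : A.IsSymm) (U : Finset ι) :
    (cutS A U).IsSymm := by
  ext i j
  rw [Matrix.transpose_apply]
  unfold cutS
  rw [hA.apply i j]
  congr 1
  exact propext or_comm

theorem ind_Mz (A : Matrix ι ι ℝ) (V : ι → ℝ) (E η : ℝ) (i j : ι) :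
    Mz A V E η i j = (A i j : ℂ) +
      (if i = j then (V i : ℂ) - ((E : ℂ) + (η : ℂ) * Complex.I) else 0) := by
  unfold Mz
  simp only [Matrix.sub_apply, Matrix.map_apply, Matrix.add_apply, Matrix.diagonal_apply,
    Matrix.smul_apply, Matrix.one_apply]
  by_cases h : i = j
  · simp [h]
    ring
  · simp [h]

theorem ind_off (A : Matrix ι ι ℝ) (hA : A.IsSymm) (V : ι → ℝ) (E : ℝ) {η : ℝ} (hη : 0 < η)
    (Q : Finset ι) (x : ι) (hx : x ∈ Q) (y : ι) (hy : y ∉ Q) :
    Gm (cutS A Q) V E η y x = 0 := by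
  have hc := ind_cutS_symm A hA Q
  have hyx : y ≠ x := fun h => hy (h ▸ hx)
  have h2 := congrFun (congrFun (Gm_mul_Mz (cutS A Q) hc V E hη) y) x
  rw [Matrix.mul_apply, Matrix.one_apply, if_neg hyx] at h2
  have h3 : ∑ i, Gm (cutS A Q) V E η y i * Mz (cutS A Q) V E η i x =
      Gm (cutS A Q) V E η y x * ((V x : ℂ) - ((E : ℂ) + (η : ℂ) * Complex.I)) := by
    rw [Finset.sum_eq_single x]
    · rw [ind_Mz, if_pos rfl]
      have : cutS A Q x x = 0 := if_pos (Or.inl hx)
      rw [this]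
      simp
    · intro i _ hi
      rw [ind_Mz, if_neg hi]
      have : cutS A Q i x = 0 := if_pos (Or.inr hx)
      rw [this]
      simp
    · intro h
      exact absurd (Finset.mem_univ x) h
  rw [h3] at h2
  refine (mul_eq_zero.1 h2).resolve_right ?_
  intro h
  have h4 := congrArg Complex.im h
  simp at h4
  linarith

theorem ind_Gm (A : Matrix ι ι ℝ) (hA : A.IsSymm) (V : ι → ℝ) (t : ℝ) (E : ℝ) {η : ℝ}
    (hη : 0 < η) (Q : Finset ι) (x : ι) (hx : x ∈ Q) (y w : ι) (hy : y ∉ Q) :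
    Gm (cutS A Q) (Function.update V x t) E η y w = Gm (cutS A Q) V E η y w := by
  set G' := Gm (cutS A Q) V E η with hG'
  set G2 := Gm (cutS A Q) (Function.update V x t) E η with hG2
  have hc := ind_cutS_symm A hA Q
  have h8 : G' y x = 0 := ind_off A hA V E hη Q x hx y hy
  have h1 : ∀ j, ∑ i, G' y i * Mz (cutS A Q) (Function.update V x t) E η i j =
      if y = j then 1 else 0 := by
    intro j
    have h2 := congrFun (congrFun (Gm_mul_Mz (cutS A Q) hc V E hη) y) j
    rw [Matrix.mul_apply, Matrix.one_apply, ← hG'] at h2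
    rw [← h2]
    refine Finset.sum_congr rfl fun i _ => ?_
    by_cases hi : i = x
    · rw [hi, h8, zero_mul, zero_mul]
    · rw [ind_Mz, ind_Mz, Function.update_of_ne hi]
  have h3 : G' y w =
      ∑ j, (∑ i, G' y i * Mz (cutS A Q) (Function.update V x t) E η i j) * G2 j w := by
    simp only [Finset.sum_mul]
    rw [Finset.sum_comm]
    have h4 : ∀ i, ∑ j, G' y i * Mz (cutS A Q) (Function.update V x t) E η i j * G2 j w =
        G' y i * if i = w then 1 else 0 := by
      intro i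
      have h5 := congrFun (congrFun (Mz_mul_Gm (cutS A Q) hc (Function.update V x t) E hη) i) w
      rw [Matrix.mul_apply, Matrix.one_apply, ← hG2] at h5
      rw [← h5, Finset.mul_sum]
      refine Finset.sum_congr rfl fun j _ => ?_
      ring
    rw [Finset.sum_congr rfl (fun i _ => h4 i)]
    simp
  rw [h3, Finset.sum_congr rfl (fun j _ => by rw [h1 j])]
  simp

theorem Pm_cutS_update (A : Matrix ι ι ℝ) (hA : A.IsSymm) (V : ι → ℝ) (t : ℝ) (E : ℝ) {η : ℝ}
    (hη : 0 < η) (Q : Finset ι) (x : ι) (hx : x ∈ Q) (k l : ι) (hk : k ∉ Q) :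
    Pm (cutS A Q) (Function.update V x t) E η k l = Pm (cutS A Q) V E η k l := by
  unfold Pm
  rw [ind_Gm A hA V t E hη Q x hx k l hk]

theorem YQ_update (A : Matrix ι ι ℝ) (hA : A.IsSymm) (V : ι → ℝ) (t : ℝ) (E : ℝ) {η : ℝ}
    (hη : 0 < η) (Q : Finset ι) (x : ι) (hx : x ∈ Q) (φ : ι → ℝ) :
    YQ A (Function.update V x t) E η Q φ = YQ A V E η Q φ := by
  unfold YQ qf
  congr 1
  refine Finset.sum_congr rfl fun i _ => Finset.sum_congr rfl fun j _ => ?_
  by_cases hi : i ∈ Q
  · have : fld A Q φ i = 0 := if_pos hi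
    simp only [this, zero_mul]
  · rw [Pm_cutS_update A hA V t E hη Q x hx i j hi]

end finite

end H10PL
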