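import Pool.Agent.H10R2.AC.Defs4
import Pool.Agent.H10R2.PL.Weg
import Pool.Agent.H10R2.PL.Lat2

/-!
Size bias (task 4-SB of helper10): the local density of states against a weight which does
not depend on the potential at the site.
-/

namespace H10PL

open MeasureTheory ProbabilityTheory Matrix Set Filter

section lattice

variable {d : ℕ} {T0 : (Fin d → ℤ) → (Fin d → ℤ) → ℝ} {κ : (Fin d → ℤ) → ℝ} {ρ0 b : ℝ}

/-- iterated integral over the parameter space -/
theorem sb_iter (μ : Measure ℝ) [IsProbabilityMeasure μ] (Λ : Finset (Fin d → ℤ)) (K : ℝ)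
    (G : (ℝ × (Λ → ℝ)) × (Sym2 (Fin d → ℤ) → Bool) → ENNReal) (hG : Measurable G) :
    ∫⁻ p, G p ∂(M0 d μ Λ K) =
      ∫⁻ s, (∫⁻ E, (∫⁻ V, G ((E, V), s) ∂(Measure.pi fun _ : Λ => μ))
        ∂(volume.restrict (Icc (-K) K))) ∂(Ps d) := by
  unfold M0
  rw [lintegral_prod_symm' _ hG]
  refine lintegral_congr fun s => ?_
  have h1 : Measurable fun q : ℝ × (Λ → ℝ) => G (q, s) := hG.comp measurable_prodMk_right
  rw [lintegral_prod _ h1.aemeasurable]

theorem size_bias (h : Adm T0 κ ρ0 b) (μ : Measure ℝ) [IsProbabilityMeasure μ] {D : ℝ}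
    (hD : 0 ≤ D) (hμ : μ ≤ ENNReal.ofReal D • volume) (ρ : ℝ) (Λ : Finset (Fin d → ℤ)) (x : Λ)
    {K η : ℝ} (hη : 0 < η) (D0 : Set ((ℝ × (Λ → ℝ)) × (Sym2 (Fin d → ℤ) → Bool)))
    (hD0 : MeasurableSet D0)
    (hind : ∀ (E : ℝ) (V : Λ → ℝ) (s : Sym2 (Fin d → ℤ) → Bool) (t : ℝ),
      (((E, Function.update V x t), s) ∈ D0 ↔ ((E, V), s) ∈ D0)) :
    ∫⁻ p in D0, ENNReal.ofReal (PF T0 κ ρ η Λ x p) ∂(M0 d μ Λ K) ≤
      ENNReal.ofReal (Real.pi * D) * (M0 d μ Λ K) D0 := by
  classical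
  have hF : Measurable fun p : (ℝ × (Λ → ℝ)) × (Sym2 (Fin d → ℤ) → Bool) =>
      ENNReal.ofReal (PF T0 κ ρ η Λ x p) :=
    ENNReal.measurable_ofReal.comp (Pm_meas h ρ η Λ x x)
  have h1m : Measurable (D0.indicator (fun _ => (1 : ENNReal))) :=
    measurable_const.indicator hD0
  have hR : (M0 d μ Λ K) D0 = ∫⁻ p, D0.indicator (fun _ => (1 : ENNReal)) p ∂(M0 d μ Λ K) := by
    rw [lintegral_indicator hD0, setLIntegral_const, one_mul]
  rw [hR, ← lintegral_indicator hD0, sb_iter μ Λ K _ (hF.indicator hD0),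
    sb_iter μ Λ K _ h1m]
  have hm2 : Measurable fun q : (Sym2 (Fin d → ℤ) → Bool) × ℝ =>
      ∫⁻ V, D0.indicator (fun _ => (1 : ENNReal)) ((q.2, V), q.1)
        ∂(Measure.pi fun _ : Λ => μ) := by
    have : Measurable fun r : ((Sym2 (Fin d → ℤ) → Bool) × ℝ) × (Λ → ℝ) =>
        D0.indicator (fun _ => (1 : ENNReal)) ((r.1.2, r.2), r.1.1) :=
      h1m.comp ((measurable_fst.snd.prodMk measurable_snd).prodMk measurable_fst.fst)
    exact this.lintegral_prod_right'
  have hm1 : Measurable fun s : Sym2 (Fin d → ℤ) → Bool =>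
      ∫⁻ E, (∫⁻ V, D0.indicator (fun _ => (1 : ENNReal)) ((E, V), s)
        ∂(Measure.pi fun _ : Λ => μ)) ∂(volume.restrict (Icc (-K) K)) :=
    hm2.lintegral_prod_right'
  rw [← lintegral_const_mul _ hm1]
  refine lintegral_mono fun s => ?_
  have hm3 : Measurable fun E : ℝ => ∫⁻ V, D0.indicator (fun _ => (1 : ENNReal)) ((E, V), s)
        ∂(Measure.pi fun _ : Λ => μ) :=
    hm2.comp measurable_prodMk_left
  rw [← lintegral_const_mul _ hm3]
  refine lintegral_mono fun E => ?_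
  have hm4 : Measurable fun V : Λ → ℝ => D0.indicator (fun _ => (1 : ENNReal)) ((E, V), s) :=
    h1m.comp ((measurable_const.prodMk measurable_id).prodMk measurable_const)
  have key := wegner_weight μ hD hμ (Am T0 κ ρ Λ s) (Am_symm h ρ Λ s) (Am_diag h ρ Λ s) E hη x
    (fun V => D0.indicator (fun _ => (1 : ENNReal)) ((E, V), s)) hm4 (by
      intro V t
      by_cases hc : ((E, V), s) ∈ D0
      · rw [indicator_of_mem hc, indicator_of_mem ((hind E V s t).2 hc)]
      · rw [indicator_of_notMem hc, indicator_of_notMem (fun hc' => hc ((hind E V s t).1 hc'))])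
  refine le_trans (le_of_eq ?_) key
  refine lintegral_congr fun V => ?_
  by_cases hc : ((E, V), s) ∈ D0
  · rw [indicator_of_mem hc, indicator_of_mem hc, one_mul]
    rfl
  · rw [indicator_of_notMem hc, indicator_of_notMem hc, zero_mul]

end lattice

end H10PL
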