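import Pool.Agent.H10R2.AC.Ch1
import Pool.Agent.H10R2.AC.En
import Pool.Agent.H10R2.AC.Ind
import Pool.Agent.H10R2.AC.One
import Pool.Agent.H10R2.AC.Fm
import Pool.Agent.H10R2.AC.Sb
import Pool.Agent.H10R2.AC.Lat4

/-!
One step of the chain of scales at a fixed site.
-/

namespace H10PL

open MeasureTheory ProbabilityTheory Matrix Set

variable {d : ℕ} {T0 : (Fin d → ℤ) → (Fin d → ℤ) → ℝ} {κ : (Fin d → ℤ) → ℝ} {ρ0 b : ℝ}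

theorem ch_site (h : Adm T0 κ ρ0 b) (μ : Measure ℝ) [IsProbabilityMeasure μ] {D : ℝ}
    (hD : 0 ≤ D) (hμ : μ ≤ ENNReal.ofReal D • volume) (ρ : ℝ)
    (Λ : Finset (Fin d → ℤ)) (x : Λ) {Q Q' near S : Finset Λ} (hx : x ∈ Q) (hQ : Q ⊆ Q')
    (hS : S ⊆ Q' \ Q) (hn : ∀ k ∈ near, k ∉ Q) (hcov : Q' \ Q ⊆ near ∪ S)
    {k1 k2 γ γ' t Υ K η : ℝ} (hk1 : 0 < k1) (hγ : 0 < γ) (hγ' : 0 < γ') (ht : 0 < t)
    (hγΥ : γ ≤ Υ) (h64 : 64 * γ ≤ k1 ^ 2 * t) (hK : 0 < K) (hη : 0 < η)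
    (hcard : 2 * Q.card / γ' ≤ t / 2)
    (hρ : ∀ k ∈ S, ∀ i ∈ Q, ‖(k : Fin d → ℤ) - (i : Fin d → ℤ)‖ ≤ ρ)
    (hκ : ∀ k ∈ S, ∀ i ∈ Q, k1 ≤ |κ ((k : Fin d → ℤ) - (i : Fin d → ℤ))| ∧
      |κ ((k : Fin d → ℤ) - (i : Fin d → ℤ))| ≤ k2)
    (m : ℕ) (hm : Real.sqrt (Q.card * Υ / γ) + 1 ≤ m) :
    ∫⁻ p in {p : (ℝ × (Λ → ℝ)) × (Sym2 (Fin d → ℤ) → Bool) |
        Diss (Am T0 κ ρ Λ p.2) p.1.2 p.1.1 η Q' γ' ∧
        ¬ Diss (Am T0 κ ρ Λ p.2) p.1.2 p.1.1 η Q γ},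
        ENNReal.ofReal (PF T0 κ ρ η Λ x p) ∂(M0 d μ Λ K) ≤
      ∫⁻ p in {p : (ℝ × (Λ → ℝ)) × (Sym2 (Fin d → ℤ) → Bool) |
        ∑ k ∈ Q', Pm (Am T0 κ ρ Λ p.2) p.1.2 p.1.1 η k k < 2 * t},
        ENNReal.ofReal (PF T0 κ ρ η Λ x p) ∂(M0 d μ Λ K) +
      ENNReal.ofReal (Real.pi * D * (Real.pi * near.card / (t / 2) +
        Q.card * (2 * K * η + Real.pi * aC b κ) / Υ +
        2 * K * ((2 * m + 1) ^ Q.card * Real.exp (-((k1 / k2) ^ 2 * γ' * t / 16))))) := by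
  classical
  have hΥ : 0 < Υ := lt_of_lt_of_le hγ hγΥ
  have haC : 0 ≤ aC b κ := by
    unfold aC
    have h1 : 0 ≤ ∑' z : Fin d → ℤ, κ z ^ 2 := tsum_nonneg (fun z => sq_nonneg (κ z))
    positivity
  set Ea : Set ((ℝ × (Λ → ℝ)) × (Sym2 (Fin d → ℤ) → Bool)) := {p |
    ∑ k ∈ Q', Pm (Am T0 κ ρ Λ p.2) p.1.2 p.1.1 η k k < 2 * t} with hEa
  set Eb : Set ((ℝ × (Λ → ℝ)) × (Sym2 (Fin d → ℤ) → Bool)) := {p |
    t / 2 ≤ ∑ k ∈ near, Pm (cutS (Am T0 κ ρ Λ p.2) Q) p.1.2 p.1.1 η k k} with hEb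
  set Ec : Set ((ℝ × (Λ → ℝ)) × (Sym2 (Fin d → ℤ) → Bool)) := {p |
    Υ < trY (Am T0 κ ρ Λ p.2) p.1.2 p.1.1 η Q} with hEc
  set Ed : Set ((ℝ × (Λ → ℝ)) × (Sym2 (Fin d → ℤ) → Bool)) := {p |
    (∀ φ : Λ → ℝ, (∀ k, k ∉ S → φ k = 0) →
        qf (Pm (cutS (Am T0 κ ρ Λ p.2) Q) p.1.2 p.1.1 η) φ ≤ (∑ i, φ i ^ 2) / γ') ∧
        t ≤ ∑ k ∈ S, Pm (cutS (Am T0 κ ρ Λ p.2) Q) p.1.2 p.1.1 η k k ∧
        trY (Am T0 κ ρ Λ p.2) p.1.2 p.1.1 η Q ≤ Υ ∧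
        ¬ Diss (Am T0 κ ρ Λ p.2) p.1.2 p.1.1 η Q γ} with hEd
  have hmb : MeasurableSet Eb := measurableSet_le measurable_const
    (Finset.measurable_sum _ fun k _ => cutSPm_meas h ρ η Λ Q k k)
  have hmc : MeasurableSet Ec := measurableSet_lt measurable_const (trY_meas h ρ η Λ Q)
  have hmd : MeasurableSet Ed := by
    refine MeasurableSet.inter (norm_meas h ρ η γ' Λ Q S) ?_
    refine MeasurableSet.inter (measurableSet_le measurable_const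
      (Finset.measurable_sum _ fun k _ => cutSPm_meas h ρ η Λ Q k k)) ?_
    refine MeasurableSet.inter (measurableSet_le (trY_meas h ρ η Λ Q) measurable_const) ?_
    exact (diss_meas h ρ η γ Λ Q).compl
  have hxQ : ∀ k : Λ, k ∉ Q → ∀ l : Λ, ∀ (A : Matrix Λ Λ ℝ), A.IsSymm → ∀ (V : Λ → ℝ) (s E : ℝ),
      Pm (cutS A Q) (Function.update V x s) E η k l = Pm (cutS A Q) V E η k l :=
    fun k hk l A hA V s E => Pm_cutS_update A hA V s E hη Q x hx k l hk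
  have hYu : ∀ (A : Matrix Λ Λ ℝ), A.IsSymm → ∀ (V : Λ → ℝ) (s E : ℝ) (φ : Λ → ℝ),
      YQ A (Function.update V x s) E η Q φ = YQ A V E η Q φ :=
    fun A hA V s E φ => YQ_update A hA V s E hη Q x hx φ
  have hib : ∀ (E : ℝ) (V : Λ → ℝ) (s : Sym2 (Fin d → ℤ) → Bool) (u : ℝ),
      (((E, Function.update V x u), s) ∈ Eb ↔ ((E, V), s) ∈ Eb) := by
    intro E V s u
    show (t / 2 ≤ ∑ k ∈ near, Pm (cutS (Am T0 κ ρ Λ s) Q) (Function.update V x u) E η k k) ↔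
      (t / 2 ≤ ∑ k ∈ near, Pm (cutS (Am T0 κ ρ Λ s) Q) V E η k k)
    rw [Finset.sum_congr rfl fun k hk => hxQ k (hn k hk) k _ (Am_symm h ρ Λ s) V u E]
  have hic : ∀ (E : ℝ) (V : Λ → ℝ) (s : Sym2 (Fin d → ℤ) → Bool) (u : ℝ),
      (((E, Function.update V x u), s) ∈ Ec ↔ ((E, V), s) ∈ Ec) := by
    intro E V s u
    show (Υ < trY (Am T0 κ ρ Λ s) (Function.update V x u) E η Q) ↔
      (Υ < trY (Am T0 κ ρ Λ s) V E η Q)
    unfold trY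
    rw [Finset.sum_congr rfl fun k _ => hYu _ (Am_symm h ρ Λ s) V u E _]
  have hid : ∀ (E : ℝ) (V : Λ → ℝ) (s : Sym2 (Fin d → ℤ) → Bool) (u : ℝ),
      (((E, Function.update V x u), s) ∈ Ed ↔ ((E, V), s) ∈ Ed) := by
    intro E V s u
    have h1 : ∀ φ : Λ → ℝ, (∀ k, k ∉ S → φ k = 0) →
        qf (Pm (cutS (Am T0 κ ρ Λ s) Q) (Function.update V x u) E η) φ =
        qf (Pm (cutS (Am T0 κ ρ Λ s) Q) V E η) φ := by
      intro φ hφ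
      unfold qf
      refine Finset.sum_congr rfl fun i _ => Finset.sum_congr rfl fun j _ => ?_
      by_cases hi : i ∈ S
      · have hiQ : i ∉ Q := (Finset.mem_sdiff.1 (hS hi)).2
        rw [hxQ i hiQ j _ (Am_symm h ρ Λ s) V u E]
      · rw [hφ i hi]
        simp
    have h2 : ∑ k ∈ S, Pm (cutS (Am T0 κ ρ Λ s) Q) (Function.update V x u) E η k k =
        ∑ k ∈ S, Pm (cutS (Am T0 κ ρ Λ s) Q) V E η k k :=
      Finset.sum_congr rfl fun k hk => hxQ k (Finset.mem_sdiff.1 (hS hk)).2 k _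
        (Am_symm h ρ Λ s) V u E
    have h3 : trY (Am T0 κ ρ Λ s) (Function.update V x u) E η Q = trY (Am T0 κ ρ Λ s) V E η Q := by
      unfold trY
      rw [Finset.sum_congr rfl fun k _ => hYu _ (Am_symm h ρ Λ s) V u E _]
    have h4 : Diss (Am T0 κ ρ Λ s) (Function.update V x u) E η Q γ ↔
        Diss (Am T0 κ ρ Λ s) V E η Q γ := by
      unfold Diss
      refine forall_congr' fun φ => ?_
      rw [hYu _ (Am_symm h ρ Λ s) V u E φ]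
    show ((∀ φ : Λ → ℝ, (∀ k, k ∉ S → φ k = 0) →
        qf (Pm (cutS (Am T0 κ ρ Λ s) Q) (Function.update V x u) E η) φ ≤ (∑ i, φ i ^ 2) / γ') ∧
        t ≤ ∑ k ∈ S, Pm (cutS (Am T0 κ ρ Λ s) Q) (Function.update V x u) E η k k ∧
        trY (Am T0 κ ρ Λ s) (Function.update V x u) E η Q ≤ Υ ∧
        ¬ Diss (Am T0 κ ρ Λ s) (Function.update V x u) E η Q γ) ↔
      ((∀ φ : Λ → ℝ, (∀ k, k ∉ S → φ k = 0) →
        qf (Pm (cutS (Am T0 κ ρ Λ s) Q) V E η) φ ≤ (∑ i, φ i ^ 2) / γ') ∧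
        t ≤ ∑ k ∈ S, Pm (cutS (Am T0 κ ρ Λ s) Q) V E η k k ∧
        trY (Am T0 κ ρ Λ s) V E η Q ≤ Υ ∧
        ¬ Diss (Am T0 κ ρ Λ s) V E η Q γ)
    rw [h2, h3, h4]
    refine and_congr ?_ Iff.rfl
    refine forall_congr' fun φ => forall_congr' fun hφ => ?_
    rw [h1 φ hφ]
  -- inclusion
  have hincl : {p : (ℝ × (Λ → ℝ)) × (Sym2 (Fin d → ℤ) → Bool) |
        Diss (Am T0 κ ρ Λ p.2) p.1.2 p.1.1 η Q' γ' ∧
        ¬ Diss (Am T0 κ ρ Λ p.2) p.1.2 p.1.1 η Q γ} ⊆ Ea ∪ (Eb ∪ (Ec ∪ Ed)) := by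
    rintro p ⟨h1, h2⟩
    rcases step_incl (Am T0 κ ρ Λ p.2) (Am_symm h ρ Λ p.2) (Am_diag h ρ Λ p.2) p.1.2 p.1.1 hη hγ'
      hQ hS hn hcov hcard h1 h2 (Υ := Υ) with h3 | h3 | h3 | h3
    · exact Or.inl h3
    · exact Or.inr (Or.inl h3)
    · exact Or.inr (Or.inr (Or.inl h3))
    · exact Or.inr (Or.inr (Or.inr h3))
  -- masses
  have hMb : (M0 d μ Λ K) Eb ≤ ENNReal.ofReal (Real.pi * near.card / (t / 2)) := by
    have h1 := near_mass h μ ρ Λ Q near (K := K) hη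
    have hmeas : AEMeasurable (fun p : (ℝ × (Λ → ℝ)) × (Sym2 (Fin d → ℤ) → Bool) =>
        ENNReal.ofReal (∑ k ∈ near, Pm (cutS (Am T0 κ ρ Λ p.2) Q) p.1.2 p.1.1 η k k))
        (M0 d μ Λ K) := (ENNReal.measurable_ofReal.comp
          (Finset.measurable_sum _ fun k _ => cutSPm_meas h ρ η Λ Q k k)).aemeasurable
    have h2 := mul_meas_ge_le_lintegral₀ hmeas (ENNReal.ofReal (t / 2))
    have h3 : Eb ⊆ {p | ENNReal.ofReal (t / 2) ≤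
        ENNReal.ofReal (∑ k ∈ near, Pm (cutS (Am T0 κ ρ Λ p.2) Q) p.1.2 p.1.1 η k k)} :=
      fun p hp => ENNReal.ofReal_le_ofReal hp
    rw [ENNReal.ofReal_div_of_pos (by positivity)]
    rw [ENNReal.le_div_iff_mul_le (Or.inl (by simp [ht])) (Or.inl ENNReal.ofReal_ne_top), mul_comm]
    exact (mul_le_mul_right (measure_mono h3) _).trans (h2.trans h1)
  have hMc : (M0 d μ Λ K) Ec ≤
      ENNReal.ofReal (Q.card * (2 * K * η + Real.pi * aC b κ) / Υ) := by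
    have h1 := trY_mass h μ ρ Λ Q hK hη
    have hmeas : AEMeasurable (fun p : (ℝ × (Λ → ℝ)) × (Sym2 (Fin d → ℤ) → Bool) =>
        ENNReal.ofReal (trY (Am T0 κ ρ Λ p.2) p.1.2 p.1.1 η Q))
        (M0 d μ Λ K) := (ENNReal.measurable_ofReal.comp (trY_meas h ρ η Λ Q)).aemeasurable
    have h2 := mul_meas_ge_le_lintegral₀ hmeas (ENNReal.ofReal Υ)
    have h3 : Ec ⊆ {p | ENNReal.ofReal Υ ≤
        ENNReal.ofReal (trY (Am T0 κ ρ Λ p.2) p.1.2 p.1.1 η Q)} :=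
      fun p hp => ENNReal.ofReal_le_ofReal (le_of_lt hp)
    rw [ENNReal.ofReal_div_of_pos hΥ]
    rw [ENNReal.le_div_iff_mul_le (Or.inl (by simp [hΥ])) (Or.inl ENNReal.ofReal_ne_top), mul_comm]
    exact (mul_le_mul_right (measure_mono h3) _).trans (h2.trans h1)
  have hMd : (M0 d μ Λ K) Ed ≤ ENNReal.ofReal (2 * K * ((2 * m + 1) ^ Q.card *
        Real.exp (-((k1 / k2) ^ 2 * γ' * t / 16)))) :=
    lat_step h μ ρ Λ Q S (fun k hk => (Finset.mem_sdiff.1 (hS hk)).2) hk1 hγ hγ' ht hγΥ h64 hK hη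
      hρ hκ m hm
  have hbd : ∀ E0 : Set ((ℝ × (Λ → ℝ)) × (Sym2 (Fin d → ℤ) → Bool)), MeasurableSet E0 →
      (∀ (E : ℝ) (V : Λ → ℝ) (s : Sym2 (Fin d → ℤ) → Bool) (u : ℝ),
        (((E, Function.update V x u), s) ∈ E0 ↔ ((E, V), s) ∈ E0)) → ∀ B : ℝ,
      (M0 d μ Λ K) E0 ≤ ENNReal.ofReal B →
      ∫⁻ p in E0, ENNReal.ofReal (PF T0 κ ρ η Λ x p) ∂(M0 d μ Λ K) ≤
        ENNReal.ofReal (Real.pi * D * B) := by
    intro E0 h1 h2 B h3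
    refine (size_bias h μ hD hμ ρ Λ x hη E0 h1 h2).trans ?_
    rw [ENNReal.ofReal_mul (p := Real.pi * D) (by positivity)]
    exact mul_le_mul_right h3 _
  have hp1 : 0 ≤ Real.pi * near.card / (t / 2) := by positivity
  have hp2 : 0 ≤ Q.card * (2 * K * η + Real.pi * aC b κ) / Υ := by positivity
  have hp3 : 0 ≤ 2 * K * ((2 * (m : ℝ) + 1) ^ Q.card *
        Real.exp (-((k1 / k2) ^ 2 * γ' * t / 16))) := by positivity
  calc ∫⁻ p in {p : (ℝ × (Λ → ℝ)) × (Sym2 (Fin d → ℤ) → Bool) |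
        Diss (Am T0 κ ρ Λ p.2) p.1.2 p.1.1 η Q' γ' ∧
        ¬ Diss (Am T0 κ ρ Λ p.2) p.1.2 p.1.1 η Q γ},
        ENNReal.ofReal (PF T0 κ ρ η Λ x p) ∂(M0 d μ Λ K)
      ≤ ∫⁻ p in Ea ∪ (Eb ∪ (Ec ∪ Ed)), ENNReal.ofReal (PF T0 κ ρ η Λ x p) ∂(M0 d μ Λ K) :=
        lintegral_mono_set hincl
    _ ≤ ∫⁻ p in Ea, ENNReal.ofReal (PF T0 κ ρ η Λ x p) ∂(M0 d μ Λ K) +
        (∫⁻ p in Eb, ENNReal.ofReal (PF T0 κ ρ η Λ x p) ∂(M0 d μ Λ K) +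
        (∫⁻ p in Ec, ENNReal.ofReal (PF T0 κ ρ η Λ x p) ∂(M0 d μ Λ K) +
        ∫⁻ p in Ed, ENNReal.ofReal (PF T0 κ ρ η Λ x p) ∂(M0 d μ Λ K))) := by
        refine (lintegral_union_le _ _ _).trans (add_le_add le_rfl ?_)
        refine (lintegral_union_le _ _ _).trans (add_le_add le_rfl ?_)
        exact lintegral_union_le _ _ _
    _ ≤ _ := by
        refine add_le_add le_rfl ?_
        refine (add_le_add (hbd Eb hmb hib _ hMb) (add_le_add (hbd Ec hmc hic _ hMc)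
          (hbd Ed hmd hid _ hMd))).trans ?_
        rw [← ENNReal.ofReal_add (by positivity) (by positivity),
          ← ENNReal.ofReal_add (by positivity) (by positivity)]
        refine ENNReal.ofReal_le_ofReal (le_of_eq ?_)
        ring

end H10PL
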