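import Pool.Agent.H10R2.AC.Ch2

/-!
One step of the chain of scales, summed over the sites of a big cube.
-/

namespace H10PL

open MeasureTheory ProbabilityTheory Matrix Set

variable {d : ℕ} {T0 : (Fin d → ℤ) → (Fin d → ℤ) → ℝ} {κ : (Fin d → ℤ) → ℝ} {ρ0 b : ℝ}

theorem ch_step (h : Adm T0 κ ρ0 b) (μ : Measure ℝ) [IsProbabilityMeasure μ] {D : ℝ}
    (hD : 0 ≤ D) (hμ : μ ≤ ENNReal.ofReal D • volume) (ρ : ℝ)
    (Λ : Finset (Fin d → ℤ)) {l l' R : ℕ} (hl : 0 < l) (hl' : 0 < l') (hR : 0 < R)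
    (hll' : l ∣ l') (hl'R : l' ∣ R) (hΛ : cubeF R 0 ⊆ Λ) (hρ : (R : ℝ) ≤ ρ)
    {r k1 k2 γ γ' t Υ K η : ℝ} (hr : 1 ≤ r) (hk1 : 0 < k1) (hγ : 0 < γ) (hγ' : 0 < γ')
    (ht : 0 < t) (hγΥ : γ ≤ Υ) (h64 : 64 * γ ≤ k1 ^ 2 * t) (hK : 0 < K) (hη : 0 < η)
    (hcard : 2 * (l : ℝ) ^ d / γ' ≤ t / 2)
    (hκ1 : ∀ y : Fin d → ℤ, y ≠ 0 → ‖y‖ ≤ l' → k1 ≤ |κ y|)
    (hκ2 : ∀ y : Fin d → ℤ, r < ‖y‖ → |κ y| ≤ k2)
    (m : ℕ) (hm : Real.sqrt ((l : ℝ) ^ d * Υ / γ) + 1 ≤ m) :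
    ∑ x ∈ inΛ Λ (cubeF R 0), ∫⁻ p in {p : (ℝ × (Λ → ℝ)) × (Sym2 (Fin d → ℤ) → Bool) |
        Diss (Am T0 κ ρ Λ p.2) p.1.2 p.1.1 η (inΛ Λ (cubeF l' (x : Fin d → ℤ))) γ' ∧
        ¬ Diss (Am T0 κ ρ Λ p.2) p.1.2 p.1.1 η (inΛ Λ (cubeF l (x : Fin d → ℤ))) γ},
        ENNReal.ofReal (PF T0 κ ρ η Λ x p) ∂(M0 d μ Λ K) ≤
      ENNReal.ofReal ((R : ℝ) ^ d * (2 * K * (2 * t / (l' : ℝ) ^ d) +
        Real.pi * D * (Real.pi * (l + 2 * r + 1) ^ d / (t / 2) +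
        (l : ℝ) ^ d * (2 * K * η + Real.pi * aC b κ) / Υ +
        2 * K * ((2 * m + 1) ^ (l ^ d) * Real.exp (-((k1 / k2) ^ 2 * γ' * t / 16)))))) := by
  classical
  have haC : 0 ≤ aC b κ := by
    unfold aC
    have h1 : 0 ≤ ∑' z : Fin d → ℤ, κ z ^ 2 := tsum_nonneg (fun z => sq_nonneg (κ z))
    positivity
  have hΥ : 0 < Υ := lt_of_lt_of_le hγ hγΥ
  obtain ⟨B, hB⟩ : ∃ B : ℝ, B = Real.pi * D * (Real.pi * (l + 2 * r + 1) ^ d / (t / 2) +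
        (l : ℝ) ^ d * (2 * K * η + Real.pi * aC b κ) / Υ +
        2 * K * ((2 * m + 1) ^ (l ^ d) * Real.exp (-((k1 / k2) ^ 2 * γ' * t / 16)))) := ⟨_, rfl⟩
  have hl'0 : (0 : ℝ) < l' := by exact_mod_cast hl'
  have hB0 : 0 ≤ B := by rw [hB]; positivity
  have hsite : ∀ x ∈ inΛ Λ (cubeF R 0),
      ∫⁻ p in {p : (ℝ × (Λ → ℝ)) × (Sym2 (Fin d → ℤ) → Bool) |
        Diss (Am T0 κ ρ Λ p.2) p.1.2 p.1.1 η (inΛ Λ (cubeF l' (x : Fin d → ℤ))) γ' ∧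
        ¬ Diss (Am T0 κ ρ Λ p.2) p.1.2 p.1.1 η (inΛ Λ (cubeF l (x : Fin d → ℤ))) γ},
        ENNReal.ofReal (PF T0 κ ρ η Λ x p) ∂(M0 d μ Λ K) ≤
      ∫⁻ p in {p : (ℝ × (Λ → ℝ)) × (Sym2 (Fin d → ℤ) → Bool) |
        ∑ k ∈ inΛ Λ (cubeF l' (x : Fin d → ℤ)),
          Pm (Am T0 κ ρ Λ p.2) p.1.2 p.1.1 η k k < 2 * t},
        ENNReal.ofReal (PF T0 κ ρ η Λ x p) ∂(M0 d μ Λ K) + ENNReal.ofReal B := by
    intro x hx
    have hx' : (x : Fin d → ℤ) ∈ cubeF R 0 := (ch_mem_inΛ Λ _ x).1 hx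
    have hcubeR : cubeF R (x : Fin d → ℤ) = cubeF R 0 := cube_eq hR hx'
    have hsub' : cubeF l' (x : Fin d → ℤ) ⊆ cubeF R 0 := by
      rw [← hcubeR]; exact cube_sub hl' hR hl'R _
    have hsub : cubeF l (x : Fin d → ℤ) ⊆ cubeF l' (x : Fin d → ℤ) := cube_sub hl hl' hll' _
    obtain ⟨Q, hQ⟩ : ∃ Q, Q = inΛ Λ (cubeF l (x : Fin d → ℤ)) := ⟨_, rfl⟩
    obtain ⟨Q', hQ'⟩ : ∃ Q', Q' = inΛ Λ (cubeF l' (x : Fin d → ℤ)) := ⟨_, rfl⟩
    obtain ⟨near, hnear⟩ : ∃ near : Finset Λ, near = (Q' \ Q).filter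
      (fun k : Λ => ∃ i ∈ Q, ‖(k : Fin d → ℤ) - (i : Fin d → ℤ)‖ ≤ r) := ⟨_, rfl⟩
    obtain ⟨S, hS⟩ : ∃ S : Finset Λ, S = (Q' \ Q).filter
      (fun k : Λ => ¬ ∃ i ∈ Q, ‖(k : Fin d → ℤ) - (i : Fin d → ℤ)‖ ≤ r) := ⟨_, rfl⟩
    have hQQ' : Q ⊆ Q' := by
      intro i hi
      rw [hQ, ch_mem_inΛ] at hi
      rw [hQ', ch_mem_inΛ]
      exact hsub hi
    have hQcard : (Q.card : ℝ) = (l : ℝ) ^ d := by
      rw [hQ, ch_inΛ_card _ _ ((hsub.trans hsub').trans hΛ), cube_card]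
      push_cast
      rfl
    have hQcard' : Q.card = l ^ d := by
      rw [hQ, ch_inΛ_card _ _ ((hsub.trans hsub').trans hΛ), cube_card]
    have hxQ : x ∈ Q := by
      rw [hQ, ch_mem_inΛ]
      exact mem_cube l hl _
    have hSsub : S ⊆ Q' \ Q := by rw [hS]; exact Finset.filter_subset _ _
    have hnn : ∀ k ∈ near, k ∉ Q := by
      intro k hk
      rw [hnear] at hk
      exact (Finset.mem_sdiff.1 (Finset.mem_filter.1 hk).1).2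
    have hcov : Q' \ Q ⊆ near ∪ S := by
      intro k hk
      by_cases hc : ∃ i ∈ Q, ‖(k : Fin d → ℤ) - (i : Fin d → ℤ)‖ ≤ r
      · exact Finset.mem_union_left _ (by rw [hnear]; exact Finset.mem_filter.2 ⟨hk, hc⟩)
      · exact Finset.mem_union_right _ (by rw [hS]; exact Finset.mem_filter.2 ⟨hk, hc⟩)
    have hdist : ∀ k ∈ S, ∀ i ∈ Q, ‖(k : Fin d → ℤ) - (i : Fin d → ℤ)‖ ≤ l' := by
      intro k hk i hi
      have hk' : k ∈ Q' := (Finset.mem_sdiff.1 (hSsub hk)).1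
      have hi' : i ∈ Q' := hQQ' hi
      rw [hQ', ch_mem_inΛ] at hk' hi'
      exact cube_dist hk' hi'
    have hl'R2 : (l' : ℝ) ≤ R := by exact_mod_cast Nat.le_of_dvd hR hl'R
    have hfar : ∀ k ∈ S, ∀ i ∈ Q, r < ‖(k : Fin d → ℤ) - (i : Fin d → ℤ)‖ := by
      intro k hk i hi
      rw [hS] at hk
      have := (Finset.mem_filter.1 hk).2
      push Not at this
      exact this i hi
    have hnearcard : (near.card : ℝ) ≤ ((l : ℝ) + 2 * r + 1) ^ d := by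
      have h1 : near.card = (near.image (fun k : Λ => (k : Fin d → ℤ))).card := by
        rw [Finset.card_image_of_injective _ Subtype.val_injective]
      rw [h1]
      refine near_card l (by linarith) (x : Fin d → ℤ) _ ?_
      intro k hk
      obtain ⟨k', hk', rfl⟩ := Finset.mem_image.1 hk
      rw [hnear] at hk'
      obtain ⟨i, hi, hki⟩ := (Finset.mem_filter.1 hk').2
      refine ⟨i, ?_, hki⟩
      rw [hQ, ch_mem_inΛ] at hi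
      exact hi
    have hfin := ch_site h μ hD hμ ρ Λ x hxQ hQQ' hSsub hnn hcov (k1 := k1) (k2 := k2) (γ := γ)
      (γ' := γ') (t := t) (Υ := Υ) (K := K) (η := η) hk1 hγ hγ' ht hγΥ h64 hK hη
      (by rw [hQcard]; exact hcard) (fun k hk i hi => ((hdist k hk i hi).trans hl'R2).trans hρ)
      (fun k hk i hi => ⟨hκ1 _ (by
        intro h0
        have := hfar k hk i hi
        rw [h0, norm_zero] at this
        linarith) (hdist k hk i hi), hκ2 _ (hfar k hk i hi)⟩) m (by rw [hQcard]; exact hm)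
    rw [hQ, hQ'] at hfin
    refine hfin.trans (add_le_add le_rfl (ENNReal.ofReal_le_ofReal ?_))
    rw [← hQ, hB, hQcard, hQcard']
    refine mul_le_mul_of_nonneg_left ?_ (by positivity)
    refine add_le_add (add_le_add ?_ le_rfl) le_rfl
    gcongr
  calc _ ≤ ∑ x ∈ inΛ Λ (cubeF R 0), (∫⁻ p in {p : (ℝ × (Λ → ℝ)) × (Sym2 (Fin d → ℤ) → Bool) |
        ∑ k ∈ inΛ Λ (cubeF l' (x : Fin d → ℤ)),
          Pm (Am T0 κ ρ Λ p.2) p.1.2 p.1.1 η k k < 2 * t},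
        ENNReal.ofReal (PF T0 κ ρ η Λ x p) ∂(M0 d μ Λ K) + ENNReal.ofReal B) :=
        Finset.sum_le_sum hsite
    _ ≤ ENNReal.ofReal (2 * K * (2 * t * ((R : ℝ) / l') ^ d)) +
        ENNReal.ofReal ((R : ℝ) ^ d * B) := by
        rw [Finset.sum_add_distrib]
        refine add_le_add (ch_small_trace h μ ρ Λ hl' hR hl'R hΛ hK hη (by positivity)) ?_
        rw [Finset.sum_const, ch_inΛ_card _ _ hΛ, cube_card, nsmul_eq_mul,
          ENNReal.ofReal_mul (by positivity)]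
        refine mul_le_mul' (le_of_eq ?_) le_rfl
        rw [← ENNReal.ofReal_natCast]
        push_cast
        rfl
    _ = _ := by
        rw [← ENNReal.ofReal_add (by positivity) (by positivity), hB]
        congr 1
        rw [div_pow]
        ring

end H10PL
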