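import Pool.Agent.H10R2.AC.Ch3

/-!
The chain of scales: uniform integrability in a box.
-/

namespace H10PL

open MeasureTheory ProbabilityTheory Matrix Set Filter

theorem ch_union {α : Type*} [MeasurableSpace α] (ν : Measure α) (f : α → ENNReal)
    (E : ℕ → Set α) (m : ℕ) : ∫⁻ p in (⋃ j ∈ Finset.range m, E j), f p ∂ν ≤
      ∑ j ∈ Finset.range m, ∫⁻ p in E j, f p ∂ν := by
  induction m with
  | zero => simp
  | succ m ih =>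
    rw [Finset.sum_range_succ, Finset.range_add_one, Finset.set_biUnion_insert]
    refine (lintegral_union_le _ _ _).trans ?_
    rw [add_comm]
    exact add_le_add ih le_rfl

variable {d : ℕ} {T0 : (Fin d → ℤ) → (Fin d → ℤ) → ℝ} {κ : (Fin d → ℤ) → ℝ} {ρ0 b : ℝ}

theorem ch_level (h : Adm T0 κ ρ0 b) (hd : 0 < d) (μ : Measure ℝ) [IsProbabilityMeasure μ] {D : ℝ}
    (hD : 0 ≤ D) (hμ : μ ≤ ENNReal.ofReal D • volume) {a c C : ℝ} (ha1 : (d : ℝ) / 2 < a)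
    (hc : 0 < c) (hC : 0 < C)
    (hκ : ∀ y : Fin d → ℤ, y ≠ 0 → c * ‖y‖ ^ (-a) ≤ |κ y| ∧ |κ y| ≤ C * ‖y‖ ^ (-a))
    {K η : ℝ} (hK : 0 < K) (hη : 0 < η) (hη1 : η ≤ 1) {σ ϱ C5 : ℝ} (hσ : 0 < σ) (hC5 : 0 < C5)
    {l l' R : ℕ} (hl : 1 ≤ l) (hll : l' = l ^ 2) (hR : 0 < R)
    (hl'R : l' ∣ R) (Λ : Finset (Fin d → ℤ)) {ρ : ℝ} (hΛ : cubeF R 0 ⊆ Λ) (hρ : (R : ℝ) ≤ ρ)
    {r δ γ γ' Υ : ℝ} (hrr : r = (l' : ℝ) ^ (1 - ϱ)) (hδ : δ = (l' : ℝ) ^ (-σ))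
    (hγ : γ = c ^ 2 / 64 * (l' : ℝ) ^ (d - 2 * a - σ))
    (hγ' : γ' = c ^ 2 / 64 * ((l' : ℝ) ^ 2) ^ (d - 2 * a - σ))
    (hΥ : Υ = (l : ℝ) ^ (d + σ))
    (hpar : 1 ≤ r ∧ (l : ℝ) + 2 * r + 1 ≤ 4 * r ∧
      2 * (l : ℝ) ^ (d : ℝ) / γ' ≤ δ * (l' : ℝ) ^ (d : ℝ) / 2 ∧ γ ≤ Υ ∧
      Real.pi * D * (Real.pi * (4 * r) ^ d / (δ * (l' : ℝ) ^ (d : ℝ) / 2)) ≤
        C5 * (l : ℝ) ^ (-σ) ∧
      ∃ m : ℕ, Real.sqrt ((l : ℝ) ^ (d : ℝ) * Υ / γ) + 1 ≤ m ∧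
        ((2 : ℝ) * m + 1) ^ ((l : ℝ) ^ (d : ℝ)) *
          Real.exp (-((c * (l' : ℝ) ^ (-a) / (C * r ^ (-a))) ^ 2 * γ' *
            (δ * (l' : ℝ) ^ (d : ℝ)) / 16)) ≤ (l : ℝ) ^ (-σ)) :
    ∑ x ∈ inΛ Λ (cubeF R 0), ∫⁻ p in {p : (ℝ × (Λ → ℝ)) × (Sym2 (Fin d → ℤ) → Bool) |
        Diss (Am T0 κ ρ Λ p.2) p.1.2 p.1.1 η (inΛ Λ (cubeF l' (x : Fin d → ℤ))) γ' ∧
        ¬ Diss (Am T0 κ ρ Λ p.2) p.1.2 p.1.1 η (inΛ Λ (cubeF l (x : Fin d → ℤ))) γ},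
        ENNReal.ofReal (PF T0 κ ρ η Λ x p) ∂(M0 d μ Λ K) ≤
      ENNReal.ofReal ((R : ℝ) ^ d * ((4 * K + C5 + Real.pi * D * (2 * K + Real.pi * aC b κ) +
        Real.pi * D * (2 * K)) * (l : ℝ) ^ (-σ))) := by
  obtain ⟨hr1, hr2, hcard, hγΥ, h5, m, hm, hm2⟩ := hpar
  have haC : 0 ≤ aC b κ := by
    unfold aC
    have h1 : 0 ≤ ∑' z : Fin d → ℤ, κ z ^ 2 := tsum_nonneg (fun z => sq_nonneg (κ z))
    positivity
  have ha0 : 0 < a := lt_of_le_of_lt (by positivity) ha1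
  have hlR1 : (1 : ℝ) ≤ l := by exact_mod_cast hl
  have hl0 : (0 : ℝ) < l := by linarith
  have hl'2 : (l' : ℝ) = (l : ℝ) ^ 2 := by rw [hll]; push_cast; rfl
  have hl'0 : (0 : ℝ) < l' := by rw [hl'2]; positivity
  have hl'n : 0 < l' := by exact_mod_cast hl'0
  have hll' : (l : ℝ) ≤ l' := by rw [hl'2]; nlinarith
  have hr0 : 0 < r := by linarith
  have hδ0 : 0 < δ := by rw [hδ]; positivity
  have hγ0 : 0 < γ := by rw [hγ]; positivity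
  have hγ'0 : 0 < γ' := by rw [hγ']; positivity
  have hΥ0 : 0 < Υ := by rw [hΥ]; positivity
  have ht0 : 0 < δ * (l' : ℝ) ^ d := by positivity
  simp only [Real.rpow_natCast] at hcard h5 hm hm2
  have hexp : (l : ℝ) ^ d = ((l ^ d : ℕ) : ℝ) := by push_cast; rfl
  have hstep := ch_step h μ hD hμ ρ Λ (l := l) (l' := l') (R := R) (by omega) hl'n hR
    (by rw [hll]; exact Dvd.intro_left l (by ring)) hl'R hΛ hρ (r := r) (k1 := c * (l' : ℝ) ^ (-a))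
    (k2 := C * r ^ (-a)) (γ := γ) (γ' := γ') (t := δ * (l' : ℝ) ^ d) (Υ := Υ) (K := K) (η := η)
    hr1 (by positivity) hγ0 hγ'0 ht0 hγΥ (by
      rw [hγ, hδ, mul_pow]
      have e1 : ((l' : ℝ) ^ (-a)) ^ 2 * ((l' : ℝ) ^ (-σ) * (l' : ℝ) ^ d) =
          (l' : ℝ) ^ (d - 2 * a - σ) := by
        rw [← Real.rpow_natCast ((l' : ℝ) ^ (-a)) 2, ← Real.rpow_mul hl'0.le,
          ← Real.rpow_natCast (l' : ℝ) d, ← Real.rpow_add hl'0, ← Real.rpow_add hl'0]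
        congr 1
        push_cast
        ring
      rw [mul_assoc (c ^ 2), e1]
      have : 0 ≤ (l' : ℝ) ^ ((d : ℝ) - 2 * a - σ) := by positivity
      nlinarith) hK hη hcard
    (by
      intro y hy hyl
      have hy0 : 0 < ‖y‖ := norm_pos_iff.2 hy
      refine le_trans ?_ (hκ y hy).1
      refine mul_le_mul_of_nonneg_left ?_ hc.le
      exact Real.rpow_le_rpow_of_nonpos hy0 hyl (by linarith))
    (by
      intro y hy
      have hy0 : 0 < ‖y‖ := lt_trans hr0 hy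
      refine (hκ y (norm_pos_iff.1 hy0)).2.trans ?_
      refine mul_le_mul_of_nonneg_left ?_ hC.le
      exact Real.rpow_le_rpow_of_nonpos hr0 hy.le (by linarith)) m hm
  refine hstep.trans (ENNReal.ofReal_le_ofReal ?_)
  refine mul_le_mul_of_nonneg_left ?_ (by positivity)
  have hlσ : 0 < (l : ℝ) ^ (-σ) := by positivity
  -- four terms
  have t1 : 2 * K * (2 * (δ * (l' : ℝ) ^ d) / (l' : ℝ) ^ d) ≤ 4 * K * (l : ℝ) ^ (-σ) := by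
    have e1 : 2 * K * (2 * (δ * (l' : ℝ) ^ d) / (l' : ℝ) ^ d) = 4 * K * δ := by
      field_simp
      ring
    rw [e1, hδ]
    refine mul_le_mul_of_nonneg_left ?_ (by positivity)
    exact Real.rpow_le_rpow_of_nonpos hl0 hll' (by linarith)
  have t2 : Real.pi * D * (Real.pi * ((l : ℝ) + 2 * r + 1) ^ d / (δ * (l' : ℝ) ^ d / 2)) ≤
      C5 * (l : ℝ) ^ (-σ) := by
    refine le_trans ?_ h5
    gcongr
  have t3 : Real.pi * D * ((l : ℝ) ^ d * (2 * K * η + Real.pi * aC b κ) / Υ) ≤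
      Real.pi * D * (2 * K + Real.pi * aC b κ) * (l : ℝ) ^ (-σ) := by
    have e1 : (l : ℝ) ^ d * (2 * K * η + Real.pi * aC b κ) / Υ =
        (2 * K * η + Real.pi * aC b κ) * (l : ℝ) ^ (-σ) := by
      rw [hΥ, div_eq_iff (by positivity)]
      have e2 : (l : ℝ) ^ (-σ) * (l : ℝ) ^ ((d : ℝ) + σ) = (l : ℝ) ^ d := by
        rw [← Real.rpow_add hl0, ← Real.rpow_natCast]
        congr 1
        ring
      calc (l : ℝ) ^ d * (2 * K * η + Real.pi * aC b κ)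
          = (2 * K * η + Real.pi * aC b κ) * ((l : ℝ) ^ (-σ) * (l : ℝ) ^ ((d : ℝ) + σ)) := by
            rw [e2, mul_comm]
        _ = _ := (mul_assoc _ _ _).symm
    rw [e1, mul_assoc (Real.pi * D)]
    refine mul_le_mul_of_nonneg_left ?_ (by positivity)
    refine mul_le_mul_of_nonneg_right ?_ hlσ.le
    have h9 : 2 * K * η ≤ 2 * K * 1 := mul_le_mul_of_nonneg_left hη1 (by positivity)
    linarith
  have t4 : Real.pi * D * (2 * K * ((2 * (m : ℝ) + 1) ^ (l ^ d) *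
      Real.exp (-((c * (l' : ℝ) ^ (-a) / (C * r ^ (-a))) ^ 2 * γ' *
        (δ * (l' : ℝ) ^ d) / 16)))) ≤ Real.pi * D * (2 * K) * (l : ℝ) ^ (-σ) := by
    rw [mul_assoc (Real.pi * D)]
    refine mul_le_mul_of_nonneg_left ?_ (by positivity)
    refine mul_le_mul_of_nonneg_left ?_ (by positivity)
    rw [hexp, Real.rpow_natCast] at hm2
    exact hm2
  calc _ = 2 * K * (2 * (δ * (l' : ℝ) ^ d) / (l' : ℝ) ^ d) +
        Real.pi * D * (Real.pi * ((l : ℝ) + 2 * r + 1) ^ d / (δ * (l' : ℝ) ^ d / 2)) +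
        Real.pi * D * ((l : ℝ) ^ d * (2 * K * η + Real.pi * aC b κ) / Υ) +
        Real.pi * D * (2 * K * ((2 * (m : ℝ) + 1) ^ (l ^ d) *
          Real.exp (-((c * (l' : ℝ) ^ (-a) / (C * r ^ (-a))) ^ 2 * γ' *
          (δ * (l' : ℝ) ^ d) / 16)))) := by ring
    _ ≤ 4 * K * (l : ℝ) ^ (-σ) + C5 * (l : ℝ) ^ (-σ) +
        Real.pi * D * (2 * K + Real.pi * aC b κ) * (l : ℝ) ^ (-σ) +
        Real.pi * D * (2 * K) * (l : ℝ) ^ (-σ) := by linarith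
    _ = _ := by ring

end H10PL
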