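import Pool.Agent.H10R2.PL.Lat2

/-!
Definitions for the fourth theorem (absolutely continuous spectrum).
-/

namespace H10PL

open MeasureTheory ProbabilityTheory Matrix Set

section finite

variable {ι : Type*} [Fintype ι] [DecidableEq ι]

/-- `A` with all rows and columns of `U` replaced by zero. -/
def cutS (A : Matrix ι ι ℝ) (U : Finset ι) : Matrix ι ι ℝ :=
  fun i j => if i ∈ U ∨ j ∈ U then 0 else A i j

/-- quadratic form -/
def qf (P : Matrix ι ι ℝ) (φ : ι → ℝ) : ℝ := ∑ i, ∑ j, φ i * P i j * φ j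

/-- the field produced outside of `Q` by `φ` on `Q` -/
def fld (A : Matrix ι ι ℝ) (Q : Finset ι) (φ : ι → ℝ) : ι → ℝ :=
  fun k => if k ∈ Q then 0 else ∑ i ∈ Q, A k i * φ i

/-- dissipation form of the block `Q` (imaginary part of its matrix valued self energy) -/
noncomputable def YQ (A : Matrix ι ι ℝ) (V : ι → ℝ) (E η : ℝ) (Q : Finset ι) (φ : ι → ℝ) : ℝ :=
  η * ∑ i ∈ Q, φ i ^ 2 + qf (Pm (cutS A Q) V E η) (fld A Q φ)

/-- its trace -/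
noncomputable def trY (A : Matrix ι ι ℝ) (V : ι → ℝ) (E η : ℝ) (Q : Finset ι) : ℝ :=
  ∑ i ∈ Q, YQ A V E η Q (Pi.single i 1)

/-- the block `Q` dissipates at rate at least `γ` -/
def Diss (A : Matrix ι ι ℝ) (V : ι → ℝ) (E η : ℝ) (Q : Finset ι) (γ : ℝ) : Prop :=
  ∀ φ : ι → ℝ, γ * ∑ i ∈ Q, φ i ^ 2 ≤ YQ A V E η Q φ

/-- a vector depending linearly on `φ` and on random signs `ε` -/
def aV {o ι : Type*} [Fintype ι] [DecidableEq o] (b c : o → ι → ℝ) (S : Finset o)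
    (ε : o → ι → Bool) (φ : ι → ℝ) (k : o) : ℝ :=
  ∑ i, (b k i + if k ∈ S then sg (ε k i) * c k i else 0) * φ i

end finite

section lattice

variable {d : ℕ}

/-- energies in `[-K,K]`, potential in the box, signs -/
noncomputable def M0 (d : ℕ) (μ : Measure ℝ) (Λ : Finset (Fin d → ℤ)) (K : ℝ) :
    Measure ((ℝ × (Λ → ℝ)) × (Sym2 (Fin d → ℤ) → Bool)) :=
  ((volume.restrict (Icc (-K) K)).prod (Measure.pi fun _ : Λ => μ)).prod (Ps d)

/-- the cube of side `l` of the standard partition which contains `x` -/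
noncomputable def cubeF (l : ℕ) (x : Fin d → ℤ) : Finset (Fin d → ℤ) :=
  Fintype.piFinset fun i => Finset.Ico ((l : ℤ) * (x i / l)) ((l : ℤ) * (x i / l) + l)

/-- the part of the box `Λ` in a set of lattice sites -/
def inΛ (Λ : Finset (Fin d → ℤ)) (F : Finset (Fin d → ℤ)) : Finset Λ :=
  Finset.univ.filter fun i : Λ => (i : Fin d → ℤ) ∈ F

/-- local density of states of the box at the site `x` -/
noncomputable def PF (T0 : (Fin d → ℤ) → (Fin d → ℤ) → ℝ) (κ : (Fin d → ℤ) → ℝ) (ρ η : ℝ)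
    (Λ : Finset (Fin d → ℤ)) (x : Λ) (p : (ℝ × (Λ → ℝ)) × (Sym2 (Fin d → ℤ) → Bool)) : ℝ :=
  Pm (Am T0 κ ρ Λ p.2) p.1.2 p.1.1 η x x

/-- `ψ` is square summable and `(H - z) ψ = δ_x` -/
def IsGreen (T0 : (Fin d → ℤ) → (Fin d → ℤ) → ℝ) (κ : (Fin d → ℤ) → ℝ)
    (ω : ((Fin d → ℤ) → ℝ) × (Sym2 (Fin d → ℤ) → Bool)) (x : Fin d → ℤ) (z : ℂ)
    (ψ : (Fin d → ℤ) → ℂ) : Prop :=
  Summable (fun y => ‖ψ y‖ ^ 2) ∧
    ∀ y, (∑' w, (Kf T0 κ ω.2 y w : ℂ) * ψ w) + ((ω.1 y : ℂ) - z) * ψ y = if y = x then 1 else 0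

/-- no square summable solution of `H ψ = z ψ` -/
def NoEig (T0 : (Fin d → ℤ) → (Fin d → ℤ) → ℝ) (κ : (Fin d → ℤ) → ℝ)
    (ω : ((Fin d → ℤ) → ℝ) × (Sym2 (Fin d → ℤ) → Bool)) : Prop :=
  ∀ (z : ℂ) (ψ : (Fin d → ℤ) → ℂ), z.im ≠ 0 → Summable (fun y => ‖ψ y‖ ^ 2) →
    (∀ y, (∑' w, (Kf T0 κ ω.2 y w : ℂ) * ψ w) + (ω.1 y : ℂ) * ψ y = z * ψ y) → ψ = 0

end lattice

end H10PL
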