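import Pool.Agent.H10R2.AC.Defs4

/-!
Task 4-EXI: infinite volume Green function (helper159).
-/

namespace H10PL

open MeasureTheory ProbabilityTheory Matrix Set Filter Topology

section general

variable {ι : Type*}

theorem exi_mul_summable {k : ι → ℝ} (hk : Summable fun w => k w ^ 2) {v : ι → ℂ}
    (hv : Summable fun w => ‖v w‖ ^ 2) : Summable fun w => (k w : ℂ) * v w := by
  have h1 := (cs_tsum (f := fun y => |k y|) (g := fun y => ‖v y‖)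
    (by simpa only [sq_abs] using hk) hv).1
  refine Summable.of_norm ?_
  refine h1.congr fun y => ?_
  rw [norm_mul, Complex.norm_real, Real.norm_eq_abs]

theorem exi_summable {v : ι → ℂ} {C : ℝ} (hC : ∀ F : Finset ι, ∑ w ∈ F, ‖v w‖ ^ 2 ≤ C ^ 2) :
    Summable fun w => ‖v w‖ ^ 2 :=
  summable_of_sum_le (fun _ => sq_nonneg _) hC

/-- tail bound by Cauchy-Schwarz -/
theorem exi_tail {k : ι → ℝ} (hk : Summable fun w => k w ^ 2) {v : ι → ℂ} {C : ℝ} (hC0 : 0 ≤ C)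
    (hC : ∀ F : Finset ι, ∑ w ∈ F, ‖v w‖ ^ 2 ≤ C ^ 2) (F : Finset ι) :
    ‖(∑' w, (k w : ℂ) * v w) - ∑ w ∈ F, (k w : ℂ) * v w‖ ≤
      Real.sqrt ((∑' w, k w ^ 2) - ∑ w ∈ F, k w ^ 2) * C := by
  classical
  have hv := exi_summable hC
  have hkv := exi_mul_summable hk hv
  set k' : ι → ℝ := fun w => if w ∈ F then 0 else k w with hk'
  have e1 : HasSum (fun w => (k' w : ℂ) * v w)
      ((∑' w, (k w : ℂ) * v w) - ∑ w ∈ F, (k w : ℂ) * v w) := by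
    have h1 : HasSum (fun w => if w ∈ F then (k w : ℂ) * v w else 0)
        (∑ w ∈ F, (k w : ℂ) * v w) := by
      have h2 : HasSum (fun w => if w ∈ F then (k w : ℂ) * v w else 0)
          (∑ w ∈ F, (if w ∈ F then (k w : ℂ) * v w else 0)) :=
        hasSum_sum_of_ne_finset_zero (fun w hw => if_neg hw)
      have h3 : ∑ w ∈ F, (if w ∈ F then (k w : ℂ) * v w else 0) = ∑ w ∈ F, (k w : ℂ) * v w :=
        Finset.sum_congr rfl fun w hw => if_pos hw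
      rwa [h3] at h2
    have h4 := hkv.hasSum.sub h1
    have h5 : (fun w => (k' w : ℂ) * v w) =
        fun w => (k w : ℂ) * v w - if w ∈ F then (k w : ℂ) * v w else 0 := by
      funext w
      simp only [hk']
      by_cases hw : w ∈ F
      · simp [hw]
      · simp [hw]
    rw [h5]
    exact h4
  have e2 : HasSum (fun w => k' w ^ 2) ((∑' w, k w ^ 2) - ∑ w ∈ F, k w ^ 2) := by
    have h1 : HasSum (fun w => if w ∈ F then k w ^ 2 else 0) (∑ w ∈ F, k w ^ 2) := by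
      have h2 : HasSum (fun w => if w ∈ F then k w ^ 2 else 0)
          (∑ w ∈ F, (if w ∈ F then k w ^ 2 else 0)) :=
        hasSum_sum_of_ne_finset_zero (fun w hw => if_neg hw)
      have h3 : ∑ w ∈ F, (if w ∈ F then k w ^ 2 else 0) = ∑ w ∈ F, k w ^ 2 :=
        Finset.sum_congr rfl fun w hw => if_pos hw
      rwa [h3] at h2
    have h4 := hk.hasSum.sub h1
    have h5 : (fun w => k' w ^ 2) =
        fun w => k w ^ 2 - if w ∈ F then k w ^ 2 else 0 := by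
      funext w
      simp only [hk']
      by_cases hw : w ∈ F
      · simp [hw]
      · simp [hw]
    rw [h5]
    exact h4
  have h5 := cs_tsum (f := fun y => |k' y|) (g := fun y => ‖v y‖)
    (by simpa only [sq_abs] using e2.summable) hv
  simp only [sq_abs] at h5
  rw [e2.tsum_eq] at h5
  have h6 : ‖∑' w, (k' w : ℂ) * v w‖ ≤ ∑' w, |k' w| * ‖v w‖ := by
    have h7 : Summable fun w => ‖(k' w : ℂ) * v w‖ := by
      refine h5.1.congr fun y => ?_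
      rw [norm_mul, Complex.norm_real, Real.norm_eq_abs]
    refine (norm_tsum_le_tsum_norm h7).trans (le_of_eq ?_)
    refine tsum_congr fun w => ?_
    rw [norm_mul, Complex.norm_real, Real.norm_eq_abs]
  rw [← e1.tsum_eq]
  refine h6.trans ?_
  have h8 : ∑' w, ‖v w‖ ^ 2 ≤ C ^ 2 := hv.tsum_le_of_sum_le hC
  have h9 : 0 ≤ (∑' w, k w ^ 2) - ∑ w ∈ F, k w ^ 2 := by
    rw [← e2.tsum_eq]; exact tsum_nonneg fun w => sq_nonneg _
  have h10 : ∑' w, |k' w| * ‖v w‖ ≤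
      Real.sqrt (((∑' w, k w ^ 2) - ∑ w ∈ F, k w ^ 2) * C ^ 2) :=
    Real.le_sqrt_of_sq_le (h5.2.trans (mul_le_mul_of_nonneg_left h8 h9))
  rwa [Real.sqrt_mul h9, Real.sqrt_sq hC0] at h10

/-- weak convergence of bounded sequences against a square summable row -/
theorem exi_weak {α : Type*} {l : Filter α} {k : ι → ℝ} (hk : Summable fun w => k w ^ 2)
    {u : α → ι → ℂ} {C : ℝ} (hC0 : 0 ≤ C) (hC : ∀ n (F : Finset ι), ∑ w ∈ F, ‖u n w‖ ^ 2 ≤ C ^ 2)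
    {ψ : ι → ℂ} (hψ : ∀ w, Tendsto (fun n => u n w) l (𝓝 (ψ w)))
    (hψC : ∀ F : Finset ι, ∑ w ∈ F, ‖ψ w‖ ^ 2 ≤ C ^ 2) :
    Tendsto (fun n => ∑' w, (k w : ℂ) * u n w) l (𝓝 (∑' w, (k w : ℂ) * ψ w)) := by
  rw [Metric.tendsto_nhds]
  intro ε hε
  have hδ : 0 < (ε / (3 * (C + 1))) ^ 2 := by positivity
  obtain ⟨F, hF⟩ : ∃ F : Finset ι, (∑' w, k w ^ 2) - ∑ w ∈ F, k w ^ 2 <
      (ε / (3 * (C + 1))) ^ 2 := by
    have h1 := hk.hasSum.eventually (lt_mem_nhds (sub_lt_self (∑' w, k w ^ 2) hδ))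
    obtain ⟨F, hF⟩ := h1.exists
    exact ⟨F, by linarith⟩
  have hs : Real.sqrt ((∑' w, k w ^ 2) - ∑ w ∈ F, k w ^ 2) * C < ε / 3 := by
    have h2 : Real.sqrt ((∑' w, k w ^ 2) - ∑ w ∈ F, k w ^ 2) ≤ ε / (3 * (C + 1)) := by
      rw [← Real.sqrt_sq (show 0 ≤ ε / (3 * (C + 1)) by positivity)]
      exact Real.sqrt_le_sqrt hF.le
    calc Real.sqrt ((∑' w, k w ^ 2) - ∑ w ∈ F, k w ^ 2) * C
        ≤ ε / (3 * (C + 1)) * C := mul_le_mul_of_nonneg_right h2 hC0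
      _ < ε / (3 * (C + 1)) * (C + 1) := by
          apply mul_lt_mul_of_pos_left _ (by positivity); linarith
      _ = ε / 3 := by field_simp
  have hmid : Tendsto (fun n => ∑ w ∈ F, (k w : ℂ) * u n w) l
      (𝓝 (∑ w ∈ F, (k w : ℂ) * ψ w)) :=
    tendsto_finsetSum _ fun w _ => (hψ w).const_mul _
  filter_upwards [(Metric.tendsto_nhds.1 hmid) (ε / 3) (by positivity)] with n hn
  have t1 := exi_tail hk hC0 (hC n) F
  have t2 := exi_tail hk hC0 hψC F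
  rw [dist_eq_norm] at hn ⊢
  have e : (∑' w, (k w : ℂ) * u n w) - ∑' w, (k w : ℂ) * ψ w =
      ((∑' w, (k w : ℂ) * u n w) - ∑ w ∈ F, (k w : ℂ) * u n w) +
      ((∑ w ∈ F, (k w : ℂ) * u n w) - ∑ w ∈ F, (k w : ℂ) * ψ w) -
      ((∑' w, (k w : ℂ) * ψ w) - ∑ w ∈ F, (k w : ℂ) * ψ w) := by ring
  rw [e]
  calc _ ≤ ‖(∑' w, (k w : ℂ) * u n w) - ∑ w ∈ F, (k w : ℂ) * u n w‖ +
        ‖(∑ w ∈ F, (k w : ℂ) * u n w) - ∑ w ∈ F, (k w : ℂ) * ψ w‖ +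
        ‖(∑' w, (k w : ℂ) * ψ w) - ∑ w ∈ F, (k w : ℂ) * ψ w‖ :=
        (norm_sub_le _ _).trans (add_le_add_left (norm_add_le _ _) _)
    _ < ε := by linarith

end general

section lattice

variable {d : ℕ} {T0 : (Fin d → ℤ) → (Fin d → ℤ) → ℝ} {κ : (Fin d → ℤ) → ℝ} {ρ0 b : ℝ}

/-- conjugation and uniqueness -/
theorem green_unique (h : Adm T0 κ ρ0 b) (ω : ((Fin d → ℤ) → ℝ) × (Sym2 (Fin d → ℤ) → Bool))
    (hU : NoEig T0 κ ω) (x : Fin d → ℤ) (z : ℂ) (hz : z.im ≠ 0) (ψ φ : (Fin d → ℤ) → ℂ)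
    (hψ : IsGreen T0 κ ω x z ψ) (hφ : IsGreen T0 κ ω x z φ) : ψ = φ := by
  have hs : Summable fun y => ‖(ψ - φ) y‖ ^ 2 := by
    refine Summable.of_nonneg_of_le (fun y => sq_nonneg _) (fun y => ?_)
      ((hψ.1.mul_left 2).add (hφ.1.mul_left 2))
    have h1 : ‖(ψ - φ) y‖ ≤ ‖ψ y‖ + ‖φ y‖ := by
      rw [Pi.sub_apply]; exact norm_sub_le _ _
    have h2 := pow_le_pow_left₀ (norm_nonneg _) h1 2
    nlinarith [sq_nonneg (‖ψ y‖ - ‖φ y‖)]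
  have h0 := hU z (ψ - φ) hz hs (fun y => by
    have hk := Kf_sq_summable h ω.2 y
    have s1 := exi_mul_summable hk hψ.1
    have s2 := exi_mul_summable hk hφ.1
    have e1 : (∑' w, (Kf T0 κ ω.2 y w : ℂ) * (ψ - φ) w) =
        (∑' w, (Kf T0 κ ω.2 y w : ℂ) * ψ w) - ∑' w, (Kf T0 κ ω.2 y w : ℂ) * φ w := by
      rw [← s1.tsum_sub s2]
      refine tsum_congr fun w => ?_
      rw [Pi.sub_apply]; ring
    have g1 := hψ.2 y
    have g2 := hφ.2 y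
    rw [e1, Pi.sub_apply]
    linear_combination g1 - g2)
  exact sub_eq_zero.1 h0

theorem green_conj (ω : ((Fin d → ℤ) → ℝ) × (Sym2 (Fin d → ℤ) → Bool))
    (x : Fin d → ℤ) (z : ℂ) (ψ : (Fin d → ℤ) → ℂ) (hψ : IsGreen T0 κ ω x z ψ) :
    IsGreen T0 κ ω x ((starRingEnd ℂ) z) (fun y => (starRingEnd ℂ) (ψ y)) := by
  obtain ⟨h1, h2⟩ := hψ
  refine ⟨?_, fun y => ?_⟩
  · simpa using h1
  · have h3 := congrArg (starRingEnd ℂ) (h2 y)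
    rw [map_add, Complex.conj_tsum, map_mul, map_sub] at h3
    simp only [map_mul, Complex.conj_ofReal] at h3
    rw [h3]
    split_ifs <;> simp

/-- the Green function of a box is bounded in the square sense -/
theorem exi_uG_sq (h : Adm T0 κ ρ0 b) (ω : ((Fin d → ℤ) → ℝ) × (Sym2 (Fin d → ℤ) → Bool))
    (x : Fin d → ℤ) (E : ℝ) {η : ℝ} (hη : 0 < η) (Λ : Finset (Fin d → ℤ)) (ρ : ℝ) (hx : x ∈ Λ)
    (F : Finset (Fin d → ℤ)) :
    ∑ y ∈ F, ‖uG T0 κ ρ η Λ x hx ω.2 ω.1 E y‖ ^ 2 ≤ (1 / η) ^ 2 := by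
  classical
  have h1 : ∑ y ∈ F, ‖uG T0 κ ρ η Λ x hx ω.2 ω.1 E y‖ ^ 2 ≤
      ∑ y ∈ Λ, ‖uG T0 κ ρ η Λ x hx ω.2 ω.1 E y‖ ^ 2 := by
    have h2 : ∑ y ∈ F, ‖uG T0 κ ρ η Λ x hx ω.2 ω.1 E y‖ ^ 2 ≤
        ∑ y ∈ F ∪ Λ, ‖uG T0 κ ρ η Λ x hx ω.2 ω.1 E y‖ ^ 2 :=
      Finset.sum_le_sum_of_subset_of_nonneg Finset.subset_union_left
        (fun _ _ _ => sq_nonneg _)
    refine h2.trans (le_of_eq ?_)
    symm
    apply Finset.sum_subset Finset.subset_union_right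
    intro y _ hy
    simp [uG, hy]
  refine h1.trans ?_
  have h3 : ∑ y ∈ Λ, ‖uG T0 κ ρ η Λ x hx ω.2 ω.1 E y‖ ^ 2 =
      ∑ i : Λ, ‖Gm (Am T0 κ ρ Λ ω.2) (fun i : Λ => ω.1 i) E η i ⟨x, hx⟩‖ ^ 2 := by
    rw [← Finset.sum_coe_sort Λ]
    refine Finset.sum_congr rfl fun i _ => ?_
    simp [uG]
  rw [h3, ward _ (Am_symm h ρ Λ ω.2) _ E hη]
  calc _ ≤ (1 / η) / η :=
        div_le_div_of_nonneg_right (Pm_diag_le _ (Am_symm h ρ Λ ω.2) _ E hη _) hη.le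
    _ = (1 / η) ^ 2 := by field_simp

/-- the equation inside of the box -/
theorem exi_uG_eq (h : Adm T0 κ ρ0 b) (ω : ((Fin d → ℤ) → ℝ) × (Sym2 (Fin d → ℤ) → Bool))
    (x : Fin d → ℤ) (E : ℝ) {η : ℝ} (hη : 0 < η) (Λ : Finset (Fin d → ℤ)) (ρ : ℝ) (hx : x ∈ Λ)
    (hρ : ∀ y ∈ Λ, ∀ w ∈ Λ, ‖y - w‖ ≤ ρ) (y : Fin d → ℤ) (hy : y ∈ Λ) :
    (∑' w, (Kf T0 κ ω.2 y w : ℂ) * uG T0 κ ρ η Λ x hx ω.2 ω.1 E w) +
      ((ω.1 y : ℂ) - ((E : ℂ) + (η : ℂ) * Complex.I)) * uG T0 κ ρ η Λ x hx ω.2 ω.1 E y =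
      if y = x then 1 else 0 := by
  classical
  set A := Am T0 κ ρ Λ ω.2 with hA
  set V : Λ → ℝ := fun i : Λ => ω.1 i with hV
  set X : Λ := ⟨x, hx⟩ with hX
  have h1 : (Mz A V E η *ᵥ fun j => Gm A V E η j X) ⟨y, hy⟩ =
      (1 : Matrix Λ Λ ℂ) ⟨y, hy⟩ X := by
    rw [← Mz_mul_Gm A (Am_symm h ρ Λ ω.2) V E hη]
    rfl
  rw [Mz_mulVec] at h1
  have h2 : (∑' w, (Kf T0 κ ω.2 y w : ℂ) * uG T0 κ ρ η Λ x hx ω.2 ω.1 E w) =
      ∑ j : Λ, (A ⟨y, hy⟩ j : ℂ) * Gm A V E η j X := by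
    rw [tsum_eq_sum (s := Λ) (fun w hw => by simp [uG, hw]), ← Finset.sum_coe_sort Λ]
    refine Finset.sum_congr rfl fun i _ => ?_
    have h3 : A ⟨y, hy⟩ i = Kf T0 κ ω.2 y i := by
      rw [hA]
      unfold Am Kr
      exact if_pos (hρ y hy i i.2)
    rw [h3]
    congr 1
    simp [uG, hA, hV, hX]
  have h4 : uG T0 κ ρ η Λ x hx ω.2 ω.1 E y = Gm A V E η ⟨y, hy⟩ X := by
    simp [uG, hy, hA, hV, hX]
  rw [h2, h4]
  rw [Matrix.one_apply] at h1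
  have h5 : ((⟨y, hy⟩ : Λ) = X) ↔ y = x := by
    rw [hX, Subtype.mk.injEq]
  simp only [h5] at h1
  exact h1

/-- limits along ultrafilters are Green functions -/
theorem exi_ultra (h : Adm T0 κ ρ0 b) (ω : ((Fin d → ℤ) → ℝ) × (Sym2 (Fin d → ℤ) → Bool))
    (x : Fin d → ℤ) (E : ℝ) {η : ℝ} (hη : 0 < η)
    (Λ : ℕ → Finset (Fin d → ℤ)) (ρ : ℕ → ℝ) (hx : ∀ n, x ∈ Λ n)
    (hΛ : ∀ y, ∀ᶠ n in atTop, y ∈ Λ n)
    (hρ : ∀ n, ∀ y ∈ Λ n, ∀ w ∈ Λ n, ‖y - w‖ ≤ ρ n) (g : Ultrafilter ℕ)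
    (hg : (g : Filter ℕ) ≤ atTop) :
    ∃ ψ : (Fin d → ℤ) → ℂ, IsGreen T0 κ ω x ((E : ℂ) + (η : ℂ) * Complex.I) ψ ∧
      Tendsto (fun n => uG T0 κ (ρ n) η (Λ n) x (hx n) ω.2 ω.1 E x) g (𝓝 (ψ x)) := by
  classical
  set u : ℕ → (Fin d → ℤ) → ℂ := fun n y => uG T0 κ (ρ n) η (Λ n) x (hx n) ω.2 ω.1 E y with hu
  have hsq : ∀ n (F : Finset (Fin d → ℤ)), ∑ w ∈ F, ‖u n w‖ ^ 2 ≤ (1 / η) ^ 2 := fun n F =>
    exi_uG_sq h ω x E hη (Λ n) (ρ n) (hx n) F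
  have hη0 : 0 ≤ 1 / η := by positivity
  have hb : ∀ n y, ‖u n y‖ ≤ 1 / η := by
    intro n y
    have h1 := hsq n {y}
    rw [Finset.sum_singleton] at h1
    exact le_of_sq_le_sq h1 hη0
  have hex : ∀ y, ∃ a : ℂ, Tendsto (fun n => u n y) g (𝓝 a) := by
    intro y
    have hc : IsCompact (Metric.closedBall (0 : ℂ) (1 / η)) := isCompact_closedBall _ _
    have hm : (g.map (fun n => u n y) : Filter ℂ) ≤ 𝓟 (Metric.closedBall (0 : ℂ) (1 / η)) := by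
      rw [le_principal_iff]
      change ∀ᶠ n in (g : Filter ℕ), u n y ∈ Metric.closedBall (0 : ℂ) (1 / η)
      refine Eventually.of_forall fun n => ?_
      rw [Metric.mem_closedBall, dist_zero_right]
      exact hb n y
    obtain ⟨a, _, ha⟩ := hc.ultrafilter_le_nhds (g.map (fun n => u n y)) hm
    exact ⟨a, ha⟩
  choose ψ hψ using hex
  have hψC : ∀ F : Finset (Fin d → ℤ), ∑ w ∈ F, ‖ψ w‖ ^ 2 ≤ (1 / η) ^ 2 := by
    intro F
    have h1 : Tendsto (fun n => ∑ w ∈ F, ‖u n w‖ ^ 2) g (𝓝 (∑ w ∈ F, ‖ψ w‖ ^ 2)) :=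
      tendsto_finsetSum _ fun w _ => ((hψ w).norm).pow 2
    exact le_of_tendsto' h1 fun n => hsq n F
  refine ⟨ψ, ⟨exi_summable hψC, fun y => ?_⟩, hψ x⟩
  have h1 := exi_weak (Kf_sq_summable h ω.2 y) hη0 hsq hψ hψC
  have h2 := h1.add ((hψ y).const_mul ((ω.1 y : ℂ) - ((E : ℂ) + (η : ℂ) * Complex.I)))
  refine tendsto_nhds_unique h2 ?_
  refine tendsto_const_nhds.congr' ?_
  have h3 : ∀ᶠ n in (g : Filter ℕ), y ∈ Λ n := hg (hΛ y)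
  filter_upwards [h3] with n hn
  exact (exi_uG_eq h ω x E hη (Λ n) (ρ n) (hx n) (hρ n) y hn).symm

theorem green_limit (h : Adm T0 κ ρ0 b) (ω : ((Fin d → ℤ) → ℝ) × (Sym2 (Fin d → ℤ) → Bool))
    (hU : NoEig T0 κ ω) (x : Fin d → ℤ) (E : ℝ) {η : ℝ} (hη : 0 < η) :
    ∃ ψ : (Fin d → ℤ) → ℂ, IsGreen T0 κ ω x ((E : ℂ) + (η : ℂ) * Complex.I) ψ ∧
      ∀ (Λ : ℕ → Finset (Fin d → ℤ)) (ρ : ℕ → ℝ) (hx : ∀ n, x ∈ Λ n),
        (∀ y, ∀ᶠ n in atTop, y ∈ Λ n) →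
        (∀ n, ∀ y ∈ Λ n, ∀ w ∈ Λ n, ‖y - w‖ ≤ ρ n) →
        Tendsto (fun n => Gm (Am T0 κ (ρ n) (Λ n) ω.2) (fun i : Λ n => ω.1 i) E η
          ⟨x, hx n⟩ ⟨x, hx n⟩) atTop (nhds (ψ x)) := by
  classical
  have him : ((E : ℂ) + (η : ℂ) * Complex.I).im ≠ 0 := by
    simp [hη.ne']
  -- an exhausting sequence of boxes
  obtain ⟨ψ, hψ⟩ : ∃ ψ : (Fin d → ℤ) → ℂ,
      IsGreen T0 κ ω x ((E : ℂ) + (η : ℂ) * Complex.I) ψ := by
    let Λ : ℕ → Finset (Fin d → ℤ) := fun n =>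
      Finset.Icc (fun i => x i - (n : ℤ)) (fun i => x i + (n : ℤ))
    have hx : ∀ n, x ∈ Λ n := by
      intro n
      simp only [Λ, Finset.mem_Icc, Pi.le_def]
      constructor <;> intro i <;> omega
    have hΛ : ∀ y, ∀ᶠ n in atTop, y ∈ Λ n := by
      intro y
      rw [eventually_atTop]
      refine ⟨∑ i, (y i - x i).natAbs, fun n hn => ?_⟩
      simp only [Λ, Finset.mem_Icc, Pi.le_def]
      have h1 : ∀ i, (y i - x i).natAbs ≤ n := fun i =>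
        (Finset.single_le_sum (f := fun i => (y i - x i).natAbs) (fun _ _ => Nat.zero_le _)
          (Finset.mem_univ i)).trans hn
      constructor <;> intro i <;> have := h1 i <;> omega
    have hρ : ∀ n, ∀ y ∈ Λ n, ∀ w ∈ Λ n, ‖y - w‖ ≤ (2 * n : ℝ) := by
      intro n y hy w hw
      simp only [Λ, Finset.mem_Icc, Pi.le_def] at hy hw
      rw [pi_norm_le_iff_of_nonneg (by positivity)]
      intro i
      rw [Pi.sub_apply, Int.norm_eq_abs, abs_le]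
      have a1 := hy.1 i
      have a2 := hy.2 i
      have a3 := hw.1 i
      have a4 := hw.2 i
      constructor
      · have : -(2 * (n : ℤ)) ≤ y i - w i := by omega
        exact_mod_cast this
      · have : y i - w i ≤ 2 * (n : ℤ) := by omega
        exact_mod_cast this
    obtain ⟨ψ, hψ, _⟩ := exi_ultra h ω x E hη Λ (fun n => 2 * n) hx hΛ hρ
      (Ultrafilter.of (atTop : Filter ℕ)) (Ultrafilter.of_le _)
    exact ⟨ψ, hψ⟩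
  refine ⟨ψ, hψ, fun Λ ρ hx hΛ hρ => ?_⟩
  rw [tendsto_iff_ultrafilter]
  intro g hg
  obtain ⟨φ, hφ, ht⟩ := exi_ultra h ω x E hη Λ ρ hx hΛ hρ g hg
  have hEq := green_unique h ω hU x _ him φ ψ hφ hψ
  rw [hEq] at ht
  refine ht.congr fun n => ?_
  simp [uG, hx n]

end lattice

end H10PL
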