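import Pool.Agent.H10R2.AC.Uix3
import Pool.Agent.H10R2.PL.Final2
import Pool.Agent.H10R2.PL.Prof3

/-! Fourth theorem: final form with an explicit nearest neighbour part. -/

namespace H10PL

open MeasureTheory ProbabilityTheory Set

variable {d : ℕ}

/-- affine images of a bounded density -/
theorem map_density_affine {μ : Measure ℝ} {D : ℝ} (hμ : μ ≤ ENNReal.ofReal D • volume)
    {lam : ℝ} (hlam : lam ≠ 0) (m : ℝ) :
    μ.map (fun t => lam * t + m) ≤ ENNReal.ofReal (D * |lam|⁻¹) • volume := by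
  have h1 := map_density hμ hlam
  have hm : Measurable fun t : ℝ => lam * t := measurable_const_mul lam
  have hm2 : Measurable fun t : ℝ => t + m := measurable_add_const m
  rw [Measure.le_iff] at h1 ⊢
  intro s hs
  have h2 := h1 _ (hm2 hs)
  rw [Measure.map_apply hm (hm2 hs)] at h2
  have hm3 : Measurable fun t : ℝ => lam * t + m := by fun_prop
  rw [Measure.map_apply hm3 hs]
  refine le_trans h2 (le_of_eq ?_)
  rw [Measure.smul_apply, Measure.smul_apply, measure_preimage_add_right]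

/-- `ψ` is square summable and `(H - z) ψ = δ_x` for `H = t * adjacency + lam ω + g B + m` -/
def GreenH (t lam g m : ℝ) (κ : (Fin d → ℤ) → ℝ)
    (ω : ((Fin d → ℤ) → ℝ) × (Sym2 (Fin d → ℤ) → Bool)) (x : Fin d → ℤ) (z : ℂ)
    (ψ : (Fin d → ℤ) → ℂ) : Prop :=
  Summable (fun y => ‖ψ y‖ ^ 2) ∧
    ∀ y, (t : ℂ) * (∑ i : Fin d, (ψ (y + Pi.single i 1) + ψ (y - Pi.single i 1))) +
      ((lam * ω.1 y : ℝ) : ℂ) * ψ y + (m : ℂ) * ψ y +
      (g : ℂ) * ∑' w, ((sg (ω.2 s(y, w)) * κ (y - w) : ℝ) : ℂ) * ψ w =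
        z * ψ y + if y = x then 1 else 0

theorem final_ac (hd : 0 < d) (t lam g m : ℝ) (hlam : lam ≠ 0) (hg : g ≠ 0) (μ : Measure ℝ)
    [IsProbabilityMeasure μ] {D : ℝ} (hD : 0 ≤ D) (hμ : μ ≤ ENNReal.ofReal D • volume)
    (κ : (Fin d → ℤ) → ℝ) (hκ0 : κ 0 = 0) (hκs : ∀ y, κ (-y) = κ y)
    {a c C : ℝ} (ha1 : (d : ℝ) / 2 < a) (ha2 : a < 5 * d / 8) (hc : 0 < c)
    (hκ : ∀ y, y ≠ 0 → c * ‖y‖ ^ (-a) ≤ |κ y| ∧ |κ y| ≤ C * ‖y‖ ^ (-a)) :
    ∀ᵐ ω ∂((Measure.infinitePi fun _ : Fin d → ℤ => μ).prod (Ps d)),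
      ∀ x : Fin d → ℤ, ∃ ν : Measure ℝ, IsProbabilityMeasure ν ∧ ν ≪ volume ∧
        ∀ z : ℂ, z.im ≠ 0 → ∃ ψ : (Fin d → ℤ) → ℂ, GreenH t lam g m κ ω x z ψ ∧
          (∀ φ, GreenH t lam g m κ ω x z φ → φ = ψ) ∧
          ψ x = ∫ u : ℝ, 1 / ((u : ℂ) - z) ∂ν := by
  have hdR : (0 : ℝ) < d := by exact_mod_cast hd
  have hgκ : ∀ y, y ≠ 0 → (|g| * c) * ‖y‖ ^ (-a) ≤ |g * κ y| ∧
      |g * κ y| ≤ (|g| * C) * ‖y‖ ^ (-a) := by
    intro y hy
    obtain ⟨h1, h2⟩ := hκ y hy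
    rw [abs_mul, mul_assoc, mul_assoc]
    exact ⟨mul_le_mul_of_nonneg_left h1 (abs_nonneg g), mul_le_mul_of_nonneg_left h2 (abs_nonneg g)⟩
  have hgc : 0 < |g| * c := mul_pos (abs_pos.2 hg) hc
  have hκsq : Summable fun y => κ y ^ 2 := summable_two_sided hd ha1 hκ0 (fun y hy => (hκ y hy).2)
  have hm : Measurable fun t : ℝ => lam * t + m := by fun_prop
  have hprob : IsProbabilityMeasure (μ.map (fun t => lam * t + m)) :=
    Measure.isProbabilityMeasure_map hm.aemeasurable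
  have h0 : (fun y => g * κ y) 0 = 0 := by simp [hκ0]
  have hsq : Summable fun y => (g * κ y) ^ 2 := by
    simp only [mul_pow]
    exact hκsq.mul_left _
  have hadm := T2_adm d t (fun y => g * κ y) h0 (fun y => by
    show g * κ (-y) = g * κ y
    rw [hκs]) hsq
  have hTinv : ∀ a y w, T2 d t (y + a) (w + a) = T2 d t y w := fun a y w => by
    unfold T2; rw [T1_inv]
  have hprof : Prof (fun y => g * κ y) := prof_power hd hgc (by linarith)
    (by nlinarith) hgκ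
  have hmain := main_bdd hadm hTinv hd
    (μ.map (fun t => lam * t + m)) (D := D * |lam|⁻¹) (by positivity)
    (map_density_affine hμ hlam m) hprof
  have hNE : ∀ᵐ ω ∂((PVg d (μ.map (fun t => lam * t + m))).prod (Ps d)),
      NoEig (T2 d t) (fun y => g * κ y) ω := by
    filter_upwards [hmain] with ω hω
    intro z ψ _ hψ he
    exact hω z ψ ⟨hψ, he⟩
  have hac := main_ac hadm hTinv hd (μ.map (fun t => lam * t + m)) (D := D * |lam|⁻¹)
    (by positivity) (map_density_affine hμ hlam m) ha1 ha2 hgc hgκ hNE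
  have hmp1 : MeasurePreserving (fun (ω : (Fin d → ℤ) → ℝ) x => lam * ω x + m)
      (Measure.infinitePi fun _ : Fin d → ℤ => μ) (PVg d (μ.map (fun t => lam * t + m))) := by
    refine ⟨by fun_prop, ?_⟩
    unfold PVg
    exact Measure.infinitePi_map_pi (μ := fun _ : Fin d → ℤ => μ)
      (f := fun (_ : Fin d → ℤ) (t : ℝ) => lam * t + m) (fun _ => by fun_prop)
  have hmp : MeasurePreserving (Prod.map (fun (ω : (Fin d → ℤ) → ℝ) x => lam * ω x + m) id)
      ((Measure.infinitePi fun _ : Fin d → ℤ => μ).prod (Ps d))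
      ((PVg d (μ.map (fun t => lam * t + m))).prod (Ps d)) :=
    hmp1.prod (MeasurePreserving.id (Ps d))
  have hae := hmp.quasiMeasurePreserving.ae hac
  filter_upwards [hae] with ω hω
  have hiff : ∀ (x : Fin d → ℤ) (z : ℂ) (ψ : (Fin d → ℤ) → ℂ),
      IsGreen (T2 d t) (fun y => g * κ y)
        (Prod.map (fun (ω : (Fin d → ℤ) → ℝ) x => lam * ω x + m) id ω) x z ψ ↔
      GreenH t lam g m κ ω x z ψ := by
    intro x z ψ
    unfold IsGreen GreenH
    refine and_congr_right fun hψ => forall_congr' fun y => ?_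
    simp only [Prod.map_fst, Prod.map_snd, id]
    rw [Kf_T2_apply t g hκsq ω.2 ψ hψ y]
    constructor
    · intro h
      rw [← h]
      push_cast
      ring
    · intro h
      have h2 := sub_eq_iff_eq_add'.2 h
      rw [← h2]
      push_cast
      ring
  intro x
  obtain ⟨ν, h1, h2⟩ := hω x
  refine ⟨(ν : Measure ℝ), inferInstance, h1, fun z hz => ?_⟩
  obtain ⟨ψ, h3, h4, h5⟩ := h2 z hz
  exact ⟨ψ, (hiff x z ψ).1 h3, fun φ hφ => h4 φ ((hiff x z φ).2 hφ), h5⟩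

end H10PL
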