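import Pool.Agent.H10R2.AC.Cbx
import Pool.Agent.H10R2.AC.Final4

/-! Density free version: final form with an explicit nearest neighbour part. -/

namespace H10PL

open MeasureTheory ProbabilityTheory Set

variable {d : ℕ}

theorem final_ac5 (hd : 0 < d) (t g m : ℝ) (hg : g ≠ 0) {X : Type} [MeasurableSpace X]
    (P0 : Measure X) [IsProbabilityMeasure P0] (f : X → ℝ) (hf : Measurable f)
    (κ : (Fin d → ℤ) → ℝ) (hκ0 : κ 0 = 0) (hκs : ∀ y, κ (-y) = κ y)
    {a c C : ℝ} (ha1 : (d : ℝ) / 2 < a) (ha2 : a < 5 * d / 8) (hc : 0 < c)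
    (hκ : ∀ y, y ≠ 0 → c * ‖y‖ ^ (-a) ≤ |κ y| ∧ |κ y| ≤ C * ‖y‖ ^ (-a)) :
    ∀ᵐ ω ∂((Measure.infinitePi fun _ : Fin d → ℤ => P0).prod (Ps d)),
      ∀ x : Fin d → ℤ, ∃ ν : Measure ℝ, IsProbabilityMeasure ν ∧ ν ≪ volume ∧
        ∀ z : ℂ, z.im ≠ 0 → ∃ ψ : (Fin d → ℤ) → ℂ,
          GreenH t 1 g m κ (fun y => f (ω.1 y), ω.2) x z ψ ∧
          (∀ φ, GreenH t 1 g m κ (fun y => f (ω.1 y), ω.2) x z φ → φ = ψ) ∧
          ψ x = ∫ u : ℝ, 1 / ((u : ℂ) - z) ∂ν := by
  have hdR : (0 : ℝ) < d := by exact_mod_cast hd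
  have hgκ : ∀ y, y ≠ 0 → (|g| * c) * ‖y‖ ^ (-a) ≤ |g * κ y| ∧
      |g * κ y| ≤ (|g| * C) * ‖y‖ ^ (-a) := by
    intro y hy
    obtain ⟨h1, h2⟩ := hκ y hy
    rw [abs_mul, mul_assoc, mul_assoc]
    exact ⟨mul_le_mul_of_nonneg_left h1 (abs_nonneg g), mul_le_mul_of_nonneg_left h2 (abs_nonneg g)⟩
  have hgc : 0 < |g| * c := mul_pos (abs_pos.2 hg) hc
  have hκsq : Summable fun y => κ y ^ 2 := summable_two_sided hd ha1 hκ0 (fun y hy => (hκ y hy).2)
  have hm : Measurable fun u : X => f u + m := hf.add_const m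
  have hprob : IsProbabilityMeasure (P0.map (fun u => f u + m)) :=
    Measure.isProbabilityMeasure_map hm.aemeasurable
  have h0 : (fun y => g * κ y) 0 = 0 := by simp [hκ0]
  have hsq : Summable fun y => (g * κ y) ^ 2 := by
    simp only [mul_pow]
    exact hκsq.mul_left _
  have hadm := T2_adm d t (fun y => g * κ y) h0 (fun y => by
    show g * κ (-y) = g * κ y
    rw [hκs]) hsq
  have hTinv : ∀ a y w, T2 d t (y + a) (w + a) = T2 d t y w := fun a y w => by
    unfold T2; rw [T1_inv]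
  have hac := main_ac5 hadm hTinv hd (P0.map (fun u => f u + m))
    ha1 ha2 hgc hgκ (noeig_ae hadm _)
  have hmp1 : MeasurePreserving (fun (ω : (Fin d → ℤ) → X) x => f (ω x) + m)
      (Measure.infinitePi fun _ : Fin d → ℤ => P0) (PVg d (P0.map (fun u => f u + m))) := by
    refine ⟨measurable_pi_lambda _ fun x => hm.comp (measurable_pi_apply x), ?_⟩
    unfold PVg
    exact Measure.infinitePi_map_pi (μ := fun _ : Fin d → ℤ => P0)
      (f := fun (_ : Fin d → ℤ) (u : X) => f u + m) (fun _ => hm)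
  have hmp : MeasurePreserving (Prod.map (fun (ω : (Fin d → ℤ) → X) x => f (ω x) + m) id)
      ((Measure.infinitePi fun _ : Fin d → ℤ => P0).prod (Ps d))
      ((PVg d (P0.map (fun u => f u + m))).prod (Ps d)) :=
    hmp1.prod (MeasurePreserving.id (Ps d))
  have hae := hmp.quasiMeasurePreserving.ae hac
  filter_upwards [hae] with ω hω
  have hiff : ∀ (x : Fin d → ℤ) (z : ℂ) (ψ : (Fin d → ℤ) → ℂ),
      IsGreen (T2 d t) (fun y => g * κ y)
        (Prod.map (fun (ω : (Fin d → ℤ) → X) x => f (ω x) + m) id ω) x z ψ ↔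
      GreenH t 1 g m κ (fun y => f (ω.1 y), ω.2) x z ψ := by
    intro x z ψ
    unfold IsGreen GreenH
    refine and_congr_right fun hψ => forall_congr' fun y => ?_
    simp only [Prod.map_fst, Prod.map_snd, id]
    rw [Kf_T2_apply t g hκsq ω.2 ψ hψ y]
    constructor
    · intro h
      rw [← h]
      push_cast
      ring
    · intro h
      have h2 := sub_eq_iff_eq_add'.2 h
      rw [← h2]
      push_cast
      ring
  intro x
  obtain ⟨ν, h1, h2⟩ := hω x
  refine ⟨(ν : Measure ℝ), inferInstance, h1, fun z hz => ?_⟩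
  obtain ⟨ψ, h3, h4, h5⟩ := h2 z hz
  exact ⟨ψ, (hiff x z ψ).1 h3, fun φ hφ => h4 φ ((hiff x z φ).2 hφ), h5⟩

end H10PL
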