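import Pool.Agent.H10R2.PL.Defs

/-!
Task 4-RL: lower tail of a Rademacher sum in a Hilbert space.
-/

namespace H10PL

/-- the scalar inequality of one step -/
theorem rl_scalar {lam a b g : ℝ} (hlam : 0 ≤ lam) (hg : 0 ≤ g) (h : 4 * lam * g ≤ 1) :
    Real.exp (-(lam * (a + 2 * b + g))) + Real.exp (-(lam * (a - 2 * b + g))) ≤
      2 * (Real.exp (-(lam * (a - 4 * lam / (1 + 4 * lam * g) * b ^ 2))) *
        Real.exp (-(lam * g))) := by
  have hden : 0 < 1 + 4 * lam * g := by positivity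
  have h1 : Real.exp (-(lam * (a + 2 * b + g))) + Real.exp (-(lam * (a - 2 * b + g))) =
      2 * (Real.exp (-(lam * (a + g))) * Real.cosh (2 * lam * b)) := by
    rw [Real.cosh_eq]
    have e1 : -(lam * (a + 2 * b + g)) = -(lam * (a + g)) + -(2 * lam * b) := by ring
    have e2 : -(lam * (a - 2 * b + g)) = -(lam * (a + g)) + 2 * lam * b := by ring
    rw [e1, e2, Real.exp_add, Real.exp_add]
    ring
  rw [h1]
  have h2 := Real.cosh_le_exp_half_sq (2 * lam * b)
  have h3 : (2 * lam * b) ^ 2 / 2 ≤ lam * (4 * lam / (1 + 4 * lam * g) * b ^ 2) := by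
    have e3 : (2 * lam * b) ^ 2 / 2 = 2 * (lam ^ 2 * b ^ 2) := by ring
    have e4 : lam * (4 * lam / (1 + 4 * lam * g) * b ^ 2) =
        4 * (lam ^ 2 * b ^ 2) / (1 + 4 * lam * g) := by
      field_simp
    rw [e3, e4, le_div_iff₀ hden]
    have h5 : 0 ≤ lam ^ 2 * b ^ 2 := by positivity
    nlinarith
  calc 2 * (Real.exp (-(lam * (a + g))) * Real.cosh (2 * lam * b))
      ≤ 2 * (Real.exp (-(lam * (a + g))) *
          Real.exp (lam * (4 * lam / (1 + 4 * lam * g) * b ^ 2))) := by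
        have h4 := h2.trans (Real.exp_le_exp.2 h3)
        have h5 := Real.exp_pos (-(lam * (a + g)))
        nlinarith [mul_le_mul_of_nonneg_left h4 h5.le]
    _ = _ := by
        rw [← Real.exp_add, ← Real.exp_add]
        congr 2
        ring

variable {W : Type*} [NormedAddCommGroup W] [InnerProductSpace ℝ W]

/-- bilinear symmetric forms, as functions -/
structure RLForm (B : W → W → ℝ) : Prop where
  add : ∀ u v z, B (u + v) z = B u z + B v z
  smul : ∀ (t : ℝ) u z, B (t • u) z = t * B u z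
  symm : ∀ u v, B u v = B v u

theorem RLForm.add_right {B : W → W → ℝ} (hB : RLForm B) (u v z : W) :
    B z (u + v) = B z u + B z v := by
  rw [hB.symm, hB.add, hB.symm u, hB.symm v]

theorem RLForm.smul_right {B : W → W → ℝ} (hB : RLForm B) (t : ℝ) (u z : W) :
    B z (t • u) = t * B z u := by
  rw [hB.symm, hB.smul, hB.symm u]

theorem RLForm.sub {B : W → W → ℝ} (hB : RLForm B) (u v z : W) :
    B (u - v) z = B u z - B v z := by
  have h : u - v = u + (-1 : ℝ) • v := by rw [neg_one_smul, sub_eq_add_neg]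
  rw [h, hB.add, hB.smul]
  ring

theorem RLForm.sub_right {B : W → W → ℝ} (hB : RLForm B) (u v z : W) :
    B z (u - v) = B z u - B z v := by
  rw [hB.symm, hB.sub, hB.symm u, hB.symm v]

theorem RLForm.quad_add {B : W → W → ℝ} (hB : RLForm B) (u w : W) :
    B (u + w) (u + w) = B u u + 2 * B u w + B w w := by
  rw [hB.add, hB.add_right, hB.add_right, hB.symm w u]
  ring

theorem RLForm.quad_sub {B : W → W → ℝ} (hB : RLForm B) (u w : W) :
    B (u - w) (u - w) = B u u - 2 * B u w + B w w := by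
  rw [hB.sub, hB.sub_right, hB.sub_right, hB.symm w u]
  ring

variable {n : Type*} [Fintype n] [DecidableEq n]

/-- the vectors are small -/
theorem rl_norm (w : n → W) {Θ lam : ℝ} (hlam : 0 ≤ lam)
    (hΘ : ∀ v : W, ∑ i, (inner ℝ (w i) v) ^ 2 ≤ Θ * ‖v‖ ^ 2) (h : 4 * lam * Θ ≤ 1) (j : n) :
    4 * lam * ‖w j‖ ^ 2 ≤ 1 := by
  by_cases hw : w j = 0
  · rw [hw, norm_zero]
    norm_num
  · have hpos : 0 < ‖w j‖ ^ 2 := by positivity
    have h1 := hΘ (w j)
    have h2 : (inner ℝ (w j) (w j)) ^ 2 ≤ ∑ i, (inner ℝ (w i) (w j)) ^ 2 :=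
      Finset.single_le_sum (f := fun i => (inner ℝ (w i) (w j)) ^ 2)
        (fun i _ => sq_nonneg _) (Finset.mem_univ j)
    rw [real_inner_self_eq_norm_sq] at h2
    have h3 : ‖w j‖ ^ 2 ≤ Θ := by
      have h4 : ‖w j‖ ^ 2 * ‖w j‖ ^ 2 ≤ Θ * ‖w j‖ ^ 2 := by nlinarith
      exact le_of_mul_le_mul_right h4 hpos
    nlinarith

/-- the lower bound of the variational expression -/
theorem rl_lower (w : n → W) {Θ lam : ℝ} (hlam : 0 < lam)
    (hΘ : ∀ v : W, ∑ i, (inner ℝ (w i) v) ^ 2 ≤ Θ * ‖v‖ ^ 2) (h : 4 * lam * Θ ≤ 1)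
    (S : Finset n) (s : n → ℝ) (u : W) :
    ‖u‖ ^ 2 / 2 ≤ ‖u - ∑ i ∈ S, s i • w i‖ ^ 2 + (∑ i ∈ S, s i ^ 2) / (4 * lam) := by
  set y := ∑ i ∈ S, s i • w i with hy
  have hyy : ‖y‖ ^ 2 * ‖y‖ ^ 2 ≤ (∑ i ∈ S, s i ^ 2) * (Θ * ‖y‖ ^ 2) := by
    have h1 : ‖y‖ ^ 2 = ∑ i ∈ S, s i * inner ℝ (w i) y := by
      rw [← real_inner_self_eq_norm_sq]
      conv_lhs => rw [hy, sum_inner]
      exact Finset.sum_congr rfl fun i _ => by rw [real_inner_smul_left]
    have h2 := Finset.sum_mul_sq_le_sq_mul_sq S s (fun i => inner ℝ (w i) y)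
    have h3 : ∑ i ∈ S, (inner ℝ (w i) y) ^ 2 ≤ Θ * ‖y‖ ^ 2 :=
      (Finset.sum_le_sum_of_subset_of_nonneg (Finset.subset_univ S)
        (fun i _ _ => sq_nonneg _)).trans (hΘ y)
    calc ‖y‖ ^ 2 * ‖y‖ ^ 2 = (∑ i ∈ S, s i * inner ℝ (w i) y) ^ 2 := by rw [← h1]; ring
      _ ≤ _ := h2
      _ ≤ _ := mul_le_mul_of_nonneg_left h3 (Finset.sum_nonneg fun i _ => sq_nonneg _)
  have hT : 0 ≤ ∑ i ∈ S, s i ^ 2 := Finset.sum_nonneg fun i _ => sq_nonneg _
  have hy2 : ‖y‖ ^ 2 ≤ (∑ i ∈ S, s i ^ 2) / (4 * lam) := by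
    rw [le_div_iff₀ (by positivity)]
    by_cases hy0 : y = 0
    · rw [hy0, norm_zero]
      simpa using hT
    · have hpos : 0 < ‖y‖ ^ 2 := by positivity
      have h4 : ‖y‖ ^ 2 ≤ (∑ i ∈ S, s i ^ 2) * Θ := by
        have h5 : ‖y‖ ^ 2 * ‖y‖ ^ 2 ≤ ((∑ i ∈ S, s i ^ 2) * Θ) * ‖y‖ ^ 2 := by linarith
        exact le_of_mul_le_mul_right h5 hpos
      calc ‖y‖ ^ 2 * (4 * lam) ≤ ((∑ i ∈ S, s i ^ 2) * Θ) * (4 * lam) :=
            mul_le_mul_of_nonneg_right h4 (by positivity)
        _ = (∑ i ∈ S, s i ^ 2) * (4 * lam * Θ) := by ring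
        _ ≤ (∑ i ∈ S, s i ^ 2) * 1 := mul_le_mul_of_nonneg_left h hT
        _ = _ := mul_one _
  have h6 : ‖u‖ ≤ ‖u - y‖ + ‖y‖ := by
    have := norm_add_le (u - y) y
    rwa [sub_add_cancel] at this
  have h7 : ‖u‖ ^ 2 ≤ (‖u - y‖ + ‖y‖) ^ 2 := pow_le_pow_left₀ (norm_nonneg _) h6 2
  nlinarith [sq_nonneg (‖u - y‖ - ‖y‖)]

theorem rl_flip (j : n) (f : ℝ → (n → Bool) → ℝ)
    (hf : ∀ t ε, f t (Function.update ε j (!ε j)) = f t ε) :
    2 * ∑ ε : n → Bool, f (sg (ε j)) ε = ∑ ε : n → Bool, f 1 ε + ∑ ε : n → Bool, f (-1) ε := by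
  have hinv : Function.Involutive (fun ε : n → Bool => Function.update ε j (!ε j)) := by
    intro ε
    simp
  have h1 : ∑ ε : n → Bool, f (sg (ε j)) ε = ∑ ε : n → Bool, f (sg (!ε j)) ε := by
    rw [← Equiv.sum_comp hinv.toPerm (fun ε => f (sg (ε j)) ε)]
    refine Finset.sum_congr rfl fun ε _ => ?_
    change f (sg (Function.update ε j (!ε j) j)) (Function.update ε j (!ε j)) = _
    rw [Function.update_self, hf]
  have h2 : 2 * ∑ ε : n → Bool, f (sg (ε j)) ε =
      ∑ ε : n → Bool, (f (sg (ε j)) ε + f (sg (!ε j)) ε) := by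
    rw [Finset.sum_add_distrib, ← h1]
    ring
  rw [h2, ← Finset.sum_add_distrib]
  refine Finset.sum_congr rfl fun ε _ => ?_
  cases ε j
  · simp [sg, add_comm]
  · simp [sg]

/-- the induction -/
theorem rl_induct (w : n → W) {Θ lam : ℝ} (hlam : 0 < lam)
    (hΘ : ∀ v : W, ∑ i, (inner ℝ (w i) v) ^ 2 ≤ Θ * ‖v‖ ^ 2) (h : 4 * lam * Θ ≤ 1)
    (S : Finset n) : ∃ B : W → W → ℝ, RLForm B ∧ (∀ u, B u u ≤ ‖u‖ ^ 2) ∧
      (∀ u, ∃ s : n → ℝ, ‖u - ∑ i ∈ S, s i • w i‖ ^ 2 + (∑ i ∈ S, s i ^ 2) / (4 * lam) ≤ B u u) ∧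
      ∀ q : W, ∑ ε : n → Bool, Real.exp (-(lam * ‖q + ∑ i ∈ S, sg (ε i) • w i‖ ^ 2)) ≤
        2 ^ (Fintype.card n) * (Real.exp (-(lam * B q q)) *
          Real.exp (-(lam / 2 * ∑ i ∈ S, ‖w i‖ ^ 2))) := by
  induction S using Finset.induction_on with
  | empty =>
    refine ⟨fun u v => inner ℝ u v, ⟨fun u v z => inner_add_left _ _ _,
      fun t u z => real_inner_smul_left _ _ _, fun u v => real_inner_comm _ _⟩,
      fun u => (real_inner_self_eq_norm_sq u).le, fun u => ⟨0, ?_⟩, fun q => ?_⟩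
    · simp [real_inner_self_eq_norm_sq]
    · simp only [Finset.sum_empty, add_zero, mul_zero, neg_zero, Real.exp_zero, mul_one,
        Finset.sum_const, Finset.card_univ, nsmul_eq_mul, real_inner_self_eq_norm_sq]
      rw [Fintype.card_fun, Fintype.card_bool]
      push_cast
      exact le_rfl
  | insert j S hj ih =>
    obtain ⟨B, hB, hBle, hBs, hBq⟩ := ih
    have hlow : ∀ u, ‖u‖ ^ 2 / 2 ≤ B u u := by
      intro u
      obtain ⟨s, hs⟩ := hBs u
      exact (rl_lower w hlam hΘ h S s u).trans hs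
    have hnn : ∀ u, 0 ≤ B u u := fun u => le_trans (by positivity) (hlow u)
    have hg1 : 4 * lam * B (w j) (w j) ≤ 1 := by
      have h1 := rl_norm w hlam.le hΘ h j
      have h2 := hBle (w j)
      nlinarith
    set g := B (w j) (w j) with hg
    have hg0 : 0 ≤ g := hnn (w j)
    have hden : 0 < 1 + 4 * lam * g := by positivity
    refine ⟨fun u v => B u v - 4 * lam / (1 + 4 * lam * g) * (B u (w j) * B v (w j)),
      ⟨fun u v z => ?_, fun t u z => ?_, fun u v => ?_⟩, fun u => ?_, fun u => ?_, fun q => ?_⟩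
    · simp only [hB.add]
      ring
    · simp only [hB.smul]
      ring
    · simp only [hB.symm u v]
      ring
    · have h1 := hBle u
      have h2 : 0 ≤ 4 * lam / (1 + 4 * lam * g) * (B u (w j) * B u (w j)) := by
        have : 0 ≤ B u (w j) * B u (w j) := mul_self_nonneg _
        positivity
      linarith
    · -- variational bound
      set β := B u (w j) with hβ
      set t := 4 * lam * β / (1 + 4 * lam * g) with ht
      obtain ⟨s, hs⟩ := hBs (u - t • w j)
      refine ⟨Function.update s j t, ?_⟩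
      have e1 : ∑ i ∈ insert j S, Function.update s j t i • w i =
          t • w j + ∑ i ∈ S, s i • w i := by
        rw [Finset.sum_insert hj, Function.update_self]
        congr 1
        refine Finset.sum_congr rfl fun i hi => ?_
        rw [Function.update_of_ne (ne_of_mem_of_not_mem hi hj)]
      have e2 : ∑ i ∈ insert j S, Function.update s j t i ^ 2 = t ^ 2 + ∑ i ∈ S, s i ^ 2 := by
        rw [Finset.sum_insert hj, Function.update_self]
        congr 1
        refine Finset.sum_congr rfl fun i hi => ?_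
        rw [Function.update_of_ne (ne_of_mem_of_not_mem hi hj)]
      rw [e1, e2, ← sub_sub, add_div]
      have e3 : B (u - t • w j) (u - t • w j) = B u u - 2 * (t * β) + t ^ 2 * g := by
        rw [hB.quad_sub, hB.smul_right, hB.smul_right, hB.smul]
        ring
      have e4 : B u u - 4 * lam / (1 + 4 * lam * g) * (β * β) =
          B u u - 2 * (t * β) + t ^ 2 * g + t ^ 2 / (4 * lam) := by
        rw [ht]
        field_simp
        ring
      change _ ≤ B u u - 4 * lam / (1 + 4 * lam * g) * (β * β)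
      rw [e4, ← e3]
      linarith
    · -- the exponential bound
      have hf : ∀ (t : ℝ) (ε : n → Bool),
          Real.exp (-(lam * ‖(q + t • w j) + ∑ i ∈ S,
            sg ((Function.update ε j (!ε j)) i) • w i‖ ^ 2)) =
          Real.exp (-(lam * ‖(q + t • w j) + ∑ i ∈ S, sg (ε i) • w i‖ ^ 2)) := by
        intro t ε
        have hs : ∑ i ∈ S, sg ((Function.update ε j (!ε j)) i) • w i =
            ∑ i ∈ S, sg (ε i) • w i := by
          refine Finset.sum_congr rfl fun i hi => ?_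
          rw [Function.update_of_ne (ne_of_mem_of_not_mem hi hj)]
        rw [hs]
      have h1 := rl_flip j (fun (t : ℝ) (ε : n → Bool) =>
          Real.exp (-(lam * ‖(q + t • w j) + ∑ i ∈ S, sg (ε i) • w i‖ ^ 2))) hf
      have h2 : ∑ ε : n → Bool, Real.exp (-(lam * ‖q + ∑ i ∈ insert j S, sg (ε i) • w i‖ ^ 2)) =
          ∑ ε : n → Bool,
            Real.exp (-(lam * ‖(q + sg (ε j) • w j) + ∑ i ∈ S, sg (ε i) • w i‖ ^ 2)) := by
        refine Finset.sum_congr rfl fun ε _ => ?_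
        rw [Finset.sum_insert hj, add_assoc]
      have h3 := hBq (q + (1 : ℝ) • w j)
      have h4 := hBq (q + (-1 : ℝ) • w j)
      rw [one_smul, hB.quad_add] at h3
      have e5 : q + (-1 : ℝ) • w j = q - w j := by rw [neg_one_smul, sub_eq_add_neg]
      rw [e5, hB.quad_sub] at h4
      rw [one_smul, e5] at h1
      have h5 := rl_scalar (a := B q q) (b := B q (w j)) hlam.le hg0 hg1
      set X := Real.exp (-(lam / 2 * ∑ i ∈ S, ‖w i‖ ^ 2)) with hX
      have hXpos : 0 < X := Real.exp_pos _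
      have h6 : Real.exp (-(lam * g)) * X ≤
          Real.exp (-(lam / 2 * ∑ i ∈ insert j S, ‖w i‖ ^ 2)) := by
        rw [hX, ← Real.exp_add, Finset.sum_insert hj]
        apply Real.exp_le_exp.2
        have h7 := hlow (w j)
        nlinarith
      rw [h2]
      set Z := ∑ ε : n → Bool,
            Real.exp (-(lam * ‖(q + sg (ε j) • w j) + ∑ i ∈ S, sg (ε i) • w i‖ ^ 2)) with hZ
      have hc : (0 : ℝ) ≤ 2 ^ (Fintype.card n) := by positivity
      have h8 : 2 * Z ≤ 2 ^ (Fintype.card n) *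
          ((Real.exp (-(lam * (B q q + 2 * B q (w j) + g))) +
            Real.exp (-(lam * (B q q - 2 * B q (w j) + g)))) * X) := by
        rw [h1]
        calc _ ≤ _ := add_le_add h3 h4
          _ = _ := by ring
      have h9 : 2 * Z ≤ 2 ^ (Fintype.card n) *
          ((2 * (Real.exp (-(lam * (B q q - 4 * lam / (1 + 4 * lam * g) * B q (w j) ^ 2))) *
            Real.exp (-(lam * g)))) * X) :=
        h8.trans (mul_le_mul_of_nonneg_left (mul_le_mul_of_nonneg_right h5 hXpos.le) hc)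
      set U := Real.exp (-(lam * (B q q - 4 * lam / (1 + 4 * lam * g) * B q (w j) ^ 2))) with hU
      have hUpos : 0 < U := Real.exp_pos _
      have h10 : U * (Real.exp (-(lam * g)) * X) ≤
          U * Real.exp (-(lam / 2 * ∑ i ∈ insert j S, ‖w i‖ ^ 2)) :=
        mul_le_mul_of_nonneg_left h6 hUpos.le
      have h11 : Real.exp (-(lam * (B q q - 4 * lam / (1 + 4 * lam * g) *
          (B q (w j) * B q (w j))))) = U := by
        rw [hU]
        congr 3
        ring
      rw [h11]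
      have h12 : Z ≤ 2 ^ (Fintype.card n) * (U * (Real.exp (-(lam * g)) * X)) := by
        have e6 : 2 ^ (Fintype.card n) * ((2 * (U * Real.exp (-(lam * g)))) * X) =
          2 * (2 ^ (Fintype.card n) * (U * (Real.exp (-(lam * g)) * X))) := by ring
        rw [e6] at h9
        linarith
      exact h12.trans (mul_le_mul_of_nonneg_left h10 hc)

theorem rademacher_lower {W : Type*} [NormedAddCommGroup W] [InnerProductSpace ℝ W]
    {n : Type*} [Fintype n] [DecidableEq n] (w : n → W) {Θ lam : ℝ} (hlam : 0 ≤ lam)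
    (hΘ : ∀ v : W, ∑ i, (inner ℝ (w i) v) ^ 2 ≤ Θ * ‖v‖ ^ 2) (h : 4 * lam * Θ ≤ 1) (q : W) :
    ∑ ε : n → Bool, Real.exp (-(lam * ‖q + ∑ i, sg (ε i) • w i‖ ^ 2)) ≤
      2 ^ (Fintype.card n) * Real.exp (-(lam / 2 * ∑ i, ‖w i‖ ^ 2)) := by
  rcases hlam.eq_or_lt with h0 | h0
  · rw [← h0]
    simp only [zero_mul, neg_zero, Real.exp_zero, zero_div, mul_one, Finset.sum_const,
      Finset.card_univ, nsmul_eq_mul]
    rw [Fintype.card_fun, Fintype.card_bool]
    push_cast
    exact le_rfl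
  · obtain ⟨B, hB, -, hBs, hBq⟩ := rl_induct w h0 hΘ h Finset.univ
    refine (hBq q).trans (mul_le_mul_of_nonneg_left ?_ (by positivity))
    have hnn : 0 ≤ B q q := by
      obtain ⟨s, hs⟩ := hBs q
      exact le_trans (by positivity) (((rl_lower w h0 hΘ h Finset.univ s q)).trans hs)
    have h1 : Real.exp (-(lam * B q q)) ≤ 1 := by
      rw [Real.exp_le_one_iff]
      have := mul_nonneg h0.le hnn
      linarith
    calc _ ≤ 1 * Real.exp (-(lam / 2 * ∑ i, ‖w i‖ ^ 2)) :=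
          mul_le_mul_of_nonneg_right h1 (Real.exp_pos _).le
      _ = _ := one_mul _

end H10PL
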