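import Pool.Agent.H10R2.AC.Defs4
import Pool.Agent.H10R2.AC.Rl
import Pool.Agent.H10R2.PL.Acl

/-!
Small ball estimate for a fixed vector `φ` (task 4-MS).
-/

set_option autoImplicit false
set_option linter.unusedSectionVars false

namespace H10PL

open Finset Matrix

section ms

variable {o : Type} [Fintype o] [DecidableEq o]

theorem ms_quad {P : Matrix o o ℝ} {g : o → EuclideanSpace ℝ o}
    (hg : ∀ i j, inner ℝ (g i) (g j) = P i j) (x : o → ℝ) :
    qf P x = ‖∑ i, x i • g i‖ ^ 2 := by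
  unfold qf
  rw [← real_inner_self_eq_norm_sq, sum_inner]
  apply Finset.sum_congr rfl
  intro i _
  rw [inner_sum]
  apply Finset.sum_congr rfl
  intro j _
  rw [real_inner_smul_left, real_inner_smul_right, hg]
  ring

/-- Bessel type inequality -/
theorem ms_bessel {P : Matrix o o ℝ} {g : o → EuclideanSpace ℝ o}
    (hg : ∀ i j, inner ℝ (g i) (g j) = P i j) (S : Finset o) {γ' : ℝ} (hγ' : 0 < γ')
    (hPS : ∀ φ : o → ℝ, (∀ k, k ∉ S → φ k = 0) → qf P φ ≤ (∑ i, φ i ^ 2) / γ')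
    (v : EuclideanSpace ℝ o) : ∑ k ∈ S, (inner ℝ (g k) v) ^ 2 ≤ ‖v‖ ^ 2 / γ' := by
  set a : o → ℝ := fun k => if k ∈ S then inner ℝ (g k) v else 0 with ha
  set s : ℝ := ∑ k, a k ^ 2 with hs
  have hs1 : ∑ k ∈ S, (inner ℝ (g k) v) ^ 2 = s := by
    rw [hs, ← Finset.sum_filter_add_sum_filter_not Finset.univ (fun k => k ∈ S)]
    have h1 : ∑ k ∈ Finset.univ.filter (fun k => ¬ k ∈ S), a k ^ 2 = 0 := by
      apply Finset.sum_eq_zero
      intro k hk
      rw [Finset.mem_filter] at hk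
      simp [ha, hk.2]
    rw [h1, add_zero, Finset.filter_mem_eq_inter, Finset.univ_inter]
    apply Finset.sum_congr rfl
    intro k hk
    simp [ha, hk]
  have hs0 : 0 ≤ s := Finset.sum_nonneg (fun k _ => sq_nonneg _)
  have h1 : s = inner ℝ (∑ k, a k • g k) v := by
    rw [sum_inner, hs]
    apply Finset.sum_congr rfl
    intro k _
    rw [real_inner_smul_left]
    by_cases hk : k ∈ S
    · simp [ha, hk]
      ring
    · simp [ha, hk]
  have h2 : s ≤ ‖∑ k, a k • g k‖ * ‖v‖ := by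
    rw [h1]
    exact real_inner_le_norm _ _
  have h3 : ‖∑ k, a k • g k‖ ^ 2 ≤ s / γ' := by
    rw [← ms_quad hg]
    exact hPS a (fun k hk => by simp [ha, hk])
  rw [hs1, le_div_iff₀ hγ']
  rcases hs0.eq_or_lt with h0 | h0
  · rw [← h0]
    simp
  · have h4 : s ^ 2 ≤ ‖∑ k, a k • g k‖ ^ 2 * ‖v‖ ^ 2 := by
      rw [← mul_pow]
      exact pow_le_pow_left₀ hs0 h2 2
    have h5 : s ^ 2 ≤ s / γ' * ‖v‖ ^ 2 :=
      h4.trans (mul_le_mul_of_nonneg_right h3 (sq_nonneg _))
    rw [div_mul_eq_mul_div, le_div_iff₀ hγ'] at h5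
    have h6 : s * (s * γ') ≤ s * ‖v‖ ^ 2 := by
      calc s * (s * γ') = s ^ 2 * γ' := by ring
        _ ≤ _ := h5
    exact le_of_mul_le_mul_left h6 h0

theorem ms_fixed {o ι : Type} [Fintype o] [DecidableEq o] [Fintype ι] [DecidableEq ι]
    (P : Matrix o o ℝ) (hP : P.IsSymm) (hP0 : ∀ φ : o → ℝ, 0 ≤ qf P φ) (S : Finset o)
    {γ' k1 k2 tr : ℝ} (hγ' : 0 < γ') (hk1 : 0 < k1) (htr0 : 0 < tr)
    (hPS : ∀ φ : o → ℝ, (∀ k, k ∉ S → φ k = 0) → qf P φ ≤ (∑ i, φ i ^ 2) / γ')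
    (b c : o → ι → ℝ) (hc : ∀ k ∈ S, ∀ i, k1 ≤ |c k i| ∧ |c k i| ≤ k2)
    (htr : tr ≤ ∑ k ∈ S, P k k) (φ : ι → ℝ) (hφ : 0 < ∑ i, φ i ^ 2) :
    ((Finset.univ.filter fun ε : o → ι → Bool =>
      qf P (aV b c S ε φ) < k1 ^ 2 * tr / 4 * ∑ i, φ i ^ 2).card : ℝ) ≤
      2 ^ (Fintype.card o * Fintype.card ι) * Real.exp (-((k1 / k2) ^ 2 * γ' * tr / 16)) := by
  obtain ⟨g, hg⟩ := gram_exists P hP hP0
  -- nonemptiness
  have hSne : S.Nonempty := by
    by_contra h
    rw [Finset.not_nonempty_iff_eq_empty] at h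
    rw [h, Finset.sum_empty] at htr
    linarith
  have hιne : Nonempty ι := by
    by_contra h
    rw [not_nonempty_iff] at h
    rw [Finset.univ_eq_empty, Finset.sum_empty] at hφ
    exact lt_irrefl _ hφ
  have hk12 : k1 ≤ k2 := by
    obtain ⟨k, hk⟩ := hSne
    obtain ⟨i⟩ := hιne
    exact (hc k hk i).1.trans (hc k hk i).2
  have hk2 : 0 < k2 := lt_of_lt_of_le hk1 hk12
  set F : ℝ := ∑ i, φ i ^ 2 with hF
  set w : o × ι → EuclideanSpace ℝ o := fun p => if p.1 ∈ S then (c p.1 p.2 * φ p.2) • g p.1 else 0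
    with hw
  set q : EuclideanSpace ℝ o := ∑ k, (∑ i, b k i * φ i) • g k with hq
  have hgn : ∀ k, ‖g k‖ ^ 2 = P k k := by
    intro k
    rw [← real_inner_self_eq_norm_sq, hg]
  have hPkk : ∀ k, 0 ≤ P k k := fun k => by rw [← hgn]; positivity
  -- the quadratic form as a norm
  have hform : ∀ ε : o → ι → Bool, qf P (aV b c S ε φ) =
      ‖q + ∑ p : o × ι, sg (ε p.1 p.2) • w p‖ ^ 2 := by
    intro ε
    rw [ms_quad hg]
    congr 2
    rw [hq, Fintype.sum_prod_type, ← Finset.sum_add_distrib]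
    apply Finset.sum_congr rfl
    intro k _
    have h1 : aV b c S ε φ k = ∑ i, b k i * φ i +
        ∑ i, (if k ∈ S then sg (ε k i) * c k i else 0) * φ i := by
      unfold aV
      rw [← Finset.sum_add_distrib]
      apply Finset.sum_congr rfl
      intro i _
      ring
    rw [h1, add_smul]
    congr 1
    rw [Finset.sum_smul]
    apply Finset.sum_congr rfl
    intro i _
    rw [hw]
    by_cases hk : k ∈ S
    · simp only [hk, if_true]
      rw [smul_smul]
      congr 1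
      ring
    · simp [hk]
  -- the sum of the squares of the norms
  have hsumw : k1 ^ 2 * F * tr ≤ ∑ p, ‖w p‖ ^ 2 := by
    rw [Fintype.sum_prod_type]
    have h1 : ∀ k ∈ S, k1 ^ 2 * F * P k k ≤ ∑ i, ‖w (k, i)‖ ^ 2 := by
      intro k hk
      rw [hF, Finset.mul_sum, Finset.sum_mul]
      apply Finset.sum_le_sum
      intro i _
      have h2 : ‖w (k, i)‖ ^ 2 = (c k i) ^ 2 * φ i ^ 2 * P k k := by
        rw [hw]
        simp only [hk, if_true]
        rw [norm_smul, mul_pow, hgn, Real.norm_eq_abs, sq_abs]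
        ring
      rw [h2]
      have h3 : k1 ^ 2 ≤ (c k i) ^ 2 := by
        rw [← sq_abs (c k i)]
        exact pow_le_pow_left₀ hk1.le (hc k hk i).1 2
      have h4 := hPkk k
      gcongr
    calc k1 ^ 2 * F * tr ≤ k1 ^ 2 * F * ∑ k ∈ S, P k k :=
          mul_le_mul_of_nonneg_left htr (by positivity)
      _ = ∑ k ∈ S, k1 ^ 2 * F * P k k := by rw [Finset.mul_sum]
      _ ≤ ∑ k ∈ S, ∑ i, ‖w (k, i)‖ ^ 2 := Finset.sum_le_sum h1
      _ ≤ ∑ k, ∑ i, ‖w (k, i)‖ ^ 2 :=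
          Finset.sum_le_sum_of_subset_of_nonneg (Finset.subset_univ _)
            (fun k _ _ => Finset.sum_nonneg (fun i _ => by positivity))
  -- the operator bound
  set Θ : ℝ := k2 ^ 2 * F / γ' with hΘ
  have hΘ0 : 0 < Θ := by positivity
  have hop : ∀ v : EuclideanSpace ℝ o, ∑ p, (inner ℝ (w p) v) ^ 2 ≤ Θ * ‖v‖ ^ 2 := by
    intro v
    rw [Fintype.sum_prod_type]
    have h1 : ∀ k, ∑ i, (inner ℝ (w (k, i)) v) ^ 2 ≤
        if k ∈ S then k2 ^ 2 * F * (inner ℝ (g k) v) ^ 2 else 0 := by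
      intro k
      by_cases hk : k ∈ S
      · rw [if_pos hk, hF, Finset.mul_sum, Finset.sum_mul]
        apply Finset.sum_le_sum
        intro i _
        have h2 : (inner ℝ (w (k, i)) v) ^ 2 = (c k i) ^ 2 * φ i ^ 2 * (inner ℝ (g k) v) ^ 2 := by
          rw [hw]
          simp only [hk, if_true]
          rw [real_inner_smul_left]
          ring
        rw [h2]
        have h3 : (c k i) ^ 2 ≤ k2 ^ 2 := by
          rw [← sq_abs (c k i)]
          exact pow_le_pow_left₀ (abs_nonneg _) (hc k hk i).2 2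
        gcongr
      · rw [if_neg hk]
        apply le_of_eq
        apply Finset.sum_eq_zero
        intro i _
        rw [hw]
        simp [hk]
    calc ∑ k, ∑ i, (inner ℝ (w (k, i)) v) ^ 2 ≤
          ∑ k, (if k ∈ S then k2 ^ 2 * F * (inner ℝ (g k) v) ^ 2 else 0) :=
          Finset.sum_le_sum (fun k _ => h1 k)
      _ = k2 ^ 2 * F * ∑ k ∈ S, (inner ℝ (g k) v) ^ 2 := by
          rw [← Finset.sum_filter, Finset.filter_mem_eq_inter, Finset.univ_inter,
            ← Finset.mul_sum]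
      _ ≤ k2 ^ 2 * F * (‖v‖ ^ 2 / γ') :=
          mul_le_mul_of_nonneg_left (ms_bessel hg S hγ' hPS v) (by positivity)
      _ = Θ * ‖v‖ ^ 2 := by rw [hΘ]; ring
  set lam : ℝ := 1 / (4 * Θ) with hlam
  have hlam0 : 0 < lam := by positivity
  have hlamΘ : 4 * lam * Θ ≤ 1 := by
    rw [hlam]
    apply le_of_eq
    field_simp
  have hrad := rademacher_lower w hlam0.le hop hlamΘ q
  -- Markov
  set B : ℝ := k1 ^ 2 * tr / 4 * F with hB
  have hcurry : ∑ ε : o → ι → Bool, Real.exp (-(lam * qf P (aV b c S ε φ))) =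
      ∑ ε : o × ι → Bool, Real.exp (-(lam * ‖q + ∑ p, sg (ε p) • w p‖ ^ 2)) := by
    rw [← Equiv.sum_comp (Equiv.curry o ι Bool)]
    apply Finset.sum_congr rfl
    intro ε _
    rw [hform]
    rfl
  have hmarkov : ((Finset.univ.filter fun ε : o → ι → Bool =>
      qf P (aV b c S ε φ) < B).card : ℝ) * Real.exp (-(lam * B)) ≤
      ∑ ε : o → ι → Bool, Real.exp (-(lam * qf P (aV b c S ε φ))) := by
    rw [← nsmul_eq_mul, ← Finset.sum_const]
    refine le_trans (Finset.sum_le_sum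
      (g := fun ε => Real.exp (-(lam * qf P (aV b c S ε φ)))) ?_)
      (Finset.sum_le_sum_of_subset_of_nonneg (Finset.subset_univ _)
        (fun ε _ _ => (Real.exp_pos _).le))
    intro ε hε
    rw [Finset.mem_filter] at hε
    apply Real.exp_le_exp.mpr
    have := mul_le_mul_of_nonneg_left hε.2.le hlam0.le
    linarith
  rw [hcurry] at hmarkov
  have h7 := hmarkov.trans hrad
  rw [Fintype.card_prod] at h7
  have h8 : Real.exp (-(lam / 2 * ∑ p, ‖w p‖ ^ 2)) ≤ Real.exp (-(lam / 2 * (k1 ^ 2 * F * tr))) := by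
    apply Real.exp_le_exp.mpr
    have := mul_le_mul_of_nonneg_left hsumw (by positivity : (0 : ℝ) ≤ lam / 2)
    linarith
  have h9 : ((Finset.univ.filter fun ε : o → ι → Bool =>
      qf P (aV b c S ε φ) < B).card : ℝ) * Real.exp (-(lam * B)) ≤
      2 ^ (Fintype.card o * Fintype.card ι) * Real.exp (-(lam / 2 * (k1 ^ 2 * F * tr))) :=
    h7.trans (mul_le_mul_of_nonneg_left h8 (by positivity))
  have h10 : Real.exp (-(lam / 2 * (k1 ^ 2 * F * tr))) =
      Real.exp (-((k1 / k2) ^ 2 * γ' * tr / 16)) * Real.exp (-(lam * B)) := by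
    rw [← Real.exp_add]
    congr 1
    rw [hlam, hΘ, hB]
    have hF0 : F ≠ 0 := hφ.ne'
    field_simp
    ring
  rw [h10, ← mul_assoc (2 ^ (Fintype.card o * Fintype.card ι) : ℝ)] at h9
  exact le_of_mul_le_mul_right h9 (Real.exp_pos _)

end ms

end H10PL
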