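import Pool.Agent.H10R2.AC.Defs4

/-!
Task 4-ONE (helper287): the deterministic inclusion, with the statements of En, Nest and Tr that it
uses as hypotheses. The theorem `step_incl` itself is in `One.lean`.
-/

namespace H10PL

open MeasureTheory ProbabilityTheory Matrix Set

variable {ι : Type*} [Fintype ι] [DecidableEq ι]

theorem one_step_incl_of (A : Matrix ι ι ℝ) (V : ι → ℝ) (E : ℝ)
    {η γ γ' t Υ : ℝ} (hη : 0 < η) {Q Q' near S : Finset ι}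
    (hS : S ⊆ Q' \ Q) (hcov : Q' \ Q ⊆ near ∪ S)
    (hcard : 2 * Q.card / γ' ≤ t / 2) (hnD : ¬ Diss A V E η Q γ)
    (hsymm : (cutS A Q).IsSymm)
    (hqf : ∀ φ : ι → ℝ, (∀ i, i ∉ Q' \ Q → φ i = 0) →
      qf (Pm (cutS A Q) V E η) φ ≤ (∑ i, φ i ^ 2) / γ')
    (htr : ∑ k ∈ Q', Pm A V E η k k ≤
      (∑ k ∈ Q' \ Q, Pm (cutS A Q) V E η k k) + 2 * Q.card / γ') :
    (∑ k ∈ Q', Pm A V E η k k < 2 * t) ∨ (t / 2 ≤ ∑ k ∈ near, Pm (cutS A Q) V E η k k) ∨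
      (Υ < trY A V E η Q) ∨
      ((∀ φ : ι → ℝ, (∀ k, k ∉ S → φ k = 0) →
        qf (Pm (cutS A Q) V E η) φ ≤ (∑ i, φ i ^ 2) / γ') ∧
        t ≤ ∑ k ∈ S, Pm (cutS A Q) V E η k k ∧ trY A V E η Q ≤ Υ ∧ ¬ Diss A V E η Q γ) := by
  by_cases h1 : ∑ k ∈ Q', Pm A V E η k k < 2 * t
  · exact Or.inl h1
  by_cases h2 : t / 2 ≤ ∑ k ∈ near, Pm (cutS A Q) V E η k k
  · exact Or.inr (Or.inl h2)
  by_cases h3 : Υ < trY A V E η Q
  · exact Or.inr (Or.inr (Or.inl h3))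
  refine Or.inr (Or.inr (Or.inr ⟨?_, ?_, not_lt.1 h3, hnD⟩))
  · intro φ hφ
    exact hqf φ (fun i hi => hφ i (fun hiS => hi (hS hiS)))
  · rw [not_lt] at h1
    rw [not_le] at h2
    have hpos : ∀ k, 0 ≤ Pm (cutS A Q) V E η k k := fun k =>
      (Pm_diag_pos (cutS A Q) hsymm V E hη k).le
    have h4 : ∑ k ∈ Q' \ Q, Pm (cutS A Q) V E η k k ≤
        ∑ k ∈ near, Pm (cutS A Q) V E η k k + ∑ k ∈ S, Pm (cutS A Q) V E η k k := by
      calc ∑ k ∈ Q' \ Q, Pm (cutS A Q) V E η k k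
          ≤ ∑ k ∈ near ∪ S, Pm (cutS A Q) V E η k k :=
            Finset.sum_le_sum_of_subset_of_nonneg hcov (fun k _ _ => hpos k)
        _ ≤ ∑ k ∈ near ∪ S, Pm (cutS A Q) V E η k k +
            ∑ k ∈ near ∩ S, Pm (cutS A Q) V E η k k := by
            have : 0 ≤ ∑ k ∈ near ∩ S, Pm (cutS A Q) V E η k k :=
              Finset.sum_nonneg (fun k _ => hpos k)
            linarith
        _ = _ := Finset.sum_union_inter
    linarith

end H10PL
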