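import Pool.Agent.H10R2.AC.Ch5
import Pool.Agent.H10R2.PL.Fin2c
import Pool.Agent.H10R2.PL.Shift

/-!
Infinite volume: boxes, translations, finite volume approximations.
-/

namespace H10PL

open MeasureTheory ProbabilityTheory Matrix Set Filter

variable {d : ℕ} {T0 : (Fin d → ℤ) → (Fin d → ℤ) → ℝ} {κ : (Fin d → ℤ) → ℝ} {ρ0 b : ℝ}

/-- box of side `2N+1` around `a` -/
noncomputable def bx (N : ℕ) (a : Fin d → ℤ) : Finset (Fin d → ℤ) :=
  Fintype.piFinset fun i => Finset.Icc (a i - N) (a i + N)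

theorem mem_bx (N : ℕ) (a w : Fin d → ℤ) : w ∈ bx N a ↔ ∀ i, a i - N ≤ w i ∧ w i ≤ a i + N := by
  simp [bx, Fintype.mem_piFinset]

theorem bx_self (N : ℕ) (a : Fin d → ℤ) : a ∈ bx N a := by
  rw [mem_bx]; intro i; omega

theorem bx_add (N : ℕ) (a w : Fin d → ℤ) : w + a ∈ bx N a ↔ w ∈ bx N 0 := by
  rw [mem_bx, mem_bx]
  refine forall_congr' fun i => ?_
  simp only [Pi.add_apply, Pi.zero_apply]
  omega

theorem bx_ev (a y : Fin d → ℤ) : ∀ᶠ N : ℕ in atTop, y ∈ bx N a := by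
  refine (eventually_ge_atTop (∑ i, (y i - a i).natAbs)).mono fun N hN => ?_
  rw [mem_bx]
  intro i
  have h1 : (y i - a i).natAbs ≤ ∑ i, (y i - a i).natAbs :=
    Finset.single_le_sum (f := fun i => (y i - a i).natAbs) (fun _ _ => Nat.zero_le _)
      (Finset.mem_univ i)
  omega

theorem bx_mono {N N' : ℕ} (h : N ≤ N') (a : Fin d → ℤ) : bx N a ⊆ bx N' a := by
  intro w hw
  rw [mem_bx] at hw ⊢
  intro i
  have := hw i
  omega

theorem bx_dist (N : ℕ) (a y w : Fin d → ℤ) (hy : y ∈ bx N a) (hw : w ∈ bx N a) :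
    ‖y - w‖ ≤ 2 * (N : ℝ) := by
  rw [mem_bx] at hy hw
  rw [pi_norm_le_iff_of_nonneg (by positivity)]
  intro i
  have h1 := hy i
  have h2 := hw i
  have h3 : |y i - w i| ≤ 2 * (N : ℤ) := by
    rw [abs_le]; omega
  rw [Pi.sub_apply, Int.norm_eq_abs]
  exact_mod_cast h3

/-- finite volume approximation of the local density of states -/
noncomputable def WF (T0 : (Fin d → ℤ) → (Fin d → ℤ) → ℝ) (κ : (Fin d → ℤ) → ℝ) (η : ℝ)
    (N : ℕ) (a x : Fin d → ℤ)
    (p : ℝ × (((Fin d → ℤ) → ℝ) × (Sym2 (Fin d → ℤ) → Bool))) : ℝ :=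
  if hx : x ∈ bx N a then
    Pm (Am T0 κ (2 * N) (bx N a) p.2.2) (fun i : bx N a => p.2.1 i) p.1 η ⟨x, hx⟩ ⟨x, hx⟩ else 0

theorem WF_meas (h : Adm T0 κ ρ0 b) (η : ℝ) (N : ℕ) (a x : Fin d → ℤ) :
    Measurable (WF T0 κ η N a x) := by
  by_cases hx : x ∈ bx N a
  · have h1 : WF T0 κ η N a x = (fun q : (ℝ × (bx N a → ℝ)) × (Sym2 (Fin d → ℤ) → Bool) =>
        Pm (Am T0 κ (2 * N) (bx N a) q.2) q.1.2 q.1.1 η ⟨x, hx⟩ ⟨x, hx⟩) ∘
        (fun p : ℝ × (((Fin d → ℤ) → ℝ) × (Sym2 (Fin d → ℤ) → Bool)) =>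
          ((p.1, fun i : bx N a => p.2.1 i), p.2.2)) := by
      funext p
      simp only [WF, dif_pos hx, Function.comp]
    rw [h1]
    exact (Pm_meas h _ η (bx N a) ⟨x, hx⟩ ⟨x, hx⟩).comp (by fun_prop)
  · have h1 : WF T0 κ η N a x = fun _ => 0 := by
      funext p
      simp only [WF, dif_neg hx]
    rw [h1]
    exact measurable_const

theorem Gm_reindex {ι ι' : Type*} [Fintype ι] [DecidableEq ι] [Fintype ι'] [DecidableEq ι']
    (e : ι ≃ ι') (A : Matrix ι' ι' ℝ) (V : ι' → ℝ) (E η : ℝ) (i j : ι) :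
    Gm (A.submatrix e e) (fun k => V (e k)) E η i j = Gm A V E η (e i) (e j) := by
  have h1 : Mz (A.submatrix e e) (fun k => V (e k)) E η = (Mz A V E η).submatrix e e := by
    ext k l
    simp only [Mz, Matrix.sub_apply, Matrix.map_apply, Matrix.add_apply, Matrix.submatrix_apply,
      Matrix.smul_apply, Matrix.diagonal_apply, Matrix.one_apply, EmbeddingLike.apply_eq_iff_eq]
  unfold Gm
  rw [h1, Matrix.inv_submatrix_equiv]
  rfl

/-- translation -/
theorem WF_shift (hTinv : ∀ a y w, T0 (y + a) (w + a) = T0 y w) (η : ℝ) (N : ℕ)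
    (a y : Fin d → ℤ) (E : ℝ) (ω : ((Fin d → ℤ) → ℝ) × (Sym2 (Fin d → ℤ) → Bool)) :
    WF T0 κ η N a (y + a) (E, ω) = WF T0 κ η N 0 y (E, (shV a ω.1, shS a ω.2)) := by
  by_cases hy : y ∈ bx N 0
  · have hy' : y + a ∈ bx N a := (bx_add N a y).2 hy
    simp only [WF, dif_pos hy, dif_pos hy']
    obtain ⟨e, he⟩ : ∃ e : bx N (0 : Fin d → ℤ) ≃ bx N a, ∀ i, ((e i : bx N a) : Fin d → ℤ) =
        (i : Fin d → ℤ) + a := by
      refine ⟨⟨fun i => ⟨i + a, (bx_add N a i).2 i.2⟩, fun i => ⟨i - a, ?_⟩, ?_, ?_⟩, ?_⟩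
      · rw [← bx_add N a, sub_add_cancel]
        exact i.2
      · intro i
        apply Subtype.ext
        simp
      · intro i
        apply Subtype.ext
        simp
      · intro i
        rfl
    have h1 : Am T0 κ (2 * N) (bx N 0) (shS a ω.2) =
        (Am T0 κ (2 * N) (bx N a) ω.2).submatrix e e := by
      ext i j
      simp only [Matrix.submatrix_apply, Am, Kr, he, add_sub_add_right_eq_sub,
        Kf_shift hTinv a ω.2]
    have h2 : (fun i : bx N (0 : Fin d → ℤ) => shV a ω.1 i) =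
        fun k => (fun i : bx N a => ω.1 i) (e k) := by
      funext i
      simp only [shV, he]
    have h3 : e ⟨y, hy⟩ = ⟨y + a, hy'⟩ := Subtype.ext (he _)
    have h4 := Gm_reindex e (Am T0 κ (2 * N) (bx N a) ω.2) (fun i : bx N a => ω.1 i) E η
      ⟨y, hy⟩ ⟨y, hy⟩
    rw [h3] at h4
    show (Gm _ _ E η _ _).im = (Gm _ _ E η _ _).im
    rw [h1, h2, h4]
  · have hy' : y + a ∉ bx N a := fun h => hy ((bx_add N a y).1 h)
    simp only [WF, dif_neg hy, dif_neg hy']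

/-- truncation from below -/
noncomputable def Tr (M : ℝ) (u : ENNReal) : ENNReal := if ENNReal.ofReal M < u then u else 0

theorem Tr_meas (M : ℝ) : Measurable (Tr M) := by
  unfold Tr
  exact Measurable.ite (measurableSet_lt measurable_const measurable_id) measurable_id
    measurable_const

/-- law of a translated approximation -/
theorem WF_law (h : Adm T0 κ ρ0 b) (hTinv : ∀ a y w, T0 (y + a) (w + a) = T0 y w)
    (μ : Measure ℝ) [IsProbabilityMeasure μ] {M η : ℝ} (hM : 0 < M) (N : ℕ)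
    (x y : Fin d → ℤ) (hy : y ∈ bx N 0) (K : ℝ) :
    ∫⁻ p, Tr M (ENNReal.ofReal (WF T0 κ η N (x - y) x p))
      ∂((volume.restrict (Icc (-K) K)).prod ((PVg d μ).prod (Ps d))) =
    ∫⁻ p in {p | M < PF T0 κ (2 * N) η (bx N 0) ⟨y, hy⟩ p},
      ENNReal.ofReal (PF T0 κ (2 * N) η (bx N 0) ⟨y, hy⟩ p) ∂(M0 d μ (bx N 0) K) := by
  have hmp : MeasurePreserving (shE (x - y)) ((PVg d μ).prod (Ps d)) ((PVg d μ).prod (Ps d)) := by
    have h1 : MeasurePreserving (shV (x - y)) (PVg d μ) (PVg d μ) :=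
      reindex_mp μ (fun w : Fin d → ℤ => w + (x - y)) (add_left_injective (x - y))
    have h2 : MeasurePreserving (shS (x - y)) (Ps d) (Ps d) :=
      reindex_mp coin (fun e : Sym2 (Fin d → ℤ) => e.map (fun w => w + (x - y)))
        (Sym2.map.injective (add_left_injective (x - y)))
    exact h1.prod h2
  have hmp2 : MeasurePreserving (Prod.map id (shE (x - y)))
      ((volume.restrict (Icc (-K) K)).prod ((PVg d μ).prod (Ps d)))
      ((volume.restrict (Icc (-K) K)).prod ((PVg d μ).prod (Ps d))) :=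
    (MeasurePreserving.id _).prod hmp
  have hm0 : Measurable fun p => Tr M (ENNReal.ofReal (WF T0 κ η N 0 y p)) :=
    (Tr_meas M).comp (ENNReal.measurable_ofReal.comp (WF_meas h η N 0 y))
  have h1 := hmp2.lintegral_comp hm0
  have h2 : ∀ p : ℝ × (((Fin d → ℤ) → ℝ) × (Sym2 (Fin d → ℤ) → Bool)),
      WF T0 κ η N 0 y (Prod.map id (shE (x - y)) p) = WF T0 κ η N (x - y) x p := by
    rintro ⟨E, ω⟩
    have h3 := WF_shift (κ := κ) hTinv η N (x - y) y E ω
    rw [add_sub_cancel] at h3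
    rw [h3]
    rfl
  simp only [h2] at h1
  rw [h1]
  have hPFm : Measurable (PF T0 κ (2 * N) η (bx N 0) ⟨y, hy⟩) := Pm_meas h _ η _ _ _
  have hset : MeasurableSet {p | M < PF T0 κ (2 * N) η (bx N 0) ⟨y, hy⟩ p} :=
    measurableSet_lt measurable_const hPFm
  have hGm : Measurable fun p => Tr M (ENNReal.ofReal (PF T0 κ (2 * N) η (bx N 0) ⟨y, hy⟩ p)) :=
    (Tr_meas M).comp (ENNReal.measurable_ofReal.comp hPFm)
  have h4 := lat_int μ (bx N 0) K _ hGm
  have h5 : ∀ p : ℝ × (((Fin d → ℤ) → ℝ) × (Sym2 (Fin d → ℤ) → Bool)),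
      PF T0 κ (2 * N) η (bx N 0) ⟨y, hy⟩ ((p.1, fun i : bx N (0 : Fin d → ℤ) => p.2.1 i), p.2.2) =
        WF T0 κ η N 0 y p := by
    intro p
    simp only [WF, dif_pos hy, PF]
  simp only [h5] at h4
  rw [h4]
  unfold M0
  rw [← lintegral_indicator hset, lintegral_prod_symm' _ (by
    exact (ENNReal.measurable_ofReal.comp hPFm).indicator hset)]
  refine lintegral_congr fun s => lintegral_congr fun q => ?_
  by_cases hc : M < PF T0 κ (2 * N) η (bx N 0) ⟨y, hy⟩ (q, s)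
  · rw [Set.indicator_of_mem (by exact hc)]
    unfold Tr
    rw [if_pos ((ENNReal.ofReal_lt_ofReal_iff_of_nonneg hM.le).2 hc)]
  · rw [Set.indicator_of_notMem (by exact hc)]
    unfold Tr
    rw [if_neg (fun h' => hc ((ENNReal.ofReal_lt_ofReal_iff_of_nonneg hM.le).1 h'))]

end H10PL
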