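import Pool.Agent.H10R2.AC.Uix1
import Pool.Agent.H10R2.AC.Exi

/-!
Infinite volume: uniform integrability of the local density of states.
-/

namespace H10PL

open MeasureTheory ProbabilityTheory Matrix Set Filter

variable {d : ℕ} {T0 : (Fin d → ℤ) → (Fin d → ℤ) → ℝ} {κ : (Fin d → ℤ) → ℝ} {ρ0 b : ℝ}

/-- the infinite volume local density of states at the site `x`, as a lower limit -/
noncomputable def GI (T0 : (Fin d → ℤ) → (Fin d → ℤ) → ℝ) (κ : (Fin d → ℤ) → ℝ) (η : ℝ)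
    (x : Fin d → ℤ) (p : ℝ × (((Fin d → ℤ) → ℝ) × (Sym2 (Fin d → ℤ) → Bool))) : ENNReal :=
  liminf (fun N : ℕ => ENNReal.ofReal (WF T0 κ η N x x p)) atTop

theorem GI_meas (h : Adm T0 κ ρ0 b) (η : ℝ) (x : Fin d → ℤ) : Measurable (GI T0 κ η x) :=
  Measurable.liminf fun N => ENNReal.measurable_ofReal.comp (WF_meas h η N x x)

/-- convergence of the finite volume quantities -/
theorem WF_tendsto (h : Adm T0 κ ρ0 b) (ω : ((Fin d → ℤ) → ℝ) × (Sym2 (Fin d → ℤ) → Bool))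
    (hU : NoEig T0 κ ω) (x : Fin d → ℤ) (E : ℝ) {η : ℝ} (hη : 0 < η) :
    ∃ ψ : (Fin d → ℤ) → ℂ, IsGreen T0 κ ω x ((E : ℂ) + (η : ℂ) * Complex.I) ψ ∧
      (∀ a, Tendsto (fun N : ℕ => WF T0 κ η N a x (E, ω)) atTop (nhds (ψ x).im)) ∧
      Tendsto (fun N : ℕ => Gm (Am T0 κ (2 * N) (bx N x) ω.2) (fun i : bx N x => ω.1 i) E η
        ⟨x, bx_self N x⟩ ⟨x, bx_self N x⟩) atTop (nhds (ψ x)) := by
  obtain ⟨ψ, hψ1, hψ2⟩ := green_limit h ω hU x E hη
  refine ⟨ψ, hψ1, ?_, ?_⟩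
  · intro a
    obtain ⟨n0, hn0⟩ := eventually_atTop.1 (bx_ev a x)
    have h1 := hψ2 (fun n => bx (n + n0) a) (fun n => 2 * ((n + n0 : ℕ) : ℝ))
      (fun n => hn0 _ (by omega)) (fun y => by
        have := bx_ev a y
        exact (tendsto_add_atTop_nat n0).eventually this)
      (fun n y hy w hw => bx_dist _ a y w hy hw)
    have h2 : Tendsto (fun n : ℕ => WF T0 κ η (n + n0) a x (E, ω)) atTop (nhds (ψ x).im) := by
      refine Tendsto.congr (fun n => ?_) ((Complex.continuous_im.tendsto _).comp h1)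
      simp only [WF, dif_pos (hn0 (n + n0) (by omega)), Function.comp, Pm]
    exact (tendsto_add_atTop_iff_nat n0).1 h2
  · exact hψ2 (fun n => bx n x) (fun n => 2 * (n : ℝ)) (fun n => bx_self n x)
      (fun y => bx_ev x y) (fun n y hy w hw => bx_dist _ x y w hy hw)

theorem GI_eq (h : Adm T0 κ ρ0 b) (ω : ((Fin d → ℤ) → ℝ) × (Sym2 (Fin d → ℤ) → Bool))
    (hU : NoEig T0 κ ω) (x : Fin d → ℤ) (E : ℝ) {η : ℝ} (hη : 0 < η) (ψ : (Fin d → ℤ) → ℂ)
    (hψ : IsGreen T0 κ ω x ((E : ℂ) + (η : ℂ) * Complex.I) ψ) :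
    GI T0 κ η x (E, ω) = ENNReal.ofReal (ψ x).im := by
  obtain ⟨φ, h1, h2, _⟩ := WF_tendsto h ω hU x E hη
  have h3 : ψ = φ := green_unique h ω hU x _ (by simpa using hη.ne') ψ φ hψ h1
  rw [h3]
  exact ((ENNReal.continuous_ofReal.tendsto _).comp (h2 x)).liminf_eq

theorem cube_sub_bx (R : ℕ) {N : ℕ} (h : R ≤ N) : cubeF R (0 : Fin d → ℤ) ⊆ bx N 0 := by
  intro w hw
  rw [mem_bx]
  unfold cubeF at hw
  rw [Fintype.mem_piFinset] at hw
  intro i
  have := Finset.mem_Ico.1 (hw i)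
  simp only [Pi.zero_apply, EuclideanDomain.zero_div, mul_zero, zero_add] at this ⊢
  omega

theorem uix (h : Adm T0 κ ρ0 b) (hTinv : ∀ a y w, T0 (y + a) (w + a) = T0 y w)
    (hd : 0 < d) (μ : Measure ℝ) [IsProbabilityMeasure μ] {D : ℝ}
    (hD : 0 ≤ D) (hμ : μ ≤ ENNReal.ofReal D • volume) {a c C : ℝ} (ha1 : (d : ℝ) / 2 < a)
    (ha2 : a < 5 * d / 8) (hc : 0 < c)
    (hκ : ∀ y : Fin d → ℤ, y ≠ 0 → c * ‖y‖ ^ (-a) ≤ |κ y| ∧ |κ y| ≤ C * ‖y‖ ^ (-a))
    (hNE : ∀ᵐ ω ∂((PVg d μ).prod (Ps d)), NoEig T0 κ ω)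
    {K : ℝ} (hK : 0 < K) {ε : ℝ} (hε : 0 < ε) :
    ∃ M : ℝ, 0 < M ∧ ∀ η : ℝ, 0 < η → η ≤ 1 → ∀ x : Fin d → ℤ,
      ∫⁻ p, Tr M (GI T0 κ η x p) ∂((volume.restrict (Icc (-K) K)).prod ((PVg d μ).prod (Ps d))) ≤
        ENNReal.ofReal ε := by
  obtain ⟨M, hM, hbox⟩ := ui_box h hd μ hD hμ ha1 ha2 hc hκ hK hε
  refine ⟨M, hM, fun η hη hη1 x => ?_⟩
  obtain ⟨R, hR, hbox⟩ := hbox η hη hη1
  obtain ⟨P, hP⟩ : ∃ P, P = (volume.restrict (Icc (-K) K)).prod ((PVg d μ).prod (Ps d)) := ⟨_, rfl⟩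
  rw [← hP]
  -- sum over the cube
  obtain ⟨S, hS⟩ : ∃ S : ℕ → (ℝ × (((Fin d → ℤ) → ℝ) × (Sym2 (Fin d → ℤ) → Bool))) → ENNReal,
      S = fun N p => ∑ y ∈ cubeF R 0, Tr M (ENNReal.ofReal (WF T0 κ η N (x - y) x p)) := ⟨_, rfl⟩
  have hSm : ∀ N, Measurable (S N) := by
    intro N
    rw [hS]
    exact Finset.measurable_sum _ fun y _ =>
      (Tr_meas M).comp (ENNReal.measurable_ofReal.comp (WF_meas h η N (x - y) x))
  have hSint : ∀ N, R ≤ N → ∫⁻ p, S N p ∂P ≤ ENNReal.ofReal (ε * R ^ d) := by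
    intro N hN
    have hsub : cubeF R (0 : Fin d → ℤ) ⊆ bx N 0 := cube_sub_bx R hN
    have h1 := hbox (bx N 0) (2 * N) hsub (by
      have : (R : ℝ) ≤ N := by exact_mod_cast hN
      have : (0 : ℝ) ≤ N := Nat.cast_nonneg N
      linarith)
    refine le_trans (le_of_eq ?_) h1
    rw [hS]
    simp only
    have hm1 : ∀ y : Fin d → ℤ, Measurable fun p =>
        Tr M (ENNReal.ofReal (WF T0 κ η N (x - y) x p)) := fun y =>
      (Tr_meas M).comp (ENNReal.measurable_ofReal.comp (WF_meas h η N (x - y) x))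
    rw [lintegral_finsetSum _ fun y _ => hm1 y]
    symm
    refine Finset.sum_bij (fun i _ => (i : Fin d → ℤ)) ?_ ?_ ?_ ?_
    · intro i hi
      simpa [inΛ] using hi
    · intro i _ j _ hij
      exact Subtype.ext hij
    · intro y hy
      exact ⟨⟨y, hsub hy⟩, by simpa [inΛ] using hy, rfl⟩
    · intro i hi
      rw [hP, WF_law h hTinv μ hM N x (i : Fin d → ℤ) i.2 K]
  -- pointwise
  have hae : ∀ᵐ p ∂P, ((cubeF R (0 : Fin d → ℤ)).card : ENNReal) * Tr M (GI T0 κ η x p) ≤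
      liminf (fun N => S N p) atTop := by
    have h1 : ∀ᵐ p ∂P, NoEig T0 κ p.2 := by
      rw [hP]
      exact Measure.quasiMeasurePreserving_snd.ae hNE
    filter_upwards [h1] with p hp
    obtain ⟨ψ, hψ1, hψ2, _⟩ := WF_tendsto h p.2 hp x p.1 hη
    have hG : GI T0 κ η x p = ENNReal.ofReal (ψ x).im := GI_eq h p.2 hp x p.1 hη ψ hψ1
    have hw : ∀ y : Fin d → ℤ, Tendsto (fun N : ℕ =>
        ENNReal.ofReal (WF T0 κ η N (x - y) x p)) atTop (nhds (GI T0 κ η x p)) := by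
      intro y
      rw [hG]
      exact (ENNReal.continuous_ofReal.tendsto _).comp (hψ2 (x - y))
    by_cases hc1 : ENNReal.ofReal M < GI T0 κ η x p
    · have h2 : ∀ y : Fin d → ℤ, ∀ᶠ N : ℕ in atTop,
          ENNReal.ofReal M < ENNReal.ofReal (WF T0 κ η N (x - y) x p) :=
        fun y => (hw y).eventually_const_lt hc1
      have h3 : ∀ᶠ N : ℕ in atTop, ∀ y ∈ cubeF R (0 : Fin d → ℤ),
          ENNReal.ofReal M < ENNReal.ofReal (WF T0 κ η N (x - y) x p) :=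
        (Finset.eventually_all _).2 fun y _ => h2 y
      have h4 : Tendsto (fun N : ℕ => ∑ y ∈ cubeF R (0 : Fin d → ℤ),
          ENNReal.ofReal (WF T0 κ η N (x - y) x p)) atTop
          (nhds (∑ _y ∈ cubeF R (0 : Fin d → ℤ), GI T0 κ η x p)) :=
        tendsto_finsetSum _ fun y _ => hw y
      have h5 : Tendsto (fun N : ℕ => S N p) atTop
          (nhds (∑ _y ∈ cubeF R (0 : Fin d → ℤ), GI T0 κ η x p)) := by
        refine h4.congr' ?_
        filter_upwards [h3] with N hN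
        rw [hS]
        simp only
        refine Finset.sum_congr rfl fun y hy => ?_
        unfold Tr
        rw [if_pos (hN y hy)]
      rw [h5.liminf_eq, Finset.sum_const, nsmul_eq_mul]
      unfold Tr
      rw [if_pos hc1]
    · unfold Tr
      rw [if_neg hc1, mul_zero]
      exact bot_le
  have hcard : ((cubeF R (0 : Fin d → ℤ)).card : ENNReal) = ENNReal.ofReal ((R : ℝ) ^ d) := by
    rw [cube_card, ← ENNReal.ofReal_natCast]
    push_cast
    rfl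
  have hRd : (0 : ℝ) < (R : ℝ) ^ d := by
    have : (0 : ℝ) < R := by exact_mod_cast hR
    positivity
  have hfin : ENNReal.ofReal ((R : ℝ) ^ d) * ∫⁻ p, Tr M (GI T0 κ η x p) ∂P ≤
      ENNReal.ofReal ((R : ℝ) ^ d) * ENNReal.ofReal ε := by
    calc ENNReal.ofReal ((R : ℝ) ^ d) * ∫⁻ p, Tr M (GI T0 κ η x p) ∂P
        = ∫⁻ p, ((cubeF R (0 : Fin d → ℤ)).card : ENNReal) * Tr M (GI T0 κ η x p) ∂P := by
          have hm2 : Measurable fun p => Tr M (GI T0 κ η x p) :=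
            (Tr_meas M).comp (GI_meas h η x)
          rw [hcard, lintegral_const_mul _ hm2]
      _ ≤ ∫⁻ p, liminf (fun N => S N p) atTop ∂P := lintegral_mono_ae hae
      _ ≤ liminf (fun N => ∫⁻ p, S N p ∂P) atTop := lintegral_liminf_le hSm
      _ ≤ ENNReal.ofReal (ε * R ^ d) := by
          refine liminf_le_of_frequently_le' ?_
          exact ((eventually_ge_atTop R).mono fun N hN => hSint N hN).frequently
      _ = ENNReal.ofReal ((R : ℝ) ^ d) * ENNReal.ofReal ε := by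
          rw [← ENNReal.ofReal_mul hRd.le, mul_comm]
  have h0 : ENNReal.ofReal ((R : ℝ) ^ d) ≠ 0 := (ENNReal.ofReal_pos.2 hRd).ne'
  exact (ENNReal.mul_le_mul_iff_right h0 ENNReal.ofReal_ne_top).1 hfin

end H10PL
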